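import Mathlib

/-!
Changes of the first difference of the factor complexity of a finite word:
right special factors, neutral factors, runs.
-/

set_option autoImplicit false
set_option linter.unusedSectionVars false

namespace Pool.Agent.R125.Cpl

variable {A : Type} [DecidableEq A] [Fintype A]

/-- the block of length `i` at position `j` -/
def seg (w : ℕ → A) (j i : ℕ) : List A := (List.range i).map fun t => w (j + t)

lemma seg_length (w : ℕ → A) (j i : ℕ) : (seg w j i).length = i := by simp [seg]

lemma seg_succ (w : ℕ → A) (j i : ℕ) : seg w j (i + 1) = seg w j i ++ [w (j + i)] := by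
  unfold seg; rw [List.range_succ, List.map_append]; rfl

lemma seg_cons (w : ℕ → A) (j i : ℕ) : seg w j (i + 1) = w j :: seg w (j + 1) i := by
  unfold seg
  rw [List.range_succ_eq_map, List.map_cons, List.map_map]
  congr 1
  apply List.map_congr_left
  intro t _
  simp only [Function.comp]
  congr 1
  omega

lemma seg_eq_iff (w : ℕ → A) (j j' i : ℕ) :
    seg w j i = seg w j' i ↔ ∀ t, t < i → w (j + t) = w (j' + t) := by
  unfold seg
  rw [List.map_inj_left]
  constructor
  · intro h t ht; exact h t (List.mem_range.mpr ht)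
  · intro h t ht; exact h t (List.mem_range.mp ht)

lemma seg_take (w : ℕ → A) (j : ℕ) {D i : ℕ} (h : D ≤ i) : (seg w j i).take D = seg w j D := by
  unfold seg
  rw [← List.map_take, List.take_range, Nat.min_eq_left h]

lemma seg_drop (w : ℕ → A) (j x i : ℕ) : (seg w j (x + i)).drop x = seg w (j + x) i := by
  induction x generalizing j with
  | zero => simp
  | succ x ih =>
    rw [show x + 1 + i = (x + i) + 1 by ring, seg_cons, List.drop_succ_cons, ih]
    congr 1
    ring

/-- the factors of length `i` of the word `w_0 ⋯ w_{n-1}` -/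
def Fac (w : ℕ → A) (n i : ℕ) : Finset (List A) :=
  (Finset.range (n + 1 - i)).image fun j => seg w j i

variable {w : ℕ → A} {n : ℕ}

lemma mem_Fac {i : ℕ} {u : List A} : u ∈ Fac w n i ↔ ∃ j, j + i ≤ n ∧ seg w j i = u := by
  unfold Fac
  rw [Finset.mem_image]
  constructor
  · rintro ⟨j, hj, h⟩
    rw [Finset.mem_range] at hj
    exact ⟨j, by omega, h⟩
  · rintro ⟨j, hj, h⟩
    exact ⟨j, by rw [Finset.mem_range]; omega, h⟩

lemma Fac_length {i : ℕ} {u : List A} (h : u ∈ Fac w n i) : u.length = i := by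
  rw [mem_Fac] at h
  obtain ⟨j, -, rfl⟩ := h
  exact seg_length w j i

/-- right extensions -/
def R (w : ℕ → A) (n : ℕ) (v : List A) : Finset A :=
  Finset.univ.filter fun b => v ++ [b] ∈ Fac w n (v.length + 1)

/-- left extensions -/
def Lx (w : ℕ → A) (n : ℕ) (v : List A) : Finset A :=
  Finset.univ.filter fun a => a :: v ∈ Fac w n (v.length + 1)

lemma mem_R {v : List A} {b : A} : b ∈ R w n v ↔
    ∃ j, j + v.length + 1 ≤ n ∧ seg w j v.length = v ∧ w (j + v.length) = b := by
  unfold R
  rw [Finset.mem_filter, mem_Fac]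
  constructor
  · rintro ⟨-, j, hj, h⟩
    rw [seg_succ] at h
    have := List.append_inj h (by rw [seg_length])
    refine ⟨j, by omega, this.1, by simpa using this.2⟩
  · rintro ⟨j, hj, h1, h2⟩
    refine ⟨Finset.mem_univ _, j, by omega, ?_⟩
    rw [seg_succ, h1, h2]

lemma mem_L {v : List A} {a : A} : a ∈ Lx w n v ↔
    ∃ j, j + 1 + v.length ≤ n ∧ seg w (j + 1) v.length = v ∧ w j = a := by
  unfold Lx
  rw [Finset.mem_filter, mem_Fac]
  constructor
  · rintro ⟨-, j, hj, h⟩
    rw [seg_cons] at h
    have h1 := List.head_eq_of_cons_eq h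
    have h2 := List.tail_eq_of_cons_eq h
    exact ⟨j, by omega, h2, h1⟩
  · rintro ⟨j, hj, h1, h2⟩
    refine ⟨Finset.mem_univ _, j, by omega, ?_⟩
    rw [seg_cons, h1, h2]

lemma card_Fac_succ (i : ℕ) : (Fac w n (i + 1)).card = ∑ v ∈ Fac w n i, (R w n v).card := by
  classical
  rw [Finset.card_eq_sum_card_fiberwise (f := fun u : List A => u.dropLast) (t := Fac w n i)]
  · apply Finset.sum_congr rfl
    intro v hv
    have hvl := Fac_length hv
    rw [← Finset.card_image_of_injective (R w n v) (f := fun b => v ++ [b])]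
    · congr 1
      ext u
      rw [Finset.mem_filter, Finset.mem_image]
      constructor
      · rintro ⟨h1, h2⟩
        have h3 := h1
        rw [mem_Fac] at h1
        obtain ⟨j, hj, rfl⟩ := h1
        rw [seg_succ, List.dropLast_concat] at h2
        refine ⟨w (j + i), ?_, by rw [seg_succ, h2]⟩
        rw [mem_R, hvl]
        exact ⟨j, by omega, h2, rfl⟩
      · rintro ⟨b, hb, rfl⟩
        unfold R at hb
        rw [Finset.mem_filter, hvl] at hb
        exact ⟨hb.2, by simp⟩
    · intro b b' h
      simpa using h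
  · intro u hu
    rw [Finset.mem_coe, mem_Fac] at hu
    obtain ⟨j, hj, rfl⟩ := hu
    simp only
    rw [seg_succ, List.dropLast_concat, Finset.mem_coe, mem_Fac]
    exact ⟨j, by omega, rfl⟩

lemma sum_Fac_succ (i : ℕ) (f : List A → ℕ) :
    ∑ u ∈ Fac w n (i + 1), f u = ∑ v ∈ Fac w n i, ∑ a ∈ Lx w n v, f (a :: v) := by
  classical
  rw [← Finset.sum_fiberwise_of_maps_to (g := fun u : List A => u.tail) (t := Fac w n i)]
  · apply Finset.sum_congr rfl
    intro v hv
    have hvl := Fac_length hv
    rw [← Finset.sum_image (f := f) (g := fun a => a :: v) (s := Lx w n v)]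
    · apply Finset.sum_congr _ fun _ _ => rfl
      ext u
      rw [Finset.mem_filter, Finset.mem_image]
      constructor
      · rintro ⟨h1, h2⟩
        rw [mem_Fac] at h1
        obtain ⟨j, hj, rfl⟩ := h1
        rw [seg_cons, List.tail_cons] at h2
        refine ⟨w j, ?_, by rw [seg_cons, h2]⟩
        rw [mem_L, hvl]
        exact ⟨j, by omega, h2, rfl⟩
      · rintro ⟨b, hb, rfl⟩
        unfold Lx at hb
        rw [Finset.mem_filter, hvl] at hb
        exact ⟨hb.2, by simp⟩
    · intro b _ b' _ h
      simpa using h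
  · intro u hu
    rw [mem_Fac] at hu
    obtain ⟨j, hj, rfl⟩ := hu
    rw [seg_cons, List.tail_cons, mem_Fac]
    exact ⟨j + 1, by omega, rfl⟩

/-- right excess -/
def r (w : ℕ → A) (n i : ℕ) : ℕ := ∑ v ∈ Fac w n i, ((R w n v).card - 1)

/-- left excess -/
def l (w : ℕ → A) (n i : ℕ) : ℕ := ∑ v ∈ Fac w n i, ((Lx w n v).card - 1)

/-- number of factors without right extension -/
def z (w : ℕ → A) (n i : ℕ) : ℕ := ((Fac w n i).filter fun v => R w n v = ∅).card

/-- number of factors without left extension -/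
def y (w : ℕ → A) (n i : ℕ) : ℕ := ((Fac w n i).filter fun v => Lx w n v = ∅).card

lemma eqR (i : ℕ) : (Fac w n (i + 1)).card + z w n i = (Fac w n i).card + r w n i := by
  unfold z r
  rw [card_Fac_succ, Finset.card_filter, Finset.card_eq_sum_ones, ← Finset.sum_add_distrib,
    ← Finset.sum_add_distrib]
  apply Finset.sum_congr rfl
  intro v _
  by_cases h : R w n v = ∅
  · rw [if_pos h, h]; simp
  · rw [if_neg h]
    have := Finset.card_pos.mpr (Finset.nonempty_iff_ne_empty.mpr h)
    omega

lemma eqL (i : ℕ) : (Fac w n (i + 1)).card + y w n i = (Fac w n i).card + l w n i := by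
  unfold y l
  have h1 := sum_Fac_succ (w := w) (n := n) i (fun _ => 1)
  simp only [← Finset.card_eq_sum_ones] at h1
  rw [h1, Finset.card_filter, Finset.card_eq_sum_ones, ← Finset.sum_add_distrib,
    ← Finset.sum_add_distrib]
  apply Finset.sum_congr rfl
  intro v _
  by_cases h : Lx w n v = ∅
  · rw [if_pos h, h]; simp
  · rw [if_neg h]
    have := Finset.card_pos.mpr (Finset.nonempty_iff_ne_empty.mpr h)
    omega

lemma noR {i : ℕ} {v : List A} (hv : v ∈ Fac w n i) (h : R w n v = ∅) :
    i ≤ n ∧ v = seg w (n - i) i ∧ ∀ j, j + i ≤ n → seg w j i = v → j + i = n := by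
  have key : ∀ j, j + i ≤ n → seg w j i = v → j + i = n := by
    intro j hj hs
    by_contra hne
    have : w (j + i) ∈ R w n v := by
      rw [mem_R, Fac_length hv]
      exact ⟨j, by omega, hs, rfl⟩
    rw [h] at this
    exact absurd this (by simp)
  rw [mem_Fac] at hv
  obtain ⟨j, hj, hs⟩ := hv
  have := key j hj hs
  refine ⟨by omega, ?_, key⟩
  rw [← hs]; congr 1; omega

lemma z_le (i : ℕ) : z w n i ≤ 1 := by
  unfold z
  rw [Finset.card_le_one]
  intro a ha b hb
  rw [Finset.mem_filter] at ha hb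
  rw [(noR ha.1 ha.2).2.1, (noR hb.1 hb.2).2.1]

lemma z_mono {i : ℕ} (hi : i < n) (h : z w n i = 1) : z w n (i + 1) = 1 := by
  apply le_antisymm (z_le _)
  unfold z at h ⊢
  rw [Nat.one_le_iff_ne_zero, ← Nat.pos_iff_ne_zero, Finset.card_pos]
  have h1 : 0 < ((Fac w n i).filter fun v => R w n v = ∅).card := by omega
  rw [Finset.card_pos] at h1
  obtain ⟨v, hv⟩ := h1
  rw [Finset.mem_filter] at hv
  obtain ⟨h2, h3, h4⟩ := noR hv.1 hv.2
  refine ⟨seg w (n - (i + 1)) (i + 1), ?_⟩
  rw [Finset.mem_filter, mem_Fac]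
  refine ⟨⟨n - (i + 1), by omega, rfl⟩, ?_⟩
  by_contra hne
  obtain ⟨b, hb⟩ := Finset.nonempty_iff_ne_empty.mpr hne
  rw [mem_R, seg_length] at hb
  obtain ⟨j, hj, hs, -⟩ := hb
  have h5 : seg w (j + 1) i = v := by
    rw [seg_cons, seg_cons] at hs
    have := List.tail_eq_of_cons_eq hs
    rw [this, h3]
    congr 1
    omega
  have := h4 (j + 1) (by omega) h5
  omega

lemma y_le (i : ℕ) : y w n i ≤ 1 := by
  unfold y
  have key : ∀ v, v ∈ Fac w n i → Lx w n v = ∅ → v = seg w 0 i := by
    intro v hv h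
    have hv' := hv
    rw [mem_Fac] at hv
    obtain ⟨j, hj, hs⟩ := hv
    rcases Nat.eq_zero_or_pos j with h0 | h0
    · rw [← hs, h0]
    · exfalso
      have : w (j - 1) ∈ Lx w n v := by
        rw [mem_L, Fac_length hv']
        exact ⟨j - 1, by omega, by rw [Nat.sub_add_cancel h0]; exact hs, rfl⟩
      rw [h] at this
      exact absurd this (by simp)
  rw [Finset.card_le_one]
  intro a ha b hb
  rw [Finset.mem_filter] at ha hb
  rw [key a ha.1 ha.2, key b hb.1 hb.2]

lemma l_le (i : ℕ) : l w n i ≤ r w n i + 1 := by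
  have h1 := eqR (w := w) (n := n) i
  have h2 := eqL (w := w) (n := n) i
  have h3 := y_le (w := w) (n := n) i
  omega

lemma r_succ (i : ℕ) : r w n (i + 1) =
    ∑ v ∈ Fac w n i, ∑ a ∈ Lx w n v, ((R w n (a :: v)).card - 1) := by
  unfold r; rw [sum_Fac_succ]

/-- non-neutral factors -/
def NN (w : ℕ → A) (n : ℕ) (v : List A) : Prop :=
  ∑ a ∈ Lx w n v, ((R w n (a :: v)).card - 1) ≠ (R w n v).card - 1

lemma exists_NN {i : ℕ} (h : r w n (i + 1) ≠ r w n i) : ∃ v ∈ Fac w n i, NN w n v := by
  by_contra hcon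
  push Not at hcon
  apply h
  rw [r_succ]
  unfold r
  apply Finset.sum_congr rfl
  intro v hv
  have := hcon v hv
  unfold NN at this
  push Not at this
  exact this

/-- the boundary level -/
def Bd (w : ℕ → A) (n i : ℕ) : Prop :=
  (∃ j, 1 ≤ j ∧ j + i ≤ n ∧ seg w j i = seg w 0 i) ∧
    ¬ ∃ j, 1 ≤ j ∧ j + (i + 1) ≤ n ∧ seg w j (i + 1) = seg w 0 (i + 1)

lemma Bd_unique {i i' : ℕ} (h : Bd w n i) (h' : Bd w n i') : i = i' := by
  have key : ∀ {i i' : ℕ}, Bd w n i → Bd w n i' → ¬ i < i' := by
    intro i i' h h' hlt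
    obtain ⟨j, h1, h2, h3⟩ := h'.1
    apply h.2
    refine ⟨j, h1, by omega, ?_⟩
    rw [seg_eq_iff] at h3 ⊢
    intro t ht
    exact h3 t (by omega)
  have h1 := key h h'
  have h2 := key h' h
  omega

lemma R_cons_sub (a : A) (v : List A) : R w n (a :: v) ⊆ R w n v := by
  intro b hb
  rw [mem_R] at hb ⊢
  obtain ⟨j, hj, hs, he⟩ := hb
  rw [List.length_cons] at hj hs he
  rw [seg_cons] at hs
  refine ⟨j + 1, by omega, List.tail_eq_of_cons_eq hs, ?_⟩
  rw [← he]; congr 1; ring

lemma NN_bispecial {i : ℕ} {v : List A} (hv : v ∈ Fac w n i) (h : NN w n v) :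
    (2 ≤ (R w n v).card ∧ 2 ≤ (Lx w n v).card) ∨ Bd w n i := by
  have hvl := Fac_length hv
  have hR : 2 ≤ (R w n v).card := by
    by_contra hc
    apply h
    rw [show (R w n v).card - 1 = 0 by omega]
    apply Finset.sum_eq_zero
    intro a _
    have := Finset.card_le_card (R_cons_sub (w := w) (n := n) a v)
    omega
  by_cases hL : 2 ≤ (Lx w n v).card
  · exact Or.inl ⟨hR, hL⟩
  · right
    -- there is an occurrence which is not a prefix
    have hocc : ∃ j, 1 ≤ j ∧ j + i ≤ n ∧ seg w j i = v := by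
      by_contra hcon
      push Not at hcon
      have : (R w n v).card ≤ 1 := by
        rw [Finset.card_le_one]
        intro b hb b' hb'
        rw [mem_R, hvl] at hb hb'
        obtain ⟨j, hj, hs, he⟩ := hb
        obtain ⟨j', hj', hs', he'⟩ := hb'
        have e1 : j = 0 := by
          by_contra h0
          exact hcon j (by omega) (by omega) hs
        have e2 : j' = 0 := by
          by_contra h0
          exact hcon j' (by omega) (by omega) hs'
        rw [← he, ← he', e1, e2]
      omega
    obtain ⟨j0, hj0, hj0', hs0⟩ := hocc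
    have ha0 : w (j0 - 1) ∈ Lx w n v := by
      rw [mem_L, hvl]
      exact ⟨j0 - 1, by omega, by rw [Nat.sub_add_cancel hj0]; exact hs0, rfl⟩
    have hL1 : Lx w n v = {w (j0 - 1)} := by
      apply Finset.eq_singleton_iff_unique_mem.mpr
      refine ⟨ha0, fun a ha => ?_⟩
      have : (Lx w n v).card ≤ 1 := by omega
      rw [Finset.card_le_one] at this
      exact this a ha _ ha0
    set a := w (j0 - 1) with had
    unfold NN at h
    rw [hL1, Finset.sum_singleton] at h
    have hsub := R_cons_sub (w := w) (n := n) a v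
    have hne : ∃ b ∈ R w n v, b ∉ R w n (a :: v) := by
      by_contra hcon
      push Not at hcon
      apply h
      rw [Finset.Subset.antisymm hsub hcon]
    obtain ⟨b, hb, hb'⟩ := hne
    rw [mem_R, hvl] at hb
    obtain ⟨j, hj, hs, he⟩ := hb
    have key : ∀ j, 1 ≤ j → j + i + 1 ≤ n → seg w j i = v → w (j + i) = b → False := by
      intro j h1 h2 h3 h4
      have : w (j - 1) ∈ Lx w n v := by
        rw [mem_L, hvl]
        exact ⟨j - 1, by omega, by rw [Nat.sub_add_cancel h1]; exact h3, rfl⟩
      rw [hL1, Finset.mem_singleton] at this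
      apply hb'
      rw [mem_R, List.length_cons, hvl]
      refine ⟨j - 1, by omega, ?_, ?_⟩
      · rw [seg_cons, this, Nat.sub_add_cancel h1, h3]
      · rw [← h4]; congr 1; omega
    have hj00 : j = 0 := by
      by_contra h0
      exact key j (by omega) hj hs he
    subst hj00
    refine ⟨⟨j0, hj0, hj0', by rw [hs0, hs]⟩, ?_⟩
    rintro ⟨j, h1, h2, h3⟩
    rw [seg_succ, seg_succ] at h3
    have h4 := List.append_inj h3 (by rw [seg_length, seg_length])
    apply key j h1 (by omega) (by rw [h4.1, hs])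
    have := h4.2
    simp only [List.cons.injEq, and_true] at this
    rw [this]
    exact he

/-! ### Runs -/

/-- a maximal run of period `q` -/
def IsRun (w : ℕ → A) (n q a b : ℕ) : Prop :=
  a + q ≤ b ∧ b ≤ n ∧ (∀ s, a ≤ s → s + q < b → w s = w (s + q)) ∧
    (a = 0 ∨ w (a - 1) ≠ w (a - 1 + q)) ∧ (b = n ∨ w (b - q) ≠ w b)

lemma extend {q x1 x2 : ℕ} (hx : x1 + q ≤ x2) (hn : x2 ≤ n)
    (h : ∀ s, x1 ≤ s → s + q < x2 → w s = w (s + q)) :
    ∃ a b, a ≤ x1 ∧ x2 ≤ b ∧ IsRun w n q a b := by
  have hb : ∀ m x2, n - x2 = m → x1 + q ≤ x2 → x2 ≤ n →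
      (∀ s, x1 ≤ s → s + q < x2 → w s = w (s + q)) →
      ∃ b, x2 ≤ b ∧ b ≤ n ∧ (∀ s, x1 ≤ s → s + q < b → w s = w (s + q)) ∧
        (b = n ∨ w (b - q) ≠ w b) := by
    intro m
    induction m with
    | zero =>
      intro x2 hm hx hn h
      exact ⟨x2, le_rfl, hn, h, Or.inl (by omega)⟩
    | succ m ih =>
      intro x2 hm hx hn h
      by_cases he : w (x2 - q) = w x2
      · obtain ⟨b, h1, h2, h3, h4⟩ := ih (x2 + 1) (by omega) (by omega) (by omega) (by
          intro s hs hs'
          rcases Nat.lt_or_ge (s + q) x2 with h' | h'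
          · exact h s hs h'
          · have : s = x2 - q := by omega
            rw [show s + q = x2 by omega, this]
            exact he)
        exact ⟨b, by omega, h2, h3, h4⟩
      · exact ⟨x2, le_rfl, hn, h, Or.inr he⟩
  obtain ⟨b, hb1, hb2, hb3, hb4⟩ := hb _ x2 rfl hx hn h
  have ha : ∀ x1, x1 + q ≤ b → (∀ s, x1 ≤ s → s + q < b → w s = w (s + q)) →
      ∃ a, a ≤ x1 ∧ (∀ s, a ≤ s → s + q < b → w s = w (s + q)) ∧
        (a = 0 ∨ w (a - 1) ≠ w (a - 1 + q)) := by
    intro x1
    induction x1 with
    | zero => intro _ h; exact ⟨0, le_rfl, h, Or.inl rfl⟩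
    | succ x1 ih =>
      intro hxb h
      by_cases he : w x1 = w (x1 + q)
      · obtain ⟨a, h1, h2, h3⟩ := ih (by omega) (by
          intro s hs hs'
          rcases Nat.lt_or_ge x1 s with h' | h'
          · exact h s h' hs'
          · rw [show s = x1 by omega]; exact he)
        exact ⟨a, by omega, h2, h3⟩
      · exact ⟨x1 + 1, le_rfl, h, Or.inr (by rw [Nat.add_sub_cancel]; exact he)⟩
  obtain ⟨a, ha1, ha2, ha3⟩ := ha x1 (by omega) hb3
  exact ⟨a, b, ha1, hb1, by omega, hb2, ha2, ha3, hb4⟩

/-- a non-neutral bispecial factor with a periodic middle part forces a run of about its length -/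
lemma run_of_bispecial {i q x j0 : ℕ} {v : List A} (hv : v.length = i)
    (hR : 2 ≤ (R w n v).card) (hL : 2 ≤ (Lx w n v).card) (hNN : NN w n v)
    (hj0 : j0 + i ≤ n) (hs0 : seg w j0 i = v) (hq : 0 < q) (hsz : 2 * x + 2 * q ≤ i)
    (hper : ∀ s, x ≤ s → s + q + x < i → w (j0 + s) = w (j0 + s + q)) :
    ∃ a b, IsRun w n q a b ∧ i ≤ (b - a) + 2 * x ∧ b - a ≤ i + q := by
  by_contra hcon
  push Not at hcon
  -- all occurrences
  have hocc : ∀ j, seg w j i = v → ∀ s, s < i → w (j + s) = w (j0 + s) := by
    intro j hj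
    rw [← hs0, seg_eq_iff] at hj
    exact hj
  have hrun : ∀ j, j + i ≤ n → seg w j i = v → ∃ a b, a ≤ j + x ∧ j + i ≤ b + x ∧
      IsRun w n q a b ∧ i + q < b - a := by
    intro j hj hs
    obtain ⟨a, b, h1, h2, h3⟩ := extend (w := w) (n := n) (q := q) (x1 := j + x)
      (x2 := j + i - x) (by omega) (by omega) (by
        intro s hs1 hs2
        have e1 := hocc j hs (s - j) (by omega)
        have e2 := hocc j hs (s - j + q) (by omega)
        have e3 := hper (s - j) (by omega) (by omega)
        rw [show j + (s - j) = s by omega] at e1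
        rw [show j + (s - j + q) = s + q by omega] at e2
        rw [e1, e2, e3, add_assoc])
    refine ⟨a, b, h1, by omega, h3, hcon a b h3 (by omega)⟩
  -- the left part is periodic
  obtain ⟨b1, hb1, hb1'⟩ : ∃ b ∈ R w n v, b ≠ w (j0 + (i - q)) := by
    by_contra hc
    push Not at hc
    have : (R w n v).card ≤ 1 := by
      rw [Finset.card_le_one]
      intro b hb b' hb'
      rw [hc b hb, hc b' hb']
    omega
  obtain ⟨a1, ha1, ha1'⟩ : ∃ a ∈ Lx w n v, a ≠ w (j0 + (q - 1)) := by
    by_contra hc
    push Not at hc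
    have : (Lx w n v).card ≤ 1 := by
      rw [Finset.card_le_one]
      intro b hb b' hb'
      rw [hc b hb, hc b' hb']
    omega
  have hleft : ∀ s, s < x → w (j0 + s) = w (j0 + s + q) := by
    intro s0 hs0'
    by_contra hne
    rw [mem_R, hv] at hb1
    obtain ⟨j, hj, hs, he⟩ := hb1
    obtain ⟨a, b, h1, h2, ⟨h3, h4, h5, h6, h7⟩, h8⟩ := hrun j (by omega) hs
    have e1 : j + s0 < a := by
      by_contra hc
      have e2 := h5 (j + s0) (by omega) (by omega)
      have e3 := hocc j hs s0 (by omega)
      have e4 := hocc j hs (s0 + q) (by omega)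
      rw [← add_assoc, ← add_assoc] at e4
      rw [e3, e4] at e2
      exact hne e2
    have e5 : b ≤ j + i := by
      by_contra hc
      have e2 := h5 (j + (i - q)) (by omega) (by omega)
      have e3 := hocc j hs (i - q) (by omega)
      rw [show j + (i - q) + q = j + i by omega, he, e3] at e2
      exact hb1' e2.symm
    omega
  have hright : ∀ s, i ≤ s + q + x → s + q < i → w (j0 + s) = w (j0 + s + q) := by
    intro s0 hs0' hs0''
    by_contra hne
    rw [mem_L, hv] at ha1
    obtain ⟨j, hj, hs, he⟩ := ha1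
    obtain ⟨a, b, h1, h2, ⟨h3, h4, h5, h6, h7⟩, h8⟩ := hrun (j + 1) (by omega) hs
    have e1 : b ≤ j + 1 + s0 + q := by
      by_contra hc
      have e2 := h5 (j + 1 + s0) (by omega) (by omega)
      have e3 := hocc (j + 1) hs s0 (by omega)
      have e4 := hocc (j + 1) hs (s0 + q) (by omega)
      rw [← add_assoc, ← add_assoc] at e4
      rw [e3, e4] at e2
      exact hne e2
    have e5 : j < a := by
      by_contra hc
      have e2 := h5 j (by omega) (by omega)
      have e3 := hocc (j + 1) hs (q - 1) (by omega)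
      rw [show j + 1 + (q - 1) = j + q by omega] at e3
      rw [he, e3] at e2
      exact ha1' e2
    omega
  have hall : ∀ s, s + q < i → w (j0 + s) = w (j0 + s + q) := by
    intro s hs
    rcases Nat.lt_or_ge s x with h | h
    · exact hleft s h
    · rcases Nat.lt_or_ge (s + q + x) i with h' | h'
      · exact hper s h h'
      · exact hright s h' hs
  -- runs now contain the whole occurrence
  have hrun' : ∀ j, j + i ≤ n → seg w j i = v → ∃ a b, a ≤ j ∧ j + i ≤ b ∧
      IsRun w n q a b ∧ i + q < b - a := by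
    intro j hj hs
    obtain ⟨a, b, h1, h2, h3⟩ := extend (w := w) (n := n) (q := q) (x1 := j)
      (x2 := j + i) (by omega) (by omega) (by
        intro s hs1 hs2
        have e1 := hocc j hs (s - j) (by omega)
        have e2 := hocc j hs (s - j + q) (by omega)
        have e3 := hall (s - j) (by omega)
        rw [show j + (s - j) = s by omega] at e1
        rw [show j + (s - j + q) = s + q by omega] at e2
        rw [e1, e2, e3, add_assoc])
    refine ⟨a, b, h1, by omega, h3, hcon a b h3 (by omega)⟩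
  set a0 := w (j0 + (q - 1)) with ha0
  set b0 := w (j0 + (i - q)) with hb0
  -- occurrences preceded by another letter
  have hA : ∀ j, j + 1 + i ≤ n → seg w (j + 1) i = v → w j ≠ a0 →
      (j + 1 + i + q < n ∧ w (j + 1 + i) = b0 ∧ seg w (j + 1 + q) i = v ∧ w (j + q) = a0 ∧
        w (j + 1 + q + i) = b0) := by
    intro j hj hs hne
    obtain ⟨a, b, h1, h2, ⟨h3, h4, h5, h6, h7⟩, h8⟩ := hrun' (j + 1) (by omega) hs
    have e3 := hocc (j + 1) hs (q - 1) (by omega)
    rw [show j + 1 + (q - 1) = j + q by omega] at e3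
    have e5 : j < a := by
      by_contra hc
      have e2 := h5 j (by omega) (by omega)
      rw [e3] at e2
      exact hne e2
    have e6 : j + 1 + i + q < b := by omega
    have e7 : w (j + 1 + i) = b0 := by
      have := h5 (j + 1 + (i - q)) (by omega) (by omega)
      rw [hocc (j + 1) hs (i - q) (by omega), show j + 1 + (i - q) + q = j + 1 + i by omega] at this
      exact this.symm
    refine ⟨by omega, e7, ?_, e3, ?_⟩
    · rw [← hs, seg_eq_iff]
      intro t ht
      have := h5 (j + 1 + t) (by omega) (by omega)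
      rw [this]; congr 1; ring
    · have := h5 (j + 1 + i) (by omega) (by omega)
      rw [show j + 1 + q + i = j + 1 + i + q by ring, ← this, e7]
  have hR1 : ∀ a ∈ Lx w n v, a ≠ a0 → (R w n (a :: v)).card - 1 = 0 := by
    intro a ha hne
    have : (R w n (a :: v)).card ≤ 1 := by
      rw [Finset.card_le_one]
      have key : ∀ b ∈ R w n (a :: v), b = b0 := by
        intro b hb
        rw [mem_R, List.length_cons, hv] at hb
        obtain ⟨j, hj, hs, he⟩ := hb
        rw [seg_cons] at hs
        have e1 := List.head_eq_of_cons_eq hs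
        have e2 := List.tail_eq_of_cons_eq hs
        have e3 := (hA j (by omega) e2 (by rw [e1]; exact hne)).2.1
        rw [← he, show j + (i + 1) = j + 1 + i by ring, e3]
      intro b hb b' hb'
      rw [key b hb, key b' hb']
    omega
  have hab : a0 ∈ Lx w n v ∧ b0 ∈ R w n (a0 :: v) := by
    rw [mem_L, hv] at ha1
    obtain ⟨j, hj, hs, he⟩ := ha1
    obtain ⟨g1, g2, g3, g4, g5⟩ := hA j (by omega) hs (by rw [he]; exact ha1')
    constructor
    · rw [mem_L, hv]
      exact ⟨j + q, by omega, by rw [show j + q + 1 = j + 1 + q by ring]; exact g3, g4⟩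
    · rw [mem_R, List.length_cons, hv]
      refine ⟨j + q, by omega, ?_, ?_⟩
      · rw [seg_cons, g4, show j + q + 1 = j + 1 + q by ring, g3]
      · rw [show j + q + (i + 1) = j + 1 + q + i by ring]; exact g5
  have hReq : R w n (a0 :: v) = R w n v := by
    apply Finset.Subset.antisymm (R_cons_sub _ _)
    intro b hb
    by_cases hbb : b = b0
    · rw [hbb]; exact hab.2
    · rw [mem_R, hv] at hb
      obtain ⟨j, hj, hs, he⟩ := hb
      obtain ⟨a, b', h1, h2, ⟨h3, h4, h5, h6, h7⟩, h8⟩ := hrun' j (by omega) hs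
      have e5 : b' ≤ j + i := by
        by_contra hc
        have e2 := h5 (j + (i - q)) (by omega) (by omega)
        have e3 := hocc j hs (i - q) (by omega)
        rw [show j + (i - q) + q = j + i by omega, he, e3] at e2
        exact hbb e2.symm
      have e6 : a + q < j := by omega
      have e7 : w (j - 1) = a0 := by
        have e2 := h5 (j - 1) (by omega) (by omega)
        have e3 := hocc j hs (q - 1) (by omega)
        rw [show j - 1 + q = j + (q - 1) by omega, e3] at e2
        exact e2
      rw [mem_R, List.length_cons, hv]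
      refine ⟨j - 1, by omega, ?_, ?_⟩
      · rw [seg_cons, e7, Nat.sub_add_cancel (by omega), hs]
      · rw [← he]; congr 1; omega
  apply hNN
  rw [Finset.sum_eq_single_of_mem a0 hab.1 (fun a ha hne => hR1 a ha hne), hReq]

end Pool.Agent.R125.Cpl
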