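import Mathlib
import Pool.Agent.R125.CplA

/-!
The right excess of a long word changes rarely at the levels where it is small.
-/

set_option autoImplicit false
set_option linter.unusedSectionVars false

namespace Pool.Agent.R125.Cpl

variable {A : Type} [DecidableEq A] [Fintype A] {w : ℕ → A} {n : ℕ}

/-- a non-boundary event at a level of small excess -/
def Ev (w : ℕ → A) (n S i : ℕ) : Prop :=
  r w n i ≤ S ∧ r w n (i + 1) ≠ r w n i ∧ ¬ Bd w n i

lemma L_take {D i j : ℕ} (hD : D ≤ i) (hj : j + i ≤ n) :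
    Lx w n (seg w j i) ⊆ Lx w n (seg w j D) := by
  intro a ha
  rw [mem_L, seg_length] at ha ⊢
  obtain ⟨j', h1, h2, h3⟩ := ha
  refine ⟨j', by omega, ?_, h3⟩
  rw [seg_eq_iff] at h2 ⊢
  intro t ht
  exact h2 t (by omega)

lemma R_drop {D x j : ℕ} (hj : j + (x + D) ≤ n) :
    R w n (seg w j (x + D)) ⊆ R w n (seg w (j + x) D) := by
  intro a ha
  rw [mem_R, seg_length] at ha ⊢
  obtain ⟨j', h1, h2, h3⟩ := ha
  refine ⟨j' + x, by omega, ?_, by rw [← h3]; congr 1; ring⟩
  rw [seg_eq_iff] at h2 ⊢
  intro t ht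
  have := h2 (x + t) (by omega)
  rw [show j' + x + t = j' + (x + t) by ring, this, add_assoc]

lemma run_gap {q a b a' b' : ℕ} (h : IsRun w n q a b) (h' : IsRun w n q a' b') (hlt : a < a') :
    b < a' + q := by
  by_contra hc
  obtain ⟨h1, h2, h3, h4, h5⟩ := h
  obtain ⟨g1, g2, g3, g4, g5⟩ := h'
  rcases g4 with g4 | g4
  · omega
  · exact g4 (h3 (a' - 1) (by omega) (by omega))

lemma run_unique {q a b b' : ℕ} (h : IsRun w n q a b) (h' : IsRun w n q a b') : b = b' := by
  have key : ∀ {b b' : ℕ}, IsRun w n q a b → IsRun w n q a b' → ¬ b < b' := by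
    intro b b' h h' hlt
    obtain ⟨h1, h2, h3, h4, h5⟩ := h
    obtain ⟨g1, g2, g3, g4, g5⟩ := h'
    rcases h5 with h5 | h5
    · omega
    · apply h5
      have := g3 (b - q) (by omega) (by omega)
      rw [this]; congr 1; omega
  have h1 := key h h'
  have h2 := key h' h
  omega

/-- many events in a window give a run -/
lemma window {S d k : ℕ} (hk : 4 ≤ k) {T : Finset ℕ}
    (hT : ∀ i ∈ T, k * d ≤ i ∧ i < (k + 1) * d ∧ Ev w n S i)
    (hcard : (S + 1) * S < T.card) :
    ∃ q a b, 0 < q ∧ q < d ∧ IsRun w n q a b ∧ k * d + 2 ≤ (b - a) + 2 * d ∧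
      b - a < (k + 2) * d := by
  classical
  have hne : T.Nonempty := by
    rw [← Finset.card_pos]; omega
  set D := T.min' hne with hD
  have hDT : D ∈ T := T.min'_mem hne
  have hDmin : ∀ i ∈ T, D ≤ i := fun i hi => T.min'_le i hi
  obtain ⟨hD1, hD2, hD3, -, -⟩ := hT D hDT
  -- choose the factors
  have hv : ∀ i : ℕ, ∃ j : ℕ, i ∈ T → (j + i ≤ n ∧ NN w n (seg w j i) ∧
      2 ≤ (R w n (seg w j i)).card ∧ 2 ≤ (Lx w n (seg w j i)).card) := by
    intro i
    by_cases hi : i ∈ T
    · obtain ⟨-, -, -, h2, h3⟩ := hT i hi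
      obtain ⟨v, hv, hNN⟩ := exists_NN h2
      rcases NN_bispecial hv hNN with h | h
      · rw [mem_Fac] at hv
        obtain ⟨j, hj, rfl⟩ := hv
        exact ⟨j, fun _ => ⟨hj, hNN, h.1, h.2⟩⟩
      · exact absurd h h3
    · exact ⟨0, fun h => absurd h hi⟩
  choose j hj using hv
  -- the target
  set LS := (Fac w n D).filter fun u => 2 ≤ (Lx w n u).card with hLS
  set RS := (Fac w n D).filter fun u => 2 ≤ (R w n u).card with hRS
  have hLScard : LS.card ≤ S + 1 := by
    have h1 : LS.card ≤ l w n D := by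
      unfold l
      rw [hLS, Finset.card_filter]
      apply Finset.sum_le_sum
      intro u _
      split_ifs <;> omega
    have h2 := l_le (w := w) (n := n) D
    omega
  have hRScard : RS.card ≤ S := by
    have h1 : RS.card ≤ r w n D := by
      unfold r
      rw [hRS, Finset.card_filter]
      apply Finset.sum_le_sum
      intro u _
      split_ifs <;> omega
    omega
  have hmaps : ∀ i ∈ T, (seg w (j i) D, seg w (j i + (i - D)) D) ∈ LS ×ˢ RS := by
    intro i hi
    obtain ⟨h1, h2, h3, h4⟩ := hj i hi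
    have hDi := hDmin i hi
    rw [Finset.mem_product, hLS, hRS, Finset.mem_filter, Finset.mem_filter, mem_Fac, mem_Fac]
    refine ⟨⟨⟨j i, by omega, rfl⟩, ?_⟩, ⟨⟨j i + (i - D), by omega, rfl⟩, ?_⟩⟩
    · exact h4.trans (Finset.card_le_card (L_take hDi h1))
    · have := R_drop (w := w) (n := n) (D := D) (x := i - D) (j := j i) (by omega)
      rw [show i - D + D = i by omega] at this
      exact h3.trans (Finset.card_le_card this)
  have hlt : (LS ×ˢ RS).card < T.card := by
    rw [Finset.card_product]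
    calc LS.card * RS.card ≤ (S + 1) * S := Nat.mul_le_mul hLScard hRScard
      _ < T.card := hcard
  obtain ⟨i1, hi1, i2, hi2, hne12, heq⟩ :=
    Finset.exists_ne_map_eq_of_card_lt_of_maps_to hlt hmaps
  -- order the two levels
  have main : ∀ i1 ∈ T, ∀ i2 ∈ T, i1 < i2 →
      seg w (j i1) D = seg w (j i2) D →
      seg w (j i1 + (i1 - D)) D = seg w (j i2 + (i2 - D)) D →
      ∃ q a b, 0 < q ∧ q < d ∧ IsRun w n q a b ∧ k * d + 2 ≤ (b - a) + 2 * d ∧
      b - a < (k + 2) * d := by
    intro i1 hi1 i2 hi2 hlt h1 h2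
    have hDi1 := hDmin i1 hi1
    have hDi2 := hDmin i2 hi2
    obtain ⟨ha1, ha2, -⟩ := hT i1 hi1
    obtain ⟨hb1, hb2, -⟩ := hT i2 hi2
    obtain ⟨g1, g2, g3, g4⟩ := hj i2 hi2
    rw [seg_eq_iff] at h1 h2
    have e1 : (k + 1) * d = k * d + d := by ring
    have e2 : (k + 2) * d = k * d + 2 * d := by ring
    have e3 : 4 * d ≤ k * d := Nat.mul_le_mul_right _ hk
    obtain ⟨a, b, hrun, hlen1, hlen2⟩ := run_of_bispecial (w := w) (n := n) (i := i2)
      (q := i2 - i1) (x := i1 - D) (j0 := j i2) (v := seg w (j i2) i2) (seg_length _ _ _)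
      g3 g4 g2 g1 rfl (by omega) (by omega) (by
        intro s hs hs'
        have f1 := h1 s (by omega)
        have f2 := h2 (s - (i1 - D)) (by omega)
        rw [← f1, show j i1 + s = j i1 + (i1 - D) + (s - (i1 - D)) by omega, f2]
        congr 1
        omega)
    exact ⟨i2 - i1, a, b, by omega, by omega, hrun, by omega, by omega⟩
  simp only [Prod.mk.injEq] at heq
  rcases Nat.lt_or_ge i1 i2 with h | h
  · exact main i1 hi1 i2 hi2 h heq.1 heq.2
  · exact main i2 hi2 i1 hi1 (by omega) heq.1.symm heq.2.symm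

/-- the number of bad windows -/
lemma bad_windows {d k0 : ℕ} (hd : 0 < d) (hk0 : 4 ≤ k0) {B : Finset ℕ}
    (hB : ∀ k ∈ B, k0 ≤ k ∧ ∃ q a b, 0 < q ∧ q < d ∧ IsRun w n q a b ∧
      k * d + 2 ≤ (b - a) + 2 * d ∧ b - a < (k + 2) * d) :
    B.card ≤ d * ((n / ((k0 - 3) * d) + 1) * 4) := by
  classical
  have hch : ∀ k : ℕ, ∃ t : ℕ × ℕ × ℕ, k ∈ B → (0 < t.1 ∧ t.1 < d ∧ IsRun w n t.1 t.2.1 t.2.2 ∧
      k * d + 2 ≤ (t.2.2 - t.2.1) + 2 * d ∧ t.2.2 - t.2.1 < (k + 2) * d) := by
    intro k
    by_cases h : k ∈ B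
    · obtain ⟨-, q, a, b, h1⟩ := hB k h
      exact ⟨(q, a, b), fun _ => h1⟩
    · exact ⟨(0, 0, 0), fun h' => absurd h' h⟩
  choose f hf using hch
  set g := (k0 - 3) * d with hg
  have hgpos : 0 < g := Nat.mul_pos (by omega) hd
  set F : ℕ → ℕ × ℕ × ℕ := fun k =>
    ((f k).1, (f k).2.1 / g, k + 1 - ((f k).2.2 - (f k).2.1) / d) with hF
  have hdiv : ∀ k ∈ B, k ≤ ((f k).2.2 - (f k).2.1) / d + 2 ∧
      ((f k).2.2 - (f k).2.1) / d ≤ k + 1 := by
    intro k hk
    obtain ⟨h1, h2, h3, h4, h5⟩ := hf k hk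
    have hk4 := (hB k hk).1
    constructor
    · have : k - 2 ≤ ((f k).2.2 - (f k).2.1) / d := by
        rw [Nat.le_div_iff_mul_le hd, Nat.sub_mul]
        omega
      omega
    · have : ((f k).2.2 - (f k).2.1) / d < k + 2 := by
        rw [Nat.div_lt_iff_lt_mul hd]; exact h5
      omega
  have hmaps : ∀ k ∈ B, F k ∈ Finset.range d ×ˢ (Finset.range (n / g + 1) ×ˢ Finset.range 4) := by
    intro k hk
    obtain ⟨h1, h2, h3, h4, h5⟩ := hf k hk
    obtain ⟨h6, h7⟩ := hdiv k hk
    rw [hF, Finset.mem_product, Finset.mem_product, Finset.mem_range, Finset.mem_range,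
      Finset.mem_range]
    refine ⟨h2, ?_, ?_⟩
    · have : (f k).2.1 ≤ n := by
        obtain ⟨g1, g2, -⟩ := h3
        omega
      have := Nat.div_le_div_right (c := g) this
      simp only
      omega
    · simp only
      omega
  have hinj : ∀ k ∈ B, ∀ k' ∈ B, F k = F k' → k = k' := by
    intro k hk k' hk' h
    simp only [hF, Prod.mk.injEq] at h
    obtain ⟨h1, h2, h3⟩ := h
    obtain ⟨a1, a2, a3, a4, a5⟩ := hf k hk
    obtain ⟨b1, b2, b3, b4, b5⟩ := hf k' hk'
    have c1 := (hB k hk).1
    have c2 := (hB k' hk').1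
    have d1 := hdiv k hk
    have d2 := hdiv k' hk'
    rw [h1] at a3
    -- lengths of the runs
    have hlen : ∀ k, k0 ≤ k → ∀ m, k * d + 2 ≤ m + 2 * d → g + d < m := by
      intro k hk m hm
      have e1 : k0 * d ≤ k * d := Nat.mul_le_mul_right _ hk
      have e2 : k0 * d = g + 3 * d := by
        rw [hg, Nat.sub_mul]
        have : 3 * d ≤ k0 * d := Nat.mul_le_mul_right _ (by omega)
        omega
      omega
    have l1 := hlen k c1 _ a4
    have l2 := hlen k' c2 _ b4
    have hsep : ∀ x y : ℕ, x + g < y → x / g ≠ y / g := by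
      intro x y hxy he
      have h5 := Nat.div_add_mod x g
      have h6 := Nat.div_add_mod y g
      have h7 := Nat.mod_lt x hgpos
      have h8 := Nat.mod_lt y hgpos
      rw [he] at h5
      omega
    have hae : (f k).2.1 = (f k').2.1 := by
      rcases Nat.lt_trichotomy (f k).2.1 (f k').2.1 with h | h | h
      · exfalso
        have := run_gap a3 b3 h
        exact hsep _ _ (by omega) h2
      · exact h
      · exfalso
        have := run_gap b3 a3 h
        exact hsep _ _ (by omega) h2.symm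
    have hbe : (f k).2.2 = (f k').2.2 := by
      rw [hae] at a3
      exact run_unique a3 b3
    rw [hae, hbe] at h3 d1
    omega
  have := Finset.card_le_card_of_injOn F hmaps (fun a ha b hb h => hinj a ha b hb h)
  rwa [Finset.card_product, Finset.card_product, Finset.card_range, Finset.card_range,
    Finset.card_range] at this

/-- the total number of events at levels of small excess -/
theorem events_bound (w : ℕ → A) (n S d k0 : ℕ) (hd : 0 < d) (hk0 : 4 ≤ k0) :
    ((Finset.range n).filter fun i => r w n i ≤ S ∧ r w n (i + 1) ≠ r w n i).card ≤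
      k0 * d + 1 + (n / d + 1) * ((S + 1) * S) +
        (d * ((n / ((k0 - 3) * d) + 1) * 4)) * d := by
  classical
  set E := (Finset.range n).filter fun i => r w n i ≤ S ∧ r w n (i + 1) ≠ r w n i with hE
  set T : ℕ → Finset ℕ := fun k => E.filter fun i => ¬ Bd w n i ∧ i / d = k with hT
  set Kall := (Finset.range (n / d + 1)).filter fun k => k0 ≤ k with hK
  set Good := Kall.filter fun k => (T k).card ≤ (S + 1) * S with hGood
  set Bad := Kall.filter fun k => ¬ (T k).card ≤ (S + 1) * S with hBad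
  have hTwin : ∀ k, ∀ i ∈ T k, k * d ≤ i ∧ i < (k + 1) * d ∧ Ev w n S i := by
    intro k i hi
    rw [hT, Finset.mem_filter, hE, Finset.mem_filter] at hi
    obtain ⟨⟨h1, h2, h3⟩, h4, h5⟩ := hi
    refine ⟨?_, ?_, h2, h3, h4⟩
    · rw [← h5]; exact Nat.div_mul_le_self i d
    · rw [← h5, add_mul, one_mul]; exact Nat.lt_div_mul_add hd
  have hcover : E ⊆ Finset.range (k0 * d) ∪ (E.filter fun i => Bd w n i) ∪ Good.biUnion T ∪
      Bad.biUnion T := by
    intro i hi
    rw [Finset.mem_union, Finset.mem_union, Finset.mem_union, Finset.mem_range,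
      Finset.mem_filter, Finset.mem_biUnion, Finset.mem_biUnion]
    by_cases h1 : i < k0 * d
    · left; left; left; exact h1
    · by_cases h2 : Bd w n i
      · left; left; right; exact ⟨hi, h2⟩
      · have hi' := hi
        rw [hE, Finset.mem_filter, Finset.mem_range] at hi'
        have hiT : i ∈ T (i / d) := by
          rw [hT, Finset.mem_filter]; exact ⟨hi, h2, rfl⟩
        have hkall : i / d ∈ Kall := by
          rw [hK, Finset.mem_filter, Finset.mem_range]
          constructor
          · have := Nat.div_le_div_right (c := d) hi'.1.le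
            omega
          · rw [Nat.le_div_iff_mul_le hd]; omega
        by_cases h3 : (T (i / d)).card ≤ (S + 1) * S
        · left; right
          exact ⟨i / d, by rw [hGood, Finset.mem_filter]; exact ⟨hkall, h3⟩, hiT⟩
        · right
          exact ⟨i / d, by rw [hBad, Finset.mem_filter]; exact ⟨hkall, h3⟩, hiT⟩
  have c1 : (Finset.range (k0 * d)).card = k0 * d := Finset.card_range _
  have c2 : (E.filter fun i => Bd w n i).card ≤ 1 := by
    rw [Finset.card_le_one]
    intro a ha b hb
    rw [Finset.mem_filter] at ha hb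
    exact Bd_unique ha.2 hb.2
  have c3 : (Good.biUnion T).card ≤ (n / d + 1) * ((S + 1) * S) := by
    have h1 := Finset.card_biUnion_le_card_mul Good T ((S + 1) * S) (by
      intro k hk
      rw [hGood, Finset.mem_filter] at hk
      exact hk.2)
    refine h1.trans (Nat.mul_le_mul_right _ ?_)
    calc Good.card ≤ Kall.card := Finset.card_filter_le _ _
      _ ≤ (Finset.range (n / d + 1)).card := Finset.card_filter_le _ _
      _ = n / d + 1 := Finset.card_range _
  have c4 : (Bad.biUnion T).card ≤ (d * ((n / ((k0 - 3) * d) + 1) * 4)) * d := by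
    have h1 := Finset.card_biUnion_le_card_mul Bad T d (by
      intro k _
      have : T k ⊆ Finset.Ico (k * d) ((k + 1) * d) := by
        intro i hi
        have := hTwin k i hi
        rw [Finset.mem_Ico]; exact ⟨this.1, this.2.1⟩
      have := Finset.card_le_card this
      rw [Nat.card_Ico, add_mul, one_mul, Nat.add_sub_cancel_left] at this
      exact this)
    refine h1.trans (Nat.mul_le_mul_right _ ?_)
    apply bad_windows (w := w) (n := n) hd hk0
    intro k hk
    rw [hBad, Finset.mem_filter, hK, Finset.mem_filter] at hk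
    exact ⟨hk.1.2, window (by omega) (hTwin k) (by omega)⟩
  have h := Finset.card_le_card hcover
  have u1 := Finset.card_union_le (Finset.range (k0 * d) ∪ (E.filter fun i => Bd w n i) ∪
    Good.biUnion T) (Bad.biUnion T)
  have u2 := Finset.card_union_le (Finset.range (k0 * d) ∪ (E.filter fun i => Bd w n i))
    (Good.biUnion T)
  have u3 := Finset.card_union_le (Finset.range (k0 * d)) (E.filter fun i => Bd w n i)
  omega

end Pool.Agent.R125.Cpl
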