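import Mathlib
import Pool.Agent.R125.CplB

/-!
Counting the factor complexity sequences of words of length `n`.
-/

set_option autoImplicit false
set_option linter.unusedSectionVars false

namespace Pool.Agent.R125.Cpl

/-! ### Weighted lists -/

/-- weight of a list: `t` to the sum, `u` to the number of changes -/
noncomputable def wt (t u : ℝ) : List ℕ → ℝ
  | [] => 1
  | c :: l => wt t u l * t ^ c * (if c = l.headD 0 then 1 else u)

/-- lists of length `m` with entries at most `N` -/
def Lst (N : ℕ) : ℕ → Finset (List ℕ)
  | 0 => {[]}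
  | m + 1 => (Finset.range (N + 1) ×ˢ Lst N m).image fun p => p.1 :: p.2

lemma wt_nonneg {t u : ℝ} (ht : 0 < t) (hu : 0 < u) (l : List ℕ) : 0 < wt t u l := by
  induction l with
  | nil => simp [wt]
  | cons c l ih =>
    rw [wt]
    split_ifs <;> positivity

lemma sum_wt {t u : ℝ} (ht : 0 < t) (ht1 : t < 1) (hu : 0 < u) (N m : ℕ) :
    ∑ l ∈ Lst N m, wt t u l ≤ (1 + u / (1 - t)) ^ m := by
  induction m with
  | zero => simp [Lst, wt]
  | succ m ih =>
    have h1t : 0 < 1 - t := by linarith
    rw [Lst, Finset.sum_image, Finset.sum_product_right]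
    · have key : ∀ l ∈ Lst N m, ∑ c ∈ Finset.range (N + 1), wt t u (c :: l) ≤
          wt t u l * (1 + u / (1 - t)) := by
        intro l _
        have hw := wt_nonneg ht hu l
        have e1 : ∀ c ∈ Finset.range (N + 1), wt t u (c :: l) ≤
            wt t u l * ((if c = l.headD 0 then 1 else 0) + u * t ^ c) := by
          intro c _
          rw [wt, mul_assoc]
          apply mul_le_mul_of_nonneg_left _ hw.le
          split_ifs with h
          · have h1 : t ^ c ≤ 1 := pow_le_one₀ ht.le ht1.le
            have h2 : 0 < u * t ^ c := by positivity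
            linarith
          · linarith
        refine (Finset.sum_le_sum e1).trans ?_
        rw [← Finset.mul_sum]
        apply mul_le_mul_of_nonneg_left _ hw.le
        rw [Finset.sum_add_distrib, ← Finset.mul_sum]
        have e2 : ∑ c ∈ Finset.range (N + 1), (if c = l.headD 0 then (1 : ℝ) else 0) ≤ 1 := by
          rw [Finset.sum_ite_eq']
          split_ifs <;> norm_num
        have e3 : ∑ c ∈ Finset.range (N + 1), t ^ c ≤ 1 / (1 - t) := by
          rw [geom_sum_eq ht1.ne, le_div_iff₀ h1t]
          have : (t ^ (N + 1) - 1) / (t - 1) * (1 - t) = 1 - t ^ (N + 1) := by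
            have : t - 1 ≠ 0 := by linarith
            field_simp
            ring
          rw [this]
          have : 0 < t ^ (N + 1) := by positivity
          linarith
        have e4 : u * ∑ c ∈ Finset.range (N + 1), t ^ c ≤ u / (1 - t) := by
          rw [div_eq_mul_one_div]
          exact mul_le_mul_of_nonneg_left e3 hu.le
        linarith
      refine (Finset.sum_le_sum key).trans ?_
      rw [← Finset.sum_mul, pow_succ]
      apply mul_le_mul_of_nonneg_right ih
      positivity
    · rintro ⟨a, b⟩ _ ⟨c, d⟩ _ h
      simpa using h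

/-- the reversed list of the first values of a sequence -/
def rl (r : ℕ → ℕ) : ℕ → List ℕ
  | 0 => []
  | m + 1 => r m :: rl r m

lemma rl_mem {r : ℕ → ℕ} {N : ℕ} (m : ℕ) (h : ∀ i, i < m → r i ≤ N) : rl r m ∈ Lst N m := by
  induction m with
  | zero => simp [rl, Lst]
  | succ m ih =>
    rw [rl, Lst, Finset.mem_image]
    refine ⟨(r m, rl r m), ?_, rfl⟩
    rw [Finset.mem_product, Finset.mem_range]
    exact ⟨by have := h m (by omega); simp only; omega, ih fun i hi => h i (by omega)⟩

lemma rl_inj {r r' : ℕ → ℕ} (m : ℕ) (h : rl r m = rl r' m) : ∀ i, i < m → r i = r' i := by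
  induction m with
  | zero => intro i hi; omega
  | succ m ih =>
    intro i hi
    rw [rl, rl] at h
    have h1 := List.head_eq_of_cons_eq h
    have h2 := List.tail_eq_of_cons_eq h
    rcases Nat.lt_or_ge i m with h' | h'
    · exact ih h2 i h'
    · obtain rfl : i = m := by omega
      exact h1

lemma wt_rl {t u : ℝ} (ht : 0 < t) (hu : 0 < u) (hu1 : u ≤ 1) (r : ℕ → ℕ) (m : ℕ) :
    t ^ (∑ i ∈ Finset.range (m + 1), r i) *
      u ^ (1 + ((Finset.range m).filter fun i => r (i + 1) ≠ r i).card) ≤ wt t u (rl r (m + 1)) := by
  induction m with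
  | zero =>
    simp only [Finset.range_one, Finset.sum_singleton, Finset.range_zero, Finset.filter_empty,
      Finset.card_empty, add_zero, pow_one, rl, wt, one_mul, zero_add]
    apply mul_le_mul_of_nonneg_left _ (by positivity)
    by_cases h : r 0 = ([] : List ℕ).headD 0
    · rw [if_pos h]; exact hu1
    · rw [if_neg h]
  | succ m ih =>
    rw [Finset.sum_range_succ, pow_add, rl, wt]
    have hhead : (rl r (m + 1)).headD 0 = r m := by rw [rl]; rfl
    generalize ∑ i ∈ Finset.range (m + 1), r i = s at ih ⊢
    rw [hhead, Finset.range_add_one, Finset.filter_insert]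
    by_cases h : r (m + 1) = r m
    · rw [if_neg (by simpa using h), if_pos h, mul_one]
      calc t ^ s * t ^ (r (m + 1)) *
            u ^ (1 + ((Finset.range m).filter fun i => r (i + 1) ≠ r i).card)
          = (t ^ s *
            u ^ (1 + ((Finset.range m).filter fun i => r (i + 1) ≠ r i).card)) *
            t ^ (r (m + 1)) := by ring
        _ ≤ _ := mul_le_mul_of_nonneg_right ih (by positivity)
    · rw [if_pos h, if_neg h, Finset.card_insert_of_notMem (by simp)]
      calc t ^ s * t ^ (r (m + 1)) *
            u ^ (1 + (((Finset.range m).filter fun i => r (i + 1) ≠ r i).card + 1))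
          = (t ^ s *
            u ^ (1 + ((Finset.range m).filter fun i => r (i + 1) ≠ r i).card)) *
            t ^ (r (m + 1)) * u := by ring
        _ ≤ _ := mul_le_mul_of_nonneg_right
            (mul_le_mul_of_nonneg_right ih (by positivity)) hu.le

/-! ### The sequence of excesses of a word -/

section word

variable {A : Type} [DecidableEq A] [Fintype A]

lemma Fac_zero (w : ℕ → A) (n : ℕ) : (Fac w n 0).card = 1 := by
  rw [Finset.card_eq_one]
  refine ⟨[], ?_⟩
  ext u
  rw [mem_Fac, Finset.mem_singleton]
  constructor
  · rintro ⟨j, -, h⟩; rw [← h]; rfl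
  · rintro rfl; exact ⟨0, by omega, rfl⟩

lemma Fac_card_le (w : ℕ → A) (n i : ℕ) : (Fac w n i).card ≤ n + 1 - i := by
  unfold Fac
  exact Finset.card_image_le.trans (by rw [Finset.card_range])

lemma sum_r_le (w : ℕ → A) {n m : ℕ} (hm : m ≤ n) : ∑ i ∈ Finset.range m, r w n i ≤ n := by
  have h : ∀ m, (Fac w n m).card + ∑ i ∈ Finset.range m, z w n i =
      1 + ∑ i ∈ Finset.range m, r w n i := by
    intro m
    induction m with
    | zero => simp [Fac_zero]
    | succ m ih =>
      rw [Finset.sum_range_succ, Finset.sum_range_succ]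
      have := eqR (w := w) (n := n) m
      omega
  have h1 := h m
  have h2 := Fac_card_le w n m
  have h3 : ∑ i ∈ Finset.range m, z w n i ≤ m := by
    calc ∑ i ∈ Finset.range m, z w n i ≤ ∑ _i ∈ Finset.range m, 1 :=
          Finset.sum_le_sum fun i _ => z_le i
      _ = m := by simp
  omega

/-- the number of levels below `n` without penalty -/
def Hz (w : ℕ → A) (n : ℕ) : ℕ := ((Finset.range n).filter fun i => z w n i = 0).card

lemma lower_set {s : Finset ℕ} (h : ∀ i ∈ s, ∀ j, j < i → j ∈ s) : s = Finset.range s.card := by
  symm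
  apply Finset.eq_of_subset_of_card_le
  · intro x hx
    rw [Finset.mem_range] at hx
    by_contra hc
    have hsub : s ⊆ Finset.range x := by
      intro i hi
      rw [Finset.mem_range]
      by_contra hix
      rcases Nat.lt_or_ge x i with h' | h'
      · exact hc (h i hi x h')
      · obtain rfl : i = x := by omega
        exact hc hi
    have := Finset.card_le_card hsub
    rw [Finset.card_range] at this
    omega
  · rw [Finset.card_range]

lemma z_of_Hz (w : ℕ → A) {n i : ℕ} (hi : i < n) : z w n i = if i < Hz w n then 0 else 1 := by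
  have hlow := lower_set (s := (Finset.range n).filter fun i => z w n i = 0) (by
    intro i hi j hj
    rw [Finset.mem_filter, Finset.mem_range] at hi ⊢
    refine ⟨by omega, ?_⟩
    by_contra hne
    have h1 : z w n j = 1 := by have := z_le (w := w) (n := n) j; omega
    have h2 : ∀ m, j + m ≤ i → z w n (j + m) = 1 := by
      intro m
      induction m with
      | zero => intro _; exact h1
      | succ m ih =>
        intro hm
        have h3 := z_mono (w := w) (n := n) (i := j + m) (by omega) (ih (by omega))
        exact h3
    have h3 := h2 (i - j) (by omega)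
    rw [show j + (i - j) = i by omega] at h3
    omega)
  have hmem : i ∈ (Finset.range n).filter (fun i => z w n i = 0) ↔ i < Hz w n := by
    rw [hlow, Finset.mem_range]; rfl
  rw [Finset.mem_filter, Finset.mem_range] at hmem
  split_ifs with h
  · exact (hmem.mpr h).2
  · have := z_le (w := w) (n := n) i
    by_contra hne
    exact h (hmem.mp ⟨hi, by omega⟩)

lemma card_eq_of_data {w w' : ℕ → A} {n : ℕ} (hH : Hz w n = Hz w' n)
    (hr : rl (r w n) n = rl (r w' n) n) : ∀ m, m ≤ n → (Fac w n m).card = (Fac w' n m).card := by
  intro m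
  induction m with
  | zero => intro _; rw [Fac_zero, Fac_zero]
  | succ m ih =>
    intro hm
    have h1 := eqR (w := w) (n := n) m
    have h2 := eqR (w := w') (n := n) m
    have h3 := rl_inj n hr m (by omega)
    have h4 := z_of_Hz w (n := n) (i := m) (by omega)
    have h5 := z_of_Hz w' (n := n) (i := m) (by omega)
    rw [hH, ← h5] at h4
    have := ih (by omega)
    omega

lemma changes_le (w : ℕ → A) (m S : ℕ) :
    ((Finset.range m).filter fun i => r w (m + 1) (i + 1) ≠ r w (m + 1) i).card ≤
      ((Finset.range (m + 1)).filter fun i => r w (m + 1) i ≤ S ∧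
        r w (m + 1) (i + 1) ≠ r w (m + 1) i).card + (m + 1) / (S + 1) := by
  have hsub : (Finset.range m).filter (fun i => r w (m + 1) (i + 1) ≠ r w (m + 1) i) ⊆
      ((Finset.range (m + 1)).filter fun i => r w (m + 1) i ≤ S ∧
        r w (m + 1) (i + 1) ≠ r w (m + 1) i) ∪
      (Finset.range (m + 1)).filter fun i => ¬ r w (m + 1) i ≤ S := by
    intro i hi
    rw [Finset.mem_union, Finset.mem_filter, Finset.mem_filter, Finset.mem_range]
    rw [Finset.mem_filter, Finset.mem_range] at hi
    by_cases h : r w (m + 1) i ≤ S
    · exact Or.inl ⟨by omega, h, hi.2⟩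
    · exact Or.inr ⟨by omega, h⟩
  have h1 := Finset.card_le_card hsub
  have h2 := Finset.card_union_le ((Finset.range (m + 1)).filter fun i => r w (m + 1) i ≤ S ∧
        r w (m + 1) (i + 1) ≠ r w (m + 1) i)
      ((Finset.range (m + 1)).filter fun i => ¬ r w (m + 1) i ≤ S)
  have h3 : ((Finset.range (m + 1)).filter fun i => ¬ r w (m + 1) i ≤ S).card ≤
      (m + 1) / (S + 1) := by
    rw [Nat.le_div_iff_mul_le (by omega)]
    calc ((Finset.range (m + 1)).filter fun i => ¬ r w (m + 1) i ≤ S).card * (S + 1)
        = ∑ _i ∈ (Finset.range (m + 1)).filter fun i => ¬ r w (m + 1) i ≤ S, (S + 1) := by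
          rw [Finset.sum_const, smul_eq_mul]
      _ ≤ ∑ i ∈ (Finset.range (m + 1)).filter fun i => ¬ r w (m + 1) i ≤ S, r w (m + 1) i := by
          apply Finset.sum_le_sum
          intro i hi
          rw [Finset.mem_filter] at hi
          omega
      _ ≤ ∑ i ∈ Finset.range (m + 1), r w (m + 1) i :=
          Finset.sum_le_sum_of_subset (Finset.filter_subset _ _)
      _ ≤ m + 1 := sum_r_le w le_rfl
  omega

end word

/-! ### Complexity sequences -/

/-- the number of distinct subwords of length `m` of `w` -/
noncomputable def cpl {A : Type} (w : List A) (m : ℕ) : ℕ :=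
  {u : List A | u.length = m ∧ u <:+: w}.ncard

/-- the subword complexity sequence `(p_w(1), …, p_w(n))`, `n = |w|` -/
noncomputable def cseq {A : Type} (w : List A) : List ℕ :=
  (List.range w.length).map fun i => cpl w (i + 1)

lemma cpl_eq {A : Type} [DecidableEq A] [Fintype A] (w : List A) (a : A) (m : ℕ) :
    cpl w m = (Fac (fun i => w.getD i a) w.length m).card := by
  unfold cpl
  rw [← Set.ncard_coe_finset]
  congr 1
  ext u
  rw [Set.mem_ofPred_eq, Finset.mem_coe, mem_Fac]
  have hget : ∀ j, j < w.length → w[j]? = some (w.getD j a) := by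
    intro j hj
    rw [List.getD_eq_getElem?_getD, List.getElem?_eq_getElem hj]; rfl
  have hseg : ∀ j, j + m ≤ w.length → seg (fun i => w.getD i a) j m = (w.drop j).take m := by
    intro j hj
    apply List.ext_getElem?
    intro t
    rcases Nat.lt_or_ge t m with h | h
    · unfold seg
      rw [List.getElem?_map, List.getElem?_range h, List.getElem?_take_of_lt h,
        List.getElem?_drop, hget (j + t) (by omega)]
      rfl
    · rw [List.getElem?_eq_none (by rw [seg_length]; exact h),
        List.getElem?_eq_none (by rw [List.length_take]; omega)]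
  constructor
  · rintro ⟨hl, s, t, hst⟩
    have hlen : s.length + (u.length + t.length) = w.length := by
      rw [← hst]; simp
    refine ⟨s.length, by omega, ?_⟩
    rw [hseg _ (by omega), ← hst, List.append_assoc, List.drop_left, ← hl, List.take_left]
  · rintro ⟨j, hj, h⟩
    rw [hseg j hj] at h
    refine ⟨by rw [← h, List.length_take, List.length_drop]; omega, ?_⟩
    rw [← h]
    exact (List.take_prefix m _).isInfix.trans (List.drop_suffix j w).isInfix

end Pool.Agent.R125.Cpl
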