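import Mathlib
import Pool.Agent.R125.CplC

/-!
The number of factor complexity sequences of words of length `n` is `exp(o(n))`.
-/

set_option autoImplicit false
set_option linter.unusedSectionVars false

open Filter Topology

namespace Pool.Agent.R125.Cpl

/-- the set of complexity sequences of words of length `n` over `A` -/
def Seqs (A : Type) (n : ℕ) : Set (List ℕ) := {s | ∃ w : List A, w.length = n ∧ s = cseq w}

/-- the bound on the number of changes -/
def EE (n S d k0 : ℕ) : ℕ :=
  k0 * d + 1 + (n / d + 1) * ((S + 1) * S) + (d * ((n / ((k0 - 3) * d) + 1) * 4)) * d + n / (S + 1)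

lemma seqs_ncard {A : Type} [DecidableEq A] [Fintype A] {n : ℕ} (hn : 1 ≤ n) {t u : ℝ}
    (ht : 0 < t) (ht1 : t < 1) (hu : 0 < u) (hu1 : u ≤ 1) {S d k0 : ℕ} (hd : 0 < d)
    (hk0 : 4 ≤ k0) :
    ((Seqs A n).ncard : ℝ) * (t ^ n * u ^ (1 + EE n S d k0)) ≤
      (n + 1) * (1 + u / (1 - t)) ^ n := by
  classical
  have hpos : 0 < t ^ n * u ^ (1 + EE n S d k0) := by positivity
  have h1t : 0 < 1 - t := by linarith
  by_cases hA : Nonempty A
  · have hch : ∀ s : List ℕ, ∃ W : ℕ → A, s ∈ Seqs A n →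
        s = (List.range n).map fun i => (Fac W n (i + 1)).card := by
      intro s
      by_cases hs : s ∈ Seqs A n
      · obtain ⟨w, hw, hsw⟩ := hs
        have a : A := hA.some
        refine ⟨fun i => w.getD i a, fun _ => ?_⟩
        rw [hsw, cseq, hw]
        apply List.map_congr_left
        intro i _
        rw [cpl_eq w a, hw]
      · exact ⟨fun _ => hA.some, fun h => absurd h hs⟩
    choose W hW using hch
    set θ := t ^ n * u ^ (1 + EE n S d k0) with hθ
    set T : Finset (List ℕ) := (Lst n n).filter fun l => θ ≤ wt t u l with hT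
    have hTcard : (T.card : ℝ) * θ ≤ (1 + u / (1 - t)) ^ n := by
      calc (T.card : ℝ) * θ = ∑ _l ∈ T, θ := by rw [Finset.sum_const, nsmul_eq_mul]
        _ ≤ ∑ l ∈ T, wt t u l := by
            apply Finset.sum_le_sum
            intro l hl
            rw [hT, Finset.mem_filter] at hl
            exact hl.2
        _ ≤ ∑ l ∈ Lst n n, wt t u l := by
            apply Finset.sum_le_sum_of_subset_of_nonneg (Finset.filter_subset _ _)
            intro l _ _
            exact (wt_nonneg ht hu l).le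
        _ ≤ _ := sum_wt ht ht1 hu n n
    set F : List ℕ → ℕ × List ℕ := fun s => (Hz (W s) n, rl (r (W s) n) n) with hF
    have hmaps : ∀ s ∈ Seqs A n, F s ∈ ((Finset.range (n + 1) ×ˢ T : Finset _) : Set _) := by
      intro s _
      rw [Finset.mem_coe, Finset.mem_product, Finset.mem_range, hT, Finset.mem_filter]
      refine ⟨?_, ?_, ?_⟩
      · have : Hz (W s) n ≤ n := by
          unfold Hz
          exact (Finset.card_filter_le _ _).trans (by rw [Finset.card_range])
        simp only [hF]; omega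
      · simp only [hF]
        apply rl_mem
        intro i hi
        exact (Finset.single_le_sum (f := fun i => r (W s) n i) (fun _ _ => Nat.zero_le _)
          (Finset.mem_range.mpr hi)).trans (sum_r_le (W s) le_rfl)
      · simp only [hF]
        obtain ⟨m, rfl⟩ : ∃ m, n = m + 1 := ⟨n - 1, by omega⟩
        refine le_trans ?_ (wt_rl ht hu hu1 (r (W s) (m + 1)) m)
        rw [hθ]
        have h1 := sum_r_le (W s) (n := m + 1) (m := m + 1) le_rfl
        have h2 := changes_le (W s) m S
        have h3 := events_bound (W s) (m + 1) S d k0 hd hk0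
        have h4 : 1 + ((Finset.range m).filter fun i =>
            r (W s) (m + 1) (i + 1) ≠ r (W s) (m + 1) i).card ≤ 1 + EE (m + 1) S d k0 := by
          unfold EE
          omega
        apply mul_le_mul (pow_le_pow_of_le_one ht.le ht1.le h1)
          (pow_le_pow_of_le_one hu.le hu1 h4) (by positivity) (by positivity)
    have hinj : Set.InjOn F (Seqs A n) := by
      intro s hs s' hs' h
      simp only [hF, Prod.mk.injEq] at h
      have hc := card_eq_of_data h.1 h.2
      rw [hW s hs, hW s' hs']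
      apply List.map_congr_left
      intro i hi
      rw [List.mem_range] at hi
      exact hc (i + 1) (by omega)
    have h1 := Set.ncard_le_ncard_of_injOn F hmaps hinj (Finset.finite_toSet _)
    rw [Set.ncard_coe_finset, Finset.card_product, Finset.card_range] at h1
    have h2 : ((Seqs A n).ncard : ℝ) ≤ (n + 1) * T.card := by exact_mod_cast h1
    calc ((Seqs A n).ncard : ℝ) * θ ≤ ((n + 1) * T.card) * θ :=
          mul_le_mul_of_nonneg_right h2 hpos.le
      _ = (n + 1) * (T.card * θ) := by ring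
      _ ≤ _ := mul_le_mul_of_nonneg_left hTcard (by positivity)
  · have : Seqs A n = ∅ := by
      rw [Set.eq_empty_iff_forall_notMem]
      rintro s ⟨w, hw, -⟩
      cases w with
      | nil => simp at hw; omega
      | cons a _ => exact hA ⟨a⟩
    rw [this, Set.ncard_empty, Nat.cast_zero, zero_mul]
    positivity

/-- `a_k(n) ≤ exp(η n)` for all `n ≥ N₀(η)`, uniformly in the alphabet. -/
theorem main_bound {η : ℝ} (hη : 0 < η) : ∃ N0 : ℕ, ∀ n : ℕ, N0 ≤ n →
    ∀ (A : Type) [Finite A], ((Seqs A n).ncard : ℝ) ≤ Real.exp (η * n) := by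
  -- reduce to `η = 6 e`, `0 < e ≤ 1`
  set e : ℝ := min η 1 / 6 with he
  have he0 : 0 < e := by have := lt_min hη one_pos; positivity
  have he1 : e ≤ 1 := by have := min_le_right η 1; rw [he]; linarith
  have h6e : 6 * e ≤ η := by have := min_le_left η 1; rw [he]; linarith
  set t : ℝ := Real.exp (-e) with ht
  have ht0 : 0 < t := Real.exp_pos _
  have ht1 : t < 1 := by rw [ht, Real.exp_lt_one_iff]; linarith
  have h1t : 0 < 1 - t := by linarith
  set u : ℝ := e * (1 - t) with hu
  have hu0 : 0 < u := by positivity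
  have hu1 : u ≤ 1 := by rw [hu]; nlinarith
  set Λ : ℝ := -Real.log u with hΛ
  have hΛ0 : 0 ≤ Λ := by rw [hΛ]; linarith [Real.log_nonpos hu0.le hu1]
  obtain ⟨S, hS⟩ := exists_nat_gt (Λ / e)
  have hS1 : Λ / (S + 1) ≤ e := by
    rw [div_lt_iff₀ he0] at hS
    rw [div_le_iff₀ (by positivity)]
    nlinarith
  obtain ⟨d, hd⟩ := exists_nat_gt (Λ * ((S + 1) * S) / e)
  have hd0 : 0 < d := by
    have h1 : (0 : ℝ) < d := lt_of_le_of_lt (by positivity) hd
    exact_mod_cast h1
  have hd0' : (0 : ℝ) < d := by exact_mod_cast hd0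
  have hd1 : Λ * ((S + 1) * S) / d ≤ e := by
    rw [div_lt_iff₀ he0] at hd
    rw [div_le_iff₀ hd0']
    linarith
  obtain ⟨k1, hk1⟩ := exists_nat_gt (Λ * (4 * d) / e)
  have hk10 : 0 < k1 := by
    have h1 : (0 : ℝ) < k1 := lt_of_le_of_lt (by positivity) hk1
    exact_mod_cast h1
  have hk10' : (0 : ℝ) < k1 := by exact_mod_cast hk10
  have hk11 : Λ * (4 * d) / k1 ≤ e := by
    rw [div_lt_iff₀ he0] at hk1
    rw [div_le_iff₀ hk10']
    linarith
  set k0 := k1 + 3 with hk0
  set C0 : ℝ := ((k0 * d + 1 + (S + 1) * S + 4 * d * d : ℕ) : ℝ) with hC0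
  -- the bound for `EE`
  have hEE : ∀ n : ℕ, Λ * (1 + (EE n S d k0 : ℕ)) ≤ Λ * (1 + C0) + 3 * e * n := by
    intro n
    have h1 : ((EE n S d k0 : ℕ) : ℝ) ≤ C0 + n * (((S + 1) * S : ℝ) / d) +
        n * ((4 * d : ℝ) / k1) + n / (S + 1) := by
      unfold EE
      have e1 : ((n / d : ℕ) : ℝ) ≤ n / d := Nat.cast_div_le
      have e2 : ((n / ((k0 - 3) * d) : ℕ) : ℝ) ≤ n / (k1 * d) := by
        have : k0 - 3 = k1 := by omega
        rw [this]
        have := Nat.cast_div_le (α := ℝ) (m := n) (n := k1 * d)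
        push_cast at this
        exact this
      have e3 : ((n / (S + 1) : ℕ) : ℝ) ≤ n / (S + 1) := by
        have := Nat.cast_div_le (α := ℝ) (m := n) (n := S + 1)
        push_cast at this
        exact this
      push_cast
      rw [hC0]
      push_cast
      have e4 : ((n / d : ℕ) : ℝ) * ((S + 1) * S) ≤ n * (((S + 1) * S : ℝ) / d) := by
        calc ((n / d : ℕ) : ℝ) * ((S + 1) * S) ≤ (n / d) * ((S + 1) * S) :=
              mul_le_mul_of_nonneg_right e1 (by positivity)
          _ = _ := by ring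
      have e5 : ((n / ((k0 - 3) * d) : ℕ) : ℝ) * (4 * d * d) ≤ n * ((4 * d : ℝ) / k1) := by
        calc ((n / ((k0 - 3) * d) : ℕ) : ℝ) * (4 * d * d) ≤ (n / (k1 * d)) * (4 * d * d) :=
              mul_le_mul_of_nonneg_right e2 (by positivity)
          _ = _ := by field_simp
      nlinarith
    have h2 := mul_le_mul_of_nonneg_left h1 hΛ0
    have hn0 : (0 : ℝ) ≤ n := Nat.cast_nonneg n
    have h3 : Λ * (n * (((S + 1) * S : ℝ) / d)) ≤ e * n := by
      calc Λ * (n * (((S + 1) * S : ℝ) / d)) = (Λ * ((S + 1) * S) / d) * n := by ring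
        _ ≤ e * n := mul_le_mul_of_nonneg_right hd1 hn0
    have h4 : Λ * (n * ((4 * d : ℝ) / k1)) ≤ e * n := by
      calc Λ * (n * ((4 * d : ℝ) / k1)) = (Λ * (4 * d) / k1) * n := by ring
        _ ≤ e * n := mul_le_mul_of_nonneg_right hk11 hn0
    have h5 : Λ * (n / (S + 1)) ≤ e * n := by
      calc Λ * (n / (S + 1)) = (Λ / (S + 1)) * n := by ring
        _ ≤ e * n := mul_le_mul_of_nonneg_right hS1 hn0
    linarith
  set C : ℝ := Real.exp (Λ * (1 + C0)) with hC
  have hCpos : 0 < C := Real.exp_pos _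
  obtain ⟨N1, hN1⟩ := exists_nat_gt (4 * C / e ^ 2)
  refine ⟨N1 + 1, fun n hn A _ => ?_⟩
  classical
  have := Fintype.ofFinite A
  have hn1 : 1 ≤ n := by omega
  have hnr : (1 : ℝ) ≤ n := by exact_mod_cast hn1
  have h1 := seqs_ncard (A := A) hn1 ht0 ht1 hu0 hu1 (S := S) (d := d) (k0 := k0) hd0
    (by omega)
  have hue : u / (1 - t) = e := by rw [hu]; field_simp
  rw [hue] at h1
  -- rewrite the weights as exponentials
  have hw : t ^ n * u ^ (1 + EE n S d k0) =
      Real.exp (-(e * n + Λ * (1 + (EE n S d k0 : ℕ)))) := by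
    have hu' : u ^ (1 + EE n S d k0) = Real.exp (((1 + EE n S d k0 : ℕ) : ℝ) * Real.log u) := by
      rw [Real.exp_nat_mul, Real.exp_log hu0]
    rw [hu', ht, ← Real.exp_nat_mul, ← Real.exp_add]
    congr 1
    rw [hΛ]; push_cast; ring
  rw [hw, Real.exp_neg, ← div_eq_mul_inv, div_le_iff₀ (Real.exp_pos _)] at h1
  have h2 : (1 + e) ^ n ≤ Real.exp (e * n) := by
    have := Real.add_one_le_exp e
    calc (1 + e) ^ n ≤ (Real.exp e) ^ n := pow_le_pow_left₀ (by linarith) (by linarith) n
      _ = Real.exp (e * n) := by rw [← Real.exp_nat_mul]; ring_nf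
  have h3 : Real.exp (e * n + Λ * (1 + (EE n S d k0 : ℕ))) ≤ C * Real.exp (4 * e * n) := by
    rw [hC, ← Real.exp_add]
    apply Real.exp_le_exp.mpr
    have := hEE n
    linarith
  have h4 : ((n : ℝ) + 1) * C ≤ Real.exp (e * n) := by
    have h5 := Real.quadratic_le_exp_of_nonneg (x := e * n) (by positivity)
    have h6 : 4 * C < e ^ 2 * n := by
      rw [div_lt_iff₀ (by positivity)] at hN1
      have : (N1 : ℝ) ≤ n := by exact_mod_cast (by omega : N1 ≤ n)
      nlinarith [sq_nonneg e]
    have h7 : ((n : ℝ) + 1) * C ≤ 2 * n * C :=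
      mul_le_mul_of_nonneg_right (by linarith) hCpos.le
    have h8 : 2 * n * C ≤ (e * n) ^ 2 / 2 := by
      have h10 := mul_le_mul_of_nonneg_right h6.le (show (0 : ℝ) ≤ n by linarith)
      have h11 : (e * n) ^ 2 = e ^ 2 * n * n := by ring
      rw [h11]
      linarith
    have h9 : 0 ≤ e * n := by positivity
    linarith
  calc ((Seqs A n).ncard : ℝ)
      ≤ (n + 1) * (1 + e) ^ n * Real.exp (e * n + Λ * (1 + (EE n S d k0 : ℕ))) := h1
    _ ≤ (n + 1) * Real.exp (e * n) * (C * Real.exp (4 * e * n)) := by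
        apply mul_le_mul _ h3 (Real.exp_pos _).le (by positivity)
        exact mul_le_mul_of_nonneg_left h2 (by positivity)
    _ = ((n + 1) * C) * (Real.exp (e * n) * Real.exp (4 * e * n)) := by ring
    _ ≤ Real.exp (e * n) * (Real.exp (e * n) * Real.exp (4 * e * n)) :=
        mul_le_mul_of_nonneg_right h4 (by positivity)
    _ = Real.exp (6 * e * n) := by rw [← Real.exp_add, ← Real.exp_add]; ring_nf
    _ ≤ Real.exp (η * n) := by
        apply Real.exp_le_exp.mpr
        exact mul_le_mul_of_nonneg_right h6e (by positivity)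

lemma seqs_finite (A : Type) [Finite A] (n : ℕ) : (Seqs A n).Finite := by
  have : Seqs A n = cseq '' {w : List A | w.length = n} := by
    ext s
    constructor
    · rintro ⟨w, hw, rfl⟩; exact ⟨w, hw, rfl⟩
    · rintro ⟨w, hw, rfl⟩; exact ⟨w, hw, rfl⟩
  rw [this]
  exact (List.finite_length_eq A n).image _

lemma seqs_pos (A : Type) [Finite A] [Nonempty A] (n : ℕ) : 1 ≤ (Seqs A n).ncard :=
  (Set.ncard_pos (seqs_finite A n)).mpr
    ⟨_, List.replicate n (Classical.arbitrary A), by simp, rfl⟩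

/-- `log a(n) / n → 0` -/
theorem log_tendsto (A : Type) [Finite A] [Nonempty A] :
    Tendsto (fun n : ℕ => Real.log (Seqs A n).ncard / n) atTop (𝓝 0) := by
  rw [Metric.tendsto_atTop]
  intro ε hε
  obtain ⟨N0, hN0⟩ := main_bound (η := ε / 2) (by linarith)
  refine ⟨N0 + 1, fun n hn => ?_⟩
  have hn0 : (0 : ℝ) < n := by exact_mod_cast (by omega : 0 < n)
  have h1 := hN0 n (by omega) A
  have h2 : (1 : ℝ) ≤ (Seqs A n).ncard := by exact_mod_cast seqs_pos A n
  have h3 : 0 ≤ Real.log (Seqs A n).ncard := Real.log_nonneg h2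
  rw [Real.dist_eq, sub_zero, abs_of_nonneg (div_nonneg h3 hn0.le), div_lt_iff₀ hn0]
  have h4 := Real.log_le_log (by linarith) h1
  rw [Real.log_exp] at h4
  nlinarith

/-- the ratio to `c 2^{n/2}` tends to `0` -/
theorem ratio_tendsto (A : Type) [Finite A] {c : ℝ} (hc : 0 < c) :
    Tendsto (fun n : ℕ => ((Seqs A n).ncard : ℝ) / (c * 2 ^ ((n : ℝ) / 2))) atTop (𝓝 0) := by
  obtain ⟨N0, hN0⟩ := main_bound (η := 1 / 10) (by norm_num)
  have hlog := Real.log_two_gt_d9
  have h0 : Tendsto (fun n : ℕ => (1 / c) * Real.exp (-(1 / 5)) ^ n) atTop (𝓝 ((1 / c) * 0)) := by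
    apply Tendsto.const_mul
    apply tendsto_pow_atTop_nhds_zero_of_lt_one (Real.exp_pos _).le
    rw [Real.exp_lt_one_iff]; norm_num
  rw [mul_zero] at h0
  refine squeeze_zero' (Eventually.of_forall fun n => by positivity) ?_ h0
  rw [eventually_atTop]
  refine ⟨N0, fun n hn => ?_⟩
  have h1 := hN0 n hn A
  have h2 : (2 : ℝ) ^ ((n : ℝ) / 2) = Real.exp (Real.log 2 * (n / 2)) := by
    rw [Real.rpow_def_of_pos (by norm_num)]
  rw [h2, ← Real.exp_nat_mul]
  rw [div_le_iff₀ (by positivity)]
  have h3 : 1 / c * Real.exp (n * -(1 / 5)) * (c * Real.exp (Real.log 2 * (n / 2))) =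
      Real.exp (n * -(1 / 5) + Real.log 2 * (n / 2)) := by
    rw [Real.exp_add]; field_simp
  rw [h3]
  refine h1.trans (Real.exp_le_exp.mpr ?_)
  have hn0 : (0 : ℝ) ≤ n := Nat.cast_nonneg n
  nlinarith

end Pool.Agent.R125.Cpl
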