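import Mathlib

/-!
# Parity of pattern counts: additivity, carry trick, control lemma
-/

namespace R125P

/-- parity of the number of `p` with `n / 2^p ≠ 0` and `(n / 2^p) % 2^r = c` -/
def E (r c : ℕ) : ℕ → ZMod 2
  | 0 => 0
  | (n + 1) => E r c ((n + 1) / 2) + if (n + 1) % 2 ^ r = c then 1 else 0
decreasing_by omega

/-- the correction for the all-zero pattern -/
def dl (c : ℕ) : ZMod 2 := if c = 0 then 1 else 0

/-- `E` corrected by the bit length when `c = 0` -/
def G (r c : ℕ) : ℕ → ZMod 2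
  | 0 => 0
  | (n + 1) => G r c ((n + 1) / 2) + (if (n + 1) % 2 ^ r = c then 1 else 0) + dl c
decreasing_by omega

variable {r c : ℕ}

lemma E_zero : E r c 0 = 0 := by rw [E]

lemma G_zero : G r c 0 = 0 := by rw [G]

lemma E_pos {n : ℕ} (hn : 0 < n) :
    E r c n = E r c (n / 2) + if n % 2 ^ r = c then 1 else 0 := by
  obtain ⟨m, rfl⟩ : ∃ m, n = m + 1 := ⟨n - 1, by omega⟩
  rw [E]

lemma G_pos {n : ℕ} (hn : 0 < n) :
    G r c n = G r c (n / 2) + (if n % 2 ^ r = c then 1 else 0) + dl c := by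
  obtain ⟨m, rfl⟩ : ∃ m, n = m + 1 := ⟨n - 1, by omega⟩
  rw [G]

lemma two_eq_zero' : (2 : ZMod 2) = 0 := rfl

lemma add_self' (x : ZMod 2) : x + x = 0 := CharTwo.add_self_eq_zero x

lemma dl_eq : (if 0 = c then (1 : ZMod 2) else 0) = dl c := by
  unfold dl
  by_cases h : c = 0
  · simp [h]
  · simp [h, Ne.symm h]

lemma E_shift {X : ℕ} (hX : 0 < X) (hr : 2 ^ r ∣ X) (i : ℕ) :
    E r c (2 ^ i * X) = E r c X + i * dl c := by
  induction i with
  | zero => simp
  | succ i ih =>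
    have hpos : 0 < 2 ^ (i + 1) * X := by positivity
    have h2 : 2 ^ (i + 1) * X / 2 = 2 ^ i * X := by
      rw [pow_succ, mul_comm (2 ^ i) 2, mul_assoc, Nat.mul_div_cancel_left _ (by norm_num)]
    have h0 : 2 ^ (i + 1) * X % 2 ^ r = 0 := Nat.mod_eq_zero_of_dvd (hr.mul_left _)
    rw [E_pos hpos, h2, h0, ih, dl_eq]
    push_cast
    ring

lemma G_shift {X : ℕ} (hX : 0 < X) (hr : 2 ^ r ∣ X) (i : ℕ) :
    G r c (2 ^ i * X) = G r c X := by
  induction i with
  | zero => simp
  | succ i ih =>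
    have hpos : 0 < 2 ^ (i + 1) * X := by positivity
    have h2 : 2 ^ (i + 1) * X / 2 = 2 ^ i * X := by
      rw [pow_succ, mul_comm (2 ^ i) 2, mul_assoc, Nat.mul_div_cancel_left _ (by norm_num)]
    have h0 : 2 ^ (i + 1) * X % 2 ^ r = 0 := Nat.mod_eq_zero_of_dvd (hr.mul_left _)
    rw [G_pos hpos, h2, h0, ih, dl_eq, add_assoc, add_self', add_zero]

lemma half_aux (a X y : ℕ) : (2 ^ (a + 1) * X + y) / 2 = 2 ^ a * X + y / 2 := by
  rw [pow_succ, mul_comm (2 ^ a) 2, mul_assoc]
  omega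

lemma mod_aux {X : ℕ} (hr : 2 ^ r ∣ X) (a y : ℕ) : (2 ^ a * X + y) % 2 ^ r = y % 2 ^ r := by
  have h : 2 ^ r ∣ 2 ^ a * X := hr.mul_left _
  obtain ⟨q, hq⟩ := h
  rw [hq, add_comm, Nat.add_mul_mod_self_left]

/-- additivity for `E` -/
lemma E_add {X : ℕ} (hX : 0 < X) (hr : 2 ^ r ∣ X) (k : ℕ) : ∀ y, y < 2 ^ k →
    E r c (2 ^ (r + k) * X + y) = E r c X + G r c y + ((r + k : ℕ) : ZMod 2) * dl c := by
  induction k with
  | zero =>
    intro y hy
    have : y = 0 := by simpa using hy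
    subst this
    rw [add_zero, E_shift hX hr, G_zero, add_zero, add_zero]
  | succ k ih =>
    intro y hy
    have hpos : 0 < 2 ^ (r + (k + 1)) * X + y := by positivity
    have h2 : (2 ^ (r + (k + 1)) * X + y) / 2 = 2 ^ (r + k) * X + y / 2 := by
      rw [← add_assoc, half_aux]
    have hy2 : y / 2 < 2 ^ k := by rw [pow_succ] at hy; omega
    rw [E_pos hpos, h2, ih _ hy2, mod_aux hr]
    rcases Nat.eq_zero_or_pos y with rfl | hy0
    · rw [Nat.zero_div, Nat.zero_mod, dl_eq]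
      push_cast
      ring
    · rw [G_pos (n := y) hy0]
      have := add_self' (dl c)
      push_cast
      linear_combination -this

/-- additivity for `G` -/
lemma G_add {X : ℕ} (hX : 0 < X) (hr : 2 ^ r ∣ X) (k : ℕ) : ∀ y, y < 2 ^ k →
    G r c (2 ^ (r + k) * X + y) = G r c X + G r c y := by
  induction k with
  | zero =>
    intro y hy
    have : y = 0 := by simpa using hy
    subst this
    rw [add_zero, add_zero, G_shift hX hr, G_zero, add_zero]
  | succ k ih =>
    intro y hy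
    have hpos : 0 < 2 ^ (r + (k + 1)) * X + y := by positivity
    have h2 : (2 ^ (r + (k + 1)) * X + y) / 2 = 2 ^ (r + k) * X + y / 2 := by
      rw [← add_assoc, half_aux]
    have hy2 : y / 2 < 2 ^ k := by rw [pow_succ] at hy; omega
    rw [G_pos hpos, h2, ih _ hy2, mod_aux hr]
    rcases Nat.eq_zero_or_pos y with rfl | hy0
    · rw [Nat.zero_div, Nat.zero_mod, dl_eq, G_zero, add_zero, add_assoc, add_self', add_zero]
    · rw [G_pos (n := y) hy0]
      ring

/-- the join lemma -/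
lemma G_join {z z' : ℕ} (hz : 0 < z) (hz' : 0 < z') (hr1 : 1 ≤ r)
    (hmod : z ≡ z' [MOD 2 ^ (r - 1)]) (m : ℕ) : ∀ y, y < 2 ^ m →
    G r c (2 ^ m * z + y) + G r c z = G r c (2 ^ m * z' + y) + G r c z' := by
  induction m with
  | zero =>
    intro y hy
    have : y = 0 := by simpa using hy
    subst this
    simp only [pow_zero, one_mul, add_zero]
    rw [add_self', add_self']
  | succ m ih =>
    intro y hy
    have hy2 : y / 2 < 2 ^ m := by rw [pow_succ] at hy; omega
    have h1 : 0 < 2 ^ (m + 1) * z + y := by positivity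
    have h2 : 0 < 2 ^ (m + 1) * z' + y := by positivity
    have hm : (2 ^ (m + 1) * z + y) % 2 ^ r = (2 ^ (m + 1) * z' + y) % 2 ^ r := by
      have e1 : 2 ^ (m + 1) * z ≡ 2 ^ (m + 1) * z' [MOD 2 ^ r] := by
        have := Nat.ModEq.mul_left' (2 ^ (m + 1)) hmod
        refine this.of_dvd ?_
        rw [← pow_add]
        exact pow_dvd_pow _ (by omega)
      exact e1.add_right y
    have := ih _ hy2
    rw [G_pos h1, G_pos h2, half_aux, half_aux, hm]
    linear_combination this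

lemma G_even_odd {q : ℕ} (hq : 0 < q) :
    G r c (2 * q) + G r c (2 * q + 1)
      = (if (2 * q) % 2 ^ r = c then 1 else 0) + (if (2 * q + 1) % 2 ^ r = c then 1 else 0) := by
  have h1 : 2 * q / 2 = q := by omega
  have h2 : (2 * q + 1) / 2 = q := by omega
  rw [G_pos (n := 2 * q) (by omega), G_pos (n := 2 * q + 1) (by omega), h1, h2]
  have e1 := add_self' (G r c q)
  have e2 := add_self' (dl c)
  linear_combination e1 + e2

/-- closure under addition -/
lemma closure (J X X' : ℕ) (hX : 0 < X) :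
    ∃ X'' > 0, ∀ j, 1 ≤ j → j ≤ J →
      G r c (2 ^ r * (j * X'')) = G r c (2 ^ r * (j * X)) + G r c (2 ^ r * (j * X')) := by
  obtain ⟨k, hk⟩ : ∃ k, 2 ^ r * (J * X') < 2 ^ k := ⟨2 ^ r * (J * X'), Nat.lt_two_pow_self⟩
  refine ⟨2 ^ (r + k) * X + X', by positivity, ?_⟩
  intro j hj1 hjJ
  have e : 2 ^ r * (j * (2 ^ (r + k) * X + X')) =
      2 ^ (r + k) * (2 ^ r * (j * X)) + 2 ^ r * (j * X') := by ring
  rw [e, G_add (by positivity) (Dvd.intro _ rfl) k]
  refine lt_of_le_of_lt ?_ hk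
  exact Nat.mul_le_mul_left _ (Nat.mul_le_mul_right _ hjJ)

/-- threshold numbers -/
lemma threshold {l : ℕ} (hl : 1 ≤ l) :
    ∃ m A : ℕ, 0 < A ∧ 2 ^ m ≤ l * A ∧ l * A < 2 ^ (m + 1) ∧ ∀ j, j < l → j * A < 2 ^ m := by
  obtain ⟨m, hm⟩ : ∃ m, 4 * l * l < 2 ^ m := ⟨4 * l * l, Nat.lt_two_pow_self⟩
  obtain ⟨q, s, hq, hs⟩ : ∃ q s, 2 ^ m = l * q + s ∧ s < l :=
    ⟨2 ^ m / l, 2 ^ m % l, (Nat.div_add_mod _ _).symm, Nat.mod_lt _ (by omega)⟩
  have hq2 : 2 * l ≤ q := by
    by_contra hc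
    push Not at hc
    have : l * q ≤ l * (2 * l) := Nat.mul_le_mul_left _ hc.le
    have h3 : l * (2 * l) = 2 * l * l := by ring
    nlinarith
  refine ⟨m, q + 1, by omega, ?_, ?_, ?_⟩
  · rw [mul_add, mul_one]; omega
  · rw [mul_add, mul_one, pow_succ]
    nlinarith
  · intro j hj
    obtain ⟨l', rfl⟩ : ∃ l', l = l' + 1 := ⟨l - 1, by omega⟩
    have h1 : j * (q + 1) ≤ l' * (q + 1) := Nat.mul_le_mul_right _ (by omega)
    have h2 : l' * (q + 1) < 2 ^ m := by
      rw [hq]
      nlinarith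
    omega

/-- the carry trick -/
lemma carry {l : ℕ} (hl : 1 ≤ l) (hr1 : 1 ≤ r) {B B' : ℕ} (hB : 0 < B) (hB' : 0 < B')
    (hmod : B ≡ B' [MOD 2 ^ (r - 1)]) :
    ∃ X > 0, (∀ j, 1 ≤ j → j < l → G r c (2 ^ r * (j * X)) = 0) ∧
      G r c (2 ^ r * (l * X)) = G r c (l * B) + G r c (l * B + 1) + G r c (l * B')
        + G r c (l * B' + 1) := by
  obtain ⟨m, A, hA, h1, h2, h3⟩ := threshold hl
  -- close blocks
  obtain ⟨X13, hX13, e13⟩ := closure (r := r) (c := c) l (2 ^ m * B + A) (2 ^ m * B' + A)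
    (by positivity)
  obtain ⟨X24, hX24, e24⟩ := closure (r := r) (c := c) l (2 ^ (m + 1) * B + A) (2 ^ (m + 1) * B' + A)
    (by positivity)
  obtain ⟨X, hX, e⟩ := closure (r := r) (c := c) l X13 X24 hX13
  have hjmod : ∀ j, j * B ≡ j * B' [MOD 2 ^ (r - 1)] := fun j => hmod.mul_left j
  -- far pair
  have far : ∀ j, 1 ≤ j → j ≤ l → G r c (2 ^ r * (j * X24)) = G r c (j * B) + G r c (j * B') := by
    intro j hj1 hjl
    rw [e24 j hj1 hjl]
    have hlt : j * A < 2 ^ (m + 1) := by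
      rcases Nat.lt_or_ge j l with h | h
      · have := h3 j h
        rw [pow_succ]; omega
      · have : j = l := by omega
        rw [this]; exact h2
    have hlt2 : 2 ^ r * (j * A) < 2 ^ (r + (m + 1)) := by
      rw [pow_add]; exact Nat.mul_lt_mul_of_pos_left hlt (by positivity)
    have a1 : 2 ^ r * (j * (2 ^ (m + 1) * B + A)) = 2 ^ (r + (m + 1)) * (j * B) + 2 ^ r * (j * A) := by
      rw [pow_add]; ring
    have a2 : 2 ^ r * (j * (2 ^ (m + 1) * B' + A)) = 2 ^ (r + (m + 1)) * (j * B') + 2 ^ r * (j * A) := by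
      rw [pow_add]; ring
    have := G_join (r := r) (c := c) (z := j * B) (z' := j * B') (by positivity) (by positivity) hr1
      (hjmod j) (r + (m + 1)) _ hlt2
    rw [a1, a2]
    have s1 := add_self' (G r c (j * B))
    have s2 := add_self' (G r c (2 ^ (r + (m + 1)) * (j * B') + 2 ^ r * (j * A)))
    linear_combination this - s1 + s2
  have close : ∀ j, 1 ≤ j → j < l → G r c (2 ^ r * (j * X13)) = G r c (j * B) + G r c (j * B') := by
    intro j hj1 hjl
    rw [e13 j hj1 hjl.le]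
    have hlt : j * A < 2 ^ m := h3 j hjl
    have hlt2 : 2 ^ r * (j * A) < 2 ^ (r + m) := by
      rw [pow_add]; exact Nat.mul_lt_mul_of_pos_left hlt (by positivity)
    have a1 : 2 ^ r * (j * (2 ^ m * B + A)) = 2 ^ (r + m) * (j * B) + 2 ^ r * (j * A) := by
      rw [pow_add]; ring
    have a2 : 2 ^ r * (j * (2 ^ m * B' + A)) = 2 ^ (r + m) * (j * B') + 2 ^ r * (j * A) := by
      rw [pow_add]; ring
    have := G_join (r := r) (c := c) (z := j * B) (z' := j * B') (by positivity) (by positivity) hr1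
      (hjmod j) (r + m) _ hlt2
    rw [a1, a2]
    have s1 := add_self' (G r c (j * B))
    have s2 := add_self' (G r c (2 ^ (r + m) * (j * B') + 2 ^ r * (j * A)))
    linear_combination this - s1 + s2
  have closel : G r c (2 ^ r * (l * X13)) = G r c (l * B + 1) + G r c (l * B' + 1) := by
    rw [e13 l hl le_rfl]
    obtain ⟨y, hy⟩ : ∃ y, l * A = 2 ^ m + y := ⟨l * A - 2 ^ m, by omega⟩
    have hlt : y < 2 ^ m := by rw [pow_succ] at h2; omega
    have hlt2 : 2 ^ r * y < 2 ^ (r + m) := by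
      rw [pow_add]; exact Nat.mul_lt_mul_of_pos_left hlt (by positivity)
    have a1 : 2 ^ r * (l * (2 ^ m * B + A)) = 2 ^ (r + m) * (l * B + 1) + 2 ^ r * y := by
      have : l * (2 ^ m * B + A) = 2 ^ m * (l * B) + l * A := by ring
      rw [this, hy, pow_add]; ring
    have a2 : 2 ^ r * (l * (2 ^ m * B' + A)) = 2 ^ (r + m) * (l * B' + 1) + 2 ^ r * y := by
      have : l * (2 ^ m * B' + A) = 2 ^ m * (l * B') + l * A := by ring
      rw [this, hy, pow_add]; ring
    have := G_join (r := r) (c := c) (z := l * B + 1) (z' := l * B' + 1) (by positivity)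
      (by positivity) hr1 ((hjmod l).add_right 1) (r + m) _ hlt2
    rw [a1, a2]
    have s1 := add_self' (G r c (l * B + 1))
    have s2 := add_self' (G r c (2 ^ (r + m) * (l * B' + 1) + 2 ^ r * y))
    linear_combination this - s1 + s2
  refine ⟨X, hX, ?_, ?_⟩
  · intro j hj1 hjl
    rw [e j hj1 hjl.le, far j hj1 hjl.le, close j hj1 hjl, add_self']
  · rw [e l hl le_rfl, far l hl le_rfl, closel]
    ring

/-- two multiples of an odd number with different behaviour under a carry -/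
lemma exBB {l : ℕ} (hl : l % 2 = 1) (hr1 : 1 ≤ r) (hc : c < 2 ^ r) :
    ∃ B B' : ℕ, 0 < B ∧ 0 < B' ∧ B ≡ B' [MOD 2 ^ (r - 1)] ∧
      G r c (l * B) + G r c (l * B + 1) + G r c (l * B') + G r c (l * B' + 1) = 1 := by
  have hl1 : 1 ≤ l := by omega
  rcases Nat.lt_or_ge 1 r with hr2 | hr2
  · -- r ≥ 2
    obtain ⟨r', rfl⟩ : ∃ r', r = r' + 2 := ⟨r - 2, by omega⟩
    have hcop : Nat.Coprime l (2 ^ (r' + 2)) :=
      Nat.Coprime.pow_right _ (Nat.coprime_two_right.2 (Nat.odd_iff.2 hl))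
    obtain ⟨i, hi⟩ : ∃ i, l * i ≡ 1 [MOD 2 ^ (r' + 2)] := by
      obtain ⟨i, hi⟩ := Nat.exists_mul_mod_eq_one_of_coprime hcop
        (by have : 1 < 2 ^ (r' + 2) := Nat.one_lt_two_pow (by omega)
            exact this)
      refine ⟨i, ?_⟩
      unfold Nat.ModEq
      rw [hi.2, Nat.mod_eq_of_lt (Nat.one_lt_two_pow (by omega))]
    -- B = i * 2⌊c/2⌋ + 2^(r'+2)
    obtain ⟨B, hBdef⟩ : ∃ B, B = i * (2 * (c / 2)) + 2 ^ (r' + 2) := ⟨_, rfl⟩
    have hB0 : 0 < B := by rw [hBdef]; positivity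
    have hlB : l * B ≡ 2 * (c / 2) [MOD 2 ^ (r' + 2)] := by
      rw [hBdef]
      have e : l * (i * (2 * (c / 2)) + 2 ^ (r' + 2)) = l * i * (2 * (c / 2)) + 2 ^ (r' + 2) * l := by
        ring
      rw [e]
      have h1 := hi.mul_right (2 * (c / 2))
      rw [one_mul] at h1
      unfold Nat.ModEq at *
      rw [Nat.add_mul_mod_self_left]
      exact h1
    have hlB2 : (l * B) % 2 ^ (r' + 2) = 2 * (c / 2) := by
      rw [hlB, Nat.mod_eq_of_lt (by omega)]
    refine ⟨B, B + 2 ^ (r' + 1), hB0, by positivity, by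
        have : r' + 2 - 1 = r' + 1 := by omega
        rw [this]
        unfold Nat.ModEq
        rw [Nat.add_mod_right], ?_⟩
    -- l*B = 2q
    have hpow : 2 ^ (r' + 2) = 2 * 2 ^ (r' + 1) := by rw [pow_succ]; ring
    have hpow1 : 2 ^ (r' + 1) = 2 * 2 ^ r' := by rw [pow_succ]; ring
    have hev : (l * B) % 2 = 0 := by
      have h1 : (l * B) % 2 ^ (r' + 2) % 2 = (l * B) % 2 :=
        Nat.mod_mod_of_dvd _ (Dvd.intro _ hpow.symm)
      rw [← h1, hlB2]; omega
    obtain ⟨q, hq⟩ : ∃ q, l * B = 2 * q := ⟨l * B / 2, by omega⟩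
    have hq0 : 0 < q := by
      have : 0 < l * B := by positivity
      omega
    obtain ⟨l2, hl2⟩ : ∃ l2, l = 2 * l2 + 1 := ⟨l / 2, by omega⟩
    have hq' : l * (B + 2 ^ (r' + 1)) = 2 * (q + l * 2 ^ r') := by
      rw [mul_add, hq, hpow1]; ring
    have s1 := G_even_odd (r := r' + 2) (c := c) hq0
    have s2 := G_even_odd (r := r' + 2) (c := c) (q := q + l * 2 ^ r') (by positivity)
    rw [hq, hq']
    -- residues
    rw [hq] at hlB2
    have m1 : (2 * q) % 2 ^ (r' + 2) = 2 * (c / 2) := hlB2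
    have m2 : (2 * q + 1) % 2 ^ (r' + 2) = 2 * (c / 2) + 1 := by
      rw [Nat.add_mod, m1, Nat.mod_eq_of_lt (a := 1) (Nat.one_lt_two_pow (by omega)),
        Nat.mod_eq_of_lt]
      rw [hpow] at hc ⊢
      omega
    have m3 : (2 * (q + l * 2 ^ r')) % 2 ^ (r' + 2) = (2 * (c / 2) + 2 ^ (r' + 1)) % 2 ^ (r' + 2) := by
      have e1 : 2 * (q + l * 2 ^ r') = 2 * q + 2 ^ (r' + 1) + 2 ^ (r' + 2) * l2 := by
        rw [hl2, hpow, hpow1]; ring
      rw [e1, Nat.add_mul_mod_self_left, Nat.add_mod, m1]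
      conv_rhs => rw [Nat.add_mod, Nat.mod_eq_of_lt (a := 2 * (c / 2)) (by omega)]
    have hhalf : 2 * (c / 2) < 2 * 2 ^ (r' + 1) := by rw [← hpow]; omega
    -- values
    have n3 : ¬ ((2 * (q + l * 2 ^ r')) % 2 ^ (r' + 2) = c) := by
      rw [m3, hpow]
      have hp : 0 < 2 ^ (r' + 1) := by positivity
      rcases Nat.lt_or_ge (2 * (c / 2)) (2 ^ (r' + 1)) with h | h
      · rw [Nat.mod_eq_of_lt (by omega)]
        omega
      · have : 2 * (c / 2) + 2 ^ (r' + 1) = (2 * (c / 2) - 2 ^ (r' + 1)) + 2 * 2 ^ (r' + 1) := by omega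
        rw [this, Nat.add_mod_right, Nat.mod_eq_of_lt (by omega)]
        have h1 : 2 ∣ 2 ^ (r' + 1) := Dvd.intro _ hpow1.symm
        omega
    have n4 : ¬ ((2 * (q + l * 2 ^ r') + 1) % 2 ^ (r' + 2) = c) := by
      intro h
      have h5 : (2 * (q + l * 2 ^ r') + 1) % 2 ^ (r' + 2) = (2 * (q + l * 2 ^ r')) % 2 ^ (r' + 2) + 1 := by
        rw [Nat.add_mod, Nat.mod_eq_of_lt (a := 1) (Nat.one_lt_two_pow (by omega)),
          Nat.mod_eq_of_lt]
        have h6 : (2 * (q + l * 2 ^ r')) % 2 ^ (r' + 2) % 2 = 0 := by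
          rw [Nat.mod_mod_of_dvd _ (Dvd.intro _ hpow.symm)]; omega
        have h7 : (2 * (q + l * 2 ^ r')) % 2 ^ (r' + 2) < 2 ^ (r' + 2) := Nat.mod_lt _ (by positivity)
        rw [hpow] at h6 h7 ⊢
        omega
      rw [h5, m3, hpow] at h
      rcases Nat.lt_or_ge (2 * (c / 2)) (2 ^ (r' + 1)) with h8 | h8
      · rw [Nat.mod_eq_of_lt (by omega)] at h
        have hp : 0 < 2 ^ (r' + 1) := by positivity
        have h1 : 2 ∣ 2 ^ (r' + 1) := Dvd.intro _ hpow1.symm
        omega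
      · have : 2 * (c / 2) + 2 ^ (r' + 1) = (2 * (c / 2) - 2 ^ (r' + 1)) + 2 * 2 ^ (r' + 1) := by omega
        rw [this, Nat.add_mod_right, Nat.mod_eq_of_lt (by omega)] at h
        have hp : 0 < 2 ^ (r' + 1) := by positivity
        have h1 : 2 ∣ 2 ^ (r' + 1) := Dvd.intro _ hpow1.symm
        omega
    rw [if_neg n3, if_neg n4] at s2
    rw [m1, m2] at s1
    have s1' : G (r' + 2) c (2 * q) + G (r' + 2) c (2 * q + 1) = 1 := by
      rw [s1]
      rcases Nat.mod_two_eq_zero_or_one c with h | h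
      · have h1 : 2 * (c / 2) = c := by omega
        rw [if_pos h1, if_neg (by omega), add_zero]
      · have h1 : 2 * (c / 2) + 1 = c := by omega
        rw [if_neg (by omega), if_pos h1, zero_add]
    rw [add_zero] at s2
    linear_combination s1' + s2
  · -- r = 1
    obtain rfl : r = 1 := by omega
    refine ⟨2, l, by norm_num, by omega, by simp [Nat.modEq_one], ?_⟩
    have hc2 : c < 2 := by simpa using hc
    have s1 := G_even_odd (r := 1) (c := c) (q := l) (by omega)
    have s1' : G 1 c (l * 2) + G 1 c (l * 2 + 1) = 1 := by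
      rw [mul_comm l 2, s1]
      interval_cases c
      · have h1 : 2 * l % 2 ^ 1 = 0 := by omega
        have h2 : (2 * l + 1) % 2 ^ 1 = 1 := by omega
        rw [h1, h2]; simp
      · have h1 : 2 * l % 2 ^ 1 = 0 := by omega
        have h2 : (2 * l + 1) % 2 ^ 1 = 1 := by omega
        rw [h1, h2]; simp
    have s2 : G 1 c (l * l) + G 1 c (l * l + 1) = 0 := by
      obtain ⟨w, hw⟩ : ∃ w, l * l = 4 * w + 1 := by
        obtain ⟨k, hk⟩ : ∃ k, l = 2 * k + 1 := ⟨l / 2, by omega⟩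
        exact ⟨k * k + k, by rw [hk]; ring⟩
      rw [hw, G_pos (n := 4 * w + 1) (by omega), G_pos (n := 4 * w + 1 + 1) (by omega)]
      have e1 : (4 * w + 1) / 2 = 2 * w := by omega
      have e2 : (4 * w + 1 + 1) / 2 = 2 * w + 1 := by omega
      rw [e1, e2]
      have e3 : G 1 c (2 * w + 1) = G 1 c w + (if (2 * w + 1) % 2 ^ 1 = c then 1 else 0) + dl c := by
        rw [G_pos (n := 2 * w + 1) (by omega)]
        have : (2 * w + 1) / 2 = w := by omega
        rw [this]
      have e4 : G 1 c (2 * w) = G 1 c w + (if 0 = c then 1 else 0) + dl c := by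
        rcases Nat.eq_zero_or_pos w with rfl | hw0
        · rw [mul_zero, G_zero, dl_eq, add_assoc, add_self', add_zero]
        · rw [G_pos (n := 2 * w) (by omega)]
          have h1 : (2 * w) / 2 = w := by omega
          have h2 : (2 * w) % 2 ^ 1 = 0 := by omega
          rw [h1, h2]
      rw [e3, e4]
      have h1 : (4 * w + 1) % 2 ^ 1 = 1 := by omega
      have h2 : (4 * w + 1 + 1) % 2 ^ 1 = 0 := by omega
      have h3 : (2 * w + 1) % 2 ^ 1 = 1 := by omega
      rw [h1, h2, h3]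
      have t1 := add_self' (G 1 c w)
      have t2 := add_self' (if 0 = c then (1 : ZMod 2) else 0)
      have t3 := add_self' (if 1 = c then (1 : ZMod 2) else 0)
      have t4 := add_self' (dl c)
      linear_combination t1 + t2 + t3 + 2 * t4
    linear_combination s1' + s2

/-- unit vectors -/
lemma unit {l : ℕ} (hl : l % 2 = 1) (hr1 : 1 ≤ r) (hc : c < 2 ^ r) :
    ∃ X > 0, (∀ j, 1 ≤ j → j < l → G r c (2 ^ r * (j * X)) = 0) ∧
      G r c (2 ^ r * (l * X)) = 1 := by
  obtain ⟨B, B', hB, hB', hmod, hs⟩ := exBB hl hr1 hc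
  obtain ⟨X, hX, hX1, hX2⟩ := carry (r := r) (c := c) (l := l) (by omega) hr1 hB hB' hmod
  exact ⟨X, hX, hX1, by rw [hX2, hs]⟩

/-- arbitrary values of `G (2^r j X)` at odd `j` -/
lemma ctrl (hr1 : 1 ≤ r) (hc : c < 2 ^ r) (g : ℕ → ZMod 2) (J : ℕ) :
    ∃ X > 0, ∀ j, j % 2 = 1 → j ≤ J → G r c (2 ^ r * (j * X)) = g j := by
  induction J with
  | zero => exact ⟨1, one_pos, fun j h1 h2 => by omega⟩
  | succ J ih =>
    obtain ⟨X, hX, h⟩ := ih
    by_cases hJ : (J + 1) % 2 = 1 ∧ G r c (2 ^ r * ((J + 1) * X)) ≠ g (J + 1)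
    · obtain ⟨X', hX', h1, h2⟩ := unit hJ.1 hr1 hc
      obtain ⟨X'', hX'', h3⟩ := closure (r := r) (c := c) (J + 1) X X' hX
      refine ⟨X'', hX'', ?_⟩
      intro j hj1 hj2
      rw [h3 j (by omega) hj2]
      rcases Nat.lt_or_ge j (J + 1) with hlt | hge
      · rw [h1 j (by omega) hlt, add_zero]
        exact h j hj1 (by omega)
      · have : j = J + 1 := by omega
        subst this
        rw [h2]
        have hne := hJ.2
        revert hne
        generalize G r c (2 ^ r * ((J + 1) * X)) = a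
        generalize g (J + 1) = b
        revert a b
        decide
    · refine ⟨X, hX, ?_⟩
      intro j hj1 hj2
      rcases Nat.lt_or_ge j (J + 1) with hlt | hge
      · exact h j hj1 (by omega)
      · have : j = J + 1 := by omega
        subst this
        by_contra hne
        exact hJ ⟨hj1, hne⟩

/-- **Control lemma**: prescribe the low bits of `d` and the parities `E (j d)` at odd `j ≤ J`. -/
lemma control (hr1 : 1 ≤ r) (hc : c < 2 ^ r) (τ : ℕ → ZMod 2) (J d₀ R : ℕ) :
    ∃ d > 0, d ≡ d₀ [MOD 2 ^ R] ∧ ∀ j, j % 2 = 1 → j ≤ J → E r c (j * d) = τ j := by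
  obtain ⟨X, hX, h⟩ := ctrl hr1 hc (fun j => τ j + E r c (2 ^ r * j) + G r c (j * d₀)) J
  obtain ⟨k, hk⟩ : ∃ k, J * d₀ < 2 ^ k := ⟨J * d₀, Nat.lt_two_pow_self⟩
  obtain ⟨K1, hK1⟩ : ∃ K1, K1 = R + k := ⟨_, rfl⟩
  have hk1 : J * d₀ < 2 ^ K1 := hk.trans_le (Nat.pow_le_pow_right (by norm_num) (by omega))
  obtain ⟨Y, hY⟩ : ∃ Y, Y = 2 ^ (r + K1) * (2 ^ r * X) + d₀ := ⟨_, rfl⟩
  obtain ⟨K2, hK2⟩ : ∃ K2, J * Y < 2 ^ K2 := ⟨J * Y, Nat.lt_two_pow_self⟩
  obtain ⟨K3, hK3⟩ : ∃ K3, K3 = r + 2 * (K2 + R) := ⟨_, rfl⟩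
  have hk3 : J * Y < 2 ^ K3 := hK2.trans_le (Nat.pow_le_pow_right (by norm_num) (by omega))
  refine ⟨2 ^ (r + K3) * 2 ^ r + Y, by positivity, ?_, ?_⟩
  · rw [hY]
    have h1 : 2 ^ R ∣ 2 ^ (r + K3) * 2 ^ r := by
      rw [← pow_add]; exact pow_dvd_pow _ (by omega)
    have h2 : 2 ^ R ∣ 2 ^ (r + K1) * (2 ^ r * X) :=
      (pow_dvd_pow _ (by omega)).mul_right _
    obtain ⟨a, ha⟩ := h1
    obtain ⟨b, hb⟩ := h2
    rw [ha, hb, ← add_assoc, ← mul_add]
    unfold Nat.ModEq
    rw [add_comm, Nat.add_mul_mod_self_left]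
  · intro j hj1 hj2
    have e1 : j * (2 ^ (r + K3) * 2 ^ r + Y) = 2 ^ (r + K3) * (2 ^ r * j) + j * Y := by ring
    have hj0 : 0 < j := by omega
    rw [e1, E_add (by positivity) (Dvd.intro _ rfl) K3 _
      (lt_of_le_of_lt (Nat.mul_le_mul_right _ hj2) hk3)]
    have e2 : j * Y = 2 ^ (r + K1) * (2 ^ r * (j * X)) + j * d₀ := by rw [hY]; ring
    rw [e2, G_add (by positivity) (Dvd.intro _ rfl) K1 _
      (lt_of_le_of_lt (Nat.mul_le_mul_right _ hj2) hk1), h j hj1 hj2]
    have e3 : ((r + K3 : ℕ) : ZMod 2) = 0 := by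
      rw [ZMod.natCast_eq_zero_iff]
      exact ⟨r + (K2 + R), by rw [hK3]; ring⟩
    rw [e3]
    have s1 := add_self' (E r c (2 ^ r * j))
    have s2 := add_self' (G r c (j * d₀))
    linear_combination s1 + s2

/-- doubling rule -/
lemma E_double {n : ℕ} (hn : 0 < n) :
    E r c (2 * n) = E r c n + if (2 * n) % 2 ^ r = c then 1 else 0 := by
  rw [E_pos (n := 2 * n) (by omega)]
  have : 2 * n / 2 = n := by omega
  rw [this]

lemma E_eq_G (hc0 : c ≠ 0) (n : ℕ) : E r c n = G r c n := by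
  induction n using Nat.strong_induction_on with
  | _ n ih =>
    rcases Nat.eq_zero_or_pos n with rfl | hn
    · rw [E_zero, G_zero]
    · rw [E_pos hn, G_pos hn, ih _ (by omega)]
      simp [dl, hc0]

/-- every progression `d, 2d, 3d, …` contains a term of odd count -/
lemma exists_odd_term (hr1 : 1 ≤ r) (hc : c < 2 ^ r) {d : ℕ} (hd : 0 < d) :
    ∃ l, 1 ≤ l ∧ E r c (l * d) ≠ 0 := by
  by_contra hcon
  push Not at hcon
  by_cases hc0 : c = 0
  · have hp : 0 < 2 ^ (r - 1) := by positivity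
    have h1 := hcon (2 ^ (r - 1)) hp
    have h2 := hcon (2 * 2 ^ (r - 1)) (by omega)
    have h3 := E_double (r := r) (c := c) (n := 2 ^ (r - 1) * d) (by positivity)
    have e1 : 2 * (2 ^ (r - 1) * d) = 2 ^ r * d := by
      obtain ⟨r', rfl⟩ : ∃ r', r = r' + 1 := ⟨r - 1, by omega⟩
      rw [Nat.add_sub_cancel, pow_succ]; ring
    rw [← mul_assoc] at h3
    rw [h2, h1] at h3
    have e2 : 2 * 2 ^ (r - 1) * d = 2 ^ r * d := by rw [mul_assoc]; exact e1
    rw [e2] at h3
    have e3 : 2 ^ r * d % 2 ^ r = c := by rw [hc0]; exact Nat.mul_mod_right _ _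
    rw [if_pos e3] at h3
    exact absurd h3 (by decide)
  · have hcon' : ∀ l, G r c (l * d) = 0 := by
      intro l
      rcases Nat.eq_zero_or_pos l with rfl | hl
      · rw [zero_mul, G_zero]
      · rw [← E_eq_G hc0]; exact hcon l hl
    obtain ⟨a, d', hd', hda⟩ := Nat.exists_eq_two_pow_mul_odd (n := d) (by omega)
    have hd2 : d' % 2 = 1 := Nat.odd_iff.1 hd'
    obtain ⟨B, B', hB, hB', hmod, hs⟩ := exBB (r := r) (c := c) hd2 hr1 hc
    obtain ⟨m, hm⟩ : ∃ m, m = a + d := ⟨_, rfl⟩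
    have hdm : d < 2 ^ m := by
      calc d < 2 ^ d := Nat.lt_two_pow_self
        _ ≤ 2 ^ m := Nat.pow_le_pow_right (by norm_num) (by omega)
    have hmult : ∀ B q, G r c (2 ^ m * (d' * B) + q * d) = 0 := by
      intro B q
      have : 2 ^ m * (d' * B) + q * d = (2 ^ d * B + q) * d := by
        conv_rhs => rw [add_mul, mul_assoc, mul_comm B d, ← mul_assoc, hda]
        conv_lhs => rw [hda]
        rw [hm, pow_add]
        conv_lhs => rw [hda]
        ring
      rw [this]
      exact hcon' _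
    have hmod' := hmod.mul_left d'
    have hz : 0 < d' * B := by
      have : 0 < d' := by omega
      positivity
    have hz' : 0 < d' * B' := by
      have : 0 < d' := by omega
      positivity
    have j0 := G_join (r := r) (c := c) hz hz' hr1 hmod' m 0 (by positivity)
    have m0 := hmult B 0
    have m0' := hmult B' 0
    rw [zero_mul] at m0 m0'
    rw [m0, m0', zero_add, zero_add] at j0
    obtain ⟨q, w, hw, hqw⟩ : ∃ q w, w < 2 ^ m ∧ q * d = 2 ^ m + w := by
      refine ⟨2 ^ m / d + 1, (2 ^ m / d + 1) * d - 2 ^ m, ?_, ?_⟩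
      · have h1 := Nat.div_add_mod (2 ^ m) d
        have h2 := Nat.mod_lt (2 ^ m) hd
        have h3 : (2 ^ m / d + 1) * d = d * (2 ^ m / d) + d := by ring
        rw [h3]; omega
      · have h1 := Nat.div_add_mod (2 ^ m) d
        have h2 := Nat.mod_lt (2 ^ m) hd
        have h3 : (2 ^ m / d + 1) * d = d * (2 ^ m / d) + d := by ring
        rw [h3]; omega
    have m1 := hmult B q
    have m1' := hmult B' q
    have e1 : 2 ^ m * (d' * B) + q * d = 2 ^ m * (d' * B + 1) + w := by rw [hqw]; ring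
    have e1' : 2 ^ m * (d' * B') + q * d = 2 ^ m * (d' * B' + 1) + w := by rw [hqw]; ring
    rw [e1] at m1
    rw [e1'] at m1'
    have j1 := G_join (r := r) (c := c) (z := d' * B + 1) (z' := d' * B' + 1) (by omega) (by omega)
      hr1 (hmod'.add_right 1) m w hw
    rw [m1, m1', zero_add, zero_add] at j1
    rw [j0, j1] at hs
    have s1 := add_self' (G r c (d' * B'))
    have s2 := add_self' (G r c (d' * B' + 1))
    have : (1 : ZMod 2) = 0 := by linear_combination -hs + s1 + s2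
    exact absurd this (by decide)

/-- If the parities vanish at odd multipliers and no even multiple below `l` hits the residue `c`,
all parities below `l` vanish. -/
lemma vanish {l d : ℕ} (hd : 0 < d) (h0 : ∀ j, j % 2 = 1 → j < l → E r c (j * d) = 0)
    (h1 : ∀ j, 1 ≤ j → 2 * j < l → (2 * (j * d)) % 2 ^ r ≠ c) :
    ∀ j, 1 ≤ j → j < l → E r c (j * d) = 0 := by
  intro j
  induction j using Nat.strong_induction_on with
  | _ j ih =>
    intro hj1 hjl
    rcases Nat.mod_two_eq_zero_or_one j with he | ho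
    · obtain ⟨i, rfl⟩ : ∃ i, j = 2 * i := ⟨j / 2, by omega⟩
      have e1 : 2 * i * d = 2 * (i * d) := by ring
      have hi : 0 < i := by omega
      rw [e1, E_double (by positivity), ih i (by omega) (by omega) (by omega),
        if_neg (h1 i (by omega) hjl), add_zero]
    · exact h0 j ho hjl

/-- the first term of odd count among `d, 2d, …` is `l d` -/
def IsFirst (r c d l : ℕ) : Prop :=
  1 ≤ l ∧ E r c (l * d) ≠ 0 ∧ ∀ j, 1 ≤ j → j < l → E r c (j * d) = 0

lemma exists_first (hr1 : 1 ≤ r) (hc : c < 2 ^ r) {d : ℕ} (hd : 0 < d) : ∃ l, IsFirst r c d l := by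
  classical
  have hex := exists_odd_term (c := c) hr1 hc hd
  refine ⟨Nat.find hex, (Nat.find_spec hex).1, (Nat.find_spec hex).2, ?_⟩
  intro j hj1 hj2
  have := Nat.find_min hex hj2
  by_contra hne
  exact this ⟨hj1, hne⟩

lemma IsFirst.even {l d : ℕ} (hd : 0 < d) {j : ℕ} (h : IsFirst r c d l) (hl : l = 2 * j) :
    (l * d) % 2 ^ r = c := by
  obtain ⟨h1, h2, h3⟩ := h
  have hj : 0 < j := by omega
  by_contra hne
  apply h2
  have e1 : l * d = 2 * (j * d) := by rw [hl]; ring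
  rw [e1, E_double (by positivity), h3 j (by omega) (by omega), zero_add, if_neg]
  rw [← e1]; exact hne

lemma IsFirst.not_even {l d : ℕ} (hd : 0 < d) {j : ℕ} (h : IsFirst r c d l) (hj : 1 ≤ j)
    (hjl : 2 * j < l) : (2 * j * d) % 2 ^ r ≠ c := by
  obtain ⟨h1, h2, h3⟩ := h
  intro he
  have a1 := h3 (2 * j) (by omega) hjl
  have a2 := h3 j hj (by omega)
  have e1 : 2 * j * d = 2 * (j * d) := by ring
  rw [e1] at a1 he
  rw [E_double (by positivity), a2, if_pos he] at a1
  exact absurd a1 (by decide)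

/-- criterion for attaining `l` -/
lemma attain (hr1 : 1 ≤ r) (hc : c < 2 ^ r) {l d₀ : ℕ} (hl : 1 ≤ l)
    (hlow : ∀ j, 1 ≤ j → 2 * j < l → (2 * j * d₀) % 2 ^ r ≠ c)
    (htop : l % 2 = 0 → (l * d₀) % 2 ^ r = c) : ∃ d, 0 < d ∧ IsFirst r c d l := by
  classical
  obtain ⟨d, hd, hmod, hE⟩ := control (r := r) (c := c) hr1 hc
    (fun j => if j = l then 1 else 0) l d₀ r
  have hres : ∀ j, (j * d) % 2 ^ r = (j * d₀) % 2 ^ r := fun j => hmod.mul_left j
  have hvan : ∀ j, 1 ≤ j → j < l → E r c (j * d) = 0 := by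
    apply vanish hd
    · intro j hj hjl
      rw [hE j hj hjl.le, if_neg (by omega)]
    · intro j hj hjl
      have := hlow j hj hjl
      rw [← hres] at this
      rw [← mul_assoc]
      exact this
  refine ⟨d, hd, hl, ?_, hvan⟩
  rcases Nat.mod_two_eq_zero_or_one l with he | ho
  · obtain ⟨j, hj⟩ : ∃ j, l = 2 * j := ⟨l / 2, by omega⟩
    have hj0 : 0 < j := by omega
    have e1 : l * d = 2 * (j * d) := by rw [hj]; ring
    have h1 := htop he
    rw [← hres, e1] at h1
    rw [e1, E_double (by positivity), hvan j (by omega) (by omega), if_pos h1]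
    decide
  · rw [hE l ho le_rfl, if_pos rfl]
    decide

/-- the value set when `c = 2^s · o`, `o` odd -/
lemma values_pos {r' s o : ℕ} (hr' : 1 ≤ r') (ho : o % 2 = 1) (hor : o < 2 ^ r') (l : ℕ) :
    (∃ d, 0 < d ∧ IsFirst (r' + s) (2 ^ s * o) d l) ↔
      l % 2 = 1 ∨ ∃ b l', 1 ≤ b ∧ b ≤ s ∧ l' % 2 = 1 ∧ l' < 2 ^ r' ∧ l = 2 ^ b * l' := by
  have hc : 2 ^ s * o < 2 ^ (r' + s) := by
    rw [pow_add, mul_comm (2 ^ r')]
    exact Nat.mul_lt_mul_of_pos_left hor (by positivity)
  have hc0 : 2 ^ s * o ≠ 0 := by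
    have : 0 < o := by omega
    positivity
  constructor
  · rintro ⟨d, hd, hf⟩
    rcases Nat.mod_two_eq_zero_or_one l with he | hodd
    · right
      obtain ⟨b, l', hl', hbl⟩ := Nat.exists_eq_two_pow_mul_odd (n := l) (by have := hf.1; omega)
      have hl2 : l' % 2 = 1 := Nat.odd_iff.1 hl'
      have hb1 : 1 ≤ b := by
        by_contra hb
        have : b = 0 := by omega
        subst this
        rw [pow_zero, one_mul] at hbl
        omega
      have hres := hf.even hd (j := l / 2) (by omega)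
      -- 2^s divides l*d and 2^(s+1) does not
      have hdvd : 2 ^ s ∣ l * d := by
        have h1 := Nat.div_add_mod (l * d) (2 ^ (r' + s))
        rw [hres] at h1
        rw [← h1]
        exact Dvd.dvd.add ((pow_dvd_pow _ (by omega)).mul_right _) (Dvd.intro _ rfl)
      have hndvd : ¬ 2 ^ (s + 1) ∣ l * d := by
        intro h
        have h1 := Nat.div_add_mod (l * d) (2 ^ (r' + s))
        rw [hres] at h1
        have h2 : 2 ^ (s + 1) ∣ 2 ^ (r' + s) * (l * d / 2 ^ (r' + s)) :=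
          (pow_dvd_pow _ (by omega)).mul_right _
        have h3 : 2 ^ (s + 1) ∣ 2 ^ s * o := by
          rw [← h1] at h
          exact (Nat.dvd_add_right h2).1 h
        rw [pow_succ] at h3
        have h4 : 2 ∣ o := Nat.dvd_of_mul_dvd_mul_left (by positivity) h3
        omega
      have hbs : b ≤ s := by
        by_contra hc
        push Not at hc
        apply hndvd
        rw [hbl, mul_assoc]
        exact (pow_dvd_pow _ (by omega)).mul_right _
      refine ⟨b, l', hb1, hbs, hl2, ?_, hbl⟩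
      by_contra hlt
      push Not at hlt
      have hpe : 2 ^ r' % 2 = 0 := by
        obtain ⟨q, rfl⟩ : ∃ q, r' = q + 1 := ⟨r' - 1, by omega⟩
        rw [pow_succ]; omega
      obtain ⟨l'', hl''⟩ : ∃ l'', l' = l'' + 2 ^ r' := ⟨l' - 2 ^ r', by omega⟩
      have hl0 : 0 < l'' := by omega
      obtain ⟨b', rfl⟩ : ∃ b', b = b' + 1 := ⟨b - 1, by omega⟩
      obtain ⟨t, rfl⟩ : ∃ t, s = b' + 1 + t := ⟨s - (b' + 1), by omega⟩
      have hdd : 2 ^ t ∣ d := by
        have h1 : 2 ^ (b' + 1) * 2 ^ t ∣ 2 ^ (b' + 1) * (l' * d) := by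
          rw [← pow_add, ← mul_assoc, ← hbl]; exact hdvd
        have h2 : 2 ^ t ∣ l' * d := Nat.dvd_of_mul_dvd_mul_left (by positivity) h1
        exact (Nat.Coprime.dvd_of_dvd_mul_left
          (Nat.Coprime.pow_left _ (Nat.coprime_two_left.2 hl')) h2)
      obtain ⟨d2, hd2⟩ := hdd
      refine hf.not_even hd (j := 2 ^ b' * l'') (Nat.succ_le_of_lt (by positivity)) ?_ ?_
      · rw [hbl, hl'', pow_succ]
        have : 2 ^ b' * 2 * (l'' + 2 ^ r') = 2 * (2 ^ b' * l'') + 2 ^ b' * 2 * 2 ^ r' := by ring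
        rw [this]
        have : 0 < 2 ^ b' * 2 * 2 ^ r' := by positivity
        omega
      · rw [← hres]
        have e1 : l * d = 2 * (2 ^ b' * l'') * d + 2 ^ (r' + (b' + 1 + t)) * d2 := by
          rw [hbl, hl'', hd2, pow_add, pow_add, pow_add]; ring
        rw [e1, Nat.add_mul_mod_self_left]
    · exact Or.inl hodd
  · rintro (hodd | ⟨b, l', hb1, hbs, hl', hlt, hl⟩)
    · apply attain (by omega) hc (by omega) (d₀ := 0)
      · intro j hj hjl
        rw [mul_zero, Nat.zero_mod]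
        exact hc0.symm
      · intro h; omega
    · have hl0 : 0 < l := by
        rw [hl]; have : 0 < l' := by omega
        positivity
      have hcop : Nat.Coprime l' (2 ^ r') :=
        Nat.Coprime.pow_right _ (Nat.coprime_two_right.2 (Nat.odd_iff.2 hl'))
      obtain ⟨i, hi⟩ : ∃ i, l' * i ≡ 1 [MOD 2 ^ r'] := by
        obtain ⟨i, hi⟩ := Nat.exists_mul_mod_eq_one_of_coprime hcop
          (by have : 1 < 2 ^ r' := Nat.one_lt_two_pow (by omega)
              exact this)
        refine ⟨i, ?_⟩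
        unfold Nat.ModEq
        rw [hi.2, Nat.mod_eq_of_lt (Nat.one_lt_two_pow (by omega))]
      obtain ⟨t, rfl⟩ : ∃ t, s = b + t := ⟨s - b, by omega⟩
      have hld : l' * (i * o) ≡ o [MOD 2 ^ r'] := by
        have := hi.mul_right o
        rw [one_mul] at this
        rw [← mul_assoc]; exact this
      have hdodd : Nat.Coprime (i * o) (2 ^ (b + r')) := by
        apply Nat.Coprime.pow_right
        rw [Nat.coprime_two_right]
        have h1 : (l' * (i * o)) % 2 = o % 2 := by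
          have : 2 ∣ 2 ^ r' := dvd_pow_self 2 (by omega)
          exact hld.of_dvd this
        rw [ho] at h1
        have h2 : Odd (l' * (i * o)) := Nat.odd_iff.2 h1
        exact (Nat.odd_mul.1 h2).2
      apply attain (by omega) hc hl0 (d₀ := 2 ^ t * (i * o))
      · intro j hj hjl heq
        -- 2 j d0 ≡ l d0
        have h1 : l * (2 ^ t * (i * o)) ≡ 2 ^ (b + t) * o [MOD 2 ^ (r' + (b + t))] := by
          have h2 := hld.mul_left' (2 ^ (b + t))
          have e1 : 2 ^ (b + t) * (l' * (i * o)) = l * (2 ^ t * (i * o)) := by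
            rw [hl, pow_add]; ring
          have e2 : 2 ^ (b + t) * 2 ^ r' = 2 ^ (r' + (b + t)) := by
            rw [← pow_add]; congr 1; omega
          rw [e1, e2] at h2
          exact h2
        have h3 : 2 * j * (2 ^ t * (i * o)) ≡ l * (2 ^ t * (i * o)) [MOD 2 ^ (r' + (b + t))] := by
          refine Nat.ModEq.trans ?_ h1.symm
          unfold Nat.ModEq
          rw [heq, Nat.mod_eq_of_lt hc]
        have h4 : 2 ^ t * (2 * j * (i * o)) ≡ 2 ^ t * (l * (i * o)) [MOD 2 ^ t * 2 ^ (b + r')] := by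
          have e2 : 2 ^ t * 2 ^ (b + r') = 2 ^ (r' + (b + t)) := by
            rw [← pow_add]; congr 1; omega
          rw [e2]
          have e3 : 2 ^ t * (2 * j * (i * o)) = 2 * j * (2 ^ t * (i * o)) := by ring
          have e4 : 2 ^ t * (l * (i * o)) = l * (2 ^ t * (i * o)) := by ring
          rw [e3, e4]
          exact h3
        have h5 : 2 * j * (i * o) ≡ l * (i * o) [MOD 2 ^ (b + r')] :=
          Nat.ModEq.mul_left_cancel' (by positivity) h4
        have h6 : 2 * j ≡ l [MOD 2 ^ (b + r')] :=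
          Nat.ModEq.cancel_right_of_coprime (by rw [Nat.gcd_comm]; exact hdodd) h5
        have hll : l < 2 ^ (b + r') := by
          rw [hl, pow_add]
          exact Nat.mul_lt_mul_of_pos_left hlt (by positivity)
        unfold Nat.ModEq at h6
        rw [Nat.mod_eq_of_lt hll, Nat.mod_eq_of_lt (by omega)] at h6
        omega
      · intro _
        have h2 := hld.mul_left' (2 ^ (b + t))
        have e1 : 2 ^ (b + t) * (l' * (i * o)) = l * (2 ^ t * (i * o)) := by
          rw [hl, pow_add]; ring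
        have e2 : 2 ^ (b + t) * 2 ^ r' = 2 ^ (r' + (b + t)) := by
          rw [← pow_add]; congr 1; omega
        rw [e1, e2] at h2
        unfold Nat.ModEq at h2
        rw [h2, Nat.mod_eq_of_lt hc]

/-- the value set for the all-zero pattern -/
lemma values_zero (hr1 : 1 ≤ r) (l : ℕ) :
    (∃ d, 0 < d ∧ IsFirst r 0 d l) ↔
      (l % 2 = 1 ∧ l < 2 ^ r) ∨ ∃ b, 1 ≤ b ∧ b ≤ r ∧ l = 2 ^ b := by
  have hpe : 2 ^ r % 2 = 0 := by
    obtain ⟨q, rfl⟩ : ∃ q, r = q + 1 := ⟨r - 1, by omega⟩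
    rw [pow_succ]; omega
  have hp2 : 2 ^ r = 2 * 2 ^ (r - 1) := by
    obtain ⟨q, rfl⟩ : ∃ q, r = q + 1 := ⟨r - 1, by omega⟩
    rw [Nat.add_sub_cancel, pow_succ]; ring
  constructor
  · rintro ⟨d, hd, hf⟩
    have hle : l ≤ 2 ^ r := by
      by_contra hc
      push Not at hc
      refine hf.not_even hd (j := 2 ^ (r - 1)) (Nat.succ_le_of_lt (by positivity)) (by omega) ?_
      rw [← hp2]
      exact Nat.mul_mod_right _ _
    rcases Nat.mod_two_eq_zero_or_one l with he | hodd
    · right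
      obtain ⟨b, l', hl', hbl⟩ := Nat.exists_eq_two_pow_mul_odd (n := l) (by have := hf.1; omega)
      have hl2 : l' % 2 = 1 := Nat.odd_iff.1 hl'
      have hb1 : 1 ≤ b := by
        by_contra hb
        have : b = 0 := by omega
        subst this
        rw [pow_zero, one_mul] at hbl
        omega
      have hres := hf.even hd (j := l / 2) (by omega)
      have hl1 : l' = 1 := by
        by_contra hne
        have hl3 : 2 ≤ l' := by omega
        obtain ⟨b', rfl⟩ : ∃ b', b = b' + 1 := ⟨b - 1, by omega⟩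
        refine hf.not_even hd (j := 2 ^ b') (Nat.succ_le_of_lt (by positivity)) ?_ ?_
        · rw [hbl, pow_succ]
          have : 0 < 2 ^ b' := by positivity
          nlinarith
        · have h1 : 2 ^ r ∣ l * d := Nat.dvd_of_mod_eq_zero hres
          have e1 : l * d = l' * (2 * 2 ^ b' * d) := by rw [hbl, pow_succ]; ring
          rw [e1] at h1
          exact Nat.mod_eq_zero_of_dvd (Nat.Coprime.dvd_of_dvd_mul_left
            (Nat.Coprime.pow_left _ (Nat.coprime_two_left.2 hl')) h1)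
      subst hl1
      rw [mul_one] at hbl
      refine ⟨b, hb1, ?_, hbl⟩
      rw [hbl] at hle
      exact (Nat.pow_le_pow_iff_right (by norm_num)).1 hle
    · left
      exact ⟨hodd, by omega⟩
  · rintro (⟨hodd, hlt⟩ | ⟨b, hb1, hbr, hl⟩)
    · apply attain hr1 (by positivity) (by omega) (d₀ := 1)
      · intro j hj hjl
        rw [mul_one, Nat.mod_eq_of_lt (by omega)]
        omega
      · intro h; omega
    · obtain ⟨t, rfl⟩ : ∃ t, r = b + t := ⟨r - b, by omega⟩
      apply attain hr1 (by positivity) (by rw [hl]; exact Nat.one_le_two_pow) (d₀ := 2 ^ t)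
      · intro j hj hjl
        rw [hl] at hjl
        have h1 : 2 * j * 2 ^ t < 2 ^ (b + t) := by
          rw [pow_add]
          exact Nat.mul_lt_mul_of_pos_right hjl (by positivity)
        rw [Nat.mod_eq_of_lt h1]
        positivity
      · intro _
        rw [hl, ← pow_add, Nat.mod_self]

end R125P
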