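import Mathlib
import Pool.Agent.R125.PatA

/-!
# Pattern counts in binary expansions: definitions and the arithmetic form
-/

namespace R125P

/-- binary expansion, most significant digit first, no leading zeros; `0` has the empty expansion -/
def binExp (n : ℕ) : List ℕ := (Nat.digits 2 n).reverse

/-- the number of zeros with which `v` begins -/
def leadZeros (v : List ℕ) : ℕ := (v.takeWhile (fun x => x == 0)).length

/-- the number of zeros with which `v` ends -/
def trailZeros (v : List ℕ) : ℕ := leadZeros v.reverse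

/-- the expansion of `n` as read for the pattern `v`: if `v` contains a `1`, as many zeros as `v`
begins with are prepended -/
def padded (v : List ℕ) (n : ℕ) : List ℕ :=
  if 1 ∈ v then List.replicate (leadZeros v) 0 ++ binExp n else binExp n

/-- the number of occurrences of the (nonempty) word `v` in `w`: prefixes of `w` ending in `v` -/
def occ (v w : List ℕ) : ℕ := w.inits.countP (fun s => decide (v <:+ s))

/-- `e_v(n)` -/
def eV (v : List ℕ) (n : ℕ) : ℕ := occ v (padded v n)

/-- `A_v(n,d)` -/
noncomputable def AV (v : List ℕ) (n d : ℕ) : ℕ :=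
  sInf {l | 1 ≤ l ∧ eV v (n + l * d) % 2 ≠ eV v n % 2}

lemma occ_concat (v w : List ℕ) (b : ℕ) :
    occ v (w ++ [b]) = occ v w + if v <:+ w ++ [b] then 1 else 0 := by
  unfold occ
  rw [List.inits_append, List.countP_append]
  congr 1
  simp [List.countP_cons, List.countP_nil]

lemma binExp_pos {n : ℕ} (hn : 0 < n) : binExp n = binExp (n / 2) ++ [n % 2] := by
  unfold binExp
  rw [Nat.digits_def' (by norm_num) hn, List.reverse_cons]

lemma padded_pos (v : List ℕ) {n : ℕ} (hn : 0 < n) : padded v n = padded v (n / 2) ++ [n % 2] := by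
  unfold padded
  rw [binExp_pos hn]
  split_ifs
  · rw [List.append_assoc]
  · rfl

lemma eV_pos (v : List ℕ) {n : ℕ} (hn : 0 < n) :
    eV v n = eV v (n / 2) + if v <:+ padded v n then 1 else 0 := by
  unfold eV
  rw [padded_pos v hn, occ_concat]

lemma prefix_iff : ∀ (u : List ℕ) (n i : ℕ), (∀ x ∈ u, x = 0 ∨ x = 1) →
    (u <+: Nat.digits 2 n ++ List.replicate i 0 ↔
      n % 2 ^ u.length = Nat.ofDigits 2 u ∧ u.length ≤ (Nat.digits 2 n).length + i)
  | [], n, i, _ => by simp [Nat.mod_one]
  | (a :: u), n, i, h => by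
    have ha : a = 0 ∨ a = 1 := h a (by simp)
    have hu : ∀ x ∈ u, x = 0 ∨ x = 1 := fun x hx => h x (by simp [hx])
    rcases Nat.eq_zero_or_pos n with rfl | hn
    · cases i with
      | zero => simp
      | succ i =>
        have ih := prefix_iff u 0 i hu
        simp only [Nat.digits_zero, List.nil_append, Nat.zero_mod, List.length_nil] at ih ⊢
        rw [List.replicate_succ, List.cons_prefix_cons, ih, Nat.ofDigits_cons, List.length_cons]
        constructor
        · rintro ⟨h1, h2, h3⟩
          rw [h1, ← h2]
          refine ⟨by simp, by omega⟩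
        · rintro ⟨h1, h2⟩
          have h1' : 0 = a + 2 * Nat.ofDigits 2 u := by exact_mod_cast h1
          refine ⟨by omega, by omega, by omega⟩
    · have ih := prefix_iff u (n / 2) i hu
      rw [Nat.digits_def' (by norm_num) hn, List.cons_append, List.cons_prefix_cons, ih,
        Nat.ofDigits_cons, List.length_cons, List.length_cons]
      have hm : n % 2 ^ (u.length + 1) = n % 2 + 2 * (n / 2 % 2 ^ u.length) := by
        rw [pow_succ, mul_comm, Nat.mod_mul]
      have hcast : ((a : ℕ) + 2 * Nat.ofDigits 2 u : ℕ) = a + 2 * Nat.ofDigits 2 u := rfl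
      rw [hm]
      constructor
      · rintro ⟨h1, h2, h3⟩
        refine ⟨?_, by omega⟩
        rw [h1, h2]
      · rintro ⟨h1, h2⟩
        have h1' : n % 2 + 2 * (n / 2 % 2 ^ u.length) = a + 2 * Nat.ofDigits 2 u := by
          simpa using h1
        refine ⟨by omega, by omega, by omega⟩

/-- value of a word read in base 2 -/
def val (v : List ℕ) : ℕ := Nat.ofDigits 2 v.reverse

lemma val_lt {v : List ℕ} (h : ∀ x ∈ v, x = 0 ∨ x = 1) : val v < 2 ^ v.length := by
  unfold val
  have := Nat.ofDigits_lt_base_pow_length (b := 2) (l := v.reverse) (by norm_num) (by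
    intro x hx
    rcases h x (List.mem_reverse.1 hx) with h | h <;> omega)
  rwa [List.length_reverse] at this

/-- a word containing a `1`: split off the leading zeros -/
lemma split_lead {v : List ℕ} (h : ∀ x ∈ v, x = 0 ∨ x = 1) (h1 : 1 ∈ v) :
    ∃ t, v = List.replicate (leadZeros v) 0 ++ 1 :: t := by
  induction v with
  | nil => simp at h1
  | cons a v ih =>
    rcases h a (by simp) with ha | ha
    · subst ha
      have h1' : 1 ∈ v := by simpa using h1
      obtain ⟨t, ht⟩ := ih (fun x hx => h x (by simp [hx])) h1'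
      refine ⟨t, ?_⟩
      have : leadZeros (0 :: v) = leadZeros v + 1 := by
        unfold leadZeros
        rw [List.takeWhile_cons]
        simp
      rw [this, List.replicate_succ, List.cons_append, ← ht]
    · subst ha
      refine ⟨v, ?_⟩
      have : leadZeros (1 :: v) = 0 := by
        unfold leadZeros
        rw [List.takeWhile_cons]
        simp
      rw [this]
      rfl

lemma suffix_iff {v : List ℕ} (h : ∀ x ∈ v, x = 0 ∨ x = 1) {n : ℕ} (hn : 0 < n) :
    v <:+ padded v n ↔ n % 2 ^ v.length = val v := by
  have hr : ∀ x ∈ v.reverse, x = 0 ∨ x = 1 := fun x hx => h x (List.mem_reverse.1 hx)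
  by_cases h1 : 1 ∈ v
  · obtain ⟨t, ht⟩ := split_lead h h1
    have hp : padded v n = List.replicate (leadZeros v) 0 ++ binExp n := by
      unfold padded; rw [if_pos h1]
    rw [hp, ← List.reverse_prefix, List.reverse_append, List.reverse_replicate]
    have hb : (binExp n).reverse = Nat.digits 2 n := by unfold binExp; rw [List.reverse_reverse]
    rw [hb, prefix_iff _ _ _ hr, List.length_reverse]
    constructor
    · rintro ⟨h2, -⟩; exact h2
    · intro h2
      refine ⟨h2, ?_⟩
      have hlen : v.length = leadZeros v + 1 + t.length := by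
        conv_lhs => rw [ht]
        simp; ring
      have hval : 2 ^ t.length ≤ val v := by
        unfold val
        rw [ht]
        simp only [List.reverse_append, List.reverse_cons, List.reverse_replicate, List.append_assoc,
          Nat.ofDigits_append, List.length_reverse]
        have : 2 ^ t.length * 1 ≤ 2 ^ t.length * Nat.ofDigits 2 ([1] ++ List.replicate (leadZeros v) 0) := by
          apply Nat.mul_le_mul_left
          simp [Nat.ofDigits_cons]
        simp only [Nat.ofDigits_append] at this ⊢
        omega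
      have hn2 : 2 ^ t.length ≤ n := by
        calc 2 ^ t.length ≤ val v := hval
          _ = n % 2 ^ v.length := h2.symm
          _ ≤ n := Nat.mod_le _ _
      have hlt : t.length < (Nat.digits 2 n).length := by
        rw [Nat.lt_digits_length_iff (by norm_num)]
        exact hn2
      omega
  · have hp : padded v n = binExp n := by
      unfold padded; rw [if_neg h1]
    have hz : ∀ x ∈ v, x = 0 := by
      intro x hx
      rcases h x hx with h2 | h2
      · exact h2
      · exact absurd (h2 ▸ hx) h1
    have hv : v = List.replicate v.length 0 := List.eq_replicate_iff.2 ⟨rfl, hz⟩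
    have hval : val v = 0 := by
      unfold val
      rw [hv, List.reverse_replicate]
      exact Nat.ofDigits_replicate_zero
    rw [hp, ← List.reverse_prefix]
    have hb : (binExp n).reverse = Nat.digits 2 n ++ List.replicate 0 0 := by
      unfold binExp; rw [List.reverse_reverse]; simp
    rw [hb, prefix_iff _ _ _ hr, List.length_reverse]
    constructor
    · rintro ⟨h2, -⟩; exact h2
    · intro h2
      refine ⟨h2, ?_⟩
      rw [hval] at h2
      have hdvd := Nat.dvd_of_mod_eq_zero h2
      have hle := Nat.le_of_dvd hn hdvd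
      have hlt : v.length < (Nat.digits 2 n).length := by
        rw [Nat.lt_digits_length_iff (by norm_num)]
        exact hle
      omega

lemma eV_zero {v : List ℕ} (hv : v ≠ []) : eV v 0 = 0 := by
  unfold eV occ
  rw [List.countP_eq_zero]
  intro s hs
  simp only [decide_eq_true_eq]
  intro hsuf
  have hs' : s <+: padded v 0 := (List.mem_inits _ _).1 hs
  unfold padded binExp at hs'
  rw [Nat.digits_zero, List.reverse_nil, List.append_nil] at hs'
  split_ifs at hs' with h1
  · -- s is all zeros
    have h0 : ∀ x ∈ s, x = 0 := by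
      intro x hx
      exact (List.eq_of_mem_replicate (hs'.subset hx))
    have := h0 1 (hsuf.subset h1)
    omega
  · have : s = [] := List.prefix_nil.1 hs'
    rw [this] at hsuf
    exact hv (List.suffix_nil.1 hsuf)

/-- the arithmetic form of `e_v(n) mod 2` -/
lemma eV_cast {v : List ℕ} (hv : v ≠ []) (h : ∀ x ∈ v, x = 0 ∨ x = 1) (n : ℕ) :
    (eV v n : ZMod 2) = E v.length (val v) n := by
  induction n using Nat.strong_induction_on with
  | _ n ih =>
    rcases Nat.eq_zero_or_pos n with rfl | hn
    · rw [eV_zero hv, E_zero, Nat.cast_zero]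
    · rw [eV_pos v hn, E_pos hn, Nat.cast_add, ih _ (by omega)]
      congr 1
      by_cases hs : v <:+ padded v n
      · rw [if_pos hs, if_pos ((suffix_iff h hn).1 hs), Nat.cast_one]
      · rw [if_neg hs, if_neg (fun h2 => hs ((suffix_iff h hn).2 h2)), Nat.cast_zero]

lemma eV_odd_iff {v : List ℕ} (hv : v ≠ []) (h : ∀ x ∈ v, x = 0 ∨ x = 1) (m n : ℕ) :
    eV v m % 2 ≠ eV v n % 2 ↔ E v.length (val v) m ≠ E v.length (val v) n := by
  rw [← eV_cast hv h, ← eV_cast hv h, Ne, Ne, not_iff_not, ZMod.natCast_eq_natCast_iff]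
  rfl

/-- `A_v(0,d)` is characterised by `IsFirst` -/
lemma AV_zero_iff {v : List ℕ} (hv : v ≠ []) (h : ∀ x ∈ v, x = 0 ∨ x = 1) {d : ℕ} (hd : 0 < d)
    (l : ℕ) : AV v 0 d = l ↔ IsFirst v.length (val v) d l := by
  have hr1 : 1 ≤ v.length := List.length_pos_of_ne_nil hv
  have hset : {l | 1 ≤ l ∧ eV v (0 + l * d) % 2 ≠ eV v 0 % 2} =
      {l | 1 ≤ l ∧ E v.length (val v) (l * d) ≠ 0} := by
    ext l
    simp only [Set.mem_ofPred_eq]
    rw [eV_odd_iff hv h, E_zero, zero_add]
  obtain ⟨l₀, hl₀⟩ := exists_first (c := val v) hr1 (val_lt h) hd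
  have hmem : l₀ ∈ {l | 1 ≤ l ∧ E v.length (val v) (l * d) ≠ 0} := ⟨hl₀.1, hl₀.2.1⟩
  have hAV : AV v 0 d = l₀ := by
    unfold AV
    rw [hset]
    apply le_antisymm
    · exact Nat.sInf_le hmem
    · apply le_csInf ⟨l₀, hmem⟩
      intro j hj
      by_contra hlt
      push Not at hlt
      exact hj.2 (hl₀.2.2 j hj.1 hlt)
  constructor
  · intro h1
    rw [← h1, hAV]; exact hl₀
  · intro h1
    rw [hAV]
    rcases lt_trichotomy l₀ l with h2 | h2 | h2
    · exact absurd (h1.2.2 l₀ hl₀.1 h2) hl₀.2.1
    · exact h2
    · exact absurd (hl₀.2.2 l h1.1 h2) h1.2.1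

/-- the trailing zeros of a word containing a `1` -/
lemma val_split {v : List ℕ} (h : ∀ x ∈ v, x = 0 ∨ x = 1) (h1 : 1 ∈ v) :
    ∃ o, o % 2 = 1 ∧ val v = 2 ^ trailZeros v * o ∧ trailZeros v < v.length ∧
      o < 2 ^ (v.length - trailZeros v) := by
  have hr : ∀ x ∈ v.reverse, x = 0 ∨ x = 1 := fun x hx => h x (List.mem_reverse.1 hx)
  obtain ⟨t, ht⟩ := split_lead hr (List.mem_reverse.2 h1)
  have hlen : v.length = trailZeros v + 1 + t.length := by
    have := congrArg List.length ht
    rw [List.length_reverse] at this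
    rw [this]
    unfold trailZeros
    simp; ring
  have hval : val v = 2 ^ trailZeros v * (1 + 2 * Nat.ofDigits 2 t) := by
    unfold val
    rw [ht, Nat.ofDigits_append, Nat.ofDigits_replicate_zero, List.length_replicate, zero_add,
      Nat.ofDigits_cons]
    unfold trailZeros
    simp
  refine ⟨1 + 2 * Nat.ofDigits 2 t, by omega, hval, by omega, ?_⟩
  have := val_lt h
  rw [hval] at this
  have e : v.length = trailZeros v + (v.length - trailZeros v) := by omega
  conv_rhs at this => rw [e, pow_add]
  exact Nat.lt_of_mul_lt_mul_left this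

lemma val_zero {v : List ℕ} (h : ∀ x ∈ v, x = 0 ∨ x = 1) (h1 : 1 ∉ v) : val v = 0 := by
  have hz : ∀ x ∈ v, x = 0 := by
    intro x hx
    rcases h x hx with h2 | h2
    · exact h2
    · exact absurd (h2 ▸ hx) h1
  have hv : v = List.replicate v.length 0 := List.eq_replicate_iff.2 ⟨rfl, hz⟩
  unfold val
  rw [hv, List.reverse_replicate]
  exact Nat.ofDigits_replicate_zero

end R125P
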