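import Mathlib
import Pool.Agent.R125.PatA

/-!
# Long monochromatic progressions: uniform upper bounds for sparse differences
-/

namespace R125P

variable {r c : ℕ}

/-- the join lemma for `E` -/
lemma E_join {z z' : ℕ} (hz : 0 < z) (hz' : 0 < z') (hr1 : 1 ≤ r)
    (hmod : z ≡ z' [MOD 2 ^ (r - 1)]) (m : ℕ) : ∀ y, y < 2 ^ m →
    E r c (2 ^ m * z + y) + E r c z = E r c (2 ^ m * z' + y) + E r c z' := by
  induction m with
  | zero =>
    intro y hy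
    have : y = 0 := by simpa using hy
    subst this
    simp only [pow_zero, one_mul, add_zero]
    rw [add_self', add_self']
  | succ m ih =>
    intro y hy
    have hy2 : y / 2 < 2 ^ m := by rw [pow_succ] at hy; omega
    have h1 : 0 < 2 ^ (m + 1) * z + y := by positivity
    have h2 : 0 < 2 ^ (m + 1) * z' + y := by positivity
    have hm : (2 ^ (m + 1) * z + y) % 2 ^ r = (2 ^ (m + 1) * z' + y) % 2 ^ r := by
      have e1 : 2 ^ (m + 1) * z ≡ 2 ^ (m + 1) * z' [MOD 2 ^ r] := by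
        have := Nat.ModEq.mul_left' (2 ^ (m + 1)) hmod
        refine this.of_dvd ?_
        rw [← pow_add]
        exact pow_dvd_pow _ (by omega)
      exact e1.add_right y
    have := ih _ hy2
    rw [E_pos h1, E_pos h2, half_aux, half_aux, hm]
    linear_combination this

lemma E_even_odd {q : ℕ} (hq : 0 < q) :
    E r c (2 * q) + E r c (2 * q + 1)
      = (if (2 * q) % 2 ^ r = c then 1 else 0) + (if (2 * q + 1) % 2 ^ r = c then 1 else 0) := by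
  have h1 : 2 * q / 2 = q := by omega
  have h2 : (2 * q + 1) / 2 = q := by omega
  rw [E_pos (n := 2 * q) (by omega), E_pos (n := 2 * q + 1) (by omega), h1, h2]
  have e1 := add_self' (E r c q)
  linear_combination e1

/-- an odd step covers all residues -/
lemma cover {x : ℕ} (hx : x % 2 = 1) (m w t : ℕ) : ∃ L < 2 ^ m, w + L * x ≡ t [MOD 2 ^ m] := by
  have hcop : Nat.Coprime x (2 ^ m) :=
    Nat.Coprime.pow_right _ (Nat.coprime_two_right.2 (Nat.odd_iff.2 hx))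
  obtain ⟨i, hi⟩ : ∃ i, x * i ≡ 1 [MOD 2 ^ m] := by
    rcases Nat.eq_zero_or_pos m with rfl | hm
    · exact ⟨0, by simp [Nat.modEq_one]⟩
    · obtain ⟨i, hi⟩ := Nat.exists_mul_mod_eq_one_of_coprime hcop
        (by have : 1 < 2 ^ m := Nat.one_lt_two_pow (by omega)
            exact this)
      refine ⟨i, ?_⟩
      unfold Nat.ModEq
      rw [hi.2, Nat.mod_eq_of_lt (Nat.one_lt_two_pow (by omega))]
  obtain ⟨s, hs⟩ : ∃ s, w + s ≡ t [MOD 2 ^ m] := by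
    refine ⟨t + (2 ^ m * w - w), ?_⟩
    have h1 : w ≤ 2 ^ m * w := Nat.le_mul_of_pos_left _ (by positivity)
    have : w + (t + (2 ^ m * w - w)) = t + 2 ^ m * w := by omega
    rw [this]
    unfold Nat.ModEq
    rw [Nat.add_mul_mod_self_left]
  refine ⟨(s * i) % 2 ^ m, Nat.mod_lt _ (by positivity), ?_⟩
  have h1 : (s * i) % 2 ^ m * x ≡ s [MOD 2 ^ m] := by
    have h2 : (s * i) % 2 ^ m ≡ s * i [MOD 2 ^ m] := Nat.mod_modEq _ _
    have h3 := h2.mul_right x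
    refine h3.trans ?_
    have h4 := hi.mul_left s
    rw [mul_one] at h4
    have : s * i * x = s * (x * i) := by ring
    rw [this]; exact h4
  exact (h1.add_left w).trans hs

/-- two positions in a progression with different carry behaviour -/
lemma exW (hr1 : 1 ≤ r) (hc : c < 2 ^ r) {x : ℕ} (hx : x % 2 = 1) {w : ℕ} (hw : 8 ≤ w) :
    ∃ L₁ < 2 ^ (r + 2), ∃ L₂ < 2 ^ (r + 2), L₁ ≡ L₂ [MOD 2 ^ (r - 1)] ∧
      E r c (w + L₁ * x) + E r c (w + L₁ * x + 1) + (E r c (w + L₂ * x) + E r c (w + L₂ * x + 1))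
        = 1 := by
  rcases Nat.lt_or_ge 1 r with hr2 | hr2
  · obtain ⟨r', rfl⟩ : ∃ r', r = r' + 2 := ⟨r - 2, by omega⟩
    obtain ⟨L, hL, hmod⟩ := cover hx (r' + 2) w (2 * (c / 2))
    have hpow : 2 ^ (r' + 2) = 2 * 2 ^ (r' + 1) := by rw [pow_succ]; ring
    have hpow1 : 2 ^ (r' + 1) = 2 * 2 ^ r' := by rw [pow_succ]; ring
    have hpow4 : 2 ^ (r' + 2 + 2) = 4 * 2 ^ (r' + 2) := by rw [pow_add]; ring
    have hres : (w + L * x) % 2 ^ (r' + 2) = 2 * (c / 2) := by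
      rw [hmod, Nat.mod_eq_of_lt (by omega)]
    have hmm : ∀ n, n % 2 ^ (r' + 2) % 2 = n % 2 := fun n =>
      Nat.mod_mod_of_dvd _ (Dvd.intro _ hpow.symm)
    have hev : (w + L * x) % 2 = 0 := by
      rw [← hmm, hres]; omega
    obtain ⟨q, hq⟩ : ∃ q, w + L * x = 2 * q := ⟨(w + L * x) / 2, by omega⟩
    have hq0 : 0 < q := by omega
    obtain ⟨x2, hx2⟩ : ∃ x2, x = 2 * x2 + 1 := ⟨x / 2, by omega⟩
    refine ⟨L, by omega, L + 2 ^ (r' + 1), by omega, ?_, ?_⟩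
    · have : r' + 2 - 1 = r' + 1 := by omega
      rw [this]
      unfold Nat.ModEq
      rw [Nat.add_mod_right]
    · have hq' : w + (L + 2 ^ (r' + 1)) * x = 2 * (q + 2 ^ r' * x) := by
        have : w + (L + 2 ^ (r' + 1)) * x = w + L * x + 2 ^ (r' + 1) * x := by ring
        rw [this, hq, hpow1]; ring
      rw [hq] at hres
      rw [hq, hq', E_even_odd hq0, E_even_odd (by omega)]
      have m1 : (2 * q) % 2 ^ (r' + 2) = 2 * (c / 2) := hres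
      have m2 : (2 * q + 1) % 2 ^ (r' + 2) = 2 * (c / 2) + 1 := by
        rw [Nat.add_mod, m1, Nat.mod_eq_of_lt (a := 1) (Nat.one_lt_two_pow (by omega)),
          Nat.mod_eq_of_lt]
        rw [hpow] at hc ⊢
        omega
      have m3 : (2 * (q + 2 ^ r' * x)) % 2 ^ (r' + 2) =
          (2 * (c / 2) + 2 ^ (r' + 1)) % 2 ^ (r' + 2) := by
        have e1 : 2 * (q + 2 ^ r' * x) = 2 * q + 2 ^ (r' + 1) + 2 ^ (r' + 2) * x2 := by
          rw [hx2, hpow, hpow1]; ring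
        rw [e1, Nat.add_mul_mod_self_left, Nat.add_mod, m1]
        conv_rhs => rw [Nat.add_mod, Nat.mod_eq_of_lt (a := 2 * (c / 2)) (by omega)]
      have hp : 0 < 2 ^ (r' + 1) := by positivity
      have hd2 : 2 ∣ 2 ^ (r' + 1) := Dvd.intro _ hpow1.symm
      have n34 : (2 * (q + 2 ^ r' * x)) % 2 ^ (r' + 2) ≠ 2 * (c / 2) ∧
          (2 * (q + 2 ^ r' * x)) % 2 ^ (r' + 2) % 2 = 0 := by
        constructor
        · rw [m3, hpow]
          rcases Nat.lt_or_ge (2 * (c / 2)) (2 ^ (r' + 1)) with h | h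
          · rw [Nat.mod_eq_of_lt (by omega)]
            omega
          · have : 2 * (c / 2) + 2 ^ (r' + 1) = (2 * (c / 2) - 2 ^ (r' + 1)) + 2 * 2 ^ (r' + 1) := by
              omega
            rw [this, Nat.add_mod_right, Nat.mod_eq_of_lt (by omega)]
            omega
        · rw [hmm]; omega
      have m4 : (2 * (q + 2 ^ r' * x) + 1) % 2 ^ (r' + 2) = (2 * (q + 2 ^ r' * x)) % 2 ^ (r' + 2) + 1 := by
        rw [Nat.add_mod, Nat.mod_eq_of_lt (a := 1) (Nat.one_lt_two_pow (by omega)),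
          Nat.mod_eq_of_lt]
        have h7 : (2 * (q + 2 ^ r' * x)) % 2 ^ (r' + 2) < 2 ^ (r' + 2) := Nat.mod_lt _ (by positivity)
        have h8 := n34.2
        rw [hpow] at h7 h8 ⊢
        omega
      rw [m1, m2, m4]
      obtain ⟨n3, n4⟩ := n34
      generalize (2 * (q + 2 ^ r' * x)) % 2 ^ (r' + 2) = u at n3 n4 ⊢
      rw [if_neg (show ¬ u = c by omega), if_neg (show ¬ u + 1 = c by omega), add_zero, add_zero]
      rcases Nat.mod_two_eq_zero_or_one c with h | h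
      · rw [if_pos (by omega), if_neg (by omega), add_zero]
      · rw [if_neg (by omega), if_pos (by omega), zero_add]
  · obtain rfl : r = 1 := by omega
    obtain ⟨L₁, hL₁, h1⟩ := cover hx 2 w 0
    obtain ⟨L₂, hL₂, h2⟩ := cover hx 2 w 1
    refine ⟨L₁, by omega, L₂, by omega, by simp [Nat.modEq_one], ?_⟩
    unfold Nat.ModEq at h1 h2
    obtain ⟨q, hq⟩ : ∃ q, w + L₁ * x = 2 * q := ⟨(w + L₁ * x) / 2, by omega⟩
    obtain ⟨u, hu⟩ : ∃ u, w + L₂ * x = 4 * u + 1 := ⟨(w + L₂ * x) / 4, by omega⟩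
    rw [hq, hu, E_even_odd (by omega)]
    rw [E_pos (n := 4 * u + 1) (by omega), E_pos (n := 4 * u + 1 + 1) (by omega)]
    have e1 : (4 * u + 1) / 2 = 2 * u := by omega
    have e2 : (4 * u + 1 + 1) / 2 = 2 * u + 1 := by omega
    have e3 := E_even_odd (r := 1) (c := c) (q := u) (by omega)
    rw [e1, e2]
    have a1 : 2 * q % 2 ^ 1 = 0 := by omega
    have a2 : (2 * q + 1) % 2 ^ 1 = 1 := by omega
    have a3 : (4 * u + 1) % 2 ^ 1 = 1 := by omega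
    have a4 : (4 * u + 1 + 1) % 2 ^ 1 = 0 := by omega
    have a5 : (2 * u) % 2 ^ 1 = 0 := by omega
    have a6 : (2 * u + 1) % 2 ^ 1 = 1 := by omega
    rw [a5, a6] at e3
    rw [a1, a2, a3, a4]
    have hc2 : c < 2 := by simpa using hc
    have s : (if 0 = c then (1 : ZMod 2) else 0) + (if 1 = c then (1 : ZMod 2) else 0) = 1 := by
      interval_cases c <;> simp
    have t1 := add_self' (1 : ZMod 2)
    linear_combination 3 * s + e3 + t1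

/-- the values of the two terms of a crossing -/
lemma core (hr1 : 1 ≤ r) (hc : c < 2 ^ r) {x : ℕ} (hx : x % 2 = 1) (b q n i : ℕ)
    (h1 : (n + (i + 1) * (2 ^ q * x)) / 2 ^ (b + q) = (n + i * (2 ^ q * x)) / 2 ^ (b + q) + 1)
    (h2 : (n + i * (2 ^ q * x)) / 2 ^ (b + q) % 2 ^ (r - 1) = 2 ^ (r - 1) - 1) :
    ∃ L₁ L₂, 1 ≤ L₁ ∧ L₁ < 2 ^ (r + 2) + 8 ∧ 1 ≤ L₂ ∧ L₂ < 2 ^ (r + 2) + 8 ∧
      E r c (n + (2 ^ (b + r - 1) * L₁ + i) * (2 ^ q * x)) +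
        E r c (n + (2 ^ (b + r - 1) * L₁ + i + 1) * (2 ^ q * x)) ≠
      E r c (n + (2 ^ (b + r - 1) * L₂ + i) * (2 ^ q * x)) +
        E r c (n + (2 ^ (b + r - 1) * L₂ + i + 1) * (2 ^ q * x)) := by
  obtain ⟨M, hM⟩ : ∃ M, M = (n + i * (2 ^ q * x)) / 2 ^ (b + q) := ⟨_, rfl⟩
  obtain ⟨ρ, hρ⟩ : ∃ ρ, ρ = (n + i * (2 ^ q * x)) % 2 ^ (b + q) := ⟨_, rfl⟩
  obtain ⟨ρ', hρ'⟩ : ∃ ρ', ρ' = (n + (i + 1) * (2 ^ q * x)) % 2 ^ (b + q) := ⟨_, rfl⟩
  have hd1 : n + i * (2 ^ q * x) = 2 ^ (b + q) * M + ρ := by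
    rw [hM, hρ]; exact (Nat.div_add_mod _ _).symm
  have hd2 : n + (i + 1) * (2 ^ q * x) = 2 ^ (b + q) * (M + 1) + ρ' := by
    rw [hM, ← h1, hρ']; exact (Nat.div_add_mod _ _).symm
  have hρlt : ρ < 2 ^ (b + q) := by rw [hρ]; exact Nat.mod_lt _ (by positivity)
  have hρlt' : ρ' < 2 ^ (b + q) := by rw [hρ']; exact Nat.mod_lt _ (by positivity)
  rw [← hM] at h2
  obtain ⟨w, hw⟩ : ∃ w, M = 2 ^ (r - 1) * w + (2 ^ (r - 1) - 1) := by
    refine ⟨M / 2 ^ (r - 1), ?_⟩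
    rw [← h2]; exact (Nat.div_add_mod _ _).symm
  have hx0 : 1 ≤ x := by omega
  obtain ⟨L₁, hL₁, L₂, hL₂, hmod, hsum⟩ := exW (c := c) hr1 hc hx (w := w + 8 * x) (by omega)
  have hpr : 0 < 2 ^ (r - 1) := by positivity
  -- expansion of the terms
  have term1 : ∀ L, n + (2 ^ (b + r - 1) * L + i) * (2 ^ q * x) =
      2 ^ (b + q) * (2 ^ (r - 1) * (w + L * x) + (2 ^ (r - 1) - 1)) + ρ := by
    intro L
    have : n + (2 ^ (b + r - 1) * L + i) * (2 ^ q * x) =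
        (n + i * (2 ^ q * x)) + 2 ^ (b + r - 1) * 2 ^ q * (L * x) := by ring
    rw [this, hd1, hw]
    have e : 2 ^ (b + r - 1) * 2 ^ q = 2 ^ (b + q) * 2 ^ (r - 1) := by
      rw [← pow_add, ← pow_add]; congr 1; omega
    rw [e]; ring
  have term2 : ∀ L, n + (2 ^ (b + r - 1) * L + i + 1) * (2 ^ q * x) =
      2 ^ (b + q) * (2 ^ (r - 1) * (w + L * x + 1)) + ρ' := by
    intro L
    have : n + (2 ^ (b + r - 1) * L + i + 1) * (2 ^ q * x) =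
        (n + (i + 1) * (2 ^ q * x)) + 2 ^ (b + r - 1) * 2 ^ q * (L * x) := by ring
    rw [this, hd2, hw]
    have e : 2 ^ (b + r - 1) * 2 ^ q = 2 ^ (b + q) * 2 ^ (r - 1) := by
      rw [← pow_add, ← pow_add]; congr 1; omega
    have e2 : 2 ^ (r - 1) * w + (2 ^ (r - 1) - 1) + 1 = 2 ^ (r - 1) * (w + 1) := by
      have : 2 ^ (r - 1) * (w + 1) = 2 ^ (r - 1) * w + 2 ^ (r - 1) := by ring
      rw [this]; omega
    rw [e, e2]; ring
  refine ⟨L₁ + 8, L₂ + 8, by omega, by omega, by omega, by omega, ?_⟩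
  rw [term1, term1, term2, term2]
  have ew : ∀ L, w + (L + 8) * x = w + 8 * x + L * x := fun L => by ring
  rw [ew L₁, ew L₂]
  obtain ⟨w₁, hw₁⟩ : ∃ w₁, w₁ = w + 8 * x + L₁ * x := ⟨_, rfl⟩
  obtain ⟨w₂, hw₂⟩ : ∃ w₂, w₂ = w + 8 * x + L₂ * x := ⟨_, rfl⟩
  rw [← hw₁, ← hw₂] at hsum ⊢
  have hw12 : w₁ ≡ w₂ [MOD 2 ^ (r - 1)] := by
    rw [hw₁, hw₂]; exact (hmod.mul_right x).add_left _
  have hz0 : ∀ a y : ℕ, 2 ^ (r - 1) * a + y ≡ y [MOD 2 ^ (r - 1)] := by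
    intro a y
    unfold Nat.ModEq
    rw [Nat.mul_add_mod]
  have hz1 : ∀ a b : ℕ, 2 ^ (r - 1) * a ≡ 2 ^ (r - 1) * b [MOD 2 ^ (r - 1)] := by
    intro a b
    unfold Nat.ModEq
    rw [Nat.mul_mod_right, Nat.mul_mod_right]
  have hp1 : 0 < w₁ := by omega
  have hp2 : 0 < w₂ := by omega
  have j1 := E_join (r := r) (c := c) (z := 2 ^ (r - 1) * w₁ + (2 ^ (r - 1) - 1))
    (z' := 2 ^ (r - 1) * w₂ + (2 ^ (r - 1) - 1)) (by positivity) (by positivity) hr1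
    ((hz0 _ _).trans (hz0 _ _).symm) (b + q) ρ hρlt
  have j2 := E_join (r := r) (c := c) (z := 2 ^ (r - 1) * (w₁ + 1))
    (z' := 2 ^ (r - 1) * (w₂ + 1)) (by positivity) (by positivity) hr1
    (hz1 _ _) (b + q) ρ' hρlt'
  have j3 := E_join (r := r) (c := c) (z := w₁) (z' := w₂) hp1 hp2 hr1 hw12 (r - 1)
    (2 ^ (r - 1) - 1) (by omega)
  have j4 := E_join (r := r) (c := c) (z := w₁ + 1) (z' := w₂ + 1) (by omega) (by omega) hr1
    (hw12.add_right 1) (r - 1) 0 hpr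
  rw [add_zero, add_zero] at j4
  intro heq
  have s1 := add_self' (E r c (2 ^ (r - 1) * w₁ + (2 ^ (r - 1) - 1)))
  have s2 := add_self' (E r c (2 ^ (r - 1) * w₂ + (2 ^ (r - 1) - 1)))
  have s3 := add_self' (E r c (2 ^ (r - 1) * (w₁ + 1)))
  have s4 := add_self' (E r c (2 ^ (r - 1) * (w₂ + 1)))
  have s5 := add_self' (E r c w₁)
  have s6 := add_self' (E r c w₂)
  have s7 := add_self' (E r c (w₁ + 1))
  have s8 := add_self' (E r c (w₂ + 1))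
  have : (1 : ZMod 2) = 0 := by
    rw [← hsum]
    linear_combination j3 + j4 - j1 - j2 + heq + s6 + s8
  exact absurd this (by decide)

/-- if the other coordinate does not cross, its contribution does not depend on `L` -/
lemma noncross (hr1 : 1 ≤ r) {y : ℕ} (hy : 0 < y) (b q n i : ℕ)
    (h1 : (n + (i + 1) * (2 ^ q * y)) / 2 ^ (b + q) = (n + i * (2 ^ q * y)) / 2 ^ (b + q))
    {L₁ L₂ : ℕ} (hL₁ : 1 ≤ L₁) (hL₂ : 1 ≤ L₂) :
      E r c (n + (2 ^ (b + r - 1) * L₁ + i) * (2 ^ q * y)) +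
        E r c (n + (2 ^ (b + r - 1) * L₁ + i + 1) * (2 ^ q * y)) =
      E r c (n + (2 ^ (b + r - 1) * L₂ + i) * (2 ^ q * y)) +
        E r c (n + (2 ^ (b + r - 1) * L₂ + i + 1) * (2 ^ q * y)) := by
  obtain ⟨M, hM⟩ : ∃ M, M = (n + i * (2 ^ q * y)) / 2 ^ (b + q) := ⟨_, rfl⟩
  obtain ⟨ρ, hρ⟩ : ∃ ρ, ρ = (n + i * (2 ^ q * y)) % 2 ^ (b + q) := ⟨_, rfl⟩
  obtain ⟨ρ', hρ'⟩ : ∃ ρ', ρ' = (n + (i + 1) * (2 ^ q * y)) % 2 ^ (b + q) := ⟨_, rfl⟩
  have hd1 : n + i * (2 ^ q * y) = 2 ^ (b + q) * M + ρ := by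
    rw [hM, hρ]; exact (Nat.div_add_mod _ _).symm
  have hd2 : n + (i + 1) * (2 ^ q * y) = 2 ^ (b + q) * M + ρ' := by
    rw [hM, ← h1, hρ']; exact (Nat.div_add_mod _ _).symm
  have hρlt : ρ < 2 ^ (b + q) := by rw [hρ]; exact Nat.mod_lt _ (by positivity)
  have hρlt' : ρ' < 2 ^ (b + q) := by rw [hρ']; exact Nat.mod_lt _ (by positivity)
  have e : 2 ^ (b + r - 1) * 2 ^ q = 2 ^ (b + q) * 2 ^ (r - 1) := by
    rw [← pow_add, ← pow_add]; congr 1; omega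
  have term1 : ∀ L, n + (2 ^ (b + r - 1) * L + i) * (2 ^ q * y) =
      2 ^ (b + q) * (M + 2 ^ (r - 1) * (L * y)) + ρ := by
    intro L
    have : n + (2 ^ (b + r - 1) * L + i) * (2 ^ q * y) =
        (n + i * (2 ^ q * y)) + 2 ^ (b + r - 1) * 2 ^ q * (L * y) := by ring
    rw [this, hd1, e]; ring
  have term2 : ∀ L, n + (2 ^ (b + r - 1) * L + i + 1) * (2 ^ q * y) =
      2 ^ (b + q) * (M + 2 ^ (r - 1) * (L * y)) + ρ' := by
    intro L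
    have : n + (2 ^ (b + r - 1) * L + i + 1) * (2 ^ q * y) =
        (n + (i + 1) * (2 ^ q * y)) + 2 ^ (b + r - 1) * 2 ^ q * (L * y) := by ring
    rw [this, hd2, e]; ring
  rw [term1, term1, term2, term2]
  have hz : ∀ L, M + 2 ^ (r - 1) * (L * y) ≡ M [MOD 2 ^ (r - 1)] := by
    intro L
    unfold Nat.ModEq
    rw [Nat.add_mul_mod_self_left]
  have hpos : ∀ L, 1 ≤ L → 0 < M + 2 ^ (r - 1) * (L * y) := by
    intro L hL
    have : 0 < L := hL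
    positivity
  have j1 := E_join (r := r) (c := c) (hpos L₁ hL₁) (hpos L₂ hL₂) hr1
    ((hz L₁).trans (hz L₂).symm) (b + q) ρ hρlt
  have j2 := E_join (r := r) (c := c) (hpos L₁ hL₁) (hpos L₂ hL₂) hr1
    ((hz L₁).trans (hz L₂).symm) (b + q) ρ' hρlt'
  have t : ∀ a b c d e f : ZMod 2, a + b = c + d → e + b = f + d → a + e = c + f := by decide
  exact t _ _ _ _ _ _ j1 j2

/-- crossing of a multiple of `2^(b+r-1)` by the second coordinate -/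
lemma first_cross {x : ℕ} (hx : 1 ≤ x) (ν Λ : ℕ) (hν : ν < Λ) :
    ∃ i, ν + i * x < Λ ∧ Λ ≤ ν + (i + 1) * x ∧ i < Λ := by
  classical
  have hex : ∃ i, Λ ≤ ν + (i + 1) * x := ⟨Λ, by nlinarith⟩
  refine ⟨Nat.find hex, ?_, Nat.find_spec hex, ?_⟩
  · rcases Nat.eq_zero_or_pos (Nat.find hex) with h | h
    · rw [h]; simpa using hν
    · have := Nat.find_min hex (m := Nat.find hex - 1) (by omega)
      rw [Nat.sub_add_cancel h] at this
      omega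
  · by_contra hc
    push Not at hc
    have hpos : 0 < Λ := by omega
    have := Nat.find_min hex (m := Λ - 1) (by omega)
    apply this
    rw [Nat.sub_add_cancel hpos]
    nlinarith

lemma cross_quot {x : ℕ} {b : ℕ} (hb : x ≤ 2 ^ b) (hr1 : 1 ≤ r) {ν i t : ℕ} (ht : 1 ≤ t)
    (h1 : ν + i * x < t * 2 ^ (b + r - 1)) (h2 : t * 2 ^ (b + r - 1) ≤ ν + (i + 1) * x) :
    (ν + (i + 1) * x) / 2 ^ b = (ν + i * x) / 2 ^ b + 1 ∧
      (ν + i * x) / 2 ^ b % 2 ^ (r - 1) = 2 ^ (r - 1) - 1 := by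
  have hB : 0 < 2 ^ b := by positivity
  have hR : 0 < 2 ^ (r - 1) := by positivity
  have e : t * 2 ^ (b + r - 1) = 2 ^ b * (t * 2 ^ (r - 1)) := by
    have : b + r - 1 = b + (r - 1) := by omega
    rw [this, pow_add]; ring
  rw [e] at h1 h2
  have hstep : ν + (i + 1) * x = ν + i * x + x := by ring
  have q1 : (ν + i * x) / 2 ^ b < t * 2 ^ (r - 1) := (Nat.div_lt_iff_lt_mul hB).2 (by
    rw [mul_comm (t * 2 ^ (r - 1))]; exact h1)
  have q2 : t * 2 ^ (r - 1) ≤ (ν + (i + 1) * x) / 2 ^ b := (Nat.le_div_iff_mul_le hB).2 (by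
    rw [mul_comm (t * 2 ^ (r - 1))]; exact h2)
  have q3 : (ν + (i + 1) * x) / 2 ^ b ≤ (ν + i * x) / 2 ^ b + 1 := by
    rw [hstep]
    calc (ν + i * x + x) / 2 ^ b ≤ (ν + i * x + 2 ^ b) / 2 ^ b :=
          Nat.div_le_div_right (Nat.add_le_add_left hb _)
      _ = (ν + i * x) / 2 ^ b + 1 := Nat.add_div_right _ hB
  have q4 : (ν + i * x) / 2 ^ b + 1 = t * 2 ^ (r - 1) :=
    le_antisymm (Nat.succ_le_of_lt q1) (q2.trans q3)
  have q5 : (ν + (i + 1) * x) / 2 ^ b = (ν + i * x) / 2 ^ b + 1 :=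
    le_antisymm q3 (by rw [q4]; exact q2)
  refine ⟨q5, ?_⟩
  rw [Nat.eq_sub_of_add_eq q4]
  obtain ⟨t', rfl⟩ : ∃ t', t = t' + 1 := ⟨t - 1, by omega⟩
  have : (t' + 1) * 2 ^ (r - 1) - 1 = 2 ^ (r - 1) * t' + (2 ^ (r - 1) - 1) := by
    have : (t' + 1) * 2 ^ (r - 1) = 2 ^ (r - 1) * t' + 2 ^ (r - 1) := by ring
    rw [this]; omega
  rw [this, Nat.mul_add_mod, Nat.mod_eq_of_lt (by omega)]

/-- quotients of the scaled progression -/
lemma scale_quot (n q b i x : ℕ) :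
    (n + i * (2 ^ q * x)) / 2 ^ (b + q) = (n / 2 ^ q + i * x) / 2 ^ b := by
  have : n + i * (2 ^ q * x) = n + 2 ^ q * (i * x) := by ring
  rw [this, add_comm b q, pow_add, ← Nat.div_div_eq_div_mul, Nat.add_mul_div_left _ _ (by positivity)]

/-- some crossing of the second coordinate is not a crossing of the first one -/
lemma cross {x y : ℕ} (hx : x % 2 = 1) (hxy : ¬ x ∣ y) {b : ℕ} (hb : 2 * x * y + x < 2 ^ b)
    (hr1 : 1 ≤ r) (ν₁ ν₀ : ℕ) :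
    ∃ i < 2 ^ (b + r + 1), (ν₁ + (i + 1) * x) / 2 ^ b = (ν₁ + i * x) / 2 ^ b + 1 ∧
      (ν₁ + i * x) / 2 ^ b % 2 ^ (r - 1) = 2 ^ (r - 1) - 1 ∧
      (ν₀ + (i + 1) * y) / 2 ^ b = (ν₀ + i * y) / 2 ^ b := by
  have hx1 : 1 ≤ x := by omega
  have hxb : x ≤ 2 ^ b := by omega
  have hy1 : 1 ≤ y := by
    rcases Nat.eq_zero_or_pos y with rfl | h
    · exact absurd (dvd_zero x) hxy
    · exact h
  have hyb : y ≤ 2 ^ b := by nlinarith
  obtain ⟨Λ, hΛ⟩ : ∃ Λ, Λ = 2 ^ (b + r - 1) := ⟨_, rfl⟩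
  have hΛ0 : 0 < Λ := by rw [hΛ]; positivity
  obtain ⟨t, ht⟩ : ∃ t, t = ν₁ / Λ + 1 := ⟨_, rfl⟩
  have hνt : ν₁ < t * Λ := by
    rw [ht]; have := Nat.lt_div_mul_add (a := ν₁) hΛ0; linarith
  have hνt2 : (t - 1) * Λ ≤ ν₁ := by
    rw [ht, Nat.add_sub_cancel]; exact Nat.div_mul_le_self _ _
  have ht1 : 1 ≤ t := by rw [ht]; exact Nat.le_add_left _ _
  clear ht
  obtain ⟨t', rfl⟩ : ∃ t', t = t' + 1 := ⟨t - 1, by omega⟩
  rw [Nat.add_sub_cancel] at hνt2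
  obtain ⟨i₁, a1, a2, a3⟩ := first_cross hx1 ν₁ ((t' + 1) * Λ) hνt
  obtain ⟨i₂, b1, b2, b3⟩ := first_cross hx1 ν₁ ((t' + 2) * Λ) (by nlinarith)
  have hi₁ : i₁ < 2 * Λ := by
    have : i₁ * x < Λ := by nlinarith
    nlinarith
  have hi₂ : i₂ < 2 * Λ := by
    have : i₂ * x < 2 * Λ := by nlinarith
    nlinarith
  have hΛ4 : 4 * Λ = 2 ^ (b + r + 1) := by
    rw [hΛ]
    have : b + r + 1 = (b + r - 1) + 2 := by omega
    rw [this, pow_add]; ring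
  obtain ⟨c1, c2⟩ := cross_quot (r := r) hxb hr1 (t := t' + 1) (by omega) (by rw [← hΛ]; exact a1)
    (by rw [← hΛ]; exact a2)
  obtain ⟨d1, d2⟩ := cross_quot (r := r) hxb hr1 (t := t' + 2) (by omega) (by rw [← hΛ]; exact b1)
    (by rw [← hΛ]; exact b2)
  by_cases hA : (ν₀ + (i₁ + 1) * y) / 2 ^ b = (ν₀ + i₁ * y) / 2 ^ b
  · exact ⟨i₁, by omega, c1, c2, hA⟩
  by_cases hB : (ν₀ + (i₂ + 1) * y) / 2 ^ b = (ν₀ + i₂ * y) / 2 ^ b
  · exact ⟨i₂, by omega, d1, d2, hB⟩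
  exfalso
  have hBp : 0 < 2 ^ b := by positivity
  -- both crossings are crossings of the first coordinate
  have cr : ∀ i, (ν₀ + (i + 1) * y) / 2 ^ b ≠ (ν₀ + i * y) / 2 ^ b →
      ∃ s, ν₀ + i * y < s * 2 ^ b ∧ s * 2 ^ b ≤ ν₀ + (i + 1) * y := by
    intro i hi
    refine ⟨(ν₀ + (i + 1) * y) / 2 ^ b, ?_, Nat.div_mul_le_self _ _⟩
    have hmono : (ν₀ + i * y) / 2 ^ b ≤ (ν₀ + (i + 1) * y) / 2 ^ b :=
      Nat.div_le_div_right (by nlinarith)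
    have hlt : (ν₀ + i * y) / 2 ^ b < (ν₀ + (i + 1) * y) / 2 ^ b := by omega
    exact (Nat.div_lt_iff_lt_mul hBp).1 hlt
  obtain ⟨s₁, p1, p2⟩ := cr i₁ hA
  obtain ⟨s₂, p3, p4⟩ := cr i₂ hB
  have hΛ2 : (Λ : ℤ) = 2 ^ b * 2 ^ (r - 1) := by
    rw [hΛ]
    have : b + r - 1 = b + (r - 1) := by omega
    rw [this, pow_add]; push_cast; ring
  -- pass to integers
  have P1 : (ν₀ : ℤ) + i₁ * y < s₁ * 2 ^ b := by exact_mod_cast p1
  have P2 : (s₁ : ℤ) * 2 ^ b ≤ ν₀ + (i₁ + 1) * y := by exact_mod_cast p2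
  have P3 : (ν₀ : ℤ) + i₂ * y < s₂ * 2 ^ b := by exact_mod_cast p3
  have P4 : (s₂ : ℤ) * 2 ^ b ≤ ν₀ + (i₂ + 1) * y := by exact_mod_cast p4
  have A1 : (ν₁ : ℤ) + i₁ * x < (t' + 1) * Λ := by exact_mod_cast a1
  have A2 : ((t' : ℤ) + 1) * Λ ≤ ν₁ + (i₁ + 1) * x := by exact_mod_cast a2
  have B1 : (ν₁ : ℤ) + i₂ * x < (t' + 2) * Λ := by exact_mod_cast b1
  have B2 : ((t' : ℤ) + 2) * Λ ≤ ν₁ + (i₂ + 1) * x := by exact_mod_cast b2
  have X1 : (1 : ℤ) ≤ x := by exact_mod_cast hx1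
  have Y1 : (1 : ℤ) ≤ y := by exact_mod_cast hy1
  have Hb : (2 : ℤ) * x * y + x < 2 ^ b := by exact_mod_cast hb
  obtain ⟨U, hU⟩ : ∃ U : ℤ, U = ((s₂ : ℤ) - s₁) * 2 ^ b - (i₂ - i₁) * y := ⟨_, rfl⟩
  obtain ⟨V, hV⟩ : ∃ V : ℤ, V = (Λ : ℤ) - (i₂ - i₁) * x := ⟨_, rfl⟩
  obtain ⟨Z, hZ⟩ : ∃ Z : ℤ, Z = (x : ℤ) * (s₂ - s₁) - y * 2 ^ (r - 1) := ⟨_, rfl⟩
  have U1 : U < y := by rw [hU]; linarith
  have U2 : -(y : ℤ) < U := by rw [hU]; linarith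
  have V1 : V < x := by rw [hV]; linarith
  have V2 : -(x : ℤ) < V := by rw [hV]; linarith
  have hZV : (2 ^ b : ℤ) * Z = x * U - y * V := by rw [hZ, hU, hV, hΛ2]; ring
  have X0 : (0 : ℤ) < x := by linarith
  have Y0 : (0 : ℤ) < y := by linarith
  have m1 := mul_lt_mul_of_pos_left U1 X0
  have m2 := mul_lt_mul_of_pos_left U2 X0
  have m3 := mul_lt_mul_of_pos_left V1 Y0
  have m4 := mul_lt_mul_of_pos_left V2 Y0
  have hBz : (0 : ℤ) < 2 ^ b := by positivity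
  have W1 : (2 ^ b : ℤ) * Z < 2 ^ b * 1 := by rw [hZV]; linarith
  have W2 : (2 ^ b : ℤ) * (-1) < 2 ^ b * Z := by rw [hZV]; linarith
  have z1 : Z < 1 := lt_of_mul_lt_mul_left W1 hBz.le
  have z2 : -1 < Z := lt_of_mul_lt_mul_left W2 hBz.le
  have Z0 : (x : ℤ) * (s₂ - s₁) - y * 2 ^ (r - 1) = 0 := by rw [← hZ]; omega
  have hdvd : (x : ℤ) ∣ ((y * 2 ^ (r - 1) : ℕ) : ℤ) := by
    refine ⟨(s₂ : ℤ) - s₁, ?_⟩
    push_cast
    linarith
  have hdvd' : x ∣ y * 2 ^ (r - 1) := by exact_mod_cast hdvd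
  exact hxy (Nat.Coprime.dvd_of_dvd_mul_right
    (Nat.Coprime.pow_right _ (Nat.coprime_two_right.2 (Nat.odd_iff.2 hx))) hdvd')

/-- **Two coordinates with different odd steps**: the sum of parities is not constant on a
uniformly bounded range. -/
lemma two_coord (hr1 : 1 ≤ r) (hc : c < 2 ^ r) {x y : ℕ} (hx : x % 2 = 1) (hxy : ¬ x ∣ y) :
    ∃ C, ∀ n₁ n₀ q : ℕ, ∃ l₁ < C, ∃ l₂ < C,
      E r c (n₁ + l₁ * (2 ^ q * x)) + E r c (n₀ + l₁ * (2 ^ q * y)) ≠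
      E r c (n₁ + l₂ * (2 ^ q * x)) + E r c (n₀ + l₂ * (2 ^ q * y)) := by
  obtain ⟨b, hb⟩ : ∃ b, 2 * x * y + x < 2 ^ b := ⟨2 * x * y + x, Nat.lt_two_pow_self⟩
  have hy1 : 0 < y := by
    rcases Nat.eq_zero_or_pos y with rfl | h
    · exact absurd (dvd_zero x) hxy
    · exact h
  refine ⟨2 ^ (b + r - 1) * (2 ^ (r + 2) + 8) + 2 ^ (b + r + 1) + 2, ?_⟩
  intro n₁ n₀ q
  obtain ⟨i, hi, h1, h2, h3⟩ := cross (r := r) hx hxy hb hr1 (n₁ / 2 ^ q) (n₀ / 2 ^ q)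
  obtain ⟨L₁, L₂, hL₁, hL₁', hL₂, hL₂', hne⟩ := core (c := c) hr1 hc hx b q n₁ i
    (by rw [scale_quot, scale_quot]; exact h1) (by rw [scale_quot]; exact h2)
  have hnc := noncross (r := r) (c := c) hr1 hy1 b q n₀ i
    (by rw [scale_quot, scale_quot]; exact h3) hL₁ hL₂
  by_contra hcon
  push Not at hcon
  have hbd : ∀ L, L < 2 ^ (r + 2) + 8 → 2 ^ (b + r - 1) * L + i + 1 <
      2 ^ (b + r - 1) * (2 ^ (r + 2) + 8) + 2 ^ (b + r + 1) + 2 := by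
    intro L hL
    have : 2 ^ (b + r - 1) * L ≤ 2 ^ (b + r - 1) * (2 ^ (r + 2) + 8) := Nat.mul_le_mul_left _ hL.le
    omega
  have k1 := hcon _ (lt_of_le_of_lt (Nat.le_succ _) (hbd L₁ hL₁')) _
    (lt_of_le_of_lt (Nat.le_succ _) (hbd L₂ hL₂'))
  have k2 := hcon _ (hbd L₁ hL₁') _ (hbd L₂ hL₂')
  apply hne
  have t : ∀ a b c d e f g h : ZMod 2, a + b = c + d → e + f = g + h → b + f = d + h →
      a + e = c + g := by decide
  exact t _ _ _ _ _ _ _ _ k1 k2 hnc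

/-- one coordinate -/
lemma one_coord (hr1 : 1 ≤ r) (hc : c < 2 ^ r) {x : ℕ} (hx : x % 2 = 1) :
    ∃ C, ∀ n q : ℕ, ∃ l₁ < C, ∃ l₂ < C,
      E r c (n + l₁ * (2 ^ q * x)) ≠ E r c (n + l₂ * (2 ^ q * x)) := by
  obtain ⟨b, hb⟩ : ∃ b, x < 2 ^ b := ⟨x, Nat.lt_two_pow_self⟩
  obtain ⟨Λ, hΛ⟩ : ∃ Λ, Λ = 2 ^ (b + r - 1) := ⟨_, rfl⟩
  have hΛ0 : 0 < Λ := by rw [hΛ]; positivity
  refine ⟨Λ * (2 ^ (r + 2) + 8) + 2 * Λ + 2, ?_⟩
  intro n q
  obtain ⟨t', ht'⟩ : ∃ t', t' = n / 2 ^ q / Λ := ⟨_, rfl⟩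
  have h1 : n / 2 ^ q < (t' + 1) * Λ := by
    rw [ht']; have := Nat.lt_div_mul_add (a := n / 2 ^ q) hΛ0; linarith
  have h2 : t' * Λ ≤ n / 2 ^ q := by rw [ht']; exact Nat.div_mul_le_self _ _
  obtain ⟨i, a1, a2, a3⟩ := first_cross (x := x) (by omega) (n / 2 ^ q) ((t' + 1) * Λ) h1
  have hi : i < 2 * Λ := by
    have : i * x < Λ := by nlinarith
    have hx1 : 1 ≤ x := by omega
    nlinarith
  obtain ⟨c1, c2⟩ := cross_quot (r := r) hb.le hr1 (t := t' + 1) (by omega)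
    (by rw [← hΛ]; exact a1) (by rw [← hΛ]; exact a2)
  obtain ⟨L₁, L₂, hL₁, hL₁', hL₂, hL₂', hne⟩ := core (c := c) hr1 hc hx b q n i
    (by rw [scale_quot, scale_quot]; exact c1) (by rw [scale_quot]; exact c2)
  rw [← hΛ] at hne
  by_contra hcon
  push Not at hcon
  have hbd : ∀ L, L < 2 ^ (r + 2) + 8 → Λ * L + i + 1 < Λ * (2 ^ (r + 2) + 8) + 2 * Λ + 2 := by
    intro L hL
    have : Λ * L ≤ Λ * (2 ^ (r + 2) + 8) := Nat.mul_le_mul_left _ hL.le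
    omega
  apply hne
  rw [hcon _ (lt_of_le_of_lt (Nat.le_succ _) (hbd L₁ hL₁')) _
    (lt_of_le_of_lt (Nat.le_succ _) (hbd L₂ hL₂')), hcon _ (hbd L₁ hL₁') _ (hbd L₂ hL₂')]


/-- split off the low bits of a long stretch of the progression -/
lemma split_low (hr1 : 1 ≤ r) {K x y n L₀ : ℕ} (hx : 0 < x) (hLy : 2 * L₀ * y < 2 ^ K) :
    ∃ (l₀ n₁ n₀ : ℕ) (κ : ZMod 2), l₀ ≤ L₀ ∧ ∀ l', 2 ^ (r - 1) * (l' + 1) ≤ L₀ →
      E r c (n + (l₀ + 2 ^ (r - 1) * (l' + 1)) * (2 ^ K * x + y)) +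
        (E r c (n₁ + l' * (2 ^ (r - 1) * x)) + E r c (n₀ + l' * (2 ^ (r - 1) * y))) = κ := by
  obtain ⟨l₀, A₁, A₀, hl₀, hA, hA'⟩ : ∃ l₀ A₁ A₀, l₀ ≤ L₀ ∧ (A₀ + L₀ * y < 2 ^ K) ∧
      n + l₀ * (2 ^ K * x + y) = 2 ^ K * A₁ + A₀ := by
    have hn : n = 2 ^ K * (n / 2 ^ K) + n % 2 ^ K := (Nat.div_add_mod _ _).symm
    have hlt : n % 2 ^ K < 2 ^ K := Nat.mod_lt _ (by positivity)
    by_cases hc : n % 2 ^ K + L₀ * y < 2 ^ K
    · refine ⟨0, n / 2 ^ K, n % 2 ^ K, by omega, hc, ?_⟩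
      rw [zero_mul, add_zero]; exact hn
    · push Not at hc
      obtain ⟨u, hu⟩ : ∃ u, n % 2 ^ K + L₀ * y = 2 ^ K + u := ⟨n % 2 ^ K + L₀ * y - 2 ^ K, by omega⟩
      have h2 : 2 * L₀ * y = L₀ * y + L₀ * y := by ring
      refine ⟨L₀, n / 2 ^ K + L₀ * x + 1, u, le_rfl, by omega, ?_⟩
      have h3 : n + L₀ * (2 ^ K * x + y) = 2 ^ K * (n / 2 ^ K) + 2 ^ K * (L₀ * x) +
          (n % 2 ^ K + L₀ * y) := by
        conv_lhs => rw [hn]
        ring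
      rw [h3, hu]; ring
  refine ⟨l₀, A₁ + 2 ^ (r - 1) * x, 2 ^ K * (A₁ + 2 ^ (r - 1)) + A₀ + 2 ^ (r - 1) * y,
    E r c (A₁ + 2 ^ (r - 1)), hl₀, ?_⟩
  intro l' hl'
  have hpr : 0 < 2 ^ (r - 1) := by positivity
  obtain ⟨m, hm⟩ : ∃ m, m = 2 ^ (r - 1) * (l' + 1) := ⟨_, rfl⟩
  have e0 : n + (l₀ + 2 ^ (r - 1) * (l' + 1)) * (2 ^ K * x + y) =
      2 ^ K * (A₁ + m * x) + (A₀ + m * y) := by
    have : n + (l₀ + 2 ^ (r - 1) * (l' + 1)) * (2 ^ K * x + y) =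
        (n + l₀ * (2 ^ K * x + y)) + m * (2 ^ K * x + y) := by rw [hm]; ring
    rw [this, hA']; ring
  have e1 : A₁ + 2 ^ (r - 1) * x + l' * (2 ^ (r - 1) * x) = A₁ + m * x := by rw [hm]; ring
  have e2 : 2 ^ K * (A₁ + 2 ^ (r - 1)) + A₀ + 2 ^ (r - 1) * y + l' * (2 ^ (r - 1) * y) =
      2 ^ K * (A₁ + 2 ^ (r - 1)) + (A₀ + m * y) := by rw [hm]; ring
  rw [e0, e1, e2]
  have hm0 : 0 < m := by rw [hm]; positivity
  have hmod : A₁ + m * x ≡ A₁ + 2 ^ (r - 1) [MOD 2 ^ (r - 1)] := by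
    unfold Nat.ModEq
    rw [Nat.add_mod_right]
    have : A₁ + m * x = A₁ + 2 ^ (r - 1) * ((l' + 1) * x) := by rw [hm]; ring
    rw [this, Nat.add_mul_mod_self_left]
  have hlt : A₀ + m * y < 2 ^ K := by
    have : m * y ≤ L₀ * y := Nat.mul_le_mul_right _ (by rw [hm]; exact hl')
    omega
  have j := E_join (r := r) (c := c) (z := A₁ + m * x) (z' := A₁ + 2 ^ (r - 1)) (by positivity)
    (by positivity) hr1 hmod K _ hlt
  have s1 := add_self' (E r c (2 ^ K * (A₁ + 2 ^ (r - 1)) + (A₀ + m * y)))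
  linear_combination j + s1

/-- uniform upper bound for `A_v(2^K x + y)` -/
lemma upper (hr1 : 1 ≤ r) (hc : c < 2 ^ r) {x y : ℕ} (hx : x % 2 = 1) (hxy : ¬ x ∣ y) :
    ∃ C K₀, ∀ K, K₀ ≤ K → ∀ n, ∃ l, 1 ≤ l ∧ l ≤ C ∧ E r c (n + l * (2 ^ K * x + y)) ≠ E r c n := by
  obtain ⟨C, hC⟩ := two_coord (c := c) hr1 hc hx hxy
  obtain ⟨L₀, hL₀⟩ : ∃ L₀, L₀ = 2 ^ (r - 1) * (C + 1) := ⟨_, rfl⟩
  obtain ⟨K₀, hK₀⟩ : ∃ K₀, 2 * L₀ * y < 2 ^ K₀ := ⟨2 * L₀ * y, Nat.lt_two_pow_self⟩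
  refine ⟨2 * L₀, K₀, ?_⟩
  intro K hK n
  have hLy : 2 * L₀ * y < 2 ^ K := hK₀.trans_le (Nat.pow_le_pow_right (by norm_num) hK)
  obtain ⟨l₀, n₁, n₀, κ, hl₀, h⟩ := split_low (r := r) (c := c) (n := n) hr1
    (show 0 < x by omega) hLy
  obtain ⟨l₁, h1, l₂, h2, hne⟩ := hC n₁ n₀ (r - 1)
  have hle : ∀ l', l' < C → 2 ^ (r - 1) * (l' + 1) ≤ L₀ := by
    intro l' hl'
    rw [hL₀]; exact Nat.mul_le_mul_left _ (by omega)
  have k1 := h l₁ (hle l₁ h1)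
  have k2 := h l₂ (hle l₂ h2)
  have hpr : 0 < 2 ^ (r - 1) := by positivity
  have hpos : ∀ l', 1 ≤ l₀ + 2 ^ (r - 1) * (l' + 1) := by
    intro l'
    have : 0 < 2 ^ (r - 1) * (l' + 1) := by positivity
    omega
  by_cases hE : E r c (n + (l₀ + 2 ^ (r - 1) * (l₁ + 1)) * (2 ^ K * x + y)) = E r c n
  · refine ⟨l₀ + 2 ^ (r - 1) * (l₂ + 1), hpos _, by have := hle l₂ h2; omega, ?_⟩
    intro hE2
    apply hne
    rw [hE] at k1
    rw [hE2] at k2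
    exact add_left_cancel (k1.trans k2.symm)
  · exact ⟨l₀ + 2 ^ (r - 1) * (l₁ + 1), hpos _, by have := hle l₁ h1; omega, hE⟩

/-- finiteness of `A_v(d)` -/
lemma bounded (hr1 : 1 ≤ r) (hc : c < 2 ^ r) {d : ℕ} (hd : 0 < d) :
    ∃ C, ∀ n, ∃ l, 1 ≤ l ∧ l ≤ C ∧ E r c (n + l * d) ≠ E r c n := by
  obtain ⟨a, x, hx, rfl⟩ := Nat.exists_eq_two_pow_mul_odd (n := d) (by omega)
  obtain ⟨C, hC⟩ := one_coord (c := c) hr1 hc (Nat.odd_iff.1 hx)
  refine ⟨C, ?_⟩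
  intro n
  obtain ⟨l₁, h1, l₂, h2, hne⟩ := hC n a
  by_cases hE : E r c (n + l₁ * (2 ^ a * x)) = E r c n
  · refine ⟨l₂, ?_, h2.le, fun h => hne (hE.trans h.symm)⟩
    rcases Nat.eq_zero_or_pos l₂ with rfl | h
    · exfalso; apply hne; rw [hE, zero_mul, add_zero]
    · exact h
  · refine ⟨l₁, ?_, h1.le, hE⟩
    rcases Nat.eq_zero_or_pos l₁ with rfl | h
    · exfalso; apply hE; rw [zero_mul, add_zero]
    · exact h

/-- the word of `m` digits all different from the last digit of `c` -/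
def tw (c m : ℕ) : ℕ := if c % 2 = 1 then 0 else 2 ^ m - 1

lemma tw_lt (c m : ℕ) : tw c m < 2 ^ m := by
  unfold tw
  have : 0 < 2 ^ m := by positivity
  split_ifs <;> omega

lemma tw_half (c m : ℕ) : tw c (m + 1) / 2 = tw c m := by
  unfold tw
  have : 0 < 2 ^ m := by positivity
  rw [pow_succ]
  split_ifs <;> omega

lemma tw_par (c m : ℕ) : tw c (m + 1) % 2 ≠ c % 2 := by
  unfold tw
  have : 0 < 2 ^ m := by positivity
  rw [pow_succ]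
  split_ifs <;> omega

lemma E_tw (hr1 : 1 ≤ r) {z : ℕ} (hz : 0 < z) (m : ℕ) : E r c (2 ^ m * z + tw c m) = E r c z := by
  induction m with
  | zero =>
    have := tw_lt c 0
    have h0 : tw c 0 = 0 := by simpa using this
    rw [h0, pow_zero, one_mul, add_zero]
  | succ m ih =>
    rw [E_pos (by positivity), half_aux, tw_half, ih, if_neg, add_zero]
    intro h
    apply tw_par c m
    have h2 : (2 ^ (m + 1) * z + tw c (m + 1)) % 2 ^ r % 2 = (2 ^ (m + 1) * z + tw c (m + 1)) % 2 :=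
      Nat.mod_mod_of_dvd _ (dvd_pow_self 2 (by omega))
    rw [h] at h2
    have h3 : (2 ^ (m + 1) * z + tw c (m + 1)) % 2 = tw c (m + 1) % 2 := by
      rw [pow_succ, mul_comm (2 ^ m) 2, mul_assoc]
      omega
    rw [h2, h3]

lemma E_add_G (M : ℕ) : ∀ z, 2 ^ M ≤ z → z < 2 ^ (M + 1) →
    E r c z + G r c z = ((M + 1 : ℕ) : ZMod 2) * dl c := by
  induction M with
  | zero =>
    intro z h1 h2
    have : z = 1 := by rw [pow_zero] at h1; omega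
    subst this
    rw [E_pos one_pos, G_pos one_pos]
    have : 1 / 2 = 0 := rfl
    rw [this, E_zero, G_zero]
    have s1 := add_self' (if 1 % 2 ^ r = c then (1 : ZMod 2) else 0)
    push_cast
    linear_combination s1
  | succ M ih =>
    intro z h1 h2
    have hz : 0 < z := lt_of_lt_of_le (by positivity) h1
    have h3 : 2 ^ M ≤ z / 2 := by rw [pow_succ] at h1; omega
    have h4 : z / 2 < 2 ^ (M + 1) := by rw [pow_succ] at h2; omega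
    have := ih (z / 2) h3 h4
    rw [E_pos hz, G_pos hz]
    have s1 := add_self' (if z % 2 ^ r = c then (1 : ZMod 2) else 0)
    push_cast at this ⊢
    linear_combination this + s1

/-- lower bound for `A_v((2^K+1) x)` -/
lemma lower (hr1 : 1 ≤ r) (x T : ℕ) :
    ∃ K₀, ∀ K, K₀ ≤ K → ∃ n, ∀ l, l ≤ T → E r c (n + l * (2 ^ K * x + x)) = E r c n := by
  obtain ⟨M, hM⟩ : ∃ M, T * x < 2 ^ M := ⟨T * x, Nat.lt_two_pow_self⟩
  refine ⟨3 * r + M + 1, ?_⟩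
  intro K hK
  obtain ⟨k, hk⟩ : ∃ k, K = (r - 1) + (r + (M + 1) + r + k) := ⟨K - (3 * r + M), by omega⟩
  obtain ⟨W', hW'⟩ : ∃ W', W' = 2 ^ (r - 1) * 1 + tw c (r - 1) := ⟨_, rfl⟩
  obtain ⟨X, hX⟩ : ∃ X, X = 2 ^ r * (2 ^ k * W') := ⟨_, rfl⟩
  have hW0 : 0 < W' := by rw [hW']; positivity
  have hX0 : 0 < X := by rw [hX]; positivity
  refine ⟨2 ^ K * 2 ^ M + 2 ^ (r + (M + 1) + r + k) * tw c (r - 1) + 2 ^ M, ?_⟩
  have key : ∀ l, l ≤ T → E r c (2 ^ K * 2 ^ M + 2 ^ (r + (M + 1) + r + k) * tw c (r - 1) + 2 ^ M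
      + l * (2 ^ K * x + x)) =
      E r c W' + E r c X + ((r + (M + 1) : ℕ) : ZMod 2) * dl c + ((M + 1 : ℕ) : ZMod 2) * dl c := by
    intro l hl
    have hlx : l * x < 2 ^ M := lt_of_le_of_lt (Nat.mul_le_mul_right _ hl) hM
    obtain ⟨z, hz⟩ : ∃ z, z = 2 ^ M + l * x := ⟨_, rfl⟩
    have hz1 : 2 ^ M ≤ z := by omega
    have hz2 : z < 2 ^ (M + 1) := by rw [pow_succ]; omega
    have hz0 : 0 < z := lt_of_lt_of_le (by positivity) hz1
    have e1 : 2 ^ K * 2 ^ M + 2 ^ (r + (M + 1) + r + k) * tw c (r - 1) + 2 ^ M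
        + l * (2 ^ K * x + x) =
        2 ^ (r + (M + 1) + r + k) * (2 ^ (r - 1) * z + tw c (r - 1)) + z := by
      rw [hz, hk, pow_add 2 (r - 1)]; ring
    have hzlt : z < 2 ^ (r + (M + 1) + r + k) :=
      hz2.trans_le (Nat.pow_le_pow_right (by norm_num) (by omega))
    have hmod : 2 ^ (r - 1) * z + tw c (r - 1) ≡ W' [MOD 2 ^ (r - 1)] := by
      rw [hW']
      unfold Nat.ModEq
      rw [Nat.mul_add_mod, Nat.mul_add_mod]
    have j := E_join (r := r) (c := c) (z := 2 ^ (r - 1) * z + tw c (r - 1)) (z' := W')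
      (by positivity) hW0 hr1 hmod (r + (M + 1) + r + k) z hzlt
    have e2 : 2 ^ (r + (M + 1) + r + k) * W' + z = 2 ^ (r + (M + 1)) * X + z := by
      rw [hX, pow_add, pow_add]; ring
    have a := E_add (r := r) (c := c) hX0 (by rw [hX]; exact Dvd.intro _ rfl) (M + 1) z hz2
    have b := E_tw (r := r) (c := c) hr1 hz0 (r - 1)
    have g := E_add_G (r := r) (c := c) M z hz1 hz2
    rw [e2, a, b] at j
    rw [e1]
    have s1 := add_self' (E r c z)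
    linear_combination j + g - s1
  intro l hl
  have h0 := key 0 (Nat.zero_le _)
  rw [zero_mul, add_zero] at h0
  rw [key l hl, h0]

end R125P
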