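import Mathlib

/-!
Rudin-Shapiro: basic facts, window types, constancy lemmas.
-/

namespace R125S

/-- number of adjacent pairs of ones in a digit list -/
def pairs : List ℕ → ℕ
  | a :: b :: l => (if a = 1 ∧ b = 1 then 1 else 0) + pairs (b :: l)
  | _ => 0

/-- number of (possibly overlapping) occurrences of `11` in the binary expansion -/
def e11 (n : ℕ) : ℕ := pairs (Nat.digits 2 n)

/-- Rudin-Shapiro as a Boolean -/
def Rs (n : ℕ) : Bool := decide (e11 n % 2 = 1)

/-- parity -/
def od (n : ℕ) : Bool := decide (n % 2 = 1)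

theorem od_zero : od 0 = false := rfl
theorem od_one : od 1 = true := rfl

theorem od_add (a b : ℕ) : od (a + b) = xor (od a) (od b) := by
  unfold od
  rcases Nat.mod_two_eq_zero_or_one a with h | h <;> rcases Nat.mod_two_eq_zero_or_one b with h' | h'
  · have : (a + b) % 2 = 0 := by omega
    simp [h, h', this]
  · have : (a + b) % 2 = 1 := by omega
    simp [h, h', this]
  · have : (a + b) % 2 = 1 := by omega
    simp [h, h', this]
  · have : (a + b) % 2 = 0 := by omega
    simp [h, h', this]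

theorem od_two_mul (a : ℕ) : od (2 * a) = false := by
  unfold od
  have : 2 * a % 2 = 0 := by omega
  simp [this]

theorem od_two_mul_add (a : ℕ) : od (2 * a + 1) = true := by
  unfold od
  have : (2 * a + 1) % 2 = 1 := by omega
  simp [this]

theorem od_eq_of (a b : ℕ) (h : a % 2 = b % 2) : od a = od b := by
  unfold od; rw [h]

theorem od_true {a : ℕ} (h : a % 2 = 1) : od a = true := by simp [od, h]
theorem od_false {a : ℕ} (h : a % 2 = 0) : od a = false := by simp [od, h]

theorem pairs_digits_head (n : ℕ) : pairs (1 :: Nat.digits 2 n) = n % 2 + e11 n := by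
  unfold e11
  rcases Nat.eq_zero_or_pos n with h | h
  · subst h; rfl
  · rw [Nat.digits_def' (by norm_num) h, pairs]
    congr 1
    rcases Nat.mod_two_eq_zero_or_one n with h' | h' <;> simp [h']

theorem pairs_zero_head (l : List ℕ) : pairs (0 :: l) = pairs l := by
  cases l with
  | nil => rfl
  | cons a l => simp [pairs]

theorem e11_even (n : ℕ) : e11 (2 * n) = e11 n := by
  rcases Nat.eq_zero_or_pos n with h | h
  · subst h; rfl
  · conv_lhs => unfold e11
    rw [Nat.digits_def' (by norm_num) (by omega)]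
    have h1 : 2 * n % 2 = 0 := by omega
    have h2 : 2 * n / 2 = n := by omega
    rw [h1, h2, pairs_zero_head]; rfl

theorem e11_odd (n : ℕ) : e11 (2 * n + 1) = n % 2 + e11 n := by
  conv_lhs => unfold e11
  rw [Nat.digits_def' (by norm_num) (by omega)]
  have h1 : (2 * n + 1) % 2 = 1 := by omega
  have h2 : (2 * n + 1) / 2 = n := by omega
  rw [h1, h2, pairs_digits_head]

theorem Rs_even (n : ℕ) : Rs (2 * n) = Rs n := by
  unfold Rs; rw [e11_even]

theorem Rs_odd (n : ℕ) : Rs (2 * n + 1) = xor (Rs n) (od n) := by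
  unfold Rs od; rw [e11_odd]
  rcases Nat.mod_two_eq_zero_or_one n with h | h <;>
    rcases Nat.mod_two_eq_zero_or_one (e11 n) with h' | h'
  · have : (n % 2 + e11 n) % 2 = 0 := by omega
    rw [this, h, h']; rfl
  · have : (n % 2 + e11 n) % 2 = 1 := by omega
    rw [this, h, h']; rfl
  · have : (n % 2 + e11 n) % 2 = 1 := by omega
    rw [this, h, h']; rfl
  · have : (n % 2 + e11 n) % 2 = 0 := by omega
    rw [this, h, h']; rfl

theorem Rs_zero : Rs 0 = false := rfl
theorem Rs_one : Rs 1 = false := by have := Rs_odd 0; simpa [Rs_zero, od] using this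

theorem Rs_half (n : ℕ) : Rs n = xor (Rs (n / 2)) (od n && od (n / 2)) := by
  rcases Nat.mod_two_eq_zero_or_one n with h | h
  · conv_lhs => rw [show n = 2 * (n / 2) by omega]
    rw [Rs_even, od_false h]; simp
  · conv_lhs => rw [show n = 2 * (n / 2) + 1 by omega]
    rw [Rs_odd, od_true h]; simp

/-- splitting off the low `i+1` bits -/
theorem Rs_add (i : ℕ) : ∀ q r : ℕ, r < 2 ^ (i + 1) →
    Rs (2 ^ (i + 1) * q + r) = xor (xor (Rs q) (Rs r)) (od q && decide (2 ^ i ≤ r)) := by
  induction i with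
  | zero =>
    intro q r hr
    have : r = 0 ∨ r = 1 := by norm_num at hr; omega
    rcases this with rfl | rfl
    · norm_num [Rs_even, Rs_zero]
    · norm_num [Rs_odd, Rs_one]
  | succ i ih =>
    intro q r hr
    have hr2 : r / 2 < 2 ^ (i + 1) := by rw [pow_succ] at hr; omega
    have hI := ih q (r / 2) hr2
    have hdec : decide (2 ^ (i + 1) ≤ r) = decide (2 ^ i ≤ r / 2) := by
      congr 1
      rw [pow_succ]
      apply propext
      constructor <;> intro h <;> omega
    rw [hdec]
    have hodd : od (2 ^ (i + 1) * q + r / 2) = od (r / 2) := by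
      apply od_eq_of
      rw [pow_succ, mul_comm (2 ^ i) 2, mul_assoc]
      omega
    rcases Nat.mod_two_eq_zero_or_one r with h | h
    · have e1 : 2 ^ (i + 1 + 1) * q + r = 2 * (2 ^ (i + 1) * q + r / 2) := by
        have : r = 2 * (r / 2) := by omega
        conv_lhs => rw [this]
        ring
      rw [e1, Rs_even, hI]
      conv_rhs => rw [Rs_half r, od_false h]
      simp
    · have e1 : 2 ^ (i + 1 + 1) * q + r = 2 * (2 ^ (i + 1) * q + r / 2) + 1 := by
        have : r = 2 * (r / 2) + 1 := by omega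
        conv_lhs => rw [this]
        ring
      rw [e1, Rs_odd, hodd, hI]
      conv_rhs => rw [Rs_half r, od_true h]
      cases Rs q <;> cases Rs (r / 2) <;> cases od (r / 2) <;> cases od q <;>
        cases decide (2 ^ i ≤ r / 2) <;> rfl

/-! ### window types -/

/-- value at offset `w < 2^(i+2)` of a block of type `(p,e)` -/
def Wt (i : ℕ) (p e : Bool) (w : ℕ) : Bool :=
  if w < 2 ^ (i + 1) then xor (Rs w) (p && decide (2 ^ i ≤ w))
  else xor e (xor (Rs (w - 2 ^ (i + 1))) (!p && decide (2 ^ i ≤ w - 2 ^ (i + 1))))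

theorem Rs_block (i A w : ℕ) (hw : w < 2 ^ (i + 1) + 2 ^ (i + 1)) :
    Rs (2 ^ (i + 1) * A + w) = xor (Rs A) (Wt i (od A) (xor (Rs A) (Rs (A + 1))) w) := by
  unfold Wt
  split_ifs with h
  · rw [Rs_add i A w h]
    cases Rs A <;> cases Rs w <;> cases od A <;> simp
  · have e : 2 ^ (i + 1) * A + w = 2 ^ (i + 1) * (A + 1) + (w - 2 ^ (i + 1)) := by
      rw [Nat.mul_add]; omega
    have ho : od (A + 1) = !od A := by rw [od_add, od_one]; cases od A <;> rfl
    rw [e, Rs_add i (A + 1) _ (by omega), ho]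
    cases Rs A <;> cases Rs (A + 1) <;> cases od A <;>
      cases Rs (w - 2 ^ (i + 1)) <;> cases decide (2 ^ i ≤ w - 2 ^ (i + 1)) <;> rfl

/-- the representative of a block type -/
def rep (p e : Bool) : ℕ := if e then (if p then 3 else 2) else (if p then 1 else 0)

theorem rep_lt (p e : Bool) : rep p e < 4 := by
  cases p <;> cases e <;> decide

theorem Rs_two : Rs 2 = false := by rw [show 2 = 2 * 1 by norm_num, Rs_even, Rs_one]
theorem Rs_three : Rs 3 = true := by
  rw [show 3 = 2 * 1 + 1 by norm_num, Rs_odd, Rs_one, od_one]; rfl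
theorem Rs_four : Rs 4 = false := by rw [show 4 = 2 * 2 by norm_num, Rs_even, Rs_two]

theorem rep_spec (p e : Bool) : od (rep p e) = p ∧ xor (Rs (rep p e)) (Rs (rep p e + 1)) = e := by
  cases p <;> cases e
  · exact ⟨rfl, by simp [rep, Rs_zero, Rs_one]⟩
  · exact ⟨rfl, by simp [rep, Rs_two, Rs_three]⟩
  · exact ⟨rfl, by simp [rep, Rs_two, Rs_one]⟩
  · exact ⟨rfl, by simp [rep, Rs_three, Rs_four]⟩

/-- every window occurs at an early position with the same residue -/
theorem type_exists (i U : ℕ) : ∃ j c, j < 4 * 2 ^ (i + 1) ∧ j % 2 ^ (i + 1) = U % 2 ^ (i + 1) ∧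
    ∀ t ≤ 2 ^ (i + 1), Rs (U + t) = xor c (Rs (j + t)) := by
  have hN : 0 < 2 ^ (i + 1) := by positivity
  set A := U / 2 ^ (i + 1) with hA
  set u := U % 2 ^ (i + 1) with hu
  have hu2 : u < 2 ^ (i + 1) := Nat.mod_lt _ hN
  have hU : U = 2 ^ (i + 1) * A + u := (Nat.div_add_mod _ _).symm
  set α := rep (od A) (xor (Rs A) (Rs (A + 1))) with hα
  obtain ⟨h1, h2⟩ := rep_spec (od A) (xor (Rs A) (Rs (A + 1)))
  have hα4 : α < 4 := rep_lt _ _
  refine ⟨2 ^ (i + 1) * α + u, xor (Rs A) (Rs α), ?_, ?_, ?_⟩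
  · have : 2 ^ (i + 1) * α ≤ 2 ^ (i + 1) * 3 := Nat.mul_le_mul_left _ (by omega)
    omega
  · rw [Nat.mul_add_mod, Nat.mod_eq_of_lt hu2]
  · intro t ht
    have e1 : U + t = 2 ^ (i + 1) * A + (u + t) := by omega
    have e2 : 2 ^ (i + 1) * α + u + t = 2 ^ (i + 1) * α + (u + t) := by omega
    rw [e1, e2, Rs_block i A _ (by omega), Rs_block i α _ (by omega), ← hα] at *
    rw [h1, h2]
    cases Rs A <;> cases Rs α <;> simp

end R125S
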