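import Pool.Agent.R125.RsA

/-!
Rudin-Shapiro: bit tables, the alternating and constant lemmas.
-/

namespace R125S

/-- bit table of the sequence on `[0, 2^(s+1))` -/
def B : ℕ → ℕ
  | 0 => 0
  | s + 1 => B s ||| ((B s ^^^ ((2 ^ (2 ^ s) - 1) <<< (2 ^ s))) <<< (2 ^ (s + 1)))

theorem B_spec (s : ℕ) : ∀ n, (B s).testBit n = (decide (n < 2 ^ (s + 1)) && Rs n) := by
  induction s with
  | zero =>
    intro n
    rw [B, Nat.zero_testBit]
    by_cases h : n < 2
    · have : n = 0 ∨ n = 1 := by omega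
      rcases this with rfl | rfl
      · simp [Rs_zero]
      · simp [Rs_one]
    · simp [h]
  | succ s ih =>
    intro n
    rw [B, Nat.testBit_or, Nat.testBit_shiftLeft, ih n, Nat.testBit_xor, ih, Nat.testBit_shiftLeft,
      Nat.testBit_two_pow_sub_one]
    have e2 : 2 ^ (s + 1) = 2 * 2 ^ s := by rw [pow_succ]; ring
    have e4 : 2 ^ (s + 1 + 1) = 2 * 2 ^ (s + 1) := by rw [pow_succ]; ring
    by_cases h1 : n < 2 ^ (s + 1)
    · have h2 : ¬ (2 ^ (s + 1) ≤ n) := by omega
      have h3 : n < 2 ^ (s + 1 + 1) := by omega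
      simp [h1, h2, h3]
    · by_cases h3 : n < 2 ^ (s + 1 + 1)
      · have h2 : 2 ^ (s + 1) ≤ n := by omega
        have hz : n - 2 ^ (s + 1) < 2 ^ (s + 1) := by omega
        have hR : Rs n = xor (Rs (n - 2 ^ (s + 1))) (decide (2 ^ s ≤ n - 2 ^ (s + 1))) := by
          have e : n = 2 ^ (s + 1) * 1 + (n - 2 ^ (s + 1)) := by omega
          conv_lhs => rw [e]
          rw [Rs_add s 1 _ hz, Rs_one, od_one]
          simp
        rw [hR]
        have h5 : (decide (n - 2 ^ (s + 1) ≥ 2 ^ s) && decide (n - 2 ^ (s + 1) - 2 ^ s < 2 ^ s)) =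
            decide (2 ^ s ≤ n - 2 ^ (s + 1)) := by
          by_cases h6 : 2 ^ s ≤ n - 2 ^ (s + 1)
          · have : n - 2 ^ (s + 1) - 2 ^ s < 2 ^ s := by omega
            simp [h6, this]
          · simp [h6]
        rw [h5]
        simp only [h1, h2, h3, hz, decide_false, decide_true, Bool.false_and, Bool.true_and,
          Bool.false_or, ge_iff_le]
      · have h4 : ¬ (n - 2 ^ (s + 1) < 2 ^ (s + 1)) := by omega
        have h5 : ¬ (n - 2 ^ (s + 1) - 2 ^ s < 2 ^ s) := by omega
        simp [h1, h3, h4, h5]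

theorem Rs_eq_B (s n : ℕ) (h : n < 2 ^ (s + 1)) : Rs n = (B s).testBit n := by
  rw [B_spec]; simp [h]

/-- all of `p 0, ..., p (n-1)` -/
def allB (p : ℕ → Bool) : ℕ → Bool
  | 0 => true
  | n + 1 => p n && allB p n

theorem allB_spec (p : ℕ → Bool) : ∀ n, allB p n = true → ∀ i < n, p i = true := by
  intro n
  induction n with
  | zero => intro _ i hi; omega
  | succ n ih =>
    intro h i hi
    rw [allB, Bool.and_eq_true] at h
    rcases Nat.lt_succ_iff_lt_or_eq.mp hi with h1 | h1
    · exact ih h.2 i h1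
    · rw [h1]; exact h.1

/-- exists `i < n` with `p i` -/
def exB (p : ℕ → Bool) : ℕ → Bool
  | 0 => false
  | n + 1 => p n || exB p n

theorem exB_spec (p : ℕ → Bool) : ∀ n, exB p n = true → ∃ i < n, p i = true := by
  intro n
  induction n with
  | zero => intro h; simp [exB] at h
  | succ n ih =>
    intro h
    rw [exB, Bool.or_eq_true] at h
    rcases h with h | h
    · exact ⟨n, by omega, h⟩
    · obtain ⟨i, hi, h2⟩ := ih h
      exact ⟨i, by omega, h2⟩

/-- finite check for the alternating lemma -/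
def altChk (tb : ℕ) : Bool :=
  allB (fun i => allB (fun j => exB (fun t =>
    xor (xor (xor (tb.testBit (i + t)) (tb.testBit (j + t))) (od t))
      (xor (tb.testBit i) (tb.testBit j))) 15) 64) 64

theorem altChk_true : altChk (B 6) = true := by decide +kernel

/-- finite check for the constant lemma, odd shift -/
def conChk (tb : ℕ) : Bool :=
  allB (fun i => allB (fun j => !(od (i + j)) || exB (fun t =>
    xor (xor (tb.testBit (i + t)) (tb.testBit (j + t)))
      (xor (tb.testBit i) (tb.testBit j))) 8) 64) 64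

theorem conChk_true : conChk (B 6) = true := by decide +kernel

/-- no alternating agreement of length 15 -/
theorem alt_lemma (p p' : ℕ) (κ : Bool)
    (h : ∀ t < 15, xor (xor (Rs (p + t)) (Rs (p' + t))) (od t) = κ) : False := by
  obtain ⟨i, c, hi, _, hic⟩ := type_exists 3 p
  obtain ⟨j, c', hj, _, hjc⟩ := type_exists 3 p'
  norm_num at hi hj hic hjc
  have h1 := allB_spec _ _ altChk_true i hi
  have h2 := allB_spec _ _ h1 j hj
  obtain ⟨t, ht, h3⟩ := exB_spec _ _ h2
  have a1 := h t ht
  have a0 := h 0 (by norm_num)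
  rw [hic t (by omega), hjc t (by omega)] at a1
  rw [hic 0 (by omega), hjc 0 (by omega), od_zero] at a0
  rw [← a0] at a1
  rw [← Rs_eq_B 6 (i + t) (by norm_num; omega), ← Rs_eq_B 6 (j + t) (by norm_num; omega),
    ← Rs_eq_B 6 i (by norm_num; omega), ← Rs_eq_B 6 j (by norm_num; omega)] at h3
  rw [Nat.add_zero, Nat.add_zero] at a1
  revert a1 h3
  cases c <;> cases c' <;> cases Rs (i + t) <;> cases Rs (j + t) <;> cases od t <;> cases Rs i <;>
    cases Rs j <;> simp

/-- no constant agreement of length 8 for an odd shift -/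
theorem con_odd (p p' : ℕ) (κ : Bool) (hpar : od (p + p') = true)
    (h : ∀ t < 8, xor (Rs (p + t)) (Rs (p' + t)) = κ) : False := by
  obtain ⟨i, c, hi, him, hic⟩ := type_exists 3 p
  obtain ⟨j, c', hj, hjm, hjc⟩ := type_exists 3 p'
  norm_num at hi hj hic hjc him hjm
  have h1 := allB_spec _ _ conChk_true i hi
  have h2 := allB_spec _ _ h1 j hj
  have hp : od (i + j) = true := by
    rw [← hpar]
    apply od_eq_of
    omega
  simp only [hp, Bool.not_true, Bool.false_or] at h2
  obtain ⟨t, ht, h3⟩ := exB_spec _ _ h2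
  have a1 := h t ht
  have a0 := h 0 (by norm_num)
  rw [hic t (by omega), hjc t (by omega)] at a1
  rw [hic 0 (by omega), hjc 0 (by omega)] at a0
  rw [← a0] at a1
  rw [← Rs_eq_B 6 (i + t) (by norm_num; omega), ← Rs_eq_B 6 (j + t) (by norm_num; omega),
    ← Rs_eq_B 6 i (by norm_num; omega), ← Rs_eq_B 6 j (by norm_num; omega)] at h3
  rw [Nat.add_zero, Nat.add_zero] at a1
  revert a1 h3
  cases c <;> cases c' <;> cases Rs (i + t) <;> cases Rs (j + t) <;> cases Rs i <;>
    cases Rs j <;> simp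

/-- constant agreement on a long window forces congruence -/
theorem con_lemma (p p' : ℕ) (κ : Bool) (R : ℕ) (hR : 8 ≤ R)
    (h : ∀ t < R, xor (Rs (p + t)) (Rs (p' + t)) = κ) :
    ∀ v, (∀ w < v, 1 ≤ w → 2 ^ w < R) → p % 2 ^ v = p' % 2 ^ v := by
  intro v
  induction v with
  | zero => intro _; simp [Nat.mod_one]
  | succ v ih =>
    intro hv
    have hI := ih (fun w hw h1 => hv w (by omega) h1)
    by_contra hne
    rcases Nat.eq_zero_or_pos v with h0 | hpos
    · subst h0
      apply con_odd p p' κ _ (fun t ht => h t (by omega))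
      norm_num at hne
      apply od_true
      omega
    · obtain ⟨u, rfl⟩ : ∃ u, v = u + 1 := ⟨v - 1, by omega⟩
      have hlt : 2 ^ (u + 1) < R := hv (u + 1) (by omega) (by omega)
      have hpu : 0 < 2 ^ u := by positivity
      have e2 : 2 ^ (u + 1) = 2 * 2 ^ u := by rw [pow_succ]; ring
      have e4 : 2 ^ (u + 1 + 1) = 2 * 2 ^ (u + 1) := by rw [pow_succ]; ring
      -- choose t
      obtain ⟨t, ht, htm⟩ : ∃ t < 2 ^ (u + 1), (p + t) % 2 ^ (u + 1) = 2 ^ u - 1 := by
        have hm : p % 2 ^ (u + 1) < 2 ^ (u + 1) := Nat.mod_lt _ (by positivity)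
        by_cases hc : p % 2 ^ (u + 1) ≤ 2 ^ u - 1
        · refine ⟨2 ^ u - 1 - p % 2 ^ (u + 1), by omega, ?_⟩
          rw [Nat.add_mod, Nat.mod_eq_of_lt (show 2 ^ u - 1 - p % 2 ^ (u + 1) < 2 ^ (u + 1) by omega)]
          rw [Nat.mod_eq_of_lt (by omega)]
          omega
        · refine ⟨2 ^ (u + 1) + (2 ^ u - 1) - p % 2 ^ (u + 1), by omega, ?_⟩
          rw [Nat.add_mod, Nat.mod_eq_of_lt (show 2 ^ (u + 1) + (2 ^ u - 1) - p % 2 ^ (u + 1) < 2 ^ (u + 1) by omega)]
          have : p % 2 ^ (u + 1) + (2 ^ (u + 1) + (2 ^ u - 1) - p % 2 ^ (u + 1)) =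
              2 ^ u - 1 + 2 ^ (u + 1) := by omega
          rw [this, Nat.add_mod_right, Nat.mod_eq_of_lt (by omega)]
      have htm' : (p' + t) % 2 ^ (u + 1) = 2 ^ u - 1 := by
        rw [← htm, Nat.add_mod, ← hI, ← Nat.add_mod]
      set P := (p + t) / 2 ^ (u + 1) with hP
      set P' := (p' + t) / 2 ^ (u + 1) with hP'
      have x1 : p + t = 2 ^ (u + 1) * P + (2 ^ u - 1) := by
        rw [← htm]; exact (Nat.div_add_mod _ _).symm
      have x1' : p' + t = 2 ^ (u + 1) * P' + (2 ^ u - 1) := by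
        rw [← htm']; exact (Nat.div_add_mod _ _).symm
      have x2 : p + (t + 1) = 2 ^ (u + 1) * P + 2 ^ u := by omega
      have x2' : p' + (t + 1) = 2 ^ (u + 1) * P' + 2 ^ u := by omega
      have hpar : od P = !od P' := by
        by_contra hc
        have hc2 : od P = od P' := by
          revert hc; cases od P <;> cases od P' <;> simp
        have hc3 : P % 2 = P' % 2 := by
          unfold od at hc2
          rcases Nat.mod_two_eq_zero_or_one P with h1 | h1 <;>
            rcases Nat.mod_two_eq_zero_or_one P' with h2 | h2 <;> simp [h1, h2] at hc2 ⊢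
        apply hne
        -- p ≡ p' mod 2^(u+2)
        have hmod : (p + t) % 2 ^ (u + 1 + 1) = (p' + t) % 2 ^ (u + 1 + 1) := by
          rw [x1, x1']
          have f1 : P = 2 * (P / 2) + P % 2 := by omega
          have f2 : P' = 2 * (P' / 2) + P % 2 := by omega
          rw [f1, f2]
          have g1 : 2 ^ (u + 1) * (2 * (P / 2) + P % 2) + (2 ^ u - 1) =
              2 ^ (u + 1 + 1) * (P / 2) + (2 ^ (u + 1) * (P % 2) + (2 ^ u - 1)) := by
            rw [e4]; ring
          have g2 : 2 ^ (u + 1) * (2 * (P' / 2) + P % 2) + (2 ^ u - 1) =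
              2 ^ (u + 1 + 1) * (P' / 2) + (2 ^ (u + 1) * (P % 2) + (2 ^ u - 1)) := by
            rw [e4]; ring
          rw [g1, g2, Nat.mul_add_mod, Nat.mul_add_mod]
        have := Nat.ModEq.add_right_cancel' t (show p + t ≡ p' + t [MOD 2 ^ (u + 1 + 1)] from hmod)
        exact this
      have a1 := h t (by omega)
      have a2 := h (t + 1) (by omega)
      rw [x1, x1', Rs_add u _ _ (by omega), Rs_add u _ _ (by omega)] at a1
      rw [x2, x2', Rs_add u _ _ (by omega), Rs_add u _ _ (by omega)] at a2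
      have d1 : decide (2 ^ u ≤ 2 ^ u - 1) = false := by
        apply decide_eq_false; omega
      have d2 : decide (2 ^ u ≤ 2 ^ u) = true := by simp
      rw [d1, hpar] at a1
      rw [d2, hpar] at a2
      rw [← a1] at a2
      revert a2
      cases Rs P <;> cases Rs P' <;> cases Rs (2 ^ u) <;> cases Rs (2 ^ u - 1) <;> cases od P' <;>
        simp

end R125S
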