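import Pool.Agent.R125.RsB

/-!
Rudin-Shapiro: resonances.
-/

namespace R125S

/-- the relation at scale `2^i` -/
theorem scale (i n d L : ℕ) (hi : 1 ≤ i) (hL : ∀ l < L, Rs (n + l * d) = Rs n) (l : ℕ)
    (hl : l + 2 ^ (i + 1) < L) :
    Rs ((n + l * d) / 2 ^ i) = Rs ((n + l * d) / 2 ^ i + 2 * d) := by
  obtain ⟨j, rfl⟩ : ∃ j, i = j + 1 := ⟨i - 1, by omega⟩
  have hD : 0 < 2 ^ (j + 1) := by positivity
  have h1 := hL l (by omega)
  have h2 := hL (l + 2 ^ (j + 1 + 1)) hl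
  have hr : (n + l * d) % 2 ^ (j + 1) < 2 ^ (j + 1) := Nat.mod_lt _ hD
  have e1 : n + l * d = 2 ^ (j + 1) * ((n + l * d) / 2 ^ (j + 1)) + (n + l * d) % 2 ^ (j + 1) :=
    (Nat.div_add_mod _ _).symm
  have e2 : n + (l + 2 ^ (j + 1 + 1)) * d =
      2 ^ (j + 1) * ((n + l * d) / 2 ^ (j + 1) + 2 * d) + (n + l * d) % 2 ^ (j + 1) := by
    have : n + (l + 2 ^ (j + 1 + 1)) * d = (n + l * d) + 2 ^ (j + 1) * (2 * d) := by
      rw [pow_succ (n := j + 1)]; ring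
    rw [this]
    conv_lhs => rw [e1]
    ring
  rw [e1, Rs_add j _ _ hr] at h1
  rw [e2, Rs_add j _ _ hr] at h2
  have ho : od ((n + l * d) / 2 ^ (j + 1) + 2 * d) = od ((n + l * d) / 2 ^ (j + 1)) := by
    apply od_eq_of; omega
  rw [ho] at h2
  rw [← h2] at h1
  revert h1
  generalize Rs ((n + l * d) / 2 ^ (j + 1)) = a
  generalize Rs ((n + l * d) / 2 ^ (j + 1) + 2 * d) = b
  generalize Rs ((n + l * d) % 2 ^ (j + 1)) = c
  generalize (od ((n + l * d) / 2 ^ (j + 1)) && decide (2 ^ j ≤ (n + l * d) % 2 ^ (j + 1))) = e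
  cases a <;> cases b <;> cases c <;> cases e <;> simp

/-- resonance, alternating type -/
theorem res_alt (i Y Z : ℕ) (h : ∀ t < 15, Rs (Y + 2 ^ (i + 1) * t) = Rs (Z + 2 ^ (i + 1) * t))
    (hne : decide (2 ^ i ≤ Y % 2 ^ (i + 1)) ≠ decide (2 ^ i ≤ Z % 2 ^ (i + 1))) : False := by
  have hD : 0 < 2 ^ (i + 1) := by positivity
  have hy : Y % 2 ^ (i + 1) < 2 ^ (i + 1) := Nat.mod_lt _ hD
  have hz : Z % 2 ^ (i + 1) < 2 ^ (i + 1) := Nat.mod_lt _ hD
  have eY : ∀ t, Y + 2 ^ (i + 1) * t = 2 ^ (i + 1) * (Y / 2 ^ (i + 1) + t) + Y % 2 ^ (i + 1) := by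
    intro t
    conv_lhs => rw [← Nat.div_add_mod Y (2 ^ (i + 1))]
    ring
  have eZ : ∀ t, Z + 2 ^ (i + 1) * t = 2 ^ (i + 1) * (Z / 2 ^ (i + 1) + t) + Z % 2 ^ (i + 1) := by
    intro t
    conv_lhs => rw [← Nat.div_add_mod Z (2 ^ (i + 1))]
    ring
  set p := Y / 2 ^ (i + 1)
  set q := Z / 2 ^ (i + 1)
  set c := Y % 2 ^ (i + 1)
  set c' := Z % 2 ^ (i + 1)
  by_cases hc : 2 ^ i ≤ c
  · have hc' : ¬ 2 ^ i ≤ c' := by
      intro h'
      apply hne; simp [hc, h']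
    apply alt_lemma p q (xor (xor (Rs c) (Rs c')) (od p))
    intro t ht
    have h1 := h t ht
    rw [eY, eZ, Rs_add i _ _ hy, Rs_add i _ _ hz, od_add] at h1
    simp only [hc, hc', decide_true, decide_false, Bool.and_true, Bool.and_false] at h1
    revert h1
    cases Rs (p + t) <;> cases Rs (q + t) <;> cases Rs c <;> cases Rs c' <;> cases od p <;>
      cases od t <;> simp
  · have hc' : 2 ^ i ≤ c' := by
      by_contra h'
      apply hne; simp [hc, h']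
    apply alt_lemma p q (xor (xor (Rs c) (Rs c')) (od q))
    intro t ht
    have h1 := h t ht
    rw [eY, eZ, Rs_add i _ _ hy, Rs_add i _ _ hz, od_add q t] at h1
    simp only [hc, hc', decide_true, decide_false, Bool.and_true, Bool.and_false] at h1
    revert h1
    cases Rs (p + t) <;> cases Rs (q + t) <;> cases Rs c <;> cases Rs c' <;> cases od q <;>
      cases od t <;> simp

/-- resonance, constant type with odd shift -/
theorem res_con (i Y Z : ℕ) (h : ∀ t < 8, Rs (Y + 2 ^ (i + 1) * t) = Rs (Z + 2 ^ (i + 1) * t))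
    (heq : decide (2 ^ i ≤ Y % 2 ^ (i + 1)) = decide (2 ^ i ≤ Z % 2 ^ (i + 1)))
    (hodd : od (Y / 2 ^ (i + 1) + Z / 2 ^ (i + 1)) = true) : False := by
  have hD : 0 < 2 ^ (i + 1) := by positivity
  have hy : Y % 2 ^ (i + 1) < 2 ^ (i + 1) := Nat.mod_lt _ hD
  have hz : Z % 2 ^ (i + 1) < 2 ^ (i + 1) := Nat.mod_lt _ hD
  have eY : ∀ t, Y + 2 ^ (i + 1) * t = 2 ^ (i + 1) * (Y / 2 ^ (i + 1) + t) + Y % 2 ^ (i + 1) := by
    intro t
    conv_lhs => rw [← Nat.div_add_mod Y (2 ^ (i + 1))]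
    ring
  have eZ : ∀ t, Z + 2 ^ (i + 1) * t = 2 ^ (i + 1) * (Z / 2 ^ (i + 1) + t) + Z % 2 ^ (i + 1) := by
    intro t
    conv_lhs => rw [← Nat.div_add_mod Z (2 ^ (i + 1))]
    ring
  set p := Y / 2 ^ (i + 1)
  set q := Z / 2 ^ (i + 1)
  set c := Y % 2 ^ (i + 1)
  set c' := Z % 2 ^ (i + 1)
  apply con_odd p q (xor (xor (Rs c) (Rs c')) (decide (2 ^ i ≤ c))) hodd
  intro t ht
  have h1 := h t ht
  rw [eY, eZ, Rs_add i _ _ hy, Rs_add i _ _ hz, ← heq, od_add, od_add q t] at h1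
  rw [od_add] at hodd
  revert h1 hodd
  cases Rs (p + t) <;> cases Rs (q + t) <;> cases Rs c <;> cases Rs c' <;> cases od q <;>
    cases od t <;> cases od p <;> cases decide (2 ^ i ≤ c) <;> simp

/-- stages of a slowly increasing sequence -/
theorem stage_up (τ ε Q g : ℤ) (K : ℕ) (hε : 0 < ε) (hQ : 0 < Q) (hK : (K : ℤ) * ε ≤ Q)
    (hg : τ / Q < g) :
    ∃ l0 : ℕ, (∀ i < K, (τ + ((l0 + i : ℕ) : ℤ) * ε) / Q = g) ∧ (l0 : ℤ) * ε < g * Q - τ + ε := by
  have h1 : τ < g * Q := by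
    have := Int.lt_ediv_add_one_mul_self τ hQ
    have h2 : (τ / Q + 1) * Q ≤ g * Q := Int.mul_le_mul_of_nonneg_right (by omega) hQ.le
    omega
  set a := g * Q - τ with ha
  have ha0 : 0 < a := by omega
  set b := (a + ε - 1) / ε with hb
  have hb1 : a ≤ b * ε := by
    have := Int.lt_ediv_add_one_mul_self (a + ε - 1) hε
    rw [← hb] at this
    have e : (b + 1) * ε = b * ε + ε := by ring
    rw [e] at this
    omega
  have hb2 : b * ε < a + ε := by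
    have := Int.ediv_mul_le (a + ε - 1) hε.ne'
    rw [← hb] at this
    omega
  have hb0 : 0 ≤ b := by
    rw [hb]; apply Int.ediv_nonneg <;> omega
  refine ⟨b.toNat, ?_, ?_⟩
  · intro i hi
    have e : ((b.toNat + i : ℕ) : ℤ) = b + i := by push_cast; rw [Int.toNat_of_nonneg hb0]
    rw [e]
    have e2 : τ + (b + i) * ε = (b * ε + i * ε - a) + g * Q := by rw [ha]; ring
    rw [e2, Int.add_mul_ediv_right _ _ hQ.ne']
    have h3 : (0 : ℤ) ≤ i * ε := by positivity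
    have h4 : (i : ℤ) * ε + ε ≤ K * ε := by
      have : ((i : ℤ) + 1) * ε ≤ K * ε := Int.mul_le_mul_of_nonneg_right (by omega) hε.le
      have e : ((i : ℤ) + 1) * ε = i * ε + ε := by ring
      rw [e] at this; exact this
    have h5 : (b * ε + i * ε - a) / Q = 0 := Int.ediv_eq_zero_of_lt (by omega) (by omega)
    rw [h5]; ring
  · rw [Int.toNat_of_nonneg hb0]; exact hb2

theorem neg_floor (x Q : ℤ) (hQ : 0 < Q) : (-x - 1) / Q = -(x / Q) - 1 := by
  have h1 := Int.lt_ediv_add_one_mul_self x hQ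
  have h2 := Int.ediv_mul_le x hQ.ne'
  have e1 : (x / Q + 1) * Q = x / Q * Q + Q := by ring
  rw [e1] at h1
  have h3 : -x - 1 = ((x / Q) * Q + Q - 1 - x) + (-(x / Q) - 1) * Q := by ring
  rw [h3, Int.add_mul_ediv_right _ _ hQ.ne', Int.ediv_eq_zero_of_lt (by omega) (by omega)]
  ring

theorem stage_down (τ ε Q g : ℤ) (K : ℕ) (hε : ε < 0) (hQ : 0 < Q) (hK : (K : ℤ) * (-ε) ≤ Q)
    (hg : g < τ / Q) :
    ∃ l0 : ℕ, (∀ i < K, (τ + ((l0 + i : ℕ) : ℤ) * ε) / Q = g) ∧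
      (l0 : ℤ) * (-ε) < τ - (g + 1) * Q + 1 + (-ε) := by
  obtain ⟨l0, h1, h2⟩ := stage_up (-τ - 1) (-ε) Q (-g - 1) K (by omega) hQ hK
    (by rw [neg_floor _ _ hQ]; omega)
  refine ⟨l0, ?_, ?_⟩
  · intro i hi
    have h3 := h1 i hi
    have e : -τ - 1 + ((l0 + i : ℕ) : ℤ) * -ε = -(τ + ((l0 + i : ℕ) : ℤ) * ε) - 1 := by ring
    rw [e, neg_floor _ _ hQ] at h3
    omega
  · have e : (-g - 1) * Q - (-τ - 1) + -ε = τ - (g + 1) * Q + 1 + (-ε) := by ring
    rw [← e]; exact h2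

/-- finite fact behind the regions near slope 8 -/
theorem fin8 : ∀ c < 8, ∀ ρ < 8, ρ % 4 = 2 →
    (∃ s, 1 ≤ s ∧ s ≤ 3 ∧ decide (4 ≤ (c + s) % 8) ≠ decide (4 ≤ (c + s + ρ) % 8)) ∧
    (∃ s, 1 ≤ s ∧ s ≤ 3 ∧ decide (4 ≤ (c + 8 - s) % 8) ≠ decide (4 ≤ (c + 8 - s + ρ) % 8)) := by
  intro c hc ρ hρ h
  have h2 : ρ = 2 ∨ ρ = 6 := by omega
  constructor
  · rcases h2 with rfl | rfl <;> interval_cases c
    all_goals first
      | exact ⟨1, by decide⟩
      | exact ⟨2, by decide⟩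
      | exact ⟨3, by decide⟩
  · rcases h2 with rfl | rfl <;> interval_cases c
    all_goals first
      | exact ⟨1, by decide⟩
      | exact ⟨2, by decide⟩
      | exact ⟨3, by decide⟩

/-- near slope 8 -/
theorem near8 (i n d : ℕ) (ε : ℤ) (hd : d % 2 = 1) (hε : (d : ℤ) = 8 * 2 ^ i + ε)
    (h3 : 3 ≤ |ε|) (h15 : 15 * |ε| ≤ 2 ^ i)
    (hY : ∀ l < 2 ^ i + 16, Rs ((n + l * d) / 2 ^ i) = Rs ((n + l * d) / 2 ^ i + 2 * d)) : False := by
  have hQ : (0 : ℤ) < 2 ^ i := by positivity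
  have hcast : ∀ l : ℕ, (((n + l * d) / 2 ^ i : ℕ) : ℤ) = ((n : ℤ) + l * ε) / 2 ^ i + 8 * l := by
    intro l
    push_cast
    rw [hε]
    have : (n : ℤ) + l * (8 * 2 ^ i + ε) = (n + l * ε) + (8 * l) * 2 ^ i := by ring
    rw [this, Int.add_mul_ediv_right _ _ hQ.ne']
  set G0 := (n : ℤ) / 2 ^ i with hG0
  have hY0 : ((n / 2 ^ i : ℕ) : ℤ) = G0 := by rw [hG0]; push_cast; rfl
  -- a stage with the alternating property is contradictory
  have key : ∀ g : ℤ, ∀ l0 : ℕ, (∀ t < 15, ((n : ℤ) + ((l0 + t : ℕ) : ℤ) * ε) / 2 ^ i = g) →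
      l0 ≤ 2 ^ i + 1 → decide (4 ≤ (g % 8).toNat) ≠ decide (4 ≤ ((g + 2 * d) % 8).toNat) → False := by
    intro g l0 hst hl0 hne
    have hYt : ∀ t < 15, (n + (l0 + t) * d) / 2 ^ i = (n + l0 * d) / 2 ^ i + 2 ^ (2 + 1) * t := by
      intro t ht
      have a1 := hcast (l0 + t)
      have a0 := hcast l0
      rw [hst t ht] at a1
      have := hst 0 (by norm_num)
      rw [Nat.add_zero] at this
      rw [this] at a0
      push_cast at a1 a0
      have : (((n + (l0 + t) * d) / 2 ^ i : ℕ) : ℤ) = (((n + l0 * d) / 2 ^ i + 2 ^ (2 + 1) * t : ℕ) : ℤ) := by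
        push_cast
        rw [a1, a0]; ring
      exact_mod_cast this
    apply res_alt 2 ((n + l0 * d) / 2 ^ i) ((n + l0 * d) / 2 ^ i + 2 * d)
    · intro t ht
      have h := hY (l0 + t) (by omega)
      rw [hYt t ht] at h
      rw [h]
      congr 1; ring
    · have a0 := hcast l0
      have := hst 0 (by norm_num)
      rw [Nat.add_zero] at this
      rw [this] at a0
      have e1 : ((n + l0 * d) / 2 ^ i) % 2 ^ (2 + 1) = (g % 8).toNat := by
        generalize (n + l0 * d) / 2 ^ i = y at *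
        norm_num
        omega
      have e2 : ((n + l0 * d) / 2 ^ i + 2 * d) % 2 ^ (2 + 1) = ((g + 2 * d) % 8).toNat := by
        generalize (n + l0 * d) / 2 ^ i = y at *
        norm_num
        omega
      rw [e1, e2]
      exact hne
  generalize n / 2 ^ i = y at hY0
  obtain ⟨hp, hm⟩ := fin8 (y % 8) (Nat.mod_lt _ (by norm_num)) ((2 * d) % 8)
    (Nat.mod_lt _ (by norm_num)) (by omega)
  rcases lt_or_ge 0 ε with hpos | hneg
  · rw [abs_of_pos hpos] at h3 h15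
    obtain ⟨s, hs1, hs2, hs3⟩ := hp
    obtain ⟨l0, hst, hl0⟩ := stage_up (n : ℤ) ε (2 ^ i) (G0 + s) 15 hpos hQ (by push_cast; omega)
      (by rw [← hG0]; omega)
    apply key (G0 + s) l0 hst
    · have h4 : (G0 + s) * 2 ^ i - n ≤ 3 * 2 ^ i := by
        have := Int.ediv_mul_le (n : ℤ) hQ.ne'
        rw [← hG0] at this
        have : (G0 + s) * 2 ^ i = G0 * 2 ^ i + s * 2 ^ i := by ring
        have : (s : ℤ) * 2 ^ i ≤ 3 * 2 ^ i := Int.mul_le_mul_of_nonneg_right (by omega) hQ.le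
        have : G0 * 2 ^ i ≤ n := Int.lt_add_one_iff.mp (by omega)
        have : (n : ℤ) < (G0 + 1) * 2 ^ i := Int.lt_ediv_add_one_mul_self n hQ
        have : (G0 + 1) * 2 ^ i = G0 * 2 ^ i + 2 ^ i := by ring
        omega
      by_contra hc
      push Not at hc
      have h5 : ((2 : ℤ) ^ i + 2) * ε ≤ l0 * ε := Int.mul_le_mul_of_nonneg_right (by exact_mod_cast hc) hpos.le
      have h6 : (2 : ℤ) ^ i * 3 ≤ 2 ^ i * ε := Int.mul_le_mul_of_nonneg_left h3 hQ.le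
      have h7 : ((2 : ℤ) ^ i + 2) * ε = 2 ^ i * ε + 2 * ε := by ring
      omega
    · have e1 : ((G0 + s) % 8).toNat = (y % 8 + s) % 8 := by omega
      have e2 : ((G0 + s + 2 * d) % 8).toNat = (y % 8 + s + (2 * d) % 8) % 8 := by omega
      rw [e1, e2]; exact hs3
  · have hneg' : ε < 0 := by
      rcases eq_or_lt_of_le hneg with h | h
      · rw [h] at h3; simp at h3
      · exact h
    rw [abs_of_neg hneg'] at h3 h15
    obtain ⟨s, hs1, hs2, hs3⟩ := hm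
    obtain ⟨l0, hst, hl0⟩ := stage_down (n : ℤ) ε (2 ^ i) (G0 - s) 15 hneg' hQ (by push_cast; omega)
      (by rw [← hG0]; omega)
    apply key (G0 - s) l0 hst
    · have h4 : (n : ℤ) - (G0 - s + 1) * 2 ^ i + 1 ≤ 3 * 2 ^ i := by
        have : (G0 - s + 1) * 2 ^ i = (G0 + 1) * 2 ^ i - s * 2 ^ i := by ring
        have : (s : ℤ) * 2 ^ i ≤ 3 * 2 ^ i := Int.mul_le_mul_of_nonneg_right (by omega) hQ.le
        have : (n : ℤ) < (G0 + 1) * 2 ^ i := Int.lt_ediv_add_one_mul_self n hQ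
        omega
      by_contra hc
      push Not at hc
      have h5 : ((2 : ℤ) ^ i + 2) * (-ε) ≤ l0 * (-ε) :=
        Int.mul_le_mul_of_nonneg_right (by exact_mod_cast hc) (by omega)
      have h6 : (2 : ℤ) ^ i * 3 ≤ 2 ^ i * (-ε) := Int.mul_le_mul_of_nonneg_left h3 hQ.le
      have h7 : ((2 : ℤ) ^ i + 2) * (-ε) = 2 ^ i * (-ε) + 2 * (-ε) := by ring
      omega
    · have e1 : ((G0 - s) % 8).toNat = (y % 8 + 8 - s) % 8 := by omega
      have e2 : ((G0 - s + 2 * d) % 8).toNat = (y % 8 + 8 - s + (2 * d) % 8) % 8 := by omega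
      rw [e1, e2]; exact hs3

end R125S
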