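import Pool.Agent.R125.RsC

/-!
Rudin-Shapiro: the resonance near slope 16/3.
-/

namespace R125S

/-- a residue `y mod 16` survives for `ρ = 2 d mod 32` -/
def sv (y ρ : ℕ) : Bool :=
  (decide (8 ≤ y) == decide (8 ≤ (y + ρ) % 16)) && decide (((y + ρ) / 16) % 2 = 0)

def fin16 : Bool :=
  allB (fun γ => allB (fun ρ =>
    !(decide (ρ % 4 = 2)) ||
    (if ρ = 2 ∨ ρ = 30 then
      exB (fun s => exB (fun r => !(sv (((γ + (s + 1) + 16 * r) / 3) % 16) ρ)) 3) 3 &&
      exB (fun s => exB (fun r => !(sv (((γ + 48 - (s + 1) + 16 * r) / 3) % 16) ρ)) 3) 3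
    else exB (fun r => !(sv (((γ + 16 * r) / 3) % 16) ρ)) 3)) 32) 48

theorem fin16_true : fin16 = true := by decide +kernel

/-- a non-surviving position gives a contradiction -/
theorem sv_contra (Y d : ℕ) (h : ∀ t < 15, Rs (Y + 16 * t) = Rs (Y + 2 * d + 16 * t))
    (hs : sv (Y % 16) ((2 * d) % 32) = false) : False := by
  have h' : ∀ t < 15, Rs (Y + 2 ^ (3 + 1) * t) = Rs (Y + 2 * d + 2 ^ (3 + 1) * t) := by
    intro t ht; norm_num; exact h t ht
  by_cases h1 : decide (2 ^ 3 ≤ Y % 2 ^ (3 + 1)) = decide (2 ^ 3 ≤ (Y + 2 * d) % 2 ^ (3 + 1))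
  · apply res_con 3 Y (Y + 2 * d) (fun t ht => h' t (by omega)) h1
    unfold sv at hs
    have e1 : (Y % 16 + 2 * d % 32) % 16 = (Y + 2 * d) % 16 := by omega
    norm_num at h1
    rw [e1] at hs
    have e2 : (decide (8 ≤ Y % 16) == decide (8 ≤ (Y + 2 * d) % 16)) = true := by
      rw [beq_iff_eq]
      exact decide_eq_decide.mpr h1
    rw [e2, Bool.true_and, decide_eq_false_iff_not] at hs
    apply od_true
    norm_num
    omega
  · exact res_alt 3 Y (Y + 2 * d) h' h1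

theorem fl48 (x y : ℤ) (h : x % 48 = y % 48) : (x / 3) % 16 = (y / 3) % 16 := by
  obtain ⟨k, hk⟩ : ∃ k, x = y + 48 * k := ⟨(x - y) / 48, by omega⟩
  have : x / 3 = y / 3 + 16 * k := by omega
  omega

theorem fl48n (x y : ℕ) (h : x % 48 = y % 48) : (x / 3) % 16 = (y / 3) % 16 := by
  have := fl48 x y (by exact_mod_cast h)
  exact_mod_cast this

/-- near slope 16/3 -/
theorem near16 (i n d W : ℕ) (ε : ℤ) (hi : 7 ≤ i) (hd : d % 2 = 1) (hε : 3 * (d : ℤ) = 16 * 2 ^ i + ε)
    (h45 : 45 * |ε| ≤ 2 ^ i) (hW : 89 ≤ W) (hW2 : 2 ^ i ≤ 2 * W)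
    (hY : ∀ l < W, Rs ((n + l * d) / 2 ^ i) = Rs ((n + l * d) / 2 ^ i + 2 * d)) : False := by
  have hQ : (0 : ℤ) < 2 ^ i := by positivity
  have hMn : 128 ≤ 2 ^ i := by
    calc 128 = 2 ^ 7 := by norm_num
      _ ≤ 2 ^ i := Nat.pow_le_pow_right (by norm_num) hi
  have hMz : (128 : ℤ) ≤ 2 ^ i := by exact_mod_cast hMn
  have hM3 : (2 : ℤ) ^ i % 3 ≠ 0 := by
    have : (2 ^ i : ℕ) % 3 ≠ 0 := by
      intro h0
      have h1 : 3 ∣ 2 ^ i := Nat.dvd_of_mod_eq_zero h0
      have := Nat.Prime.dvd_of_dvd_pow Nat.prime_three h1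
      omega
    intro h0
    apply this
    have h1 : ((2 ^ i : ℕ) : ℤ) % 3 = 0 := by push_cast; exact h0
    omega
  have hMd : (2 : ℤ) ^ i % 16 = 0 := by
    have : (2 : ℤ) ^ i = 16 * 2 ^ (i - 4) := by
      rw [show (16 : ℤ) = 2 ^ 4 by norm_num, ← pow_add]; congr 1; omega
    rw [this]; omega
  have hW2z : (2 : ℤ) ^ i ≤ 2 * W := by exact_mod_cast hW2
  -- quotient sequence
  have hcast : ∀ l : ℕ, (((n + l * d) / 2 ^ i : ℕ) : ℤ) =
      ((3 * (n : ℤ) + l * ε) / 2 ^ i + 16 * l) / 3 := by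
    intro l
    push_cast
    have e1 : ((n : ℤ) + l * d) / 2 ^ i = (3 * ((n : ℤ) + l * d)) / (3 * 2 ^ i) := by
      rw [Int.mul_ediv_mul_of_pos _ _ (by norm_num)]
    have e2 : 3 * ((n : ℤ) + l * d) = (3 * (n : ℤ) + l * ε) + (16 * l) * 2 ^ i := by
      have : 3 * ((n : ℤ) + l * d) = 3 * n + l * (3 * d) := by ring
      rw [this, hε]; ring
    rw [e1, e2, mul_comm (3 : ℤ) (2 ^ i), ← Int.ediv_ediv_of_nonneg hQ.le,
      Int.add_mul_ediv_right _ _ hQ.ne']
  set G0 := (3 * (n : ℤ)) / 2 ^ i with hG0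
  have hG0n : 0 ≤ G0 := by rw [hG0]; positivity
  -- a stage with a non-survivor is contradictory
  have key : ∀ g : ℤ, ∀ l0 : ℕ, (∀ t < 45, (3 * (n : ℤ) + ((l0 + t : ℕ) : ℤ) * ε) / 2 ^ i = g) →
      l0 + 45 ≤ W → ∀ r < 3, sv ((((g % 48).toNat + 16 * r) / 3) % 16) ((2 * d) % 32) = false → False := by
    intro g l0 hst hl0 r hr hsv
    -- index a = l0 + r' with a ≡ r mod 3
    obtain ⟨r', hr', hrm⟩ : ∃ r' < 3, (l0 + r') % 3 = r := ⟨(r + 3 - l0 % 3) % 3, Nat.mod_lt _ (by norm_num), by omega⟩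
    set a := l0 + r' with ha
    have hYt : ∀ t < 15, (n + (a + 3 * t) * d) / 2 ^ i = (n + a * d) / 2 ^ i + 16 * t := by
      intro t ht
      have a1 := hcast (a + 3 * t)
      have a0 := hcast a
      have s1 := hst (r' + 3 * t) (by omega)
      have s0 := hst r' (by omega)
      have e : l0 + (r' + 3 * t) = a + 3 * t := by omega
      rw [e] at s1
      rw [← ha] at s0
      rw [s1] at a1
      rw [s0] at a0
      push_cast at a1 a0
      have : (((n + (a + 3 * t) * d) / 2 ^ i : ℕ) : ℤ) = (((n + a * d) / 2 ^ i + 16 * t : ℕ) : ℤ) := by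
        push_cast
        rw [a1, a0]; omega
      exact_mod_cast this
    apply sv_contra ((n + a * d) / 2 ^ i) d
    · intro t ht
      have h := hY (a + 3 * t) (by omega)
      rw [hYt t ht] at h
      rw [h]
      congr 1; ring
    · have a0 := hcast a
      have s0 := hst r' (by omega)
      rw [← ha] at s0
      rw [s0] at a0
      have e1 : ((n + a * d) / 2 ^ i) % 16 = ((((g % 48).toNat + 16 * r) / 3) % 16) := by
        generalize (n + a * d) / 2 ^ i = y at *
        have h1 := fl48 (g + 16 * a) ((((g % 48).toNat + 16 * r : ℕ)) : ℤ) (by push_cast; omega)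
        rw [← a0] at h1
        exact_mod_cast h1
      rw [e1]
      exact hsv
  have hfin := allB_spec _ _ fin16_true (G0 % 48).toNat (by omega)
  have hfin2 := allB_spec _ _ hfin ((2 * d) % 32) (Nat.mod_lt _ (by norm_num))
  have hρ : (2 * d) % 32 % 4 = 2 := by omega
  simp only [hρ, decide_true, Bool.not_true, Bool.false_or] at hfin2
  have hlow : G0 * 2 ^ i ≤ 3 * n := Int.ediv_mul_le _ hQ.ne'
  have hhigh : 3 * (n : ℤ) < G0 * 2 ^ i + 2 ^ i := by
    have := Int.lt_ediv_add_one_mul_self (3 * (n : ℤ)) hQ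
    rw [← hG0] at this
    have e : (G0 + 1) * 2 ^ i = G0 * 2 ^ i + 2 ^ i := by ring
    rw [e] at this; exact this
  by_cases hspec : (2 * d) % 32 = 2 ∨ (2 * d) % 32 = 30
  · rw [if_pos hspec, Bool.and_eq_true] at hfin2
    have h13 : 13 ≤ |ε| := by
      rcases lt_or_ge 0 ε with hpos | hneg
      · rw [abs_of_pos hpos]
        rcases hspec with h | h <;> omega
      · rw [abs_of_nonpos hneg]
        rcases hspec with h | h <;> omega
    rcases lt_or_ge 0 ε with hpos | hneg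
    · rw [abs_of_pos hpos] at h13 h45
      obtain ⟨s, hs, hs2⟩ := exB_spec _ _ hfin2.1
      obtain ⟨r, hr, hr2⟩ := exB_spec _ _ hs2
      obtain ⟨l0, hst, hl0⟩ := stage_up (3 * (n : ℤ)) ε (2 ^ i) (G0 + (s + 1)) 45 hpos hQ
        (by push_cast; omega) (by rw [← hG0]; omega)
      apply key (G0 + (s + 1)) l0 hst _ r hr
      · have e : (((G0 + (s + 1)) % 48).toNat + 16 * r) / 3 % 16 =
            ((G0 % 48).toNat + (s + 1) + 16 * r) / 3 % 16 := fl48n _ _ (by omega)
        rw [e]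
        simpa using hr2
      · have h4 : (G0 + (s + 1)) * 2 ^ i - 3 * n ≤ 3 * 2 ^ i := by
          have h1 : (G0 + (s + 1)) * 2 ^ i = G0 * 2 ^ i + (s + 1) * 2 ^ i := by ring
          have h2 : ((s : ℤ) + 1) * 2 ^ i ≤ 3 * 2 ^ i := Int.mul_le_mul_of_nonneg_right (by omega) hQ.le
          omega
        have h5 : (l0 : ℤ) * ε < 3 * 2 ^ i + ε := by omega
        have h6 : ((l0 : ℤ) - 1) * ε < 3 * 2 ^ i := by
          have : ((l0 : ℤ) - 1) * ε = l0 * ε - ε := by ring
          omega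
        by_cases hl1 : l0 = 0
        · omega
        · have h7 : ((l0 : ℤ) - 1) * 13 ≤ ((l0 : ℤ) - 1) * ε :=
            Int.mul_le_mul_of_nonneg_left h13 (by omega)
          omega
    · have hneg' : ε < 0 := by
        rcases eq_or_lt_of_le hneg with h | h
        · rw [h] at h13; simp at h13
        · exact h
      rw [abs_of_neg hneg'] at h13 h45
      obtain ⟨s, hs, hs2⟩ := exB_spec _ _ hfin2.2
      obtain ⟨r, hr, hr2⟩ := exB_spec _ _ hs2
      obtain ⟨l0, hst, hl0⟩ := stage_down (3 * (n : ℤ)) ε (2 ^ i) (G0 - (s + 1)) 45 hneg' hQ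
        (by push_cast; omega) (by rw [← hG0]; omega)
      apply key (G0 - (s + 1)) l0 hst _ r hr
      · have e : (((G0 - (s + 1)) % 48).toNat + 16 * r) / 3 % 16 =
            ((G0 % 48).toNat + 48 - (s + 1) + 16 * r) / 3 % 16 := fl48n _ _ (by omega)
        rw [e]
        simpa using hr2
      · have h4 : 3 * (n : ℤ) - (G0 - (s + 1) + 1) * 2 ^ i + 1 ≤ 3 * 2 ^ i := by
          have h1 : (G0 - (s + 1) + 1) * 2 ^ i = G0 * 2 ^ i - s * 2 ^ i := by ring
          have h2 : (s : ℤ) * 2 ^ i ≤ 2 * 2 ^ i := Int.mul_le_mul_of_nonneg_right (by omega) hQ.le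
          omega
        have h5 : (l0 : ℤ) * (-ε) < 3 * 2 ^ i + (-ε) := by omega
        have h6 : ((l0 : ℤ) - 1) * (-ε) < 3 * 2 ^ i := by
          have : ((l0 : ℤ) - 1) * (-ε) = l0 * (-ε) - (-ε) := by ring
          omega
        by_cases hl1 : l0 = 0
        · omega
        · have h7 : ((l0 : ℤ) - 1) * 13 ≤ ((l0 : ℤ) - 1) * (-ε) :=
            Int.mul_le_mul_of_nonneg_left h13 (by omega)
          omega
  · rw [if_neg hspec] at hfin2
    -- any stage of length 45 works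
    have any : ∀ g : ℤ, ∀ l0 : ℕ, (∀ t < 45, (3 * (n : ℤ) + ((l0 + t : ℕ) : ℤ) * ε) / 2 ^ i = g) →
        l0 + 45 ≤ W → False := by
      intro g l0 hst hl0
      have f1 := allB_spec _ _ fin16_true (g % 48).toNat (by omega)
      have f2 := allB_spec _ _ f1 ((2 * d) % 32) (Nat.mod_lt _ (by norm_num))
      simp only [hρ, decide_true, Bool.not_true, Bool.false_or] at f2
      rw [if_neg hspec] at f2
      obtain ⟨r, hr, hr2⟩ := exB_spec _ _ f2
      exact key g l0 hst hl0 r hr (by simpa using hr2)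
    by_cases hc : (3 * (n : ℤ) + ((44 : ℕ) : ℤ) * ε) / 2 ^ i = G0
    · -- constant from the start
      apply any G0 0 _ (by omega)
      intro t ht
      rw [Nat.zero_add]
      rcases lt_or_ge 0 ε with hpos | hneg
      · have h1 : (3 * (n : ℤ) + (t : ℤ) * ε) / 2 ^ i ≤ (3 * (n : ℤ) + ((44 : ℕ) : ℤ) * ε) / 2 ^ i := by
          apply Int.ediv_le_ediv hQ
          have : (t : ℤ) * ε ≤ ((44 : ℕ) : ℤ) * ε := Int.mul_le_mul_of_nonneg_right (by exact_mod_cast (by omega)) hpos.le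
          omega
        have h2 : G0 ≤ (3 * (n : ℤ) + (t : ℤ) * ε) / 2 ^ i := by
          rw [hG0]
          apply Int.ediv_le_ediv hQ
          have : (0 : ℤ) ≤ (t : ℤ) * ε := by positivity
          omega
        omega
      · have h1 : (3 * (n : ℤ) + ((44 : ℕ) : ℤ) * ε) / 2 ^ i ≤ (3 * (n : ℤ) + (t : ℤ) * ε) / 2 ^ i := by
          apply Int.ediv_le_ediv hQ
          have : ((44 : ℕ) : ℤ) * ε ≤ (t : ℤ) * ε := by
            have h1 : (t : ℤ) * (-ε) ≤ ((44 : ℕ) : ℤ) * (-ε) :=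
              Int.mul_le_mul_of_nonneg_right (by exact_mod_cast (by omega)) (by omega)
            have h2 : (t : ℤ) * (-ε) = -(t * ε) := by ring
            have h3 : ((44 : ℕ) : ℤ) * (-ε) = -(((44 : ℕ) : ℤ) * ε) := by ring
            omega
          omega
        have h2 : (3 * (n : ℤ) + (t : ℤ) * ε) / 2 ^ i ≤ G0 := by
          rw [hG0]
          apply Int.ediv_le_ediv hQ
          have h1 : (0 : ℤ) ≤ (t : ℤ) * (-ε) := Int.mul_nonneg (by omega) (by omega)
          have h2 : (t : ℤ) * (-ε) = -(t * ε) := by ring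
          omega
        omega
    · rcases lt_or_ge 0 ε with hpos | hneg
      · rw [abs_of_pos hpos] at h45
        have h2 : G0 ≤ (3 * (n : ℤ) + ((44 : ℕ) : ℤ) * ε) / 2 ^ i := by
          rw [hG0]
          apply Int.ediv_le_ediv hQ
          have : (0 : ℤ) ≤ ((44 : ℕ) : ℤ) * ε := by positivity
          omega
        have h3 : G0 + 1 ≤ (3 * (n : ℤ) + ((44 : ℕ) : ℤ) * ε) / 2 ^ i := by omega
        have h4 : (G0 + 1) * 2 ^ i ≤ 3 * (n : ℤ) + ((44 : ℕ) : ℤ) * ε :=
          le_trans (Int.mul_le_mul_of_nonneg_right h3 hQ.le) (Int.ediv_mul_le _ hQ.ne')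
        obtain ⟨l0, hst, hl0⟩ := stage_up (3 * (n : ℤ)) ε (2 ^ i) (G0 + 1) 45 hpos hQ
          (by push_cast; omega) (by rw [← hG0]; omega)
        apply any (G0 + 1) l0 hst
        by_contra hcon
        push Not at hcon
        have h5 : (45 : ℤ) * ε ≤ l0 * ε := Int.mul_le_mul_of_nonneg_right (by omega) hpos.le
        push_cast at h4
        omega
      · have hneg' : ε < 0 := by
          rcases eq_or_lt_of_le hneg with h | h
          · exfalso; apply hc; rw [h, hG0]; simp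
          · exact h
        rw [abs_of_neg hneg'] at h45
        have h2 : (3 * (n : ℤ) + ((44 : ℕ) : ℤ) * ε) / 2 ^ i ≤ G0 := by
          rw [hG0]
          apply Int.ediv_le_ediv hQ
          have h1 : (0 : ℤ) ≤ ((44 : ℕ) : ℤ) * (-ε) := Int.mul_nonneg (by norm_num) (by omega)
          have h2 : ((44 : ℕ) : ℤ) * (-ε) = -(((44 : ℕ) : ℤ) * ε) := by ring
          omega
        have h3 : (3 * (n : ℤ) + ((44 : ℕ) : ℤ) * ε) / 2 ^ i ≤ G0 - 1 := by omega
        have h4 : 3 * (n : ℤ) + ((44 : ℕ) : ℤ) * ε < G0 * 2 ^ i := by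
          have h5 := Int.lt_ediv_add_one_mul_self (3 * (n : ℤ) + ((44 : ℕ) : ℤ) * ε) hQ
          have h6 : ((3 * (n : ℤ) + ((44 : ℕ) : ℤ) * ε) / 2 ^ i + 1) * 2 ^ i ≤ G0 * 2 ^ i :=
            Int.mul_le_mul_of_nonneg_right (by omega) hQ.le
          omega
        obtain ⟨l0, hst, hl0⟩ := stage_down (3 * (n : ℤ)) ε (2 ^ i) (G0 - 1) 45 hneg' hQ
          (by push_cast; omega) (by rw [← hG0]; omega)
        apply any (G0 - 1) l0 hst
        by_contra hcon
        push Not at hcon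
        have h5 : (45 : ℤ) * (-ε) ≤ l0 * (-ε) := Int.mul_le_mul_of_nonneg_right (by omega) (by omega)
        have h6 : (G0 - 1 + 1) * 2 ^ i = G0 * 2 ^ i := by ring
        rw [h6] at hl0
        push_cast at h4
        omega

end R125S
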