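import Pool.Agent.R125.RsD

/-!
Rudin-Shapiro: the differences `2^k + 1` and `2^k - 1`.
-/

namespace R125S

theorem two_pow_facts (s : ℕ) : 2 ^ (s + 1) = 2 * 2 ^ s ∧ 2 ^ (s + 2) = 4 * 2 ^ s ∧
    2 ^ (s + 1 + 1) = 4 * 2 ^ s := by
  refine ⟨by rw [pow_succ]; ring, by rw [pow_add]; ring, by rw [pow_succ, pow_succ]; ring⟩

theorem Rs_pow_pred (a : ℕ) :
    xor (Rs (2 ^ (a + 2) - 1)) (Rs (2 ^ (a + 2) - 2)) = true := by
  have hp : 0 < 2 ^ a := by positivity
  obtain ⟨h1, h2, _⟩ := two_pow_facts a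
  have e1 : 2 ^ (a + 2) - 2 = 2 * (2 ^ (a + 1) - 1) := by omega
  have e2 : 2 ^ (a + 2) - 1 = 2 * (2 ^ (a + 1) - 1) + 1 := by omega
  rw [e1, e2, Rs_even, Rs_odd, od_true (show (2 ^ (a + 1) - 1) % 2 = 1 by omega)]
  cases Rs (2 ^ (a + 1) - 1) <;> rfl

theorem Rs_pow_pred2 (a : ℕ) :
    xor (Rs (2 ^ (a + 3) - 2)) (Rs (2 ^ (a + 3) - 3)) = true := by
  have hp : 0 < 2 ^ a := by positivity
  obtain ⟨h1, h2, _⟩ := two_pow_facts a
  obtain ⟨h3, h4, _⟩ := two_pow_facts (a + 1)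
  have h5 : 2 ^ (a + 3) = 8 * 2 ^ a := by rw [pow_add]; ring
  have e1 : 2 ^ (a + 3) - 2 = 2 * (2 ^ (a + 2) - 1) := by omega
  have e2 : 2 ^ (a + 3) - 3 = 2 * (2 ^ (a + 2) - 2) + 1 := by omega
  rw [e1, e2, Rs_even, Rs_odd, od_false (show (2 ^ (a + 2) - 2) % 2 = 0 by omega), Bool.xor_false]
  exact Rs_pow_pred a

/-- values at a multiple of `2^(s+1)` plus `0` or `1` -/
theorem Rs_mul0 (s w : ℕ) : Rs (2 ^ (s + 1) * w) = Rs w := by
  have := Rs_add s w 0 (by positivity)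
  rw [Nat.add_zero, Rs_zero] at this
  have hp : 0 < 2 ^ s := by positivity
  have : decide (2 ^ s ≤ 0) = false := decide_eq_false (by omega)
  simp_all

theorem Rs_mul_small (s w e : ℕ) (he : e < 2 ^ s) : Rs (2 ^ (s + 1) * w + e) = xor (Rs w) (Rs e) := by
  obtain ⟨h1, _, _⟩ := two_pow_facts s
  have := Rs_add s w e (by omega)
  rw [this, show decide (2 ^ s ≤ e) = false from decide_eq_false (by omega)]
  simp

/-- flip between `2M` and `2M+1` -/
theorem flip_top (s w : ℕ) (hs : 1 ≤ s) :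
    Rs (2 ^ (s + 2) * (2 ^ (s + 1) * w) + 2 ^ (s + 1)) ≠
    Rs (2 ^ (s + 2) * (2 ^ (s + 1) * w + 1) + (2 ^ (s + 1) + 1)) := by
  obtain ⟨h1, h2, h3⟩ := two_pow_facts s
  have hp : 2 ≤ 2 ^ s := by
    calc 2 = 2 ^ 1 := by norm_num
      _ ≤ 2 ^ s := Nat.pow_le_pow_right (by norm_num) hs
  have a1 := Rs_add (s + 1) (2 ^ (s + 1) * w) (2 ^ (s + 1)) (by omega)
  have a2 := Rs_add (s + 1) (2 ^ (s + 1) * w + 1) (2 ^ (s + 1) + 1) (by omega)
  rw [show s + 1 + 1 = s + 2 by ring] at a1 a2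
  rw [a1, a2]
  have o1 : od (2 ^ (s + 1) * w) = false := by
    apply od_false; rw [h1, mul_assoc]; omega
  have o2 : od (2 ^ (s + 1) * w + 1) = true := by
    apply od_true; rw [h1, mul_assoc]; omega
  have d2 : decide (2 ^ (s + 1) ≤ 2 ^ (s + 1) + 1) = true := by simp
  have r0 : Rs (2 ^ (s + 1)) = false := by
    have := Rs_mul0 s 1; rw [mul_one, Rs_one] at this; exact this
  have r1 : Rs (2 ^ (s + 1) + 1) = false := by
    have := Rs_mul_small s 1 1 (by omega); rw [mul_one, Rs_one] at this; exact this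
  rw [o1, o2, d2, r0, r1, Rs_mul0, Rs_mul_small s w 1 (by omega), Rs_one]
  cases Rs w <;> simp

theorem div_mul_of_mod (a b : ℕ) (h : a % b = 0) : a = b * (a / b) := by
  have := Nat.div_add_mod a b
  omega

/-- difference `2^(s+2) + 1` -/
theorem plusOne (s n L : ℕ) (hs : 4 ≤ s)
    (hL : ∀ l < L, Rs (n + l * (2 ^ (s + 2) + 1)) = Rs n) : L ≤ 2 ^ (s + 1) + 3 := by
  by_contra hc
  push Not at hc
  obtain ⟨h1, h2, h3⟩ := two_pow_facts s
  have hM : 16 ≤ 2 ^ s := by
    calc 16 = 2 ^ 4 := by norm_num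
      _ ≤ 2 ^ s := Nat.pow_le_pow_right (by norm_num) hs
  have hr : n % 2 ^ (s + 2) < 2 ^ (s + 2) := Nat.mod_lt _ (by positivity)
  have en : n = 2 ^ (s + 2) * (n / 2 ^ (s + 2)) + n % 2 ^ (s + 2) := (Nat.div_add_mod _ _).symm
  set q := n / 2 ^ (s + 2) with hq
  set r := n % 2 ^ (s + 2) with hrr
  have hx : ∀ l, n + l * (2 ^ (s + 2) + 1) = 2 ^ (s + 2) * (q + l) + (r + l) := by
    intro l
    conv_lhs => rw [en]
    ring
  -- values
  have V : ∀ qq z, z < 2 ^ (s + 2) → Rs (2 ^ (s + 2) * qq + z) =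
      xor (xor (Rs qq) (Rs z)) (od qq && decide (2 ^ (s + 1) ≤ z)) := by
    intro qq z hz
    exact Rs_add (s + 1) qq z hz
  by_cases ha1 : 2 ^ (s + 1) ≤ r ∧ r + 15 ≤ 2 ^ (s + 2)
  · apply alt_lemma q r (xor (Rs n) (od q))
    intro t ht
    have h := hL t (by omega)
    rw [hx, V _ _ (by omega), decide_eq_true (by omega), od_add q t] at h
    rw [← h]
    cases Rs (q + t) <;> cases Rs (r + t) <;> cases od q <;> cases od t <;> rfl
  by_cases ha2 : 11 ≤ r ∧ r < 2 ^ (s + 1)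
  · apply alt_lemma (q + (2 ^ (s + 1) - r)) (2 ^ (s + 1)) (xor (Rs n) (od (q + (2 ^ (s + 1) - r))))
    intro t ht
    have h := hL (2 ^ (s + 1) - r + t) (by omega)
    have e1 : q + (2 ^ (s + 1) - r + t) = q + (2 ^ (s + 1) - r) + t := by omega
    have e2 : r + (2 ^ (s + 1) - r + t) = 2 ^ (s + 1) + t := by omega
    rw [hx, e1, e2, V _ _ (by omega), decide_eq_true (by omega),
      od_add (q + (2 ^ (s + 1) - r)) t] at h
    rw [← h]
    cases Rs (q + (2 ^ (s + 1) - r) + t) <;> cases Rs (2 ^ (s + 1) + t) <;>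
      cases od (q + (2 ^ (s + 1) - r)) <;> cases od t <;> rfl
  by_cases hb : r ≤ 10
  · -- q ≡ r
    have hcong := con_lemma q r (Rs n) (2 ^ (s + 1) - r) (by omega) (by
      intro t ht
      have h := hL t (by omega)
      rw [hx, V _ _ (by omega), decide_eq_false (by omega), Bool.and_false, Bool.xor_false] at h
      exact h) (s + 1) (by
      intro w hw _
      have : 2 ^ w ≤ 2 ^ s := Nat.pow_le_pow_right (by norm_num) (by omega)
      omega)
    rw [Nat.mod_eq_of_lt (show r < 2 ^ (s + 1) by omega)] at hcong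
    have eq1 : q = 2 ^ (s + 1) * (q / 2 ^ (s + 1)) + r := by
      rw [← hcong]; exact (Nat.div_add_mod _ _).symm
    set w := q / 2 ^ (s + 1) with hw
    have g0 := hL (2 ^ (s + 1) - r) (by omega)
    have g1 := hL (2 ^ (s + 1) - r + 1) (by omega)
    have e0 : q + (2 ^ (s + 1) - r) = 2 ^ (s + 1) * (w + 1) := by rw [Nat.mul_add]; omega
    have e1 : q + (2 ^ (s + 1) - r + 1) = 2 ^ (s + 1) * (w + 1) + 1 := by rw [Nat.mul_add]; omega
    have f0 : r + (2 ^ (s + 1) - r) = 2 ^ (s + 1) := by omega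
    have f1 : r + (2 ^ (s + 1) - r + 1) = 2 ^ (s + 1) + 1 := by omega
    rw [hx, e0, f0] at g0
    rw [hx, e1, f1] at g1
    exact flip_top s (w + 1) (by omega) (by rw [g0, g1])
  · -- r = 4M - e0
    obtain ⟨e0, he0⟩ : ∃ e0, r + e0 = 2 ^ (s + 2) := ⟨2 ^ (s + 2) - r, by omega⟩
    have he1 : 1 ≤ e0 := by omega
    have he14 : e0 ≤ 14 := by omega
    have hx2 : ∀ t, n + (e0 + t) * (2 ^ (s + 2) + 1) = 2 ^ (s + 2) * (q + 1 + e0 + t) + t := by
      intro t
      rw [hx]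
      have : r + (e0 + t) = 2 ^ (s + 2) + t := by omega
      rw [this]; ring
    have hcong := con_lemma (q + 1 + e0) 0 (Rs n) (2 ^ (s + 1) - 10) (by omega) (by
      intro t ht
      have h := hL (e0 + t) (by omega)
      rw [hx2, V _ _ (by omega), decide_eq_false (by omega), Bool.and_false, Bool.xor_false] at h
      rw [Nat.zero_add]
      exact h) (s + 1) (by
      intro w hw _
      have : 2 ^ w ≤ 2 ^ s := Nat.pow_le_pow_right (by norm_num) (by omega)
      omega)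
    rw [Nat.zero_mod] at hcong
    have eq1 := div_mul_of_mod _ _ hcong
    set w := (q + 1 + e0) / 2 ^ (s + 1) with hw
    by_cases he2 : e0 ≤ 2
    · have g0 := hL (e0 + 2 ^ (s + 1)) (by omega)
      have g1 := hL (e0 + (2 ^ (s + 1) + 1)) (by omega)
      rw [hx2] at g0 g1
      have f0 : q + 1 + e0 + 2 ^ (s + 1) = 2 ^ (s + 1) * (w + 1) := by rw [Nat.mul_add]; omega
      have f1 : q + 1 + e0 + (2 ^ (s + 1) + 1) = 2 ^ (s + 1) * (w + 1) + 1 := by
        rw [Nat.mul_add]; omega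
      rw [f0] at g0
      rw [f1] at g1
      exact flip_top s (w + 1) (by omega) (by rw [g0, g1])
    · have hw1 : 1 ≤ w := by
        rcases Nat.eq_zero_or_pos w with h0 | h0
        · exfalso
          rw [h0, Nat.mul_zero] at eq1
          have h9 : e0 = 0 := (Nat.add_eq_zero_iff.mp eq1).2
          omega
        · exact h0
      obtain ⟨w', hw'⟩ : ∃ w', w = w' + 1 := ⟨w - 1, by omega⟩
      have g1 := hL (e0 - 1) (by omega)
      have g2 := hL (e0 - 2) (by omega)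
      rw [hw', Nat.mul_add, mul_one] at eq1
      have a1 : q + (e0 - 1) = 2 ^ (s + 1) * w' + (2 ^ (s + 1) - 2) := by omega
      have a2 : q + (e0 - 2) = 2 ^ (s + 1) * w' + (2 ^ (s + 1) - 3) := by omega
      have b1 : r + (e0 - 1) = 2 ^ (s + 2) - 1 := by omega
      have b2 : r + (e0 - 2) = 2 ^ (s + 2) - 2 := by omega
      rw [hx, a1, b1, V _ _ (by omega), decide_eq_true (by omega), Rs_add s w' _ (by omega),
        decide_eq_true (by omega)] at g1
      rw [hx, a2, b2, V _ _ (by omega), decide_eq_true (by omega), Rs_add s w' _ (by omega),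
        decide_eq_true (by omega)] at g2
      have o1 : od (2 ^ (s + 1) * w' + (2 ^ (s + 1) - 2)) = false := by
        apply od_false; rw [h1, mul_assoc]; omega
      have o2 : od (2 ^ (s + 1) * w' + (2 ^ (s + 1) - 3)) = true := by
        apply od_true; rw [h1, mul_assoc]; omega
      rw [o1] at g1
      rw [o2] at g2
      have c1 := Rs_pow_pred s
      obtain ⟨s', hs'⟩ : ∃ s', s = s' + 2 := ⟨s - 2, by omega⟩
      have c2 := Rs_pow_pred2 s'
      rw [show s' + 3 = s + 1 by omega] at c2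
      rw [← g2] at g1
      revert g1 c1 c2
      generalize Rs (2 ^ (s + 2) - 1) = A
      generalize Rs (2 ^ (s + 2) - 2) = B
      generalize Rs (2 ^ (s + 1) - 2) = C
      generalize Rs (2 ^ (s + 1) - 3) = D
      generalize Rs w' = E
      generalize od w' = F
      cases A <;> cases B <;> cases C <;> cases D <;> cases E <;> cases F <;> simp

/-- complement -/
theorem Rs_compl (i : ℕ) : ∀ z < 2 ^ (i + 1), Rs (2 ^ (i + 1) - 1 - z) =
    xor (xor (od i) (Rs z)) (xor (decide (2 ^ i ≤ z)) (od z)) := by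
  induction i with
  | zero =>
    intro z hz
    have : z = 0 ∨ z = 1 := by norm_num at hz; omega
    rcases this with rfl | rfl
    · norm_num [Rs_one, Rs_zero, od]
    · norm_num [Rs_one, Rs_zero, od]
  | succ i ih =>
    intro z hz
    have hp : 0 < 2 ^ i := by positivity
    obtain ⟨h1, h2, h3⟩ := two_pow_facts i
    have hz2 : z / 2 < 2 ^ (i + 1) := by omega
    have hI := ih (z / 2) hz2
    have hdec : decide (2 ^ (i + 1) ≤ z) = decide (2 ^ i ≤ z / 2) := by
      apply decide_eq_decide.mpr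
      omega
    have ho : od (i + 1) = !od i := by rw [od_add, od_one]; cases od i <;> rfl
    have hc : od (2 ^ (i + 1) - 1 - z / 2) = !od (z / 2) := by
      rcases Nat.mod_two_eq_zero_or_one (z / 2) with h | h
      · rw [od_false h, od_true (by omega)]; rfl
      · rw [od_true h, od_false (by omega)]; rfl
    rcases Nat.mod_two_eq_zero_or_one z with h | h
    · have e1 : 2 ^ (i + 1 + 1) - 1 - z = 2 * (2 ^ (i + 1) - 1 - z / 2) + 1 := by omega
      rw [e1, Rs_odd, hI, hc, hdec, ho, Rs_half z, od_false h]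
      cases od i <;> cases Rs (z / 2) <;> cases decide (2 ^ i ≤ z / 2) <;> cases od (z / 2) <;> rfl
    · have e1 : 2 ^ (i + 1 + 1) - 1 - z = 2 * (2 ^ (i + 1) - 1 - z / 2) := by omega
      rw [e1, Rs_even, hI, hdec, ho, Rs_half z, od_true h]
      cases od i <;> cases Rs (z / 2) <;> cases decide (2 ^ i ≤ z / 2) <;> cases od (z / 2) <;> rfl

/-- values for the difference `2^(s+2) - 1` -/
theorem VM (s qq z : ℕ) (hz : z < 2 ^ (s + 2)) :
    Rs (2 ^ (s + 2) * qq + (2 ^ (s + 2) - 1 - z)) =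
      xor (xor (Rs qq) (xor (od (s + 1)) (Rs z)))
        (xor (od z) (if 2 ^ (s + 1) ≤ z then true else od qq)) := by
  obtain ⟨h1, h2, h3⟩ := two_pow_facts s
  have a := Rs_add (s + 1) qq (2 ^ (s + 2) - 1 - z) (by rw [show s + 1 + 1 = s + 2 by ring]; omega)
  have b := Rs_compl (s + 1) z hz
  rw [show s + 1 + 1 = s + 2 by ring] at a b
  rw [a, b]
  by_cases h : 2 ^ (s + 1) ≤ z
  · rw [if_pos h, decide_eq_true h, decide_eq_false (by omega)]
    cases Rs qq <;> cases od (s + 1) <;> cases Rs z <;> cases od z <;> cases od qq <;> rfl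
  · rw [if_neg h, decide_eq_false h, decide_eq_true (by omega)]
    cases Rs qq <;> cases od (s + 1) <;> cases Rs z <;> cases od z <;> cases od qq <;> rfl

theorem flip_minus (s w : ℕ) (hs : 1 ≤ s) :
    Rs (2 ^ (s + 2) * (2 ^ (s + 1) * w) + (2 ^ (s + 2) - 1 - 2 ^ (s + 1))) ≠
    Rs (2 ^ (s + 2) * (2 ^ (s + 1) * w + 1) + (2 ^ (s + 2) - 1 - (2 ^ (s + 1) + 1))) := by
  obtain ⟨h1, h2, h3⟩ := two_pow_facts s
  have hp : 2 ≤ 2 ^ s := by
    calc 2 = 2 ^ 1 := by norm_num
      _ ≤ 2 ^ s := Nat.pow_le_pow_right (by norm_num) hs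
  rw [VM s _ _ (by omega), VM s _ _ (by omega), if_pos (le_refl _), if_pos (by omega)]
  have r0 : Rs (2 ^ (s + 1)) = false := by
    have := Rs_mul0 s 1; rw [mul_one, Rs_one] at this; exact this
  have r1 : Rs (2 ^ (s + 1) + 1) = false := by
    have := Rs_mul_small s 1 1 (by omega); rw [mul_one, Rs_one] at this; exact this
  have o1 : od (2 ^ (s + 1)) = false := by apply od_false; omega
  have o2 : od (2 ^ (s + 1) + 1) = true := by apply od_true; omega
  rw [r0, r1, o1, o2, Rs_mul0, Rs_mul_small s w 1 (by omega), Rs_one]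
  cases Rs w <;> cases od (s + 1) <;> simp

/-- difference `2^(s+2) - 1`, upper bounds -/
theorem minusOne (s n L : ℕ) (hs : 4 ≤ s)
    (hL : ∀ l < L, Rs (n + l * (2 ^ (s + 2) - 1)) = Rs n) :
    L ≤ 2 ^ (s + 1) + 3 ∧ (s % 2 = 0 → L ≤ 2 ^ (s + 1) + 1) := by
  obtain ⟨h1, h2, h3⟩ := two_pow_facts s
  have hM : 16 ≤ 2 ^ s := by
    calc 16 = 2 ^ 4 := by norm_num
      _ ≤ 2 ^ s := Nat.pow_le_pow_right (by norm_num) hs
  by_contra hc
  have hL2 : 2 ^ (s + 1) + 2 ≤ L := by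
    by_contra h; apply hc; constructor
    · omega
    · intro _; omega
  have hodd4 : s % 2 = 1 → 2 ^ (s + 1) + 4 ≤ L := by
    intro h; by_contra h'; apply hc; constructor
    · omega
    · intro h''; omega
  clear hc
  have hr : n % 2 ^ (s + 2) < 2 ^ (s + 2) := Nat.mod_lt _ (by positivity)
  have en : n = 2 ^ (s + 2) * (n / 2 ^ (s + 2)) + n % 2 ^ (s + 2) := (Nat.div_add_mod _ _).symm
  set q := n / 2 ^ (s + 2) with hq
  set r := n % 2 ^ (s + 2) with hrr
  obtain ⟨z0, hz0⟩ : ∃ z0, r + z0 + 1 = 2 ^ (s + 2) := ⟨2 ^ (s + 2) - 1 - r, by omega⟩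
  obtain ⟨c, hcc⟩ : ∃ c, 2 ^ (s + 2) = c + 1 := ⟨2 ^ (s + 2) - 1, by omega⟩
  -- first block
  have hx : ∀ l, z0 + l < 2 ^ (s + 2) →
      n + l * (2 ^ (s + 2) - 1) = 2 ^ (s + 2) * (q + l) + (2 ^ (s + 2) - 1 - (z0 + l)) := by
    intro l hl
    obtain ⟨b, hb⟩ : ∃ b, r = l + b := ⟨r - l, by omega⟩
    have e1 : 2 ^ (s + 2) - 1 - (z0 + l) = b := by omega
    have e2 : 2 ^ (s + 2) - 1 = c := by omega
    rw [e1, e2]
    conv_lhs => rw [en]
    rw [hb, hcc]; ring
  -- second block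
  have hx2 : ∀ e0 t, z0 + e0 = 2 ^ (s + 2) → t < 2 ^ (s + 2) → 1 ≤ e0 →
      n + (e0 + t) * (2 ^ (s + 2) - 1) =
        2 ^ (s + 2) * (q + (e0 - 1) + t) + (2 ^ (s + 2) - 1 - t) := by
    intro e0 t he ht he1
    obtain ⟨b, hb⟩ : ∃ b, 2 ^ (s + 2) = t + b + 1 := ⟨2 ^ (s + 2) - 1 - t, by omega⟩
    obtain ⟨e', he'⟩ : ∃ e', e0 = e' + 1 := ⟨e0 - 1, by omega⟩
    have e1 : 2 ^ (s + 2) - 1 - t = b := by omega
    have e2 : 2 ^ (s + 2) - 1 = c := by omega
    have e3 : r = e' := by omega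
    have e4 : c = t + b := by omega
    rw [e1, e2, he', Nat.add_sub_cancel]
    conv_lhs => rw [en]
    rw [e3, hcc, e4]; ring
  have hV1 : ∀ l < L, z0 + l < 2 ^ (s + 2) → Rs n = xor (xor (Rs (q + l)) (xor (od (s + 1)) (Rs (z0 + l))))
        (xor (od (z0 + l)) (if 2 ^ (s + 1) ≤ z0 + l then true else od (q + l))) := by
    intro l hl hz
    rw [← hL l hl, hx l hz, VM s _ _ hz]
  by_cases ha1 : 2 ^ (s + 1) ≤ z0 ∧ z0 + 15 ≤ 2 ^ (s + 2)
  · apply alt_lemma q z0 (xor (Rs n) (xor (od (s + 1)) (xor (od z0) true)))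
    intro t ht
    rw [hV1 t (by omega) (by omega), if_pos (by omega), od_add z0 t]
    cases Rs (q + t) <;> cases Rs (z0 + t) <;> cases od (s + 1) <;> cases od z0 <;>
      cases od t <;> rfl
  by_cases ha2 : 13 ≤ z0 ∧ z0 < 2 ^ (s + 1)
  · apply alt_lemma (q + (2 ^ (s + 1) - z0)) (2 ^ (s + 1)) (xor (Rs n) (xor (od (s + 1)) true))
    intro t ht
    have e1 : q + (2 ^ (s + 1) - z0 + t) = q + (2 ^ (s + 1) - z0) + t := by omega
    have e2 : z0 + (2 ^ (s + 1) - z0 + t) = 2 ^ (s + 1) + t := by omega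
    have o : od (2 ^ (s + 1) + t) = od t := by apply od_eq_of; omega
    rw [hV1 (2 ^ (s + 1) - z0 + t) (by omega) (by omega), e1, e2, if_pos (by omega), o]
    cases Rs (q + (2 ^ (s + 1) - z0) + t) <;> cases Rs (2 ^ (s + 1) + t) <;>
      cases od (s + 1) <;> cases od t <;> rfl
  by_cases hb : z0 ≤ 12
  · have hcong := con_lemma q z0 (xor (Rs n) (xor (od (s + 1)) (xor (od z0) (od q))))
      (2 ^ (s + 1) - z0) (by omega) (by
      intro t ht
      rw [hV1 t (by omega) (by omega), if_neg (by omega), od_add z0 t, od_add q t]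
      cases Rs (q + t) <;> cases Rs (z0 + t) <;> cases od (s + 1) <;> cases od z0 <;>
        cases od t <;> cases od q <;> rfl) (s + 1) (by
      intro w hw _
      have : 2 ^ w ≤ 2 ^ s := Nat.pow_le_pow_right (by norm_num) (by omega)
      omega)
    rw [Nat.mod_eq_of_lt (show z0 < 2 ^ (s + 1) by omega)] at hcong
    have eq1 : q = 2 ^ (s + 1) * (q / 2 ^ (s + 1)) + z0 := by
      rw [← hcong]; exact (Nat.div_add_mod _ _).symm
    set w := q / 2 ^ (s + 1) with hw
    have g0 := hL (2 ^ (s + 1) - z0) (by omega)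
    have g1 := hL (2 ^ (s + 1) - z0 + 1) (by omega)
    have e0 : q + (2 ^ (s + 1) - z0) = 2 ^ (s + 1) * (w + 1) := by rw [Nat.mul_add]; omega
    have e1 : q + (2 ^ (s + 1) - z0 + 1) = 2 ^ (s + 1) * (w + 1) + 1 := by rw [Nat.mul_add]; omega
    have f0 : z0 + (2 ^ (s + 1) - z0) = 2 ^ (s + 1) := by omega
    have f1 : z0 + (2 ^ (s + 1) - z0 + 1) = 2 ^ (s + 1) + 1 := by omega
    rw [hx _ (by omega), e0, f0] at g0
    rw [hx _ (by omega), e1, f1] at g1
    exact flip_minus s (w + 1) (by omega) (by rw [g0, g1])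
  · obtain ⟨e0, he0⟩ : ∃ e0, z0 + e0 = 2 ^ (s + 2) := ⟨2 ^ (s + 2) - z0, by omega⟩
    have he1 : 1 ≤ e0 := by omega
    have he14 : e0 ≤ 14 := by omega
    have hcong := con_lemma (q + (e0 - 1)) 0 (xor (Rs n) (xor (od (s + 1)) (od (q + (e0 - 1)))))
      (2 ^ (s + 1) - 12) (by omega) (by
      intro t ht
      rw [← hL (e0 + t) (by omega), hx2 e0 t he0 (by omega) he1, VM s _ _ (by omega),
        if_neg (by omega), od_add (q + (e0 - 1)) t, Nat.zero_add]
      cases Rs (q + (e0 - 1) + t) <;> cases Rs t <;> cases od (s + 1) <;>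
        cases od t <;> cases od (q + (e0 - 1)) <;> rfl) (s + 1) (by
      intro w hw _
      have : 2 ^ w ≤ 2 ^ s := Nat.pow_le_pow_right (by norm_num) (by omega)
      omega)
    rw [Nat.zero_mod] at hcong
    have eq1 := div_mul_of_mod _ _ hcong
    set w := (q + (e0 - 1)) / 2 ^ (s + 1) with hw
    -- interior value
    have c0 := hL e0 (by omega)
    have hx20 := hx2 e0 0 he0 (by omega) he1
    rw [Nat.add_zero, Nat.add_zero] at hx20
    rw [hx20, VM s _ _ (by omega), if_neg (by omega), Nat.add_zero, eq1, Rs_mul0, Rs_zero,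
      od_zero] at c0
    have oQ : od (2 ^ (s + 1) * w) = false := by apply od_false; rw [h1, mul_assoc]; omega
    rw [oQ] at c0
    -- the point e = 1
    have c1 := hL (e0 - 1) (by omega)
    have hx1 := hx (e0 - 1) (by omega)
    have e1 : 2 ^ (s + 2) - 1 - (z0 + (e0 - 1)) = 0 := by omega
    rw [e1, eq1] at hx1
    have hm0 : Rs (2 ^ (s + 2) * (2 ^ (s + 1) * w)) = Rs w := by
      have := Rs_mul0 (s + 1) (2 ^ (s + 1) * w)
      rw [show s + 1 + 1 = s + 2 by ring] at this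
      rw [this, Rs_mul0]
    rw [hx1, Nat.add_zero, hm0] at c1
    have hpar : od (s + 1) = false := by
      rw [← c1] at c0
      revert c0
      cases Rs w <;> cases od (s + 1) <;> simp
    have hsodd : s % 2 = 1 := by
      by_contra h
      have : (s + 1) % 2 = 1 := by omega
      rw [od_true this] at hpar
      exact absurd hpar (by simp)
    have hL4 := hodd4 hsodd
    by_cases he2 : e0 ≤ 2
    · have g0 := hL (e0 + 2 ^ (s + 1)) (by omega)
      have g1 := hL (e0 + (2 ^ (s + 1) + 1)) (by omega)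
      rw [hx2 e0 _ he0 (by omega) he1] at g0 g1
      have f0 : q + (e0 - 1) + 2 ^ (s + 1) = 2 ^ (s + 1) * (w + 1) := by rw [Nat.mul_add]; omega
      have f1 : q + (e0 - 1) + (2 ^ (s + 1) + 1) = 2 ^ (s + 1) * (w + 1) + 1 := by
        rw [Nat.mul_add]; omega
      rw [f0] at g0
      rw [f1] at g1
      exact flip_minus s (w + 1) (by omega) (by rw [g0, g1])
    · have hw1 : 1 ≤ w := by
        rcases Nat.eq_zero_or_pos w with h0 | h0
        · exfalso
          rw [h0, Nat.mul_zero] at eq1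
          have h9 : e0 - 1 = 0 := (Nat.add_eq_zero_iff.mp eq1).2
          omega
        · exact h0
      obtain ⟨w', hw'⟩ : ∃ w', w = w' + 1 := ⟨w - 1, by omega⟩
      rw [hw', Nat.mul_add, mul_one] at eq1
      have g1 := hL (e0 - 2) (by omega)
      have g2 := hL (e0 - 3) (by omega)
      have a1 : q + (e0 - 2) = 2 ^ (s + 1) * w' + (2 ^ (s + 1) - 1) := by omega
      have a2 : q + (e0 - 3) = 2 ^ (s + 1) * w' + (2 ^ (s + 1) - 2) := by omega
      have b1 : 2 ^ (s + 2) - 1 - (z0 + (e0 - 2)) = 1 := by omega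
      have b2 : 2 ^ (s + 2) - 1 - (z0 + (e0 - 3)) = 2 := by omega
      have m1 := Rs_mul_small (s + 1) (2 ^ (s + 1) * w' + (2 ^ (s + 1) - 1)) 1 (by omega)
      have m2 := Rs_mul_small (s + 1) (2 ^ (s + 1) * w' + (2 ^ (s + 1) - 2)) 2 (by omega)
      rw [show s + 1 + 1 = s + 2 by ring] at m1 m2
      rw [hx _ (by omega), a1, b1, m1, Rs_add s w' _ (by omega), decide_eq_true (by omega),
        Rs_one] at g1
      rw [hx _ (by omega), a2, b2, m2, Rs_add s w' _ (by omega), decide_eq_true (by omega),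
        Rs_two] at g2
      obtain ⟨s', hs'⟩ : ∃ s', s = s' + 1 := ⟨s - 1, by omega⟩
      have c2 := Rs_pow_pred s'
      rw [show s' + 2 = s + 1 by omega] at c2
      rw [← g2] at g1
      revert g1 c2
      generalize Rs (2 ^ (s + 1) - 1) = A
      generalize Rs (2 ^ (s + 1) - 2) = B
      generalize Rs w' = E
      generalize od w' = F
      cases A <;> cases B <;> cases E <;> cases F <;> simp

/-- existence, odd exponent `s + 2` -/
theorem minus_exists_odd (s : ℕ) (hs : 1 ≤ s) (hodd : s % 2 = 1) :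
    ∃ n, ∀ l < 2 ^ (s + 1) + 3, Rs (n + l * (2 ^ (s + 2) - 1)) = Rs n := by
  obtain ⟨h1, h2, h3⟩ := two_pow_facts s
  have hp : 2 ≤ 2 ^ s := by
    calc 2 = 2 ^ 1 := by norm_num
      _ ≤ 2 ^ s := Nat.pow_le_pow_right (by norm_num) hs
  have os : od (s + 1) = false := od_false (by omega)
  have key : ∀ l < 2 ^ (s + 1) + 3,
      Rs (2 ^ (s + 2) * (2 ^ (s + 2) - 1) + 1 + l * (2 ^ (s + 2) - 1)) = false := by
    intro l hl
    have hcases : l = 0 ∨ l = 1 ∨ 2 ≤ l := by omega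
    rcases hcases with rfl | rfl | hl2
    · have m1 := Rs_mul_small (s + 1) (2 ^ (s + 2) - 1) 1 (by omega)
      rw [show s + 1 + 1 = s + 2 by ring] at m1
      rw [Nat.zero_mul, Nat.add_zero, m1, Rs_one]
      have := Rs_compl (s + 1) 0 (by positivity)
      rw [Nat.sub_zero, show s + 1 + 1 = s + 2 by ring, Rs_zero, od_zero, os,
        decide_eq_false (by omega)] at this
      rw [this]; rfl
    · have e : 2 ^ (s + 2) * (2 ^ (s + 2) - 1) + 1 + 1 * (2 ^ (s + 2) - 1) =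
          2 ^ (s + 2) * (2 ^ (s + 2) * 1) := by
        obtain ⟨c, hc⟩ : ∃ c, 2 ^ (s + 2) = c + 1 := ⟨2 ^ (s + 2) - 1, by omega⟩
        rw [hc, Nat.add_sub_cancel]; ring
      have m0 := Rs_mul0 (s + 1) (2 ^ (s + 2) * 1)
      have m1 := Rs_mul0 (s + 1) 1
      rw [show s + 1 + 1 = s + 2 by ring] at m0 m1
      rw [e, m0, m1, Rs_one]
    · obtain ⟨t, rfl⟩ : ∃ t, l = t + 2 := ⟨l - 2, by omega⟩
      have ht : t ≤ 2 ^ (s + 1) := by omega
      have e : 2 ^ (s + 2) * (2 ^ (s + 2) - 1) + 1 + (t + 2) * (2 ^ (s + 2) - 1) =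
          2 ^ (s + 2) * (2 ^ (s + 2) * 1 + t) + (2 ^ (s + 2) - 1 - t) := by
        obtain ⟨b, hb⟩ : ∃ b, 2 ^ (s + 2) = t + b + 1 := ⟨2 ^ (s + 2) - 1 - t, by omega⟩
        have e1 : 2 ^ (s + 2) - 1 = t + b := by omega
        have e2 : t + b - t = b := by omega
        rw [e1, e2, hb]; ring
      rw [e, VM s _ _ (by omega), os]
      have ra := Rs_add (s + 1) 1 t (by rw [show s + 1 + 1 = s + 2 by ring]; omega)
      rw [show s + 1 + 1 = s + 2 by ring, Rs_one, od_one] at ra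
      rw [ra]
      have ho : od (2 ^ (s + 2) * 1 + t) = od t := by apply od_eq_of; omega
      rw [ho]
      by_cases htt : 2 ^ (s + 1) ≤ t
      · have : t = 2 ^ (s + 1) := by omega
        rw [if_pos htt, decide_eq_true htt, this]
        have o1 : od (2 ^ (s + 1)) = false := by apply od_false; omega
        rw [o1]; cases Rs (2 ^ (s + 1)) <;> rfl
      · rw [if_neg htt, decide_eq_false htt]
        cases Rs t <;> cases od t <;> rfl
  refine ⟨2 ^ (s + 2) * (2 ^ (s + 2) - 1) + 1, fun l hl => ?_⟩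
  rw [key l hl]
  have := key 0 (by omega)
  rw [Nat.zero_mul, Nat.add_zero] at this
  exact this.symm

/-- existence, even exponent `s + 2` -/
theorem minus_exists_even (s : ℕ) (hs : 1 ≤ s) (heven : s % 2 = 0) :
    ∃ n, ∀ l < 2 ^ (s + 1) + 1, Rs (n + l * (2 ^ (s + 2) - 1)) = Rs n := by
  obtain ⟨h1, h2, h3⟩ := two_pow_facts s
  have hp : 2 ≤ 2 ^ s := by
    calc 2 = 2 ^ 1 := by norm_num
      _ ≤ 2 ^ s := Nat.pow_le_pow_right (by norm_num) hs
  have os : od (s + 1) = true := od_true (by omega)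
  have key : ∀ t < 2 ^ (s + 1) + 1,
      Rs (2 ^ (s + 2) * (2 ^ (s + 2) * 1) + (2 ^ (s + 2) - 1) + t * (2 ^ (s + 2) - 1)) = true := by
    intro t ht0
    have ht : t ≤ 2 ^ (s + 1) := by omega
    have e : 2 ^ (s + 2) * (2 ^ (s + 2) * 1) + (2 ^ (s + 2) - 1) + t * (2 ^ (s + 2) - 1) =
        2 ^ (s + 2) * (2 ^ (s + 2) * 1 + t) + (2 ^ (s + 2) - 1 - t) := by
      obtain ⟨b, hb⟩ : ∃ b, 2 ^ (s + 2) = t + b + 1 := ⟨2 ^ (s + 2) - 1 - t, by omega⟩
      have e1 : 2 ^ (s + 2) - 1 = t + b := by omega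
      have e2 : t + b - t = b := by omega
      rw [e1, e2, hb]; ring
    rw [e, VM s _ _ (by omega), os]
    have ra := Rs_add (s + 1) 1 t (by rw [show s + 1 + 1 = s + 2 by ring]; omega)
    rw [show s + 1 + 1 = s + 2 by ring, Rs_one, od_one] at ra
    rw [ra]
    have ho : od (2 ^ (s + 2) * 1 + t) = od t := by apply od_eq_of; omega
    rw [ho]
    by_cases htt : 2 ^ (s + 1) ≤ t
    · have : t = 2 ^ (s + 1) := by omega
      rw [if_pos htt, decide_eq_true htt, this]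
      have o1 : od (2 ^ (s + 1)) = false := by apply od_false; omega
      rw [o1]; cases Rs (2 ^ (s + 1)) <;> rfl
    · rw [if_neg htt, decide_eq_false htt]
      cases Rs t <;> cases od t <;> rfl
  refine ⟨2 ^ (s + 2) * (2 ^ (s + 2) * 1) + (2 ^ (s + 2) - 1), fun l hl => ?_⟩
  rw [key l hl]
  have := key 0 (by omega)
  rw [Nat.zero_mul, Nat.add_zero] at this
  exact this.symm

end R125S
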