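import Pool.Agent.R125.RsE

/-!
Rudin-Shapiro: certificate for generic slopes (depth first search over digital lines).
-/

namespace R125S

/-- refine the slope interval `(a/b, p/q)`; the list holds the previous offsets -/
def upd (kk : ℕ) : List ℕ → ℕ → ℕ → ℕ → ℕ → ℕ → (ℕ → ℕ → ℕ → ℕ → Bool) → Bool
  | [], _, a, b, p, q, f => f a b p q
  | k :: ks, j, a, b, p, q, f =>
    cond (Nat.ble (Nat.mul (Nat.sub (Nat.sub kk k) 1) b) (Nat.mul a j))
      (cond (Nat.ble (Nat.mul p j) (Nat.mul (Nat.succ (Nat.sub kk k)) q))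
        (upd kk ks (Nat.succ j) a b p q f)
        (upd kk ks (Nat.succ j) a b (Nat.succ (Nat.sub kk k)) j f))
      (cond (Nat.ble (Nat.mul p j) (Nat.mul (Nat.succ (Nat.sub kk k)) q))
        (upd kk ks (Nat.succ j) (Nat.sub (Nat.sub kk k) 1) j p q f)
        (upd kk ks (Nat.succ j) (Nat.sub (Nat.sub kk k) 1) j (Nat.succ (Nat.sub kk k)) j f))

def tabB : ℕ := B 11
def c0 : ℕ := Nat.div (Nat.sub (Nat.pow 2 2048) 1) 15
def c1 : ℕ := Nat.shiftLeft c0 1
def c2 : ℕ := Nat.shiftLeft c0 2
def c3 : ℕ := Nat.shiftLeft c0 3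

def alive (b : ℕ) : Bool :=
  cond (Nat.beq (Nat.land b c0) 0)
    (cond (Nat.beq (Nat.land b c1) 0) false (cond (Nat.beq (Nat.land b c3) 0) false true))
    (cond (Nat.beq (Nat.land b c2) 0)
      (cond (Nat.beq (Nat.land b c1) 0) false (cond (Nat.beq (Nat.land b c3) 0) false true)) true)

def cons' (x : ℕ) (l : List ℕ) : List ℕ := cond (alive x) (x :: l) l

def split (D : ℕ) : List ℕ → List ℕ
  | [] => []
  | b :: bs => cons' (Nat.land b D) (cons' (Nat.xor b (Nat.land b D)) (split D bs))

def Dm (k : ℕ) : ℕ := Nat.xor (Nat.shiftRight tabB k) tabB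

def tailOK (rec : List ℕ → Bool) : List ℕ → Bool
  | [] => true
  | c :: cs => rec (c :: cs)

def stepOK (rec : ℕ → List ℕ → ℕ → ℕ → ℕ → ℕ → List ℕ → Bool)
    (kk δ : ℕ) (ks : List ℕ) (a b p q : ℕ) (cl : List ℕ) : Bool :=
  cond (Nat.ble p (Nat.mul (Nat.sub δ 1) q)) true
    (cond (Nat.ble (Nat.mul (Nat.succ δ) b) a) true
      (upd kk ks 1 a b p q (fun a' b' p' q' =>
        cond (Nat.ble (Nat.mul p' b') (Nat.mul a' q')) true
          (tailOK (rec kk (kk :: ks) a' b' p' q') (split (Dm kk) cl)))))

def dfs : ℕ → ℕ → List ℕ → ℕ → ℕ → ℕ → ℕ → List ℕ → Bool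
  | 0, _, _, _, _, _, _, _ => false
  | F + 1, k, ks, a, b, p, q, cl =>
    cond (stepOK (dfs F) (Nat.add k 4) 4 ks a b p q cl)
    (cond (stepOK (dfs F) (Nat.add k 5) 5 ks a b p q cl)
    (cond (stepOK (dfs F) (Nat.add k 6) 6 ks a b p q cl)
    (cond (stepOK (dfs F) (Nat.add k 7) 7 ks a b p q cl)
    (stepOK (dfs F) (Nat.add k 8) 8 ks a b p q cl) false) false) false) false

def run (F a b p q : ℕ) : Bool := dfs F 0 [0] a b p q [2 ^ 2048 - 1]


/-! ### soundness -/

/-- the digital line constraints against the recorded offsets -/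
def Good (M d kk : ℕ) : ℕ → List ℕ → Prop
  | _, [] => True
  | j, k :: ks => (M * (kk - k - 1) < j * d ∧ j * d < M * (kk - k + 1)) ∧ Good M d kk (j + 1) ks

theorem upd_spec (M d kk : ℕ) : ∀ (ks : List ℕ) (j a b p q : ℕ) (f : ℕ → ℕ → ℕ → ℕ → Bool),
    Good M d kk j ks → a * M < d * b → d * q < p * M → upd kk ks j a b p q f = true →
    ∃ a' b' p' q', a' * M < d * b' ∧ d * q' < p' * M ∧ f a' b' p' q' = true := by
  intro ks
  induction ks with
  | nil =>
    intro j a b p q f _ h1 h2 h3
    exact ⟨a, b, p, q, h1, h2, h3⟩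
  | cons k ks ih =>
    intro j a b p q f hG h1 h2 h3
    obtain ⟨⟨g1, g2⟩, hG2⟩ := hG
    have e1 : (kk - k - 1) * M < d * j := by rw [mul_comm (kk - k - 1) M, mul_comm d j]; exact g1
    have e2 : d * j < (kk - k + 1) * M := by rw [mul_comm (kk - k + 1) M, mul_comm d j]; exact g2
    rw [upd] at h3
    cases c1 : Nat.ble (Nat.mul (Nat.sub (Nat.sub kk k) 1) b) (Nat.mul a j) <;>
      cases c2 : Nat.ble (Nat.mul p j) (Nat.mul (Nat.succ (Nat.sub kk k)) q) <;>
      rw [c1, c2] at h3
    · exact ih (j + 1) (kk - k - 1) j (kk - k + 1) j f hG2 e1 e2 h3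
    · exact ih (j + 1) (kk - k - 1) j p q f hG2 e1 h2 h3
    · exact ih (j + 1) a b (kk - k + 1) j f hG2 h1 e2 h3
    · exact ih (j + 1) a b p q f hG2 h1 h2 h3

def cmChk : Bool := allB (fun i => cond (Nat.beq (i % 4) 0) (c0.testBit i)
  (cond (Nat.beq (i % 4) 1) (c1.testBit i) (cond (Nat.beq (i % 4) 2) (c2.testBit i)
  (c3.testBit i)))) 2048

set_option maxRecDepth 1000000 in
theorem cmChk_true : cmChk = true := by decide +kernel

theorem land_ne_zero {b c i : ℕ} (h1 : b.testBit i = true) (h2 : c.testBit i = true) :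
    Nat.beq (Nat.land b c) 0 = false := by
  have h3 : (b &&& c).testBit i = true := by rw [Nat.testBit_and, h1, h2]; rfl
  have h4 : (b &&& c) ≠ 0 := by
    intro h0; rw [h0] at h3; simp at h3
  cases h5 : Nat.beq (Nat.land b c) 0
  · rfl
  · exact absurd (Nat.eq_of_beq_eq_true h5) h4

theorem alive_spec {b i j : ℕ} (hi : i < 2048) (hj : j < 2048) (hij : j % 4 = (i + 2) % 4)
    (h1 : b.testBit i = true) (h2 : b.testBit j = true) : alive b = true := by
  have k1 := allB_spec _ _ cmChk_true i hi
  have k2 := allB_spec _ _ cmChk_true j hj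
  have hcases : i % 4 = 0 ∨ i % 4 = 1 ∨ i % 4 = 2 ∨ i % 4 = 3 := by omega
  unfold alive
  rcases hcases with h | h | h | h
  · have hj2 : j % 4 = 2 := by omega
    simp only [h, hj2] at k1 k2
    rw [land_ne_zero h1 k1, land_ne_zero h2 k2]; rfl
  · have hj2 : j % 4 = 3 := by omega
    simp only [h, hj2] at k1 k2
    rw [land_ne_zero h1 k1, land_ne_zero h2 k2]
    cases Nat.beq (Nat.land b c0) 0 <;> cases Nat.beq (Nat.land b c2) 0 <;> rfl
  · have hj2 : j % 4 = 0 := by omega
    simp only [h, hj2] at k1 k2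
    rw [land_ne_zero h1 k1, land_ne_zero h2 k2]; rfl
  · have hj2 : j % 4 = 1 := by omega
    simp only [h, hj2] at k1 k2
    rw [land_ne_zero h1 k1, land_ne_zero h2 k2]
    cases Nat.beq (Nat.land b c0) 0 <;> cases Nat.beq (Nat.land b c2) 0 <;> rfl

theorem mem_cons' {x b : ℕ} {l : List ℕ} (h : b ∈ l) : b ∈ cons' x l := by
  unfold cons'
  cases alive x
  · exact h
  · exact List.mem_cons_of_mem _ h

theorem split_spec {D i j : ℕ} (hi : i < 2048) (hj : j < 2048) (hij : j % 4 = (i + 2) % 4)
    (hD : D.testBit i = D.testBit j) : ∀ cl : List ℕ,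
    (∃ b ∈ cl, b.testBit i = true ∧ b.testBit j = true) →
    ∃ b ∈ split D cl, b.testBit i = true ∧ b.testBit j = true := by
  intro cl
  induction cl with
  | nil => rintro ⟨b, hb, _⟩; exact absurd hb (by simp)
  | cons c cs ih =>
    rintro ⟨b, hb, h1, h2⟩
    rw [split]
    rcases List.mem_cons.mp hb with h | h
    · subst h
      cases hDi : D.testBit i
      · -- second part
        have hDj : D.testBit j = false := by rw [← hD]; exact hDi
        have y1 : (Nat.xor b (Nat.land b D)).testBit i = true := by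
          change (b ^^^ (b &&& D)).testBit i = true
          rw [Nat.testBit_xor, Nat.testBit_and, h1, hDi]; rfl
        have y2 : (Nat.xor b (Nat.land b D)).testBit j = true := by
          change (b ^^^ (b &&& D)).testBit j = true
          rw [Nat.testBit_xor, Nat.testBit_and, h2, hDj]; rfl
        refine ⟨_, mem_cons' ?_, y1, y2⟩
        unfold cons'
        rw [alive_spec hi hj hij y1 y2]
        exact List.mem_cons_self
      · have hDj : D.testBit j = true := by rw [← hD]; exact hDi
        have y1 : (Nat.land b D).testBit i = true := by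
          change (b &&& D).testBit i = true
          rw [Nat.testBit_and, h1, hDi]; rfl
        have y2 : (Nat.land b D).testBit j = true := by
          change (b &&& D).testBit j = true
          rw [Nat.testBit_and, h2, hDj]; rfl
        refine ⟨_, ?_, y1, y2⟩
        unfold cons'
        rw [alive_spec hi hj hij y1 y2]
        exact List.mem_cons_self
    · obtain ⟨b', hb', r1, r2⟩ := ih ⟨b, h, h1, h2⟩
      exact ⟨b', mem_cons' (mem_cons' hb'), r1, r2⟩

theorem Dm_testBit (k i : ℕ) (h : i + k < 4096) : (Dm k).testBit i = xor (Rs (i + k)) (Rs i) := by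
  change ((tabB >>> k) ^^^ tabB).testBit i = _
  rw [Nat.testBit_xor, Nat.testBit_shiftRight]
  unfold tabB
  rw [← Rs_eq_B 11 _ (by norm_num; omega), ← Rs_eq_B 11 _ (by norm_num; omega), Nat.add_comm k i]

/-- history of offsets -/
def hist (K : ℕ → ℕ) : ℕ → List ℕ
  | 0 => [K 0]
  | l + 1 => K (l + 1) :: hist K l

theorem hist_good (M d : ℕ) (K : ℕ → ℕ)
    (hlin : ∀ x y, x < y → M * (K y - K x - 1) < (y - x) * d ∧ (y - x) * d < M * (K y - K x + 1))
    (y : ℕ) : ∀ l j, l + j = y → 1 ≤ j → Good M d (K y) j (hist K l) := by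
  intro l
  induction l with
  | zero =>
    intro j hj h1
    have := hlin 0 y (by omega)
    rw [Nat.sub_zero] at this
    have : y = j := by omega
    subst this
    exact ⟨by assumption, trivial⟩
  | succ l ih =>
    intro j hj h1
    have h := hlin (l + 1) y (by omega)
    have e : y - (l + 1) = j := by omega
    rw [e] at h
    exact ⟨h, ih (j + 1) (by omega) (by omega)⟩

theorem dfs_sound (M d i j Lm : ℕ) (K : ℕ → ℕ) (h4 : 4 * M < d) (h8 : d < 8 * M)
    (hi : i < 2048) (hj : j < 2048) (hij : j % 4 = (i + 2) % 4)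
    (hlin : ∀ x y, x < y → M * (K y - K x - 1) < (y - x) * d ∧ (y - x) * d < M * (K y - K x + 1))
    (hmono : ∀ x, K x ≤ K (x + 1)) (hK : ∀ l ≤ Lm, K l ≤ 512)
    (hag : ∀ l ≤ Lm, xor (Rs (i + K l)) (Rs i) = xor (Rs (j + K l)) (Rs j)) :
    ∀ F l a b p q cl, l + F ≤ Lm → a * M < d * b → d * q < p * M →
      (∃ c ∈ cl, c.testBit i = true ∧ c.testBit j = true) →
      dfs F (K l) (hist K l) a b p q cl = true → False := by
  intro F
  induction F with
  | zero => intro l a b p q cl _ _ _ _ h; exact absurd h (by simp [dfs])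
  | succ F ih =>
    intro l a b p q cl hl h1 h2 h3 h
    -- the actual increment
    obtain ⟨g1, g2⟩ := hlin l (l + 1) (by omega)
    have e1 : l + 1 - l = 1 := by omega
    rw [e1, one_mul] at g1 g2
    have hm := hmono l
    obtain ⟨δ, hδ⟩ := Nat.exists_eq_add_of_le hm
    have e2 : K (l + 1) - K l = δ := by omega
    rw [e2] at g1 g2
    have hM : 0 < M := by
      rcases Nat.eq_zero_or_pos M with h0 | h0
      · subst h0; omega
      · exact h0
    have hδ8 : δ ≤ 8 := by
      by_contra hc
      push Not at hc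
      have : M * 8 ≤ M * (δ - 1) := Nat.mul_le_mul_left _ (by omega)
      omega
    have hδ4 : 4 ≤ δ := by
      by_contra hc
      push Not at hc
      have : M * (δ + 1) ≤ M * 4 := Nat.mul_le_mul_left _ (by omega)
      omega
    -- the step with the actual increment is contradictory
    have key : stepOK (dfs F) (Nat.add (K l) δ) δ (hist K l) a b p q cl = true → False := by
      intro hs
      have eK : Nat.add (K l) δ = K (l + 1) := hδ.symm
      rw [eK] at hs
      unfold stepOK at hs
      have b1 : Nat.ble p (Nat.mul (Nat.sub δ 1) q) = false := by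
        cases hb : Nat.ble p (Nat.mul (Nat.sub δ 1) q)
        · rfl
        · exfalso
          have hb1 : p ≤ (δ - 1) * q := Nat.le_of_ble_eq_true hb
          have : p * M ≤ (δ - 1) * q * M := Nat.mul_le_mul_right _ hb1
          have h5 : (δ - 1) * q * M = (M * (δ - 1)) * q := by ring
          have h6 : (M * (δ - 1)) * q ≤ d * q := Nat.mul_le_mul_right _ g1.le
          omega
      have b2 : Nat.ble (Nat.mul (Nat.succ δ) b) a = false := by
        cases hb : Nat.ble (Nat.mul (Nat.succ δ) b) a
        · rfl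
        · exfalso
          have hb1 : (δ + 1) * b ≤ a := Nat.le_of_ble_eq_true hb
          have : (δ + 1) * b * M ≤ a * M := Nat.mul_le_mul_right _ hb1
          have h5 : (δ + 1) * b * M = (M * (δ + 1)) * b := by ring
          have h6 : d * b ≤ (M * (δ + 1)) * b := Nat.mul_le_mul_right _ g2.le
          omega
      rw [b1, b2] at hs
      simp only [cond_false] at hs
      obtain ⟨a', b', p', q', k1, k2, k3⟩ := upd_spec M d (K (l + 1)) (hist K l) 1 a b p q _
        (hist_good M d K hlin (l + 1) l 1 rfl (le_refl _)) h1 h2 hs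
      have b3 : Nat.ble (Nat.mul p' b') (Nat.mul a' q') = false := by
        cases hb : Nat.ble (Nat.mul p' b') (Nat.mul a' q')
        · rfl
        · exfalso
          have hb1 : p' * b' ≤ a' * q' := Nat.le_of_ble_eq_true hb
          have hb0 : 0 < b' := by
            rcases Nat.eq_zero_or_pos b' with h0 | h0
            · subst h0; omega
            · exact h0
          have h5 : d * q' * b' < p' * M * b' := Nat.mul_lt_mul_of_pos_right k2 hb0
          have h6 : p' * M * b' = p' * b' * M := by ring
          have h7 : p' * b' * M ≤ a' * q' * M := Nat.mul_le_mul_right _ hb1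
          have h8 : a' * q' * M = a' * M * q' := by ring
          have h9 : a' * M * q' ≤ d * b' * q' := Nat.mul_le_mul_right _ k1.le
          have h10 : d * b' * q' = d * q' * b' := by ring
          omega
      rw [b3] at k3
      simp only [cond_false] at k3
      have hD : (Dm (K (l + 1))).testBit i = (Dm (K (l + 1))).testBit j := by
        have := hK (l + 1) (by omega)
        rw [Dm_testBit _ _ (by omega), Dm_testBit _ _ (by omega)]
        exact hag (l + 1) (by omega)
      have hsp := split_spec hi hj hij hD cl h3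
      cases hsc : split (Dm (K (l + 1))) cl with
      | nil =>
        rw [hsc] at hsp
        obtain ⟨c, hc, _⟩ := hsp
        exact absurd hc (by simp)
      | cons c cs =>
        rw [hsc] at k3 hsp
        have e3 : K (l + 1) :: hist K l = hist K (l + 1) := rfl
        rw [tailOK, e3] at k3
        exact ih (l + 1) a' b' p' q' (c :: cs) (by omega) k1 k2 hsp k3
    rw [dfs] at h
    cases s4 : stepOK (dfs F) (Nat.add (K l) 4) 4 (hist K l) a b p q cl
    · rw [s4] at h; exact absurd h (by simp)
    cases s5 : stepOK (dfs F) (Nat.add (K l) 5) 5 (hist K l) a b p q cl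
    · rw [s4, s5] at h; exact absurd h (by simp)
    cases s6 : stepOK (dfs F) (Nat.add (K l) 6) 6 (hist K l) a b p q cl
    · rw [s4, s5, s6] at h; exact absurd h (by simp)
    cases s7 : stepOK (dfs F) (Nat.add (K l) 7) 7 (hist K l) a b p q cl
    · rw [s4, s5, s6, s7] at h; exact absurd h (by simp)
    rw [s4, s5, s6, s7] at h
    have hc : δ = 4 ∨ δ = 5 ∨ δ = 6 ∨ δ = 7 ∨ δ = 8 := by omega
    rcases hc with rfl | rfl | rfl | rfl | rfl
    · exact key s4
    · exact key s5
    · exact key s6
    · exact key s7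
    · exact key h

/-- generic slopes -/
theorem generic (F a b p q : ℕ) (hrun : run F a b p q = true) (hF : F ≤ 64) (M n d : ℕ)
    (hM : 0 < M) (h4 : 4 * M < d) (h8 : d < 8 * M) (hd : d % 2 = 1) (hlo : a * M < d * b)
    (hhi : d * q < p * M)
    (hY : ∀ l ≤ F, Rs ((n + l * d) / M) = Rs ((n + l * d) / M + 2 * d)) : False := by
  obtain ⟨i, c, hi, him, hic⟩ := type_exists 8 (n / M)
  obtain ⟨j, c', hj, hjm, hjc⟩ := type_exists 8 (n / M + 2 * d)
  norm_num at hi hj hic hjc him hjm
  set K : ℕ → ℕ := fun l => (n + l * d) / M - n / M with hKdef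
  have hYm : ∀ l, n / M ≤ (n + l * d) / M := fun l => Nat.div_le_div_right (by omega)
  have hstep : ∀ x, (n + x * d) / M ≤ (n + (x + 1) * d) / M := by
    intro x
    apply Nat.div_le_div_right
    have : (x + 1) * d = x * d + d := by ring
    omega
  have hlin : ∀ x y, x < y → M * (K y - K x - 1) < (y - x) * d ∧
      (y - x) * d < M * (K y - K x + 1) := by
    intro x y hxy
    have a1 := Nat.div_add_mod (n + x * d) M
    have a2 := Nat.mod_lt (n + x * d) hM
    have b1 := Nat.div_add_mod (n + y * d) M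
    have b2 := Nat.mod_lt (n + y * d) hM
    obtain ⟨t, rfl⟩ : ∃ t, y = x + t := ⟨y - x, by omega⟩
    have e : (x + t) * d = x * d + t * d := by ring
    rw [Nat.add_sub_cancel_left]
    have hmn : (n + x * d) / M ≤ (n + (x + t) * d) / M := Nat.div_le_div_right (by rw [e]; omega)
    have eK : K (x + t) - K x = (n + (x + t) * d) / M - (n + x * d) / M := by
      have := hYm x
      simp only [hKdef]; omega
    rw [eK]
    rw [e] at b1 b2 hmn ⊢
    generalize (n + x * d) / M = A at *
    generalize (n + (x * d + t * d)) / M = B at *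
    obtain ⟨s, rfl⟩ := Nat.exists_eq_add_of_le hmn
    rw [Nat.add_sub_cancel_left]
    have e2 : M * (A + s) = M * A + M * s := by ring
    have htd : 0 < t * d := by apply Nat.mul_pos <;> omega
    constructor
    · rcases Nat.eq_zero_or_pos s with h0 | h0
      · subst h0; simpa using htd
      · have e3 : M * (s - 1) + M = M * s := by
          obtain ⟨s', rfl⟩ : ∃ s', s = s' + 1 := ⟨s - 1, by omega⟩
          rw [Nat.add_sub_cancel]; ring
        omega
    · have e3 : M * (s + 1) = M * s + M := by ring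
      omega
  have hmono : ∀ x, K x ≤ K (x + 1) := by
    intro x
    have := hstep x
    simp only [hKdef]; omega
  have hK8 : ∀ l, K l ≤ 8 * l := by
    intro l
    rcases Nat.eq_zero_or_pos l with h0 | h0
    · subst h0; simp [hKdef]
    · have := (hlin 0 l h0).1
      by_contra hc
      push Not at hc
      have hK0 : K 0 = 0 := by simp [hKdef]
      rw [hK0, Nat.sub_zero, Nat.sub_zero] at this
      have h5 : M * (8 * l) ≤ M * (K l - 1) := Nat.mul_le_mul_left _ (by omega)
      have h6 : l * d ≤ l * (8 * M) := Nat.mul_le_mul_left _ h8.le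
      have h7 : l * (8 * M) = M * (8 * l) := by ring
      omega
  have hag : ∀ l ≤ F, xor (Rs (i + K l)) (Rs i) = xor (Rs (j + K l)) (Rs j) := by
    intro l hl
    have k1 := hK8 l
    have g := hY l hl
    have g0 := hY 0 (by omega)
    rw [Nat.zero_mul, Nat.add_zero] at g0
    have e1 : (n + l * d) / M = n / M + K l := by
      have := hYm l
      simp only [hKdef]; omega
    have e2 : n / M + K l + 2 * d = n / M + 2 * d + K l := by omega
    rw [e1, e2, hic (K l) (by omega), hjc (K l) (by omega)] at g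
    have g1 := hic 0 (by omega)
    have g2 := hjc 0 (by omega)
    rw [Nat.add_zero, Nat.add_zero] at g1 g2
    rw [g1, g2] at g0
    revert g g0
    cases c <;> cases c' <;> cases Rs (i + K l) <;> cases Rs (j + K l) <;> cases Rs i <;>
      cases Rs j <;> simp
  have hcl : ∃ x ∈ [2 ^ 2048 - 1], Nat.testBit x i = true ∧ Nat.testBit x j = true := by
    refine ⟨2 ^ 2048 - 1, by simp, ?_, ?_⟩
    · rw [Nat.testBit_two_pow_sub_one]; simpa using hi
    · rw [Nat.testBit_two_pow_sub_one]; simpa using hj
  have hK0 : K 0 = 0 := by simp [hKdef]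
  apply dfs_sound M d i j F K h4 h8 hi hj (by omega) hlin hmono
    (fun l hl => by have := hK8 l; omega) hag F 0 a b p q [2 ^ 2048 - 1] (by omega) hlo hhi hcl
  rw [hist, hK0]
  exact hrun

end R125S
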