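import Pool.Agent.R125.RsF

/-!
Rudin-Shapiro: evaluation of the certificate.
-/

namespace R125S

set_option maxRecDepth 1000000 in
theorem run1 : run 26 121 30 53 10 = true := by decide +kernel

set_option maxRecDepth 1000000 in
theorem run2 : run 52 53 10 719 135 = true := by decide +kernel

set_option maxRecDepth 1000000 in
theorem run3 : run 53 721 135 54 10 = true := by decide +kernel

set_option maxRecDepth 1000000 in
theorem run4 : run 36 54 10 119 15 = true := by decide +kernel

end R125S
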