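import Pool.Agent.R125.RsE

/-!
Rudin-Shapiro: exhaustive checks for small differences with bit sets.
-/

namespace R125S

def X (s d : ℕ) : ℕ :=
  Nat.xor (Nat.sub (Nat.pow 2 (Nat.pow 2 (s + 1))) 1) (Nat.xor (B s) (Nat.shiftRight (B s) d))

def dblI : ℕ → ℕ → ℕ → ℕ
  | 0, z, _ => z
  | e + 1, z, sh => dblI e (Nat.land z (Nat.shiftRight z sh)) (Nat.mul 2 sh)

def linI : ℕ → ℕ → ℕ → ℕ → ℕ → ℕ
  | 0, _, acc, _, _ => acc
  | l + 1, x, acc, sh, d => linI l x (Nat.land acc (Nat.shiftRight x sh)) (Nat.add sh d) d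

def chkD (s d e : ℕ) : Bool := Nat.beq (Nat.mod (dblI e (X s d) d) (Nat.pow 2 (Nat.pow 2 s))) 0
def chkL (s d l : ℕ) : Bool :=
  Nat.beq (Nat.mod (linI l (X s d) (X s d) d d) (Nat.pow 2 (Nat.pow 2 s))) 0

/-- positions starting a monochromatic progression with `a + 1` terms -/
def gd (s d a i : ℕ) : Prop := i + a * d < 2 ^ (s + 1) ∧ ∀ j < a, Rs (i + j * d) = Rs (i + (j + 1) * d)

theorem X_spec (s d i : ℕ) (h : gd s d 1 i) : (X s d).testBit i = true := by
  obtain ⟨h1, h2⟩ := h
  have h3 := h2 0 (by norm_num)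
  rw [one_mul] at h1
  rw [Nat.zero_mul, Nat.add_zero, Nat.zero_add, one_mul] at h3
  change ((2 ^ (2 ^ (s + 1)) - 1) ^^^ (B s ^^^ (B s >>> d))).testBit i = true
  rw [Nat.testBit_xor, Nat.testBit_two_pow_sub_one, Nat.testBit_xor, Nat.testBit_shiftRight,
    ← Rs_eq_B s i (by omega), ← Rs_eq_B s (d + i) (by omega), Nat.add_comm d i, h3,
    decide_eq_true (by omega)]
  cases Rs (i + d) <;> rfl

theorem gd_mono {s d a b i : ℕ} (hab : a ≤ b) (h : gd s d b i) : gd s d a i := by
  refine ⟨?_, fun j hj => h.2 j (by omega)⟩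
  have : a * d ≤ b * d := Nat.mul_le_mul_right _ hab
  have := h.1
  omega

theorem gd_shift {s d a b i : ℕ} (h : gd s d (a + b) i) : gd s d b (i + a * d) := by
  obtain ⟨h1, h2⟩ := h
  constructor
  · have : (a + b) * d = a * d + b * d := by ring
    omega
  · intro j hj
    have := h2 (a + j) (by omega)
    have e1 : i + (a + j) * d = i + a * d + j * d := by ring
    have e2 : i + (a + j + 1) * d = i + a * d + (j + 1) * d := by ring
    rw [e1, e2] at this
    exact this

theorem dbl_spec (s d : ℕ) : ∀ e a z, (∀ i, gd s d a i → z.testBit i = true) →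
    ∀ i, gd s d (2 ^ e * a) i → (dblI e z (a * d)).testBit i = true := by
  intro e
  induction e with
  | zero =>
    intro a z hz i hi
    rw [pow_zero, one_mul] at hi
    exact hz i hi
  | succ e ih =>
    intro a z hz i hi
    rw [dblI]
    have e1 : Nat.mul 2 (a * d) = (2 * a) * d := by change 2 * (a * d) = _; ring
    rw [e1]
    apply ih (2 * a)
    · intro i' hi'
      change (z &&& (z >>> (a * d))).testBit i' = true
      rw [Nat.testBit_and, Nat.testBit_shiftRight, hz i' (gd_mono (by omega) hi')]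
      rw [Nat.add_comm (a * d) i', hz (i' + a * d) (gd_shift (by rw [← two_mul]; exact hi'))]
      rfl
    · have : 2 ^ e * (2 * a) = 2 ^ (e + 1) * a := by rw [pow_succ]; ring
      rw [this]; exact hi

theorem lin_spec (s d x : ℕ) (hx : ∀ i, gd s d 1 i → x.testBit i = true) : ∀ l a acc,
    (∀ i, gd s d a i → acc.testBit i = true) →
    ∀ i, gd s d (a + l) i → (linI l x acc (a * d) d).testBit i = true := by
  intro l
  induction l with
  | zero =>
    intro a acc hz i hi
    exact hz i hi
  | succ l ih =>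
    intro a acc hz i hi
    rw [linI]
    have e1 : Nat.add (a * d) d = (a + 1) * d := by change a * d + d = _; ring
    rw [e1]
    apply ih (a + 1)
    · intro i' hi'
      change (acc &&& (x >>> (a * d))).testBit i' = true
      rw [Nat.testBit_and, Nat.testBit_shiftRight, hz i' (gd_mono (by omega) hi')]
      rw [Nat.add_comm (a * d) i', hx (i' + a * d) (gd_shift hi')]
      rfl
    · have : a + 1 + l = a + (l + 1) := by ring
      rw [this]; exact hi

theorem exists_pos (i0 n d ℓ L : ℕ) (hN : ℓ * d ≤ 2 ^ (i0 + 1)) (hL : ∀ l < L, Rs (n + l * d) = Rs n)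
    (hlt : ℓ < L) : ∃ i < 2 ^ (i0 + 3), gd (i0 + 3) d ℓ i := by
  obtain ⟨i, c, hi, _, hic⟩ := type_exists i0 n
  have e1 : 2 ^ (i0 + 3) = 4 * 2 ^ (i0 + 1) := by rw [pow_succ, pow_succ]; ring
  have e2 : 2 ^ (i0 + 3 + 1) = 8 * 2 ^ (i0 + 1) := by rw [pow_succ, pow_succ, pow_succ]; ring
  refine ⟨i, by omega, by rw [e2]; omega, ?_⟩
  intro j hj
  have b1 : j * d ≤ ℓ * d := Nat.mul_le_mul_right _ hj.le
  have b2 : (j + 1) * d ≤ ℓ * d := Nat.mul_le_mul_right _ hj
  have h1 := hL j (by omega)
  have h2 := hL (j + 1) (by omega)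
  rw [hic (j * d) (by omega)] at h1
  rw [hic ((j + 1) * d) (by omega)] at h2
  rw [← h2] at h1
  revert h1
  cases c <;> cases Rs (i + j * d) <;> cases Rs (i + (j + 1) * d) <;> simp

theorem mod_contra {z i T : ℕ} (hi : i < T) (h : z.testBit i = true)
    (h0 : Nat.beq (Nat.mod z (Nat.pow 2 T)) 0 = true) : False := by
  have h1 : z % 2 ^ T = 0 := Nat.eq_of_beq_eq_true h0
  have h2 : (z % 2 ^ T).testBit i = true := by
    rw [Nat.testBit_mod_two_pow, h, decide_eq_true hi]; rfl
  rw [h1] at h2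
  simp at h2

theorem brute_dbl (i0 n d e L : ℕ) (hN : 2 ^ e * d ≤ 2 ^ (i0 + 1)) (h : chkD (i0 + 3) d e = true)
    (hL : ∀ l < L, Rs (n + l * d) = Rs n) : L ≤ 2 ^ e := by
  by_contra hc
  push Not at hc
  obtain ⟨i, hi, hg⟩ := exists_pos i0 n d (2 ^ e) L hN hL hc
  have h1 := dbl_spec (i0 + 3) d e 1 (X (i0 + 3) d) (fun i hi => X_spec _ _ i hi) i
    (by rw [mul_one]; exact hg)
  rw [one_mul] at h1
  exact mod_contra hi h1 h

theorem brute_lin (i0 n d l L : ℕ) (hN : (l + 1) * d ≤ 2 ^ (i0 + 1)) (h : chkL (i0 + 3) d l = true)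
    (hL : ∀ l < L, Rs (n + l * d) = Rs n) : L ≤ l + 1 := by
  by_contra hc
  push Not at hc
  obtain ⟨i, hi, hg⟩ := exists_pos i0 n d (l + 1) L hN hL hc
  have h1 := lin_spec (i0 + 3) d (X (i0 + 3) d) (fun i hi => X_spec _ _ i hi) l 1
    (X (i0 + 3) d) (fun i hi => X_spec _ _ i hi) i (by rw [Nat.add_comm 1 l]; exact hg)
  rw [one_mul] at h1
  exact mod_contra hi h1 h

/-- `d ≤ 21`: at most 15 terms -/
def small1 : Bool := allB (fun t => chkL 11 (Nat.succ (Nat.mul 2 t)) 14) 11
set_option maxRecDepth 1000000 in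
theorem small1_true : small1 = true := by decide +kernel

theorem s23 : chkL 11 23 13 = true := by decide +kernel
theorem s25 : chkL 11 25 14 = true := by decide +kernel
theorem s31 : chkL 12 31 18 = true := by decide +kernel
theorem s33 : chkL 12 33 18 = true := by decide +kernel
theorem s39 : chkL 12 39 21 = true := by decide +kernel
theorem s61 : chkD 13 61 5 = true := by decide +kernel

/-- `27 ≤ d < 64` -/
def small2 : Bool := allB (fun t => cond (Nat.beq t 2) true (cond (Nat.beq t 3) true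
  (cond (Nat.beq t 6) true (cond (Nat.beq t 17) true (chkD 12 (Nat.add 27 (Nat.mul 2 t)) 4))))) 18
set_option maxRecDepth 1000000 in
theorem small2_true : small2 = true := by decide +kernel

/-- `67 ≤ d < 512` -/
def small3 : Bool := allB (fun t => cond (Nat.beq t 30) true (cond (Nat.beq t 31) true
  (cond (Nat.beq t 94) true (cond (Nat.beq t 95) true
  (cond (Nat.beq t 222) true (chkD 16 (Nat.add 67 (Nat.mul 2 t)) 5)))))) 223
set_option maxRecDepth 1000000 in
theorem small3_true : small3 = true := by decide +kernel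

def small4 (s D : ℕ) : Bool := allB (fun t => chkD s (Nat.add D (Nat.add 3 (Nat.mul 2 t))) 5) 22
set_option maxRecDepth 1000000 in
theorem small4a : small4 17 512 = true := by decide +kernel
set_option maxRecDepth 1000000 in
theorem small4b : small4 18 1024 = true := by decide +kernel
set_option maxRecDepth 1000000 in
theorem small4c : small4 19 2048 = true := by decide +kernel
set_option maxRecDepth 1000000 in
theorem small4d : small4 20 4096 = true := by decide +kernel

end R125S
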