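import Pool.Agent.R125.RsG
import Pool.Agent.R125.RsH

/-!
Rudin-Shapiro: the main bounds.
-/

namespace R125S

/-- odd differences between `2^j` and `2^(j+1) - 1` -/
theorem main_mid (j d n L : ℕ) (hj : 9 ≤ j) (hd : d % 2 = 1) (h1 : 2 ^ j < d)
    (h2 : d + 1 < 2 ^ (j + 1)) (hL : ∀ l < L, Rs (n + l * d) = Rs n) :
    2 * L ≤ d + 5 ∧ L ≤ 2 ^ j := by
  obtain ⟨s, rfl⟩ : ∃ s, j = s + 2 := ⟨j - 2, by omega⟩
  have hM7 : 128 ≤ 2 ^ s := by
    calc 128 = 2 ^ 7 := by norm_num
      _ ≤ 2 ^ s := Nat.pow_le_pow_right (by norm_num) (by omega)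
  have e2 : 2 ^ (s + 2) = 4 * 2 ^ s := by rw [pow_add]; ring
  have e3 : 2 ^ (s + 2 + 1) = 8 * 2 ^ s := by rw [pow_succ, pow_add]; ring
  have e1 : 2 ^ (s + 1) = 2 * 2 ^ s := by rw [pow_succ]; ring
  have hM4 : 2 ^ s % 4 = 0 := by
    obtain ⟨t, rfl⟩ : ∃ t, s = t + 2 := ⟨s - 2, by omega⟩
    rw [pow_add]; omega
  rw [e2] at h1
  rw [e3] at h2
  rw [e2]
  -- near 8 from below
  by_cases hE : 15 * (8 * 2 ^ s - d) ≤ 2 ^ s
  · have hcon : L ≤ 3 * 2 ^ s + 16 := by
      by_contra hc
      push Not at hc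
      apply near8 s n d ((d : ℤ) - 8 * 2 ^ s) hd (by ring)
      · have : ((2 ^ s : ℕ) : ℤ) = (2 : ℤ) ^ s := by push_cast; rfl
        rw [abs_of_neg (by rw [← this]; omega), ← this]
        omega
      · have : ((2 ^ s : ℕ) : ℤ) = (2 : ℤ) ^ s := by push_cast; rfl
        rw [abs_of_neg (by rw [← this]; omega), ← this]
        omega
      · intro l hl
        exact scale s n d L (by omega) hL l (by rw [e1]; omega)
    omega
  -- the rest
  have hcon : 2 * L ≤ d + 5 := by
    by_contra hc
    push Not at hc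
    have hLd : d + 7 ≤ 2 * L := by omega
    obtain ⟨m, hm⟩ := Nat.exists_eq_add_of_le h1.le
    have hm1 : m % 2 = 1 := by omega
    by_cases hm11 : m = 1
    · have hd1 : d = 2 ^ (s + 2) + 1 := by omega
      have := plusOne s n L (by omega) (by rw [← hd1]; exact hL)
      rw [e1] at this
      omega
    by_cases hB : 30 * m ≤ 2 ^ s
    · obtain ⟨t, rfl⟩ : ∃ t, s = t + 1 := ⟨s - 1, by omega⟩
      have e0 : 2 ^ (t + 1) = 2 * 2 ^ t := by rw [pow_succ]; ring
      have hz : ((2 ^ t : ℕ) : ℤ) = (2 : ℤ) ^ t := by push_cast; rfl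
      apply near8 t n d ((d : ℤ) - 8 * 2 ^ t) hd (by ring)
      · rw [abs_of_pos (by rw [← hz]; omega), ← hz]; omega
      · rw [abs_of_pos (by rw [← hz]; omega), ← hz]; omega
      · intro l hl
        exact scale t n d L (by omega) hL l (by omega)
    by_cases hm45 : m ≤ 45
    · -- small cases
      obtain ⟨t, ht⟩ : ∃ t, m = 3 + 2 * t := ⟨(m - 3) / 2, by omega⟩
      have ht22 : t < 22 := by omega
      have hs10 : s ≤ 10 := by
        by_contra hs
        have : 2 ^ 11 ≤ 2 ^ s := Nat.pow_le_pow_right (by norm_num) (by omega)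
        norm_num at this
        omega
      have hcases : s = 7 ∨ s = 8 ∨ s = 9 ∨ s = 10 := by omega
      have hfin : ∀ i0 : ℕ, 32 * d ≤ 2 ^ (i0 + 1) → small4 (i0 + 3) (4 * 2 ^ s) = true → False := by
        intro i0 hi0 hs4
        have := allB_spec _ _ hs4 t ht22
        have e : Nat.add (4 * 2 ^ s) (Nat.add 3 (Nat.mul 2 t)) = d := by
          change 4 * 2 ^ s + (3 + 2 * t) = d
          omega
        rw [e] at this
        have := brute_dbl i0 n d 5 L (by norm_num; omega) this hL
        norm_num at this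
        omega
      rcases hcases with rfl | rfl | rfl | rfl
      · exact hfin 14 (by norm_num at *; omega) (by norm_num; exact small4a)
      · exact hfin 15 (by norm_num at *; omega) (by norm_num; exact small4b)
      · exact hfin 16 (by norm_num at *; omega) (by norm_num; exact small4c)
      · exact hfin 17 (by norm_num at *; omega) (by norm_num; exact small4d)
    -- generic or near 16/3
    have hsc : ∀ l, 2 * l < m + 7 → Rs ((n + l * d) / 2 ^ s) = Rs ((n + l * d) / 2 ^ s + 2 * d) := by
      intro l hl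
      exact scale s n d L (by omega) hL l (by rw [e1]; omega)
    by_cases hD : 45 * |3 * (d : ℤ) - 16 * 2 ^ s| ≤ 2 ^ s
    · have hz : ((2 ^ s : ℕ) : ℤ) = (2 : ℤ) ^ s := by push_cast; rfl
      have hD2 : 45 * (3 * (d : ℤ) - 16 * 2 ^ s) ≤ 2 ^ s ∧ -(2 ^ s) ≤ 45 * (3 * (d : ℤ) - 16 * 2 ^ s) := by
        have h1 := le_abs_self (3 * (d : ℤ) - 16 * 2 ^ s)
        have h2 := neg_abs_le (3 * (d : ℤ) - 16 * 2 ^ s)
        constructor <;> omega
      rw [← hz] at hD2
      apply near16 s n d ((m + 7) / 2) (3 * (d : ℤ) - 16 * 2 ^ s) (by omega) hd (by ring) hD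
      · omega
      · omega
      · intro l hl
        exact hsc l (by omega)
    · have hz : ((2 ^ s : ℕ) : ℤ) = (2 : ℤ) ^ s := by push_cast; rfl
      have hD2 : 2 ^ s < 135 * d - 720 * 2 ^ s ∨ 2 ^ s < 720 * 2 ^ s - 135 * d := by
        rw [← hz] at hD
        rcases le_or_gt 0 (3 * (d : ℤ) - 16 * ((2 ^ s : ℕ) : ℤ)) with h | h
        · rw [abs_of_nonneg h] at hD; left; omega
        · rw [abs_of_neg h] at hD; right; omega
      have h4 : 4 * 2 ^ s < d := h1
      have h8 : d < 8 * 2 ^ s := by omega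
      have hMp : 0 < 2 ^ s := by omega
      by_cases c1 : d * 10 < 53 * 2 ^ s
      · exact generic 26 121 30 53 10 run1 (by norm_num) (2 ^ s) n d hMp h4 h8 hd (by omega) c1
          (fun l hl => hsc l (by omega))
      by_cases c2 : d * 10 < 54 * 2 ^ s
      · rcases hD2 with h | h
        · exact generic 53 721 135 54 10 run3 (by norm_num) (2 ^ s) n d hMp h4 h8 hd (by omega) c2
            (fun l hl => hsc l (by omega))
        · exact generic 52 53 10 719 135 run2 (by norm_num) (2 ^ s) n d hMp h4 h8 hd (by omega)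
            (by omega) (fun l hl => hsc l (by omega))
      · exact generic 36 54 10 119 15 run4 (by norm_num) (2 ^ s) n d hMp h4 h8 hd (by omega)
          (by omega) (fun l hl => hsc l (by omega))
  omega

/-- `d ≤ 21` odd: at most 15 terms -/
theorem small_le (d n L : ℕ) (hd : d % 2 = 1) (h21 : d ≤ 21)
    (hL : ∀ l < L, Rs (n + l * d) = Rs n) : L ≤ 15 := by
  obtain ⟨t, ht⟩ : ∃ t, d = 2 * t + 1 := ⟨d / 2, by omega⟩
  have := allB_spec _ _ small1_true t (by omega)
  have e : Nat.succ (Nat.mul 2 t) = d := by change 2 * t + 1 = d; omega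
  rw [e] at this
  exact brute_lin 8 n d 14 L (by norm_num; omega) this hL

/-- odd `23 ≤ d`, not of the form `2^k - 1` -/
theorem main_odd (j d n L : ℕ) (hd : d % 2 = 1) (h23 : 23 ≤ d) (h1 : 2 ^ j < d)
    (h2 : d + 1 < 2 ^ (j + 1)) (hL : ∀ l < L, Rs (n + l * d) = Rs n) :
    2 * L ≤ d + 5 ∧ L ≤ 2 ^ j := by
  by_cases hj : 9 ≤ j
  · exact main_mid j d n L hj hd h1 h2 hL
  have hj4 : 4 ≤ j := by
    by_contra hc
    have : 2 ^ (j + 1) ≤ 2 ^ 4 := Nat.pow_le_pow_right (by norm_num) (by omega)
    norm_num at this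
    omega
  have hc : j = 4 ∨ j = 5 ∨ (6 ≤ j ∧ j ≤ 8) := by omega
  have hb2 : ∀ t < 18, t ≠ 2 → t ≠ 3 → t ≠ 6 → t ≠ 17 → d = 27 + 2 * t → L ≤ 16 := by
    intro t ht t2 t3 t6 t17 hdt
    have := allB_spec _ _ small2_true t ht
    have n1 : Nat.beq t 2 = false := by
      cases h : Nat.beq t 2
      · rfl
      · exact absurd (Nat.eq_of_beq_eq_true h) t2
    have n2 : Nat.beq t 3 = false := by
      cases h : Nat.beq t 3
      · rfl
      · exact absurd (Nat.eq_of_beq_eq_true h) t3
    have n3 : Nat.beq t 6 = false := by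
      cases h : Nat.beq t 6
      · rfl
      · exact absurd (Nat.eq_of_beq_eq_true h) t6
    have n4 : Nat.beq t 17 = false := by
      cases h : Nat.beq t 17
      · rfl
      · exact absurd (Nat.eq_of_beq_eq_true h) t17
    rw [n1, n2, n3, n4] at this
    simp only [cond_false] at this
    have e : Nat.add 27 (Nat.mul 2 t) = d := by change 27 + 2 * t = d; omega
    rw [e] at this
    have := brute_dbl 9 n d 4 L (by norm_num; omega) this hL
    norm_num at this
    exact this
  rcases hc with rfl | rfl | hj6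
  · norm_num at h1 h2
    have hdc : d = 23 ∨ d = 25 ∨ d = 27 ∨ d = 29 := by omega
    rcases hdc with rfl | rfl | rfl | rfl
    · have := brute_lin 8 n 23 13 L (by norm_num) s23 hL
      norm_num; omega
    · have := brute_lin 8 n 25 14 L (by norm_num) s25 hL
      norm_num; omega
    · have := hb2 0 (by norm_num) (by norm_num) (by norm_num) (by norm_num) (by norm_num) rfl
      norm_num; omega
    · have := hb2 1 (by norm_num) (by norm_num) (by norm_num) (by norm_num) (by norm_num) rfl
      norm_num; omega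
  · norm_num at h1 h2
    norm_num
    by_cases d33 : d = 33
    · subst d33
      have := brute_lin 9 n 33 18 L (by norm_num) s33 hL
      omega
    by_cases d39 : d = 39
    · subst d39
      have := brute_lin 9 n 39 21 L (by norm_num) s39 hL
      omega
    by_cases d61 : d = 61
    · subst d61
      have := brute_dbl 10 n 61 5 L (by norm_num) s61 hL
      norm_num at this
      omega
    have := hb2 ((d - 27) / 2) (by omega) (by omega) (by omega) (by omega) (by omega) (by omega)
    omega
  · have h64 : 64 ≤ 2 ^ j := by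
      calc 64 = 2 ^ 6 := by norm_num
        _ ≤ 2 ^ j := Nat.pow_le_pow_right (by norm_num) hj6.1
    by_cases hm1 : d = 2 ^ j + 1
    · obtain ⟨s, rfl⟩ : ∃ s, j = s + 2 := ⟨j - 2, by omega⟩
      have := plusOne s n L (by omega) (by rw [← hm1]; exact hL)
      have e1 : 2 ^ (s + 2) = 2 * 2 ^ (s + 1) := by rw [pow_succ]; ring
      omega
    have hcc : j = 6 ∨ j = 7 ∨ j = 8 := by omega
    have key : d < 512 → d ≠ 127 → d ≠ 129 → d ≠ 255 → d ≠ 257 → d ≠ 511 → 67 ≤ d → L ≤ 32 := by
      intro h512 k1 k2 k3 k4 k5 k6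
      have := allB_spec _ _ small3_true ((d - 67) / 2) (by omega)
      have n1 : Nat.beq ((d - 67) / 2) 30 = false := by
        cases h : Nat.beq ((d - 67) / 2) 30
        · rfl
        · have := Nat.eq_of_beq_eq_true h; omega
      have n2 : Nat.beq ((d - 67) / 2) 31 = false := by
        cases h : Nat.beq ((d - 67) / 2) 31
        · rfl
        · have := Nat.eq_of_beq_eq_true h; omega
      have n3 : Nat.beq ((d - 67) / 2) 94 = false := by
        cases h : Nat.beq ((d - 67) / 2) 94
        · rfl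
        · have := Nat.eq_of_beq_eq_true h; omega
      have n4 : Nat.beq ((d - 67) / 2) 95 = false := by
        cases h : Nat.beq ((d - 67) / 2) 95
        · rfl
        · have := Nat.eq_of_beq_eq_true h; omega
      have n5 : Nat.beq ((d - 67) / 2) 222 = false := by
        cases h : Nat.beq ((d - 67) / 2) 222
        · rfl
        · have := Nat.eq_of_beq_eq_true h; omega
      rw [n1, n2, n3, n4, n5] at this
      simp only [cond_false] at this
      have e : Nat.add 67 (Nat.mul 2 ((d - 67) / 2)) = d := by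
        change 67 + 2 * ((d - 67) / 2) = d; omega
      rw [e] at this
      have := brute_dbl 13 n d 5 L (by norm_num; omega) this hL
      norm_num at this
      exact this
    rcases hcc with rfl | rfl | rfl
    · norm_num at h1 h2 hm1 ⊢
      have := key (by omega) (by omega) (by omega) (by omega) (by omega) (by omega) (by omega)
      omega
    · norm_num at h1 h2 hm1 ⊢
      have := key (by omega) (by omega) (by omega) (by omega) (by omega) (by omega) (by omega)
      omega
    · norm_num at h1 h2 hm1 ⊢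
      have := key (by omega) (by omega) (by omega) (by omega) (by omega) (by omega) (by omega)
      omega

/-- differences `2^k - 1`, `k ≥ 5` -/
theorem main_ones (k n L : ℕ) (hk : 5 ≤ k) (hL : ∀ l < L, Rs (n + l * (2 ^ k - 1)) = Rs n) :
    L ≤ 2 ^ (k - 1) + 3 ∧ (k % 2 = 0 → L ≤ 2 ^ (k - 1) + 1) := by
  by_cases h6 : 6 ≤ k
  · obtain ⟨s, rfl⟩ : ∃ s, k = s + 2 := ⟨k - 2, by omega⟩
    obtain ⟨a, b⟩ := minusOne s n L (by omega) hL
    have e : s + 2 - 1 = s + 1 := by omega
    rw [e]
    exact ⟨a, fun h => b (by omega)⟩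
  · have : k = 5 := by omega
    subst this
    norm_num at hL ⊢
    exact brute_lin 9 n 31 18 L (by norm_num) s31 hL

theorem ones_exists (k : ℕ) (hk : 5 ≤ k) :
    (k % 2 = 1 → ∃ n, ∀ l < 2 ^ (k - 1) + 3, Rs (n + l * (2 ^ k - 1)) = Rs n) ∧
    (k % 2 = 0 → ∃ n, ∀ l < 2 ^ (k - 1) + 1, Rs (n + l * (2 ^ k - 1)) = Rs n) := by
  obtain ⟨s, rfl⟩ : ∃ s, k = s + 2 := ⟨k - 2, by omega⟩
  have e : s + 2 - 1 = s + 1 := by omega
  rw [e]
  exact ⟨fun h => minus_exists_odd s (by omega) (by omega),
    fun h => minus_exists_even s (by omega) (by omega)⟩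

/-- even differences -/
theorem even_step (e n L : ℕ) (hL : ∀ l < L, Rs (n + l * (2 * e)) = Rs n) :
    ∀ l < L, Rs (n / 2 + l * e) = Rs (n / 2) ∨ n % 2 = 1 := by
  intro l hl
  rcases Nat.mod_two_eq_zero_or_one n with h | h
  · left
    have h2 := hL l hl
    rw [Rs_half n, Rs_half (n + l * (2 * e))] at h2
    have e1 : (n + l * (2 * e)) / 2 = n / 2 + l * e := by
      rw [show l * (2 * e) = 2 * (l * e) by ring]; omega
    have e2 : (n + l * (2 * e)) % 2 = 0 := by
      rw [show l * (2 * e) = 2 * (l * e) by ring]; omega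
    rw [e1, od_false h, od_false e2] at h2
    simpa using h2
  · right; exact h

end R125S
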