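import Pool.Agent.R125.RsI

/-!
Rudin-Shapiro: reduction of even differences, final bounds.
-/

namespace R125S

theorem even_red (e n L : ℕ) (hL : ∀ l < L, Rs (n + l * (2 * e)) = Rs n) :
    ∃ n', ∀ l < L, Rs (n' + l * e) = Rs n' := by
  rcases Nat.mod_two_eq_zero_or_one n with h | h
  · refine ⟨n / 2, fun l hl => ?_⟩
    rcases even_step e n L hL l hl with h' | h'
    · exact h'
    · omega
  by_cases hL0 : L = 0
  · exact ⟨0, fun l hl => by omega⟩
  -- reversed window
  obtain ⟨Y, hY⟩ : ∃ Y, Y = n / 2 + (L - 1) * e := ⟨_, rfl⟩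
  have hYlt : Y < 2 ^ Y := Nat.lt_two_pow_self
  have e2 : 2 ^ (Y + 1) = 2 * 2 ^ Y := by rw [pow_succ]; ring
  have key : ∀ l < L, Rs (2 ^ (Y + 1) - 1 - (n / 2 + l * e)) =
      xor (od Y) (Rs (n + l * (2 * e))) := by
    intro l hl
    have hle : n / 2 + l * e ≤ Y := by
      rw [hY]
      have : l * e ≤ (L - 1) * e := Nat.mul_le_mul_right _ (by omega)
      omega
    rw [Rs_compl Y _ (by omega), decide_eq_false (by omega), Rs_half (n + l * (2 * e))]
    have e1 : (n + l * (2 * e)) / 2 = n / 2 + l * e := by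
      rw [show l * (2 * e) = 2 * (l * e) by ring]; omega
    have e3 : (n + l * (2 * e)) % 2 = 1 := by
      rw [show l * (2 * e) = 2 * (l * e) by ring]; omega
    rw [e1, od_true e3]
    cases od Y <;> cases Rs (n / 2 + l * e) <;> cases od (n / 2 + l * e) <;> rfl
  have key2 : ∀ l < L, Rs (2 ^ (Y + 1) - 1 - (n / 2 + l * e)) = xor (od Y) (Rs n) := by
    intro l hl
    rw [key l hl, hL l hl]
  refine ⟨2 ^ (Y + 1) - 1 - Y, fun l hl => ?_⟩
  have a1 : 2 ^ (Y + 1) - 1 - Y + l * e = 2 ^ (Y + 1) - 1 - (n / 2 + (L - 1 - l) * e) := by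
    have h1 : (L - 1 - l) * e + l * e = (L - 1) * e := by
      rw [← Nat.add_mul]; congr 1; omega
    omega
  have a2 : 2 ^ (Y + 1) - 1 - Y = 2 ^ (Y + 1) - 1 - (n / 2 + (L - 1) * e) := by rw [← hY]
  rw [a1, key2 _ (by omega), a2, key2 _ (by omega)]

/-- position of an odd number between powers of two -/
theorem pos_odd (d : ℕ) (hd : d % 2 = 1) (h3 : 3 ≤ d) :
    ∃ j, 1 ≤ j ∧ 2 ^ j < d ∧ (d + 1 < 2 ^ (j + 1) ∨ d = 2 ^ (j + 1) - 1) := by
  obtain ⟨j, hj1, hj2⟩ : ∃ j, 2 ^ j ≤ d ∧ d < 2 ^ (j + 1) :=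
    ⟨Nat.log2 d, Nat.log2_self_le (by omega), Nat.lt_log2_self⟩
  have hj0 : 1 ≤ j := by
    by_contra h
    have : j = 0 := by omega
    subst this
    norm_num at hj2
    omega
  have h2j : 2 ^ j % 2 = 0 := by
    obtain ⟨i, rfl⟩ := Nat.exists_eq_add_of_le hj0
    rw [pow_add]; simp
  refine ⟨j, hj0, by omega, ?_⟩
  by_cases h : d + 1 < 2 ^ (j + 1)
  · exact Or.inl h
  · right; omega

/-- the bound `(d+7)/2` -/
theorem all7 : ∀ d, 1 ≤ d → ∀ n L, (∀ l < L, Rs (n + l * d) = Rs n) →
    (d ≤ 22 → L ≤ 15) ∧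
    (23 ≤ d → 2 * L ≤ d + 6 ∨ (2 * L ≤ d + 7 ∧ ∃ k, 5 ≤ k ∧ Odd k ∧ d = 2 ^ k - 1)) := by
  intro d
  induction d using Nat.strong_induction_on with
  | _ d ih =>
    intro hd n L hL
    rcases Nat.mod_two_eq_zero_or_one d with h | h
    · obtain ⟨e, rfl⟩ : ∃ e, d = 2 * e := ⟨d / 2, by omega⟩
      obtain ⟨n', hn'⟩ := even_red e n L hL
      obtain ⟨i1, i2⟩ := ih e (by omega) (by omega) n' L hn'
      refine ⟨fun h22 => i1 (by omega), fun h23 => Or.inl ?_⟩
      by_cases he : e ≤ 22
      · have := i1 he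
        omega
      · rcases i2 (by omega) with i | i
        · omega
        · have := i.1
          omega
    · refine ⟨fun h22 => small_le d n L h (by omega) hL, fun h23 => ?_⟩
      obtain ⟨j, hj, hj1, hj2⟩ := pos_odd d h (by omega)
      rcases hj2 with hj2 | hj2
      · left
        have := (main_odd j d n L h h23 hj1 hj2 hL).1
        omega
      · have hk : 5 ≤ j + 1 := by
          by_contra hc
          have : 2 ^ (j + 1) ≤ 2 ^ 4 := Nat.pow_le_pow_right (by norm_num) (by omega)
          norm_num at this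
          omega
        obtain ⟨m1, m2⟩ := main_ones (j + 1) n L hk (by rw [← hj2]; exact hL)
        have e1 : j + 1 - 1 = j := by omega
        have e2 : 2 ^ (j + 1) = 2 * 2 ^ j := by rw [pow_succ]; ring
        rw [e1] at m1 m2
        rcases Nat.mod_two_eq_zero_or_one (j + 1) with hp | hp
        · left
          have := m2 hp
          omega
        · right
          exact ⟨by omega, j + 1, hk, Nat.odd_iff.mpr hp, hj2⟩

/-- the bound `2^(k-1)` below `2^k - 1` -/
theorem allk : ∀ d, 1 ≤ d → ∀ n L, (∀ l < L, Rs (n + l * d) = Rs n) →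
    ∀ k, 5 ≤ k → d ≤ 2 ^ k - 2 → L ≤ 2 ^ (k - 1) := by
  intro d
  induction d using Nat.strong_induction_on with
  | _ d ih =>
    intro hd n L hL k hk hdk
    obtain ⟨t, rfl⟩ : ∃ t, k = t + 5 := ⟨k - 5, by omega⟩
    have e1 : t + 5 - 1 = t + 4 := by omega
    rw [e1]
    have hp : 0 < 2 ^ t := by positivity
    have e4 : 2 ^ (t + 4) = 16 * 2 ^ t := by rw [pow_add]; ring
    have e5 : 2 ^ (t + 5) = 32 * 2 ^ t := by rw [pow_add]; ring
    by_cases h22 : d ≤ 22
    · have := (all7 d hd n L hL).1 h22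
      omega
    rcases Nat.mod_two_eq_zero_or_one d with h | h
    · obtain ⟨e, rfl⟩ : ∃ e, d = 2 * e := ⟨d / 2, by omega⟩
      obtain ⟨n', hn'⟩ := even_red e n L hL
      by_cases he : e ≤ 22
      · have := (all7 e (by omega) n' L hn').1 he
        omega
      have ht : 1 ≤ t := by
        by_contra hc
        have : t = 0 := by omega
        subst this
        norm_num at hdk
        omega
      obtain ⟨u, rfl⟩ : ∃ u, t = u + 1 := ⟨t - 1, by omega⟩
      have hpu : 0 < 2 ^ u := by positivity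
      have f0 : 2 ^ (u + 1) = 2 * 2 ^ u := by rw [pow_succ]; ring
      have f4 : 2 ^ (u + 4) = 16 * 2 ^ u := by rw [pow_add]; ring
      have f5 : 2 ^ (u + 5) = 32 * 2 ^ u := by rw [pow_add]; ring
      by_cases he2 : e ≤ 2 ^ (u + 5) - 2
      · have := ih e (by omega) (by omega) n' L hn' (u + 5) (by omega) he2
        have g : u + 5 - 1 = u + 4 := by omega
        rw [g] at this
        omega
      · have he3 : e = 2 ^ (u + 5) - 1 := by omega
        have := (main_ones (u + 5) n' L (by omega) (by rw [← he3]; exact hn')).1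
        have g : u + 5 - 1 = u + 4 := by omega
        rw [g] at this
        omega
    · obtain ⟨j, hj, hj1, hj2⟩ := pos_odd d h (by omega)
      have hjt : j < t + 5 := by
        by_contra hc
        have : 2 ^ (t + 5) ≤ 2 ^ j := Nat.pow_le_pow_right (by norm_num) (by omega)
        omega
      rcases hj2 with hj2 | hj2
      · have := (main_odd j d n L h (by omega) hj1 hj2 hL).2
        have : 2 ^ j ≤ 2 ^ (t + 4) := Nat.pow_le_pow_right (by norm_num) (by omega)
        omega
      · have hjt2 : j + 1 < t + 5 := by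
          by_contra hc
          have : 2 ^ (t + 5) ≤ 2 ^ (j + 1) := Nat.pow_le_pow_right (by norm_num) (by omega)
          omega
        have hk : 5 ≤ j + 1 := by
          by_contra hc
          have : 2 ^ (j + 1) ≤ 2 ^ 4 := Nat.pow_le_pow_right (by norm_num) (by omega)
          norm_num at this
          omega
        have m1 := (main_ones (j + 1) n L hk (by rw [← hj2]; exact hL)).1
        have g : j + 1 - 1 = j := by omega
        rw [g] at m1
        have g2 : 2 ^ j ≤ 2 ^ (t + 3) := Nat.pow_le_pow_right (by norm_num) (by omega)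
        have g3 : 2 ^ (t + 3) = 8 * 2 ^ t := by rw [pow_add]; ring
        omega

theorem Rs_iff (x y : ℕ) : e11 x % 2 = e11 y % 2 ↔ Rs x = Rs y := by
  unfold Rs
  have h1 := Nat.mod_lt (e11 x) (show 0 < 2 by norm_num)
  have h2 := Nat.mod_lt (e11 y) (show 0 < 2 by norm_num)
  constructor
  · intro h; rw [h]
  · intro h
    by_cases h3 : e11 x % 2 = 1
    · rw [h3] at h
      have : e11 y % 2 = 1 := by simpa using h.symm
      omega
    · by_cases h4 : e11 y % 2 = 1
      · rw [h4] at h
        have : e11 x % 2 = 1 := by simpa using h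
        omega
      · omega

end R125S
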