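import Mathlib
import Pool.Agent.R125.RsJ

/-!
# MP_c755aa Q1: `A_11(d) ≤ 2^(k-1)` for `k ≥ 5` and `1 ≤ d ≤ 2^k - 2`
-/

namespace R125S.MaxDifference

open R125S

/-- `A_11(n,d) = inf {l ≥ 1 : e_11(n + l d) ≢ e_11(n) mod 2}` -/
noncomputable def An (n d : ℕ) : ℕ∞ :=
  ⨅ l ∈ {l : ℕ | 1 ≤ l ∧ ¬ e11 (n + l * d) ≡ e11 n [MOD 2]}, (l : ℕ∞)

/-- `A_11(d) = sup_n A_11(n,d)` -/
noncomputable def A (d : ℕ) : ℕ∞ := ⨆ n, An n d

/-- if `B < A_11(n,d)` then the first `B + 1` terms agree -/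
theorem run_of_lt (n d B : ℕ) (h : (B : ℕ∞) < An n d) : ∀ l < B + 1, Rs (n + l * d) = Rs n := by
  intro l hl
  rcases Nat.eq_zero_or_pos l with h0 | h0
  · subst h0; simp
  by_contra hne
  have hle : An n d ≤ (l : ℕ∞) := by
    unfold An
    refine iInf₂_le_of_le l ⟨h0, ?_⟩ le_rfl
    intro hc
    exact hne ((Rs_iff _ _).mp hc)
  have h1 : (B : ℕ∞) < (l : ℕ∞) := lt_of_lt_of_le h hle
  have h2 : B < l := by exact_mod_cast h1
  omega

/-- if the first `B` terms agree then `B ≤ A_11(n,d)` -/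
theorem le_of_run (n d B : ℕ) (h : ∀ l < B, Rs (n + l * d) = Rs n) : (B : ℕ∞) ≤ An n d := by
  unfold An
  refine le_iInf₂ fun l hl => ?_
  by_contra hc
  push Not at hc
  have h2 : l < B := by exact_mod_cast hc
  exact hl.2 ((Rs_iff _ _).mpr (h l h2))

theorem A_le (d B : ℕ) (h : ∀ n L, (∀ l < L, Rs (n + l * d) = Rs n) → L ≤ B) :
    A d ≤ (B : ℕ∞) := by
  unfold A
  apply iSup_le
  intro n
  by_contra hc
  push Not at hc
  have := h n (B + 1) (run_of_lt n d B hc)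
  omega

/-- Q1, with the value of the maximum `M_11(k)` and its unique maximiser -/
theorem result : ∀ k : ℕ, 5 ≤ k →
    (∀ d : ℕ, 1 ≤ d → d ≤ 2 ^ k - 2 → A d ≤ ((2 ^ (k - 1) : ℕ) : ℕ∞)) ∧
    (∀ d : ℕ, 1 ≤ d → d < 2 ^ k → d ≠ 2 ^ k - 1 → A d < A (2 ^ k - 1)) := by
  intro k hk
  have main : ∀ d : ℕ, 1 ≤ d → d ≤ 2 ^ k - 2 → A d ≤ ((2 ^ (k - 1) : ℕ) : ℕ∞) := by
    intro d hd hdk
    apply A_le
    intro n L hL
    exact allk d hd n L hL k hk hdk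
  refine ⟨main, ?_⟩
  intro d hd hdk hne
  refine lt_of_le_of_lt (main d hd (by omega)) ?_
  have h1 : ∃ n, ∀ l < 2 ^ (k - 1) + 1, Rs (n + l * (2 ^ k - 1)) = Rs n := by
    rcases Nat.even_or_odd k with he | ho
    · exact (ones_exists k hk).2 (Nat.even_iff.mp he)
    · obtain ⟨n, hn⟩ := (ones_exists k hk).1 (Nat.odd_iff.mp ho)
      exact ⟨n, fun l hl => hn l (by omega)⟩
  obtain ⟨n, hn⟩ := h1
  have h2 : ((2 ^ (k - 1) + 1 : ℕ) : ℕ∞) ≤ A (2 ^ k - 1) := by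
    unfold A
    exact le_trans (le_of_run n _ _ hn) (le_iSup (fun m => An m (2 ^ k - 1)) n)
  refine lt_of_lt_of_le ?_ h2
  exact_mod_cast Nat.lt_succ_self _

end R125S.MaxDifference
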