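import Mathlib

/-!
Thue-Morse: basic facts, windows, and the density of disagreements between the
sequence and its shift by an odd amount.
-/

namespace R125T

/-- Thue-Morse as a Boolean -/
def T (n : ℕ) : Bool := decide ((Nat.digits 2 n).sum % 2 = 1)

theorem T_zero : T 0 = false := by simp [T]

theorem T_even (n : ℕ) : T (2 * n) = T n := by
  unfold T
  rcases Nat.eq_zero_or_pos n with h | h
  · subst h; rfl
  · rw [Nat.digits_def' (by norm_num) (by omega)]
    have h1 : 2 * n % 2 = 0 := by omega
    have h2 : 2 * n / 2 = n := by omega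
    rw [h1, h2]; simp

theorem T_odd (n : ℕ) : T (2 * n + 1) = !T n := by
  unfold T
  rw [Nat.digits_def' (by norm_num) (by omega)]
  have h1 : (2 * n + 1) % 2 = 1 := by omega
  have h2 : (2 * n + 1) / 2 = n := by omega
  rw [h1, h2, List.sum_cons]
  rcases Nat.mod_two_eq_zero_or_one (Nat.digits 2 n).sum with h | h
  · have : (1 + (Nat.digits 2 n).sum) % 2 = 1 := by omega
    simp [h, this]
  · have : (1 + (Nat.digits 2 n).sum) % 2 = 0 := by omega
    simp [h, this]

theorem T_add (i : ℕ) : ∀ q r : ℕ, r < 2 ^ i → T (2 ^ i * q + r) = xor (T q) (T r) := by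
  induction i with
  | zero =>
    intro q r hr
    have : r = 0 := by simpa using hr
    subst this
    simp [T_zero]
  | succ i ih =>
    intro q r hr
    have hr2 : r / 2 < 2 ^ i := by rw [pow_succ] at hr; omega
    have hI := ih q (r / 2) hr2
    rcases Nat.mod_two_eq_zero_or_one r with h | h
    · have e1 : 2 ^ (i + 1) * q + r = 2 * (2 ^ i * q + r / 2) := by
        have : r = 2 * (r / 2) := by omega
        conv_lhs => rw [this]
        ring
      have e2 : r = 2 * (r / 2) := by omega
      have e3 : T r = T (r / 2) := by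
        conv_lhs => rw [e2]
        exact T_even _
      rw [e1, T_even, hI, e3]
    · have e1 : 2 ^ (i + 1) * q + r = 2 * (2 ^ i * q + r / 2) + 1 := by
        have : r = 2 * (r / 2) + 1 := by omega
        conv_lhs => rw [this]
        ring
      have e2 : r = 2 * (r / 2) + 1 := by omega
      have e3 : T r = !T (r / 2) := by
        conv_lhs => rw [e2]
        exact T_odd _
      rw [e1, T_odd, hI, e3]
      cases T q <;> cases T (r / 2) <;> rfl

/-- table for arguments below 16 -/
def Tb (i : ℕ) : Bool := Nat.testBit 27030 i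

theorem T_eq_Tb : ∀ i : ℕ, i < 16 → T i = Tb i := by
  have h0 : T 0 = false := T_zero
  have h1 : T 1 = true := by have := T_odd 0; simpa [h0] using this
  have h2 : T 2 = true := by have := T_even 1; simpa [h1] using this
  have h3 : T 3 = false := by have := T_odd 1; simpa [h1] using this
  have h4 : T 4 = true := by have := T_even 2; simpa [h2] using this
  have h5 : T 5 = false := by have := T_odd 2; simpa [h2] using this
  have h6 : T 6 = false := by have := T_even 3; simpa [h3] using this
  have h7 : T 7 = true := by have := T_odd 3; simpa [h3] using this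
  have h8 : T 8 = true := by have := T_even 4; simpa [h4] using this
  have h9 : T 9 = false := by have := T_odd 4; simpa [h4] using this
  have h10 : T 10 = false := by have := T_even 5; simpa [h5] using this
  have h11 : T 11 = true := by have := T_odd 5; simpa [h5] using this
  have h12 : T 12 = false := by have := T_even 6; simpa [h6] using this
  have h13 : T 13 = true := by have := T_odd 6; simpa [h6] using this
  have h14 : T 14 = true := by have := T_even 7; simpa [h7] using this
  have h15 : T 15 = false := by have := T_odd 7; simpa [h7] using this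
  intro i hi
  interval_cases i
  · rw [h0]; decide
  · rw [h1]; decide
  · rw [h2]; decide
  · rw [h3]; decide
  · rw [h4]; decide
  · rw [h5]; decide
  · rw [h6]; decide
  · rw [h7]; decide
  · rw [h8]; decide
  · rw [h9]; decide
  · rw [h10]; decide
  · rw [h11]; decide
  · rw [h12]; decide
  · rw [h13]; decide
  · rw [h14]; decide
  · rw [h15]; decide

/-! ### counting in windows -/

/-- number of `i < W` with `p (x + i)` -/
def cnt (p : ℕ → Bool) (x : ℕ) : ℕ → ℕ
  | 0 => 0
  | W + 1 => cnt p x W + (p (x + W)).toNat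

theorem cnt_add (p : ℕ → Bool) (x a : ℕ) : ∀ b, cnt p x (a + b) = cnt p x a + cnt p (x + a) b := by
  intro b
  induction b with
  | zero => simp [cnt]
  | succ b ih => rw [← Nat.add_assoc, cnt, ih, cnt, Nat.add_assoc x a b, Nat.add_assoc]

theorem cnt_mono (p : ℕ → Bool) (x : ℕ) {a b : ℕ} (h : a ≤ b) : cnt p x a ≤ cnt p x b := by
  obtain ⟨c, rfl⟩ := Nat.exists_eq_add_of_le h
  rw [cnt_add]; omega

theorem cnt_congr (p p' : ℕ → Bool) (x x' : ℕ) : ∀ W, (∀ i < W, p (x + i) = p' (x' + i)) →
    cnt p x W = cnt p' x' W := by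
  intro W
  induction W with
  | zero => intro _; rfl
  | succ W ih =>
    intro h
    rw [cnt, cnt, ih (fun i hi => h i (by omega)), h W (by omega)]

theorem cnt_compl (p : ℕ → Bool) (x W : ℕ) : cnt p x W + cnt (fun y => !p y) x W = W := by
  induction W with
  | zero => rfl
  | succ W ih =>
    rw [cnt, cnt]
    cases p (x + W) <;> simp <;> omega

theorem cnt_eq_card (p : ℕ → Bool) (W : ℕ) :
    cnt p 0 W = ((Finset.range W).filter (fun i => p i = true)).card := by
  induction W with
  | zero => rfl
  | succ W ih =>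
    rw [cnt, Finset.range_add_one, Finset.filter_insert, ih]
    rw [Nat.zero_add]
    cases h : p W
    · simp
    · simp

/-! ### the density lemma -/

/-- disagreement with the shift by `d` -/
def bad (d x : ℕ) : Bool := xor (T x) (T (x + d))

/-- local model of a window -/
def S (r : ℕ) (e : Bool) (i : ℕ) : Bool :=
  if r + i < 16 then Tb (r + i) else xor e (Tb (r + i - 16))

theorem T_window (x i : ℕ) (hi : i < 16) :
    T (x + i) = xor (T (x / 16)) (S (x % 16) (xor (T (x / 16)) (T (x / 16 + 1))) i) := by
  have hx : x = 16 * (x / 16) + x % 16 := by omega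
  have hr : x % 16 < 16 := Nat.mod_lt _ (by norm_num)
  unfold S
  split_ifs with h
  · have : x + i = 2 ^ 4 * (x / 16) + (x % 16 + i) := by norm_num; omega
    rw [this, T_add 4 _ _ (by norm_num; omega), T_eq_Tb (x % 16 + i) (by omega)]
  · have : x + i = 2 ^ 4 * (x / 16 + 1) + (x % 16 + i - 16) := by norm_num; omega
    rw [this, T_add 4 _ _ (by norm_num; omega), T_eq_Tb (x % 16 + i - 16) (by omega)]
    cases T (x / 16) <;> cases T (x / 16 + 1) <;> cases Tb (x % 16 + i - 16) <;> rfl

/-- model count -/
def C (r r' : ℕ) (e e' c : Bool) (W : ℕ) : ℕ :=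
  cnt (fun i => xor c (xor (S r e i) (S r' e' i))) 0 W

/-- the finite check -/
def chk (r r' : ℕ) (e e' c : Bool) : Bool :=
  decide (1 ≤ C r r' e e' c 4) && decide (C r r' e e' c 4 ≤ 3) && decide (2 ≤ C r r' e e' c 8) &&
  decide (3 ≤ C r r' e e' c 12) && decide (4 ≤ C r r' e e' c 14) && decide (5 ≤ C r r' e e' c 16)

theorem chk_all : ∀ r < 16, ∀ r' < 16, (r + r') % 2 = 1 → ∀ e e' c : Bool,
    chk r r' e e' c = true := by
  decide +kernel

theorem cnt_bad_window (d x W : ℕ) (hW : W ≤ 16) :
    cnt (bad d) x W = C (x % 16) ((x + d) % 16)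
      (xor (T (x / 16)) (T (x / 16 + 1))) (xor (T ((x + d) / 16)) (T ((x + d) / 16 + 1)))
      (xor (T (x / 16)) (T ((x + d) / 16))) W := by
  unfold C
  apply cnt_congr
  intro i hi
  have h1 := T_window x i (by omega)
  have h2 := T_window (x + d) i (by omega)
  unfold bad
  have e : x + i + d = x + d + i := by omega
  rw [e, h1, h2, Nat.zero_add]
  generalize S (x % 16) _ i = a
  generalize S ((x + d) % 16) _ i = b
  cases a <;> cases b <;> cases T (x / 16) <;> cases T ((x + d) / 16) <;> rfl

theorem dens (d x : ℕ) (hd : d % 2 = 1) :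
    1 ≤ cnt (bad d) x 4 ∧ cnt (bad d) x 4 ≤ 3 ∧ 2 ≤ cnt (bad d) x 8 ∧
    3 ≤ cnt (bad d) x 12 ∧ 4 ≤ cnt (bad d) x 14 ∧ 5 ≤ cnt (bad d) x 16 := by
  have h := chk_all (x % 16) (Nat.mod_lt _ (by norm_num)) ((x + d) % 16)
    (Nat.mod_lt _ (by norm_num)) (by omega)
    (xor (T (x / 16)) (T (x / 16 + 1))) (xor (T ((x + d) / 16)) (T ((x + d) / 16 + 1)))
    (xor (T (x / 16)) (T ((x + d) / 16)))
  unfold chk at h
  rw [cnt_bad_window d x 4 (by norm_num), cnt_bad_window d x 8 (by norm_num),
    cnt_bad_window d x 12 (by norm_num), cnt_bad_window d x 14 (by norm_num),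
    cnt_bad_window d x 16 (by norm_num)]
  simp only [Bool.and_eq_true, decide_eq_true_eq] at h
  tauto

/-- lower bound for windows shorter than 16 -/
def tab (w : ℕ) : ℕ := if w < 4 then 0 else if w < 8 then 1 else if w < 12 then 2 else
  if w < 14 then 3 else 4

def f (W : ℕ) : ℕ := 5 * (W / 16) + tab (W % 16)

theorem f_lin (W : ℕ) : 5 * W ≤ 16 * f W + 23 := by
  unfold f tab
  split_ifs <;> omega

theorem dens_tab (d x w : ℕ) (hd : d % 2 = 1) (hw : w < 16) : tab w ≤ cnt (bad d) x w := by
  have h := dens d x hd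
  unfold tab
  split_ifs with h1 h2 h3 h4
  · omega
  · exact le_trans h.1 (cnt_mono _ _ (by omega))
  · exact le_trans h.2.2.1 (cnt_mono _ _ (by omega))
  · exact le_trans h.2.2.2.1 (cnt_mono _ _ (by omega))
  · exact le_trans h.2.2.2.2.1 (cnt_mono _ _ (by omega))

theorem dens_blocks (d : ℕ) (hd : d % 2 = 1) : ∀ j x, 5 * j ≤ cnt (bad d) x (16 * j) := by
  intro j
  induction j with
  | zero => intro x; simp
  | succ j ih =>
    intro x
    have e : 16 * (j + 1) = 16 * j + 16 := by ring
    rw [e, cnt_add]
    have := ih x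
    have := (dens d (x + 16 * j) hd).2.2.2.2.2
    omega

theorem dens_f (d x W : ℕ) (hd : d % 2 = 1) : f W ≤ cnt (bad d) x W := by
  have e : W = 16 * (W / 16) + W % 16 := by omega
  have h1 := dens_blocks d hd (W / 16) x
  have h2 := dens_tab d (x + 16 * (W / 16)) (W % 16) hd (Nat.mod_lt _ (by norm_num))
  have h3 : cnt (bad d) x W = cnt (bad d) x (16 * (W / 16)) +
      cnt (bad d) (x + 16 * (W / 16)) (W % 16) := by
    rw [← cnt_add, ← e]
  unfold f
  omega

end R125T
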