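import Pool.Agent.R125.TmA

/-!
Monochromatic progressions in Thue-Morse: counting lemmas for the two ranges.
-/

namespace R125T

/-- if `q` is strictly increasing with good values then the window contains many good elements -/
theorem cnt_good_ge (p : ℕ → Bool) (q : ℕ → ℕ) (hq : ∀ l, q l + 1 ≤ q (l + 1)) :
    ∀ N, (∀ l ≤ N, p (q l) = true) → N + 1 ≤ cnt p (q 0) (q N - q 0 + 1) := by
  have hmono : ∀ N, q 0 ≤ q N := by
    intro N
    induction N with
    | zero => exact le_refl _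
    | succ N ih => have := hq N; omega
  intro N
  induction N with
  | zero =>
    intro h
    have := h 0 (le_refl _)
    simp [cnt, this]
  | succ N ih =>
    intro h
    have h1 := ih (fun l hl => h l (by omega))
    have h2 : q 0 + (q (N + 1) - q 0) = q (N + 1) := by have := hmono (N + 1); omega
    rw [cnt, h2, h (N + 1) (le_refl _)]
    have h3 : cnt p (q 0) (q N - q 0 + 1) ≤ cnt p (q 0) (q (N + 1) - q 0) :=
      cnt_mono _ _ (by have := hq N; have := hmono N; omega)
    simp only [Bool.toNat_true]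
    omega

/-- quotient step -/
theorem div_step (n d D l : ℕ) (hD : 0 < D) (hd : D ≤ d) :
    (n + l * d) / D + 1 ≤ (n + (l + 1) * d) / D := by
  rw [Nat.le_div_iff_mul_le hD]
  have h := Nat.div_mul_le_self (n + l * d) D
  have e : (n + (l + 1) * d) = n + l * d + d := by ring
  rw [e, add_mul]; omega

/-- the good values in the quotient sequence -/
theorem good_quot (j n d L : ℕ) (hL : ∀ l < L, T (n + l * d) = T n) (l : ℕ)
    (hl : l + 2 ^ j < L) : bad d ((n + l * d) / 2 ^ j) = false := by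
  have hD : 0 < 2 ^ j := by positivity
  have h1 := hL l (by omega)
  have h2 := hL (l + 2 ^ j) hl
  have hr : (n + l * d) % 2 ^ j < 2 ^ j := Nat.mod_lt _ hD
  have e1 : n + l * d = 2 ^ j * ((n + l * d) / 2 ^ j) + (n + l * d) % 2 ^ j :=
    (Nat.div_add_mod _ _).symm
  have e2 : n + (l + 2 ^ j) * d = 2 ^ j * ((n + l * d) / 2 ^ j + d) + (n + l * d) % 2 ^ j := by
    have : n + (l + 2 ^ j) * d = (n + l * d) + 2 ^ j * d := by ring
    rw [this]
    conv_lhs => rw [e1]
    ring
  rw [e1, T_add j _ _ hr] at h1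
  rw [e2, T_add j _ _ hr] at h2
  unfold bad
  rw [← h2] at h1
  revert h1
  cases T ((n + l * d) / 2 ^ j) <;> cases T ((n + l * d) / 2 ^ j + d) <;>
    cases T ((n + l * d) % 2 ^ j) <;> simp

theorem rangeA (j m n L : ℕ) (hm : m % 2 = 1) (hj : 1 ≤ j)
    (hL : ∀ l < L, T (n + l * (2 ^ j + m)) = T n) (hL2 : 2 ^ j + m + 5 ≤ L) :
    ∃ w, 2 ^ j * w ≤ (m + 4) * (2 ^ j + m) + (2 ^ j - 1) ∧ f (w + 1) + (m + 5) ≤ w + 1 := by
  have hD : 0 < 2 ^ j := by positivity
  have hdodd : (2 ^ j + m) % 2 = 1 := by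
    have : 2 ^ j % 2 = 0 := by
      obtain ⟨i, rfl⟩ := Nat.exists_eq_add_of_le hj
      rw [pow_add]; simp
    omega
  set q : ℕ → ℕ := fun l => (n + l * (2 ^ j + m)) / 2 ^ j with hq
  have hstep : ∀ l, q l + 1 ≤ q (l + 1) := fun l => div_step n (2 ^ j + m) (2 ^ j) l hD (by omega)
  have hgood : ∀ l ≤ m + 4, (fun y => !bad (2 ^ j + m) y) (q l) = true := by
    intro l hl
    have := good_quot j n (2 ^ j + m) L hL l (by omega)
    simp only [hq, this]; rfl
  have h1 := cnt_good_ge (fun y => !bad (2 ^ j + m) y) q hstep (m + 4) hgood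
  have h2 := cnt_compl (bad (2 ^ j + m)) (q 0) (q (m + 4) - q 0 + 1)
  have h3 := dens_f (2 ^ j + m) (q 0) (q (m + 4) - q 0 + 1) hdodd
  refine ⟨q (m + 4) - q 0, ?_, by omega⟩
  have h4 : 2 ^ j * q (m + 4) ≤ n + (m + 4) * (2 ^ j + m) := Nat.mul_div_le _ _
  have h5 : n ≤ 2 ^ j * q 0 + (2 ^ j - 1) := by
    have e1 : n = 2 ^ j * (n / 2 ^ j) + n % 2 ^ j := (Nat.div_add_mod _ _).symm
    have hr : n % 2 ^ j < 2 ^ j := Nat.mod_lt _ hD
    have e0 : q 0 = n / 2 ^ j := by simp [hq]
    rw [e0]; omega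
  rw [Nat.mul_sub]
  omega

/-- number of wraps -/
theorem wraps (n u D : ℕ) (hD : 0 < D) (hu : u ≤ D) (N : ℕ) :
    ((Finset.Icc 1 N).filter (fun i => (n + i * u) % D < u)).card = (n + N * u) / D - n / D := by
  have key : ∀ N, ((Finset.Icc 1 N).filter (fun i => (n + i * u) % D < u)).card + n / D =
      (n + N * u) / D := by
    intro N
    induction N with
    | zero => simp
    | succ N ih =>
      have e : Finset.Icc 1 (N + 1) = insert (N + 1) (Finset.Icc 1 N) := by
        ext x; simp only [Finset.mem_Icc, Finset.mem_insert]; omega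
      rw [e, Finset.filter_insert]
      have e2 : n + (N + 1) * u = n + N * u + u := by ring
      set y := n + N * u with hy
      have e3 : y = D * (y / D) + y % D := (Nat.div_add_mod _ _).symm
      have hr : y % D < D := Nat.mod_lt _ hD
      rw [e2]
      by_cases hc : y % D + u < D
      · -- no wrap
        have e4 : y + u = D * (y / D) + (y % D + u) := by omega
        have e5 : (y + u) / D = y / D := by
          rw [e4, Nat.mul_add_div hD, Nat.div_eq_of_lt hc, Nat.add_zero]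
        have e6 : (y + u) % D = y % D + u := by
          rw [e4, Nat.mul_add_mod, Nat.mod_eq_of_lt hc]
        rw [if_neg (by rw [e6]; omega), e5, ih]
      · have hc2 : y % D + u - D < D := by omega
        have e4 : y + u = D * (y / D + 1) + (y % D + u - D) := by
          rw [Nat.mul_add]; omega
        have e5 : (y + u) / D = y / D + 1 := by
          rw [e4, Nat.mul_add_div hD, Nat.div_eq_of_lt hc2, Nat.add_zero]
        have e6 : (y + u) % D = y % D + u - D := by
          rw [e4, Nat.mul_add_mod, Nat.mod_eq_of_lt hc2]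
        rw [if_pos (by rw [e6]; omega), e5, Finset.card_insert_of_notMem (by simp)]
        omega
  have := key N
  omega

/-- every residue occurs -/
theorem residue (k n d r : ℕ) (hd : d % 2 = 1) (hr : r < 2 ^ k) :
    ∃ l < 2 ^ k, (n + l * d) % 2 ^ k = r := by
  have hD : 0 < 2 ^ k := by positivity
  have : NeZero (2 ^ k) := ⟨hD.ne'⟩
  have hcop : Nat.Coprime d (2 ^ k) := by
    apply Nat.Coprime.pow_right
    exact (Nat.coprime_two_right).mpr (Nat.odd_iff.mpr hd)
  set U := ZMod.unitOfCoprime d hcop with hU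
  set x : ZMod (2 ^ k) := ((r : ZMod (2 ^ k)) - (n : ZMod (2 ^ k))) * ((U⁻¹ : (ZMod (2 ^ k))ˣ) : ZMod (2 ^ k)) with hx
  refine ⟨x.val, ZMod.val_lt x, ?_⟩
  have h1 : ((n + x.val * d : ℕ) : ZMod (2 ^ k)) = (r : ZMod (2 ^ k)) := by
    push_cast
    rw [ZMod.natCast_zmod_val, hx]
    have : ((U⁻¹ : (ZMod (2 ^ k))ˣ) : ZMod (2 ^ k)) * (d : ZMod (2 ^ k)) = 1 := by
      have h : ((U : (ZMod (2 ^ k))ˣ) : ZMod (2 ^ k)) = (d : ZMod (2 ^ k)) := ZMod.coe_unitOfCoprime d hcop
      rw [← h]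
      exact Units.inv_mul U
    rw [mul_assoc, this, mul_one]
    ring
  have h2 := (ZMod.natCast_eq_natCast_iff' _ _ _).mp h1
  rw [h2, Nat.mod_eq_of_lt hr]

theorem good_res (k n d L : ℕ) (hL : ∀ l < L, T (n + l * d) = T n) (l : ℕ)
    (hl : l + 1 < L) (hr : (n + l * d) % 2 ^ k + d < 2 ^ k) :
    bad d ((n + l * d) % 2 ^ k) = false := by
  have h1 := hL l (by omega)
  have h2 := hL (l + 1) hl
  have e1 : n + l * d = 2 ^ k * ((n + l * d) / 2 ^ k) + (n + l * d) % 2 ^ k :=
    (Nat.div_add_mod _ _).symm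
  have e2 : n + (l + 1) * d = 2 ^ k * ((n + l * d) / 2 ^ k) + ((n + l * d) % 2 ^ k + d) := by
    have : n + (l + 1) * d = (n + l * d) + d := by ring
    rw [this]
    conv_lhs => rw [e1]
    ring
  rw [e1, T_add k _ _ (by omega)] at h1
  rw [e2, T_add k _ _ hr] at h2
  unfold bad
  rw [← h2] at h1
  revert h1
  cases T ((n + l * d) / 2 ^ k) <;> cases T ((n + l * d) % 2 ^ k) <;>
    cases T ((n + l * d) % 2 ^ k + d) <;> simp

theorem bad_res (k n d u L : ℕ) (hd : d % 2 = 1) (hdu : d + u = 2 ^ k) (hL : ∀ l < L, T (n + l * d) = T n)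
    (hL2 : d + 5 ≤ L) (r : ℕ) (hr : r < u) (hb : bad d r = true) :
    ∃ i, 1 ≤ i ∧ i ≤ u - 4 ∧ (n + i * u) % 2 ^ k = r := by
  obtain ⟨l, hl, hlr⟩ := residue k n d r hd (by omega)
  by_cases h : l + 1 < L
  · exfalso
    have := good_res k n d L hL l h (by rw [hlr]; omega)
    rw [hlr, hb] at this
    exact absurd this (by simp)
  · have ha1 : 1 ≤ 2 ^ k - l := by omega
    have ha2 : 2 ^ k - l ≤ u - 4 := by omega
    refine ⟨2 ^ k - l, ha1, ha2, ?_⟩
    rw [← hlr]
    have e : n + (2 ^ k - l) * u + 2 ^ k * l = n + l * d + 2 ^ k * u := by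
      obtain ⟨c, hc⟩ := Nat.exists_eq_add_of_lt hl
      have h2 : 2 ^ k - l = c + 1 := by omega
      have h3 : d + u = l + c + 1 := by omega
      rw [h2, ← hdu]
      have h4 : (d + u) * u = (l + c + 1) * u := by rw [h3]
      have h5 : (d + u) * l = (l + c + 1) * l := by rw [h3]
      nlinarith
    have h1 := congrArg (fun t => t % 2 ^ k) e
    simp only [Nat.add_mul_mod_self_left] at h1
    exact h1

theorem rangeB (k n d u L : ℕ) (hd : d % 2 = 1) (hdu : d + u = 2 ^ k)
    (hL : ∀ l < L, T (n + l * d) = T n) (hL2 : d + 5 ≤ L) :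
    ∃ H, 2 ^ k * H ≤ (u - 4) * u + (2 ^ k - 1) ∧ cnt (bad d) 0 u ≤ H := by
  have hD : 0 < 2 ^ k := by positivity
  refine ⟨(n + (u - 4) * u) / 2 ^ k - n / 2 ^ k, ?_, ?_⟩
  · have h4 : 2 ^ k * ((n + (u - 4) * u) / 2 ^ k) ≤ n + (u - 4) * u := Nat.mul_div_le _ _
    have h5 : n ≤ 2 ^ k * (n / 2 ^ k) + (2 ^ k - 1) := by
      have e1 : n = 2 ^ k * (n / 2 ^ k) + n % 2 ^ k := (Nat.div_add_mod _ _).symm
      have hr : n % 2 ^ k < 2 ^ k := Nat.mod_lt _ hD
      omega
    rw [Nat.mul_sub]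
    omega
  · rw [← wraps n u (2 ^ k) hD (by omega) (u - 4), cnt_eq_card]
    calc ((Finset.range u).filter (fun i => bad d i = true)).card
        ≤ (((Finset.Icc 1 (u - 4)).filter (fun i => (n + i * u) % 2 ^ k < u)).image
            (fun i => (n + i * u) % 2 ^ k)).card := by
          apply Finset.card_le_card
          intro r hr
          rw [Finset.mem_filter, Finset.mem_range] at hr
          obtain ⟨i, h1, h2, h3⟩ := bad_res k n d u L hd hdu hL hL2 r hr.1 hr.2
          rw [Finset.mem_image]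
          exact ⟨i, by rw [Finset.mem_filter, Finset.mem_Icc, h3]; exact ⟨⟨h1, h2⟩, hr.1⟩, h3⟩
      _ ≤ _ := Finset.card_image_le

end R125T
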