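import Pool.Agent.R125.TmB

/-!
Special differences: `2^k - 1`, `2^j + 1`, `2^k - 3`, `2^k - 5`, `2^k - 7`, and a finite list.
-/

namespace R125T

theorem T_ones (k : ℕ) : T (2 ^ k - 1) = decide (k % 2 = 1) := by
  induction k with
  | zero => simp [T_zero]
  | succ k ih =>
    have h : 2 ^ (k + 1) - 1 = 2 * (2 ^ k - 1) + 1 := by
      have : 0 < 2 ^ k := by positivity
      rw [pow_succ]; omega
    rw [h, T_odd, ih]
    rcases Nat.mod_two_eq_zero_or_one k with h | h
    · have : (k + 1) % 2 = 1 := by omega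
      simp [h, this]
    · have : (k + 1) % 2 = 0 := by omega
      simp [h, this]

theorem T_compl (k : ℕ) : ∀ i < 2 ^ k, T (2 ^ k - 1 - i) = xor (T (2 ^ k - 1)) (T i) := by
  induction k with
  | zero =>
    intro i hi
    have : i = 0 := by simpa using hi
    subst this
    simp [T_zero]
  | succ k ih =>
    intro i hi
    have hp : 0 < 2 ^ k := by positivity
    have hi2 : i / 2 < 2 ^ k := by rw [pow_succ] at hi; omega
    have h1 := ih (i / 2) hi2
    have h : 2 ^ (k + 1) - 1 = 2 * (2 ^ k - 1) + 1 := by rw [pow_succ]; omega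
    have h2 : T (2 ^ (k + 1) - 1) = !T (2 ^ k - 1) := by rw [h, T_odd]
    rw [h2]
    rcases Nat.mod_two_eq_zero_or_one i with hm | hm
    · have e1 : 2 ^ (k + 1) - 1 - i = 2 * (2 ^ k - 1 - i / 2) + 1 := by
        rw [pow_succ] at *; omega
      have e2 : T i = T (i / 2) := by
        conv_lhs => rw [show i = 2 * (i / 2) by omega]
        exact T_even _
      rw [e1, T_odd, h1, e2]
      cases T (2 ^ k - 1) <;> cases T (i / 2) <;> rfl
    · have e1 : 2 ^ (k + 1) - 1 - i = 2 * (2 ^ k - 1 - i / 2) := by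
        rw [pow_succ] at *; omega
      have e2 : T i = !T (i / 2) := by
        conv_lhs => rw [show i = 2 * (i / 2) + 1 by omega]
        exact T_odd _
      rw [e1, T_even, h1, e2]
      cases T (2 ^ k - 1) <;> cases T (i / 2) <;> rfl

/-- no four consecutive good values, no four consecutive bad values -/
theorem four_good (d x : ℕ) (hd : d % 2 = 1) : ¬ (bad d x = false ∧ bad d (x + 1) = false ∧
    bad d (x + 2) = false ∧ bad d (x + 3) = false) := by
  rintro ⟨h0, h1, h2, h3⟩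
  have h := (dens d x hd).1
  simp [cnt, h0, h1, h2, h3] at h

theorem four_bad (d x : ℕ) (hd : d % 2 = 1) : ¬ (bad d x = true ∧ bad d (x + 1) = true ∧
    bad d (x + 2) = true ∧ bad d (x + 3) = true) := by
  rintro ⟨h0, h1, h2, h3⟩
  have h := (dens d x hd).2.1
  simp [cnt, h0, h1, h2, h3] at h

theorem pow_odd_pred (k : ℕ) (hk : 1 ≤ k) : (2 ^ k - 1) % 2 = 1 := by
  obtain ⟨i, rfl⟩ := Nat.exists_eq_add_of_le hk
  have : 0 < 2 ^ i := by positivity
  rw [pow_add, pow_one]; omega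

theorem div_eq_of (D q r x : ℕ) (hr : r < D) (h : x = D * q + r) : x / D = q := by
  rw [h, Nat.mul_add_div (by omega), Nat.div_eq_of_lt hr, Nat.add_zero]

/-- quotients for `d = D - 1` -/
theorem quot_ones (D n l : ℕ) (hD : 1 ≤ D) (hl : l ≤ n % D) :
    (n + l * (D - 1)) / D = n / D + l := by
  have hr : n % D < D := Nat.mod_lt _ hD
  apply div_eq_of D _ (n % D - l) _ (by omega)
  have e1 : n = D * (n / D) + n % D := (Nat.div_add_mod _ _).symm
  obtain ⟨c, hc⟩ := Nat.exists_eq_add_of_le hD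
  obtain ⟨b, hb⟩ := Nat.exists_eq_add_of_le hl
  conv_lhs => rw [e1]
  rw [hb]
  generalize n / D = q
  subst hc
  have : 1 + c - 1 = c := by omega
  rw [this]
  have : l + b - l = b := by omega
  rw [this]
  ring

theorem quot_ones' (D n l : ℕ) (hD : 1 ≤ D) (hl : n % D < l) (hl2 : l ≤ n % D + D) :
    (n + l * (D - 1)) / D = n / D + l - 1 := by
  have hr : n % D < D := Nat.mod_lt _ hD
  apply div_eq_of D _ (n % D + D - l) _ (by omega)
  have e1 : n = D * (n / D) + n % D := (Nat.div_add_mod _ _).symm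
  obtain ⟨c, hc⟩ := Nat.exists_eq_add_of_le hD
  obtain ⟨b, hb⟩ := Nat.exists_eq_add_of_le hl2
  conv_lhs => rw [e1]
  have h3 : n % D + D - l = b := by omega
  have h4 : D - 1 = c := by omega
  rw [h3, h4]
  obtain ⟨l', rfl⟩ : ∃ l', l = l' + 1 := ⟨l - 1, by omega⟩
  have h5 : ∀ q : ℕ, q + (l' + 1) - 1 = q + l' := fun q => by omega
  rw [h5]
  have h6 : n % D = l' + 1 + b - D := by omega
  have h7 : n % D + D = l' + 1 + b := by omega
  generalize n / D = q at *
  generalize n % D = r at *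
  subst hc
  nlinarith

theorem ones_upper (k n L : ℕ) (hk : 2 ≤ k) (hL : ∀ l < L, T (n + l * (2 ^ k - 1)) = T n) :
    L ≤ 2 ^ k + 4 := by
  by_contra hc
  push Not at hc
  have hD : 4 ≤ 2 ^ k := by
    calc 4 = 2 ^ 2 := by norm_num
      _ ≤ 2 ^ k := Nat.pow_le_pow_right (by norm_num) hk
  have hodd := pow_odd_pred k (by omega)
  have key : ∀ i < 4, bad (2 ^ k - 1) (n / 2 ^ k + i) = false := by
    intro i hi
    by_cases h : i ≤ n % 2 ^ k
    · have := good_quot k n (2 ^ k - 1) L hL i (by omega)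
      rw [quot_ones (2 ^ k) n i (by omega) h] at this
      exact this
    · have := good_quot k n (2 ^ k - 1) L hL (i + 1) (by omega)
      rw [quot_ones' (2 ^ k) n (i + 1) (by omega) (by omega) (by omega)] at this
      exact this
  exact four_good (2 ^ k - 1) (n / 2 ^ k) hodd
    ⟨key 0 (by norm_num), key 1 (by norm_num), key 2 (by norm_num), key 3 (by norm_num)⟩

theorem ones_odd (k n L : ℕ) (hk : 2 ≤ k) (hk2 : k % 2 = 1)
    (hL : ∀ l < L, T (n + l * (2 ^ k - 1)) = T n) : L ≤ 2 ^ k + 3 := by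
  by_contra hc
  push Not at hc
  have hD : 4 ≤ 2 ^ k := by
    calc 4 = 2 ^ 2 := by norm_num
      _ ≤ 2 ^ k := Nat.pow_le_pow_right (by norm_num) hk
  have hodd := pow_odd_pred k (by omega)
  by_cases h3 : 3 ≤ n % 2 ^ k
  · have key : ∀ i < 4, bad (2 ^ k - 1) (n / 2 ^ k + i) = false := by
      intro i hi
      have := good_quot k n (2 ^ k - 1) L hL i (by omega)
      rw [quot_ones (2 ^ k) n i (by omega) (by omega)] at this
      exact this
    exact four_good (2 ^ k - 1) (n / 2 ^ k) hodd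
      ⟨key 0 (by norm_num), key 1 (by norm_num), key 2 (by norm_num), key 3 (by norm_num)⟩
  · set r := n % 2 ^ k with hr
    set q := n / 2 ^ k with hq
    have e1 : n = 2 ^ k * q + r := (Nat.div_add_mod _ _).symm
    obtain ⟨c, hc1⟩ := Nat.exists_eq_add_of_le (show 1 ≤ 2 ^ k by omega)
    have hc2 : 2 ^ k - 1 = c := by omega
    have ha : n + r * (2 ^ k - 1) = 2 ^ k * (q + r) + 0 := by
      conv_lhs => rw [e1]
      rw [hc2, hc1]; ring
    have hb : n + (r + 1) * (2 ^ k - 1) = 2 ^ k * (q + r) + (2 ^ k - 1) := by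
      conv_lhs => rw [e1]
      rw [hc2, hc1]; ring
    have h1 := hL r (by omega)
    have h2 := hL (r + 1) (by omega)
    rw [ha, T_add k _ _ (by omega), T_zero] at h1
    rw [hb, T_add k _ _ (by omega), T_ones] at h2
    rw [← h2] at h1
    revert h1
    simp only [hk2]
    cases T (q + r) <;> simp

theorem ones_exists (k : ℕ) (hk : 2 ≤ k) (hk2 : k % 2 = 0) :
    ∃ n, ∀ l < 2 ^ k + 4, T (n + l * (2 ^ k - 1)) = T n := by
  have hD : 4 ≤ 2 ^ k := by
    calc 4 = 2 ^ 2 := by norm_num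
      _ ≤ 2 ^ k := Nat.pow_le_pow_right (by norm_num) hk
  obtain ⟨c, hc⟩ := Nat.exists_eq_add_of_le hD
  have hones : T (2 ^ k - 1) = false := by rw [T_ones]; simp [hk2]
  have h1 : T 1 = true := by rw [T_eq_Tb 1 (by norm_num)]; decide
  have h2 : T 2 = true := by rw [T_eq_Tb 2 (by norm_num)]; decide
  have h3 : T 3 = false := by rw [T_eq_Tb 3 (by norm_num)]; decide
  have h4 : T 4 = true := by rw [T_eq_Tb 4 (by norm_num)]; decide
  -- base point
  have key : ∀ l < 2 ^ k + 4, T (2 ^ k * (2 ^ k * 2 + (2 ^ k - 1)) + 1 + l * (2 ^ k - 1)) = false := by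
    intro l hl
    have hcases : l = 0 ∨ l = 1 ∨ (2 ≤ l ∧ l < 2 ^ k + 2) ∨ l = 2 ^ k + 2 ∨ l = 2 ^ k + 3 := by omega
    rcases hcases with rfl | rfl | ⟨hl1, hl2⟩ | rfl | rfl
    · rw [Nat.zero_mul, Nat.add_zero, T_add k _ _ (by omega), T_add k _ _ (by omega), hones, h1, h2]
      rfl
    · have e : 2 ^ k * (2 ^ k * 2 + (2 ^ k - 1)) + 1 + 1 * (2 ^ k - 1) =
          2 ^ k * (2 ^ k * 3 + 0) + 0 := by
        have : 2 ^ k - 1 = c + 3 := by omega
        rw [this, hc]; ring
      rw [e, T_add k _ _ (by omega), T_add k _ _ (by omega), T_zero, h3]; rfl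
    · obtain ⟨i, rfl⟩ : ∃ i, l = i + 2 := ⟨l - 2, by omega⟩
      have hi : i < 2 ^ k := by omega
      obtain ⟨b, hb⟩ := Nat.exists_eq_add_of_lt hi
      have e : 2 ^ k * (2 ^ k * 2 + (2 ^ k - 1)) + 1 + (i + 2) * (2 ^ k - 1) =
          2 ^ k * (2 ^ k * 3 + i) + (2 ^ k - 1 - i) := by
        have h5 : 2 ^ k - 1 - i = b := by omega
        have h6 : 2 ^ k - 1 = i + b := by omega
        rw [h5, h6, hb]; ring
      rw [e, T_add k _ _ (by omega), T_add k _ _ (by omega), T_compl k i hi, hones, h3]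
      cases T i <;> rfl
    · have e : 2 ^ k * (2 ^ k * 2 + (2 ^ k - 1)) + 1 + (2 ^ k + 2) * (2 ^ k - 1) =
          2 ^ k * (2 ^ k * 3 + (2 ^ k - 1)) + (2 ^ k - 1) := by
        have : 2 ^ k - 1 = c + 3 := by omega
        rw [this, hc]; ring
      rw [e, T_add k _ _ (by omega), T_add k _ _ (by omega), hones, h3]; rfl
    · have e : 2 ^ k * (2 ^ k * 2 + (2 ^ k - 1)) + 1 + (2 ^ k + 3) * (2 ^ k - 1) =
          2 ^ k * (2 ^ k * 4 + 0) + (2 ^ k - 1 - 1) := by
        have h5 : 2 ^ k - 1 - 1 = c + 2 := by omega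
        have h6 : 2 ^ k - 1 = c + 3 := by omega
        rw [h5, h6, hc]; ring
      rw [e, T_add k _ _ (by omega), T_add k _ _ (by omega), T_zero, h4, T_compl k 1 (by omega),
        hones, h1]
      rfl
  refine ⟨2 ^ k * (2 ^ k * 2 + (2 ^ k - 1)) + 1, fun l hl => ?_⟩
  rw [key l hl]
  have := key 0 (by omega)
  rw [Nat.zero_mul, Nat.add_zero] at this
  exact this.symm

end R125T
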