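import Pool.Agent.R125.TmC

/-!
Remaining differences: `2^j + 1`, `2^k - 3`, `2^k - 5`, `2^k - 7`, and a finite list.
-/

namespace R125T

theorem T_mod2 (x : ℕ) : T x = xor (T (x / 2)) (decide (x % 2 = 1)) := by
  rcases Nat.mod_two_eq_zero_or_one x with h | h
  · conv_lhs => rw [show x = 2 * (x / 2) by omega]
    rw [T_even, h]; simp
  · conv_lhs => rw [show x = 2 * (x / 2) + 1 by omega]
    rw [T_odd, h]; simp

/-- the pair lemma -/
theorem pair1 (d x : ℕ) (hd : d % 2 = 1) (hx : x % 4 = 1) : bad d (x + 1) = !bad d x := by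
  unfold bad
  have h1 : T (x + 1) = T x := by
    rw [T_mod2 x, T_mod2 (x + 1), T_mod2 (x / 2), T_mod2 ((x + 1) / 2)]
    have e1 : x / 2 / 2 = (x + 1) / 2 / 2 := by omega
    have e2 : x / 2 % 2 = 0 := by omega
    have e3 : (x + 1) / 2 % 2 = 1 := by omega
    have e4 : x % 2 = 1 := by omega
    have e5 : (x + 1) % 2 = 0 := by omega
    rw [e1, e2, e3, e4, e5]; simp
  have h2 : T (x + 1 + d) = !T (x + d) := by
    rw [T_mod2 (x + d), T_mod2 (x + 1 + d)]
    have e1 : (x + 1 + d) / 2 = (x + d) / 2 := by omega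
    have e2 : (x + d) % 2 = 0 := by omega
    have e3 : (x + 1 + d) % 2 = 1 := by omega
    rw [e1, e2, e3]; cases T ((x + d) / 2) <;> simp
  rw [h1, h2]; cases T x <;> cases T (x + d) <;> rfl

theorem pair2 (d x : ℕ) (hd : d % 2 = 1) (hx : (x + d) % 4 = 1) : bad d (x + 1) = !bad d x := by
  unfold bad
  have h1 : T (x + 1) = !T x := by
    rw [T_mod2 x, T_mod2 (x + 1)]
    have e1 : (x + 1) / 2 = x / 2 := by omega
    have e2 : x % 2 = 0 := by omega
    have e3 : (x + 1) % 2 = 1 := by omega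
    rw [e1, e2, e3]; cases T (x / 2) <;> simp
  have h2 : T (x + 1 + d) = T (x + d) := by
    rw [T_mod2 (x + d), T_mod2 (x + 1 + d), T_mod2 ((x + d) / 2), T_mod2 ((x + 1 + d) / 2)]
    have e1 : (x + d) / 2 / 2 = (x + 1 + d) / 2 / 2 := by omega
    have e2 : (x + d) / 2 % 2 = 0 := by omega
    have e3 : (x + 1 + d) / 2 % 2 = 1 := by omega
    have e4 : (x + d) % 2 = 1 := by omega
    have e5 : (x + 1 + d) % 2 = 0 := by omega
    rw [e1, e2, e3, e4, e5]; simp
  rw [h1, h2]; cases T x <;> cases T (x + d) <;> rfl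

/-- difference `2^k - 3` -/
theorem case_u3 (k n d L : ℕ) (hd : d % 2 = 1) (hdu : d + 3 = 2 ^ k)
    (hL : ∀ l < L, T (n + l * d) = T n) : L ≤ d + 4 := by
  by_contra hc
  push Not at hc
  have h1 : bad d 1 = false := by
    by_contra h
    obtain ⟨i, h1, h2, _⟩ := bad_res k n d 3 L hd hdu hL (by omega) 1 (by norm_num) (by simpa using h)
    omega
  have h2 : bad d 2 = false := by
    by_contra h
    obtain ⟨i, h1, h2, _⟩ := bad_res k n d 3 L hd hdu hL (by omega) 2 (by norm_num) (by simpa using h)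
    omega
  have := pair1 d 1 hd (by norm_num)
  rw [h1] at this
  simp [h2] at this

/-- difference `2^k - 7` -/
theorem case_u7 (k n d L : ℕ) (hd : d % 2 = 1) (hdu : d + 7 = 2 ^ k) (hk : 5 ≤ k)
    (hL : ∀ l < L, T (n + l * d) = T n) : L ≤ d + 4 := by
  by_contra hc
  push Not at hc
  obtain ⟨H, hH1, hH2⟩ := rangeB k n d 7 L hd hdu hL (by omega)
  have hD : 32 ≤ 2 ^ k := by
    calc 32 = 2 ^ 5 := by norm_num
      _ ≤ 2 ^ k := Nat.pow_le_pow_right (by norm_num) hk
  have hH : H ≤ 1 := by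
    by_contra h
    push Not at h
    have : 2 ^ k * 2 ≤ 2 ^ k * H := Nat.mul_le_mul_left _ h
    omega
  have p1 := pair1 d 1 hd (by norm_num)
  have p2 := pair1 d 5 hd (by norm_num)
  have : 2 ≤ cnt (bad d) 0 7 := by
    simp only [cnt, Nat.zero_add]
    rw [show (1 : ℕ) + 1 = 2 by norm_num] at p1
    rw [show (5 : ℕ) + 1 = 6 by norm_num] at p2
    rw [p1, p2]
    cases bad d 0 <;> cases bad d 1 <;> cases bad d 3 <;> cases bad d 4 <;> cases bad d 5 <;> decide
  omega

/-- difference `2^k - 5` -/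
theorem case_u5 (k n d L : ℕ) (hdu : d + 5 = 2 ^ k) (hk : 7 ≤ k)
    (hL : ∀ l < L, T (n + l * d) = T n) : L ≤ d + 4 := by
  by_contra hc
  push Not at hc
  obtain ⟨j, rfl⟩ : ∃ j, k = j + 3 := ⟨k - 3, by omega⟩
  have hj : 16 ≤ 2 ^ j := by
    calc 16 = 2 ^ 4 := by norm_num
      _ ≤ 2 ^ j := Nat.pow_le_pow_right (by norm_num) (by omega)
  have e8 : 2 ^ (j + 3) = 8 * 2 ^ j := by rw [pow_add]; ring
  have e4 : 2 ^ (j + 2) = 4 * 2 ^ j := by rw [pow_add]; ring
  rw [e8] at hdu
  -- a good starting point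
  have hstart : ∃ l0 q r, l0 ≤ 7 ∧ 35 ≤ r ∧ r < 4 * 2 ^ j ∧ n + l0 * d = (4 * 2 ^ j) * q + r := by
    have hr : n % (4 * 2 ^ j) < 4 * 2 ^ j := Nat.mod_lt _ (by omega)
    have e1 : n = (4 * 2 ^ j) * (n / (4 * 2 ^ j)) + n % (4 * 2 ^ j) := (Nat.div_add_mod _ _).symm
    by_cases h : 35 ≤ n % (4 * 2 ^ j)
    · exact ⟨0, n / (4 * 2 ^ j), n % (4 * 2 ^ j), by omega, h, hr, by omega⟩
    · push Not at h
      set r := n % (4 * 2 ^ j) with hrr
      set q := n / (4 * 2 ^ j) with hqq
      refine ⟨r / 5 + 1, q + 2 * (r / 5) + 1, r + 4 * 2 ^ j - 5 * (r / 5 + 1), by omega, by omega,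
        by omega, ?_⟩
      have hd2 : d = 8 * 2 ^ j - 5 := by omega
      obtain ⟨b, hb⟩ := Nat.exists_eq_add_of_le hj
      have h5 : d = 8 * b + 123 := by omega
      have h6 : r + 4 * 2 ^ j - 5 * (r / 5 + 1) = r % 5 + 4 * 2 ^ j - 5 := by omega
      have h7 : r % 5 + 4 * 2 ^ j - 5 = r % 5 + 4 * b + 59 := by omega
      have h8 : r = 5 * (r / 5) + r % 5 := by omega
      rw [h6, h7, h5]
      conv_lhs => rw [e1, hb, h8]
      have h9 : (5 * (r / 5) + r % 5) / 5 = r / 5 := by omega
      rw [h9, hb]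
      ring
  obtain ⟨l0, q, r, hl0, hr1, hr2, hn⟩ := hstart
  have hgood : ∀ i ≤ 7, bad d (q + 2 * i) = false := by
    intro i hi
    have h := good_quot (j + 2) n d L hL (l0 + i) (by rw [e4]; omega)
    rw [e4] at h
    have : (n + (l0 + i) * d) / (4 * 2 ^ j) = q + 2 * i := by
      apply div_eq_of _ _ (r - 5 * i) _ (by omega)
      have e : n + (l0 + i) * d = (n + l0 * d) + i * d := by ring
      rw [e, hn]
      obtain ⟨b, hb⟩ := Nat.exists_eq_add_of_le hj
      have h5 : d = 8 * b + 123 := by omega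
      obtain ⟨a, ha⟩ := Nat.exists_eq_add_of_le (show 5 * i ≤ r by omega)
      have h6 : r - 5 * i = a := by omega
      rw [h6, ha, h5, hb]
      ring
    rw [this] at h
    exact h
  rcases Nat.mod_two_eq_zero_or_one q with hq | hq
  · -- even
    obtain ⟨q', rfl⟩ : ∃ q', q = 2 * q' := ⟨q / 2, by omega⟩
    have hb : ∀ i ≤ 7, bad ((d - 1) / 2) (q' + i) = true := by
      intro i hi
      have h := hgood i hi
      unfold bad at h ⊢
      have e1 : 2 * q' + 2 * i = 2 * (q' + i) := by ring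
      have e2 : 2 * q' + 2 * i + d = 2 * (q' + i + (d - 1) / 2) + 1 := by omega
      rw [e2, T_odd, e1, T_even] at h
      revert h
      cases T (q' + i) <;> cases T (q' + i + (d - 1) / 2) <;> simp
    exact four_bad ((d - 1) / 2) q' (by omega)
      ⟨hb 0 (by norm_num), hb 1 (by norm_num), hb 2 (by norm_num), hb 3 (by norm_num)⟩
  · obtain ⟨q', rfl⟩ : ∃ q', q = 2 * q' + 1 := ⟨q / 2, by omega⟩
    -- (d+1)/2 = 2 * e with e odd
    obtain ⟨e, he⟩ : ∃ e, d + 1 = 4 * e := ⟨(d + 1) / 4, by omega⟩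
    have heo : e % 2 = 1 := by omega
    have hb : ∀ i ≤ 7, xor (T (q' + i)) (T (q' + i + 2 * e)) = true := by
      intro i hi
      have h := hgood i hi
      unfold bad at h
      have e1 : 2 * q' + 1 + 2 * i = 2 * (q' + i) + 1 := by ring
      have e2 : 2 * q' + 1 + 2 * i + d = 2 * (q' + i + 2 * e) := by omega
      rw [e2, T_even, e1, T_odd] at h
      revert h
      cases T (q' + i) <;> cases T (q' + i + 2 * e) <;> simp
    have hc : ∀ i ≤ 3, bad e ((q' + 1) / 2 + i) = true := by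
      intro i hi
      have hpar := Nat.mod_two_eq_zero_or_one q'
      have h := hb (2 * i + q' % 2) (by omega)
      have e1 : q' + (2 * i + q' % 2) = 2 * ((q' + 1) / 2 + i) := by omega
      have e2 : q' + (2 * i + q' % 2) + 2 * e = 2 * ((q' + 1) / 2 + i + e) := by omega
      rw [e2, T_even, e1, T_even] at h
      exact h
    exact four_bad e ((q' + 1) / 2) heo
      ⟨hc 0 (by norm_num), hc 1 (by norm_num), hc 2 (by norm_num), hc 3 (by norm_num)⟩

/-- difference `2^j + 1` -/
theorem case_m1 (j n L : ℕ) (hj : 3 ≤ j) (hL : ∀ l < L, T (n + l * (2 ^ j + 1)) = T n) :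
    L ≤ 2 ^ j + 5 := by
  by_contra hc
  push Not at hc
  obtain ⟨i, rfl⟩ : ∃ i, j = i + 2 := ⟨j - 2, by omega⟩
  have e4 : 2 ^ (i + 2) = 4 * 2 ^ i := by rw [pow_add]; ring
  have hi : 2 ≤ 2 ^ i := by
    calc 2 = 2 ^ 1 := by norm_num
      _ ≤ 2 ^ i := Nat.pow_le_pow_right (by norm_num) (by omega)
  have hr : n % 2 ^ (i + 2) < 2 ^ (i + 2) := Nat.mod_lt _ (by positivity)
  have e1 : n = 2 ^ (i + 2) * (n / 2 ^ (i + 2)) + n % 2 ^ (i + 2) := (Nat.div_add_mod _ _).symm
  set q := n / 2 ^ (i + 2) with hq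
  set r := n % 2 ^ (i + 2) with hrr
  set D := 2 ^ (i + 2) with hDD
  have hD8 : 8 ≤ D := by omega
  have hD4 : D % 4 = 0 := by omega
  have hodd : (D + 1) % 2 = 1 := by omega
  have hval : ∀ l, n + l * (D + 1) = D * (q + l) + (r + l) := by
    intro l
    conv_lhs => rw [e1]
    ring
  have hA : ∀ l < 6, r + l < D → bad (D + 1) (q + l) = false := by
    intro l hl hrl
    have h := good_quot (i + 2) n (D + 1) L hL l (by omega)
    rw [div_eq_of D (q + l) (r + l) _ hrl (hval l)] at h
    exact h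
  have hB : ∀ l < 6, D ≤ r + l → bad (D + 1) (q + l + 1) = false := by
    intro l hl hrl
    have h := good_quot (i + 2) n (D + 1) L hL l (by omega)
    rw [div_eq_of D (q + l + 1) (r + l - D) _ (by omega) (by rw [hval l, Nat.mul_add D (q + l) 1]; omega)] at h
    exact h
  by_cases c1 : r + 3 < D
  · exact four_good (D + 1) q hodd ⟨hA 0 (by norm_num) (by omega), hA 1 (by norm_num) (by omega),
      hA 2 (by norm_num) (by omega), hA 3 (by norm_num) (by omega)⟩
  · by_cases c2 : D ≤ r + 2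
    · have h2 := hB 2 (by norm_num) (by omega)
      have h3 := hB 3 (by norm_num) (by omega)
      have h4 := hB 4 (by norm_num) (by omega)
      have h5 := hB 5 (by norm_num) (by omega)
      exact four_good (D + 1) (q + 3) hodd ⟨h2, h3, h4, h5⟩
    · -- r = D - 3
      have hr3 : r + 3 = D := by omega
      have h0 := hA 0 (by norm_num) (by omega)
      have h1 := hA 1 (by norm_num) (by omega)
      have h2 := hA 2 (by norm_num) (by omega)
      have hmod : q % 4 = 2 := by
        have hlt : q % 4 < 4 := Nat.mod_lt _ (by norm_num)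
        have h0 : bad (D + 1) q = false := h0
        by_contra hne
        have hcases : q % 4 = 0 ∨ q % 4 = 1 ∨ q % 4 = 3 := by omega
        rcases hcases with h | h | h
        · have := pair2 (D + 1) q hodd (by omega)
          rw [h0, h1] at this; simp at this
        · have := pair1 (D + 1) q hodd (by omega)
          rw [h0, h1] at this; simp at this
        · have := pair2 (D + 1) (q + 1) hodd (by omega)
          rw [show q + 1 + 1 = q + 2 by ring, h1, h2] at this; simp at this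
      have hT : ∀ a < 8, xor (T (q + 4 + a)) (T a) = T n := by
        intro a ha
        have h := hL (3 + a) (by omega)
        have e : n + (3 + a) * (D + 1) = D * (q + 4 + a) + a := by
          rw [hval (3 + a)]
          have : D * (q + 4 + a) = D * (q + (3 + a)) + D := by ring
          rw [this]; omega
        rw [e, T_add (i + 2) _ _ (by omega)] at h
        exact h
      have t2 := hT 2 (by norm_num)
      have t4 := hT 4 (by norm_num)
      obtain ⟨b, hb⟩ : ∃ b, q = 4 * b + 2 := ⟨q / 4, by omega⟩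
      have s2 : T (q + 4 + 2) = T (b + 2) := by
        have : q + 4 + 2 = 2 * (2 * (b + 2)) := by omega
        rw [this, T_even, T_even]
      have s4 : T (q + 4 + 4) = !T (b + 2) := by
        have : q + 4 + 4 = 2 * (2 * (b + 2) + 1) := by omega
        rw [this, T_even, T_odd]
      rw [s2, T_eq_Tb 2 (by norm_num)] at t2
      rw [s4, T_eq_Tb 4 (by norm_num)] at t4
      rw [← t4] at t2
      revert t2
      have b2 : Tb 2 = true := by decide
      have b4 : Tb 4 = true := by decide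
      rw [b2, b4]
      cases T (b + 2) <;> simp

end R125T
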