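import Pool.Agent.R125.TmD

/-!
Finite checks and the general argument.
-/

namespace R125T

/-- fast evaluation below 4096 -/
def T3 (x : ℕ) : Bool := xor (Tb (x / 256)) (xor (Tb (x / 16 % 16)) (Tb (x % 16)))

theorem T_eq_T3 (x : ℕ) (hx : x < 4096) : T x = T3 x := by
  have e1 : x = 2 ^ 4 * (x / 16) + x % 16 := by norm_num; omega
  have e2 : x / 16 = 2 ^ 4 * (x / 256) + x / 16 % 16 := by norm_num; omega
  have h1 : T x = xor (T (x / 16)) (T (x % 16)) := by
    conv_lhs => rw [e1]
    exact T_add 4 _ _ (by norm_num; omega)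
  have h2 : T (x / 16) = xor (T (x / 256)) (T (x / 16 % 16)) := by
    conv_lhs => rw [e2]
    exact T_add 4 _ _ (by norm_num; omega)
  rw [h1, h2, T_eq_Tb (x / 256) (by omega), T_eq_Tb (x / 16 % 16) (by omega),
    T_eq_Tb (x % 16) (by omega)]
  unfold T3
  cases Tb (x / 256) <;> cases Tb (x / 16 % 16) <;> cases Tb (x % 16) <;> rfl

def allB (p : ℕ → Bool) : ℕ → Bool
  | 0 => true
  | n + 1 => p n && allB p n

theorem allB_spec (p : ℕ → Bool) : ∀ n, allB p n = true → ∀ i < n, p i = true := by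
  intro n
  induction n with
  | zero => intro _ i hi; omega
  | succ n ih =>
    intro h i hi
    rw [allB, Bool.and_eq_true] at h
    rcases Nat.lt_succ_iff_lt_or_eq.mp hi with h1 | h1
    · exact ih h.2 i h1
    · rw [h1]; exact h.1

def exB (p : ℕ → Bool) : ℕ → Bool
  | 0 => false
  | n + 1 => p n || exB p n

theorem exB_spec (p : ℕ → Bool) : ∀ n, exB p n = true → ∃ i < n, p i = true := by
  intro n
  induction n with
  | zero => intro h; simp [exB] at h
  | succ n ih =>
    intro h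
    rw [exB, Bool.or_eq_true] at h
    rcases h with h | h
    · exact ⟨n, by omega, h⟩
    · obtain ⟨i, hi, h2⟩ := ih h
      exact ⟨i, by omega, h2⟩

/-- value at `x < 2^(s+1)` relative to the block -/
def V (M : ℕ) (e : Bool) (x : ℕ) : Bool := if x < M then T3 x else xor e (T3 (x - M))

/-- brute force check: no progression of `L0` terms -/
def bf (M d L0 : ℕ) : Bool :=
  allB (fun n0 => exB (fun i => xor (V M false (n0 + i * d)) (T3 n0)) L0 &&
    exB (fun i => xor (V M true (n0 + i * d)) (T3 n0)) L0) M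

theorem bf_spec (s d L0 : ℕ) (hs : s ≤ 11) (hL0 : (L0 - 1) * d ≤ 2 ^ s) (h : bf (2 ^ s) d L0 = true)
    (n L : ℕ) (hL : ∀ l < L, T (n + l * d) = T n) : L < L0 := by
  by_contra hc
  push Not at hc
  have hM : 0 < 2 ^ s := by positivity
  have hM2 : 2 ^ s ≤ 2048 := by
    calc 2 ^ s ≤ 2 ^ 11 := Nat.pow_le_pow_right (by norm_num) hs
      _ = 2048 := by norm_num
  have hn0 : n % 2 ^ s < 2 ^ s := Nat.mod_lt _ hM
  have h1 := allB_spec _ _ h (n % 2 ^ s) hn0
  rw [Bool.and_eq_true] at h1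
  have hval : ∀ i < L0, T (n + i * d) = xor (T (n / 2 ^ s))
      (V (2 ^ s) (xor (T (n / 2 ^ s)) (T (n / 2 ^ s + 1))) (n % 2 ^ s + i * d)) := by
    intro i hi
    have hid : i * d ≤ 2 ^ s := le_trans (Nat.mul_le_mul_right d (by omega)) hL0
    have e1 : n = 2 ^ s * (n / 2 ^ s) + n % 2 ^ s := (Nat.div_add_mod _ _).symm
    unfold V
    split_ifs with hlt
    · have : n + i * d = 2 ^ s * (n / 2 ^ s) + (n % 2 ^ s + i * d) := by omega
      rw [this, T_add s _ _ hlt, T_eq_T3 (n % 2 ^ s + i * d) (by omega)]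
    · have : n + i * d = 2 ^ s * (n / 2 ^ s + 1) + (n % 2 ^ s + i * d - 2 ^ s) := by
        rw [Nat.mul_add]; omega
      rw [this, T_add s _ _ (by omega), T_eq_T3 (n % 2 ^ s + i * d - 2 ^ s) (by omega)]
      cases T (n / 2 ^ s) <;> cases T (n / 2 ^ s + 1) <;>
        cases T3 (n % 2 ^ s + i * d - 2 ^ s) <;> rfl
  have hn : T n = xor (T (n / 2 ^ s)) (T3 (n % 2 ^ s)) := by
    have e1 : n = 2 ^ s * (n / 2 ^ s) + n % 2 ^ s := (Nat.div_add_mod _ _).symm
    conv_lhs => rw [e1]
    rw [T_add s _ _ hn0, T_eq_T3 (n % 2 ^ s) (by omega)]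
  have key : exB (fun i => xor (V (2 ^ s) (xor (T (n / 2 ^ s)) (T (n / 2 ^ s + 1)))
      (n % 2 ^ s + i * d)) (T3 (n % 2 ^ s))) L0 = true := by
    cases xor (T (n / 2 ^ s)) (T (n / 2 ^ s + 1))
    · exact h1.1
    · exact h1.2
  obtain ⟨i, hi, h2⟩ := exB_spec _ _ key
  have h3 := hL i (by omega)
  rw [hval i hi, hn] at h3
  revert h2 h3
  cases T (n / 2 ^ s) <;>
    cases V (2 ^ s) (xor false (T (n / 2 ^ s + 1))) (n % 2 ^ s + i * d) <;>
    cases V (2 ^ s) (xor true (T (n / 2 ^ s + 1))) (n % 2 ^ s + i * d) <;>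
    cases T3 (n % 2 ^ s) <;> simp

set_option maxRecDepth 100000 in
theorem bf11 : bf (2 ^ 6) 11 5 = true := by decide +kernel
set_option maxRecDepth 100000 in
theorem bf19 : bf (2 ^ 7) 19 6 = true := by decide +kernel
set_option maxRecDepth 100000 in
theorem bf21 : bf (2 ^ 8) 21 9 = true := by decide +kernel
set_option maxRecDepth 100000 in
theorem bf23 : bf (2 ^ 8) 23 7 = true := by decide +kernel
set_option maxRecDepth 100000 in
theorem bf27 : bf (2 ^ 9) 27 12 = true := by decide +kernel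
set_option maxRecDepth 100000 in
theorem bf43 : bf (2 ^ 9) 43 9 = true := by decide +kernel
set_option maxRecDepth 100000 in
theorem bf45 : bf (2 ^ 9) 45 11 = true := by decide +kernel
set_option maxRecDepth 100000 in
theorem bf53 : bf (2 ^ 9) 53 8 = true := by decide +kernel
set_option maxRecDepth 100000 in
theorem bf59 : bf (2 ^ 10) 59 10 = true := by decide +kernel
set_option maxRecDepth 100000 in
theorem bf89 : bf (2 ^ 11) 89 17 = true := by decide +kernel
set_option maxRecDepth 100000 in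
theorem bf1 : bf (2 ^ 4) 1 3 = true := by decide +kernel

/-- numerical check for `D = 32, 64, 128` -/
def okA (D m : ℕ) : Bool :=
  allB (fun w => !(decide (D * w ≤ (m + 4) * (D + m) + (D - 1)) &&
    decide (f (w + 1) + (m + 5) ≤ w + 1))) 300
def okB (D u : ℕ) : Bool := !(decide (2 * D * f u ≤ (u - 4) * u + (2 * D - 1)))

def okAll (D : ℕ) (l : List ℕ) : Bool :=
  allB (fun m => decide (m % 2 = 0) || decide (m < 3) || decide (D < m + 9) ||
    decide (m ∈ l) || okA D m || okB D (D - m)) D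

theorem ok32 : okAll 32 [11, 13, 21] = true := by decide +kernel
theorem ok64 : okAll 64 [25] = true := by decide +kernel
theorem ok128 : okAll 128 [] = true := by decide +kernel

theorem from_ok (j m n L : ℕ) (hj : 1 ≤ j) (hj7 : j ≤ 7) (hm : m % 2 = 1) (hmD : m + 9 ≤ 2 ^ j)
    (hok : okA (2 ^ j) m = true ∨ okB (2 ^ j) (2 ^ j - m) = true)
    (hL : ∀ l < L, T (n + l * (2 ^ j + m)) = T n) : L ≤ 2 ^ j + m + 4 := by
  by_contra hc
  push Not at hc
  have hD : 2 ^ j ≤ 128 := by
    calc 2 ^ j ≤ 2 ^ 7 := Nat.pow_le_pow_right (by norm_num) hj7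
      _ = 128 := by norm_num
  have h2j : 2 ^ j % 2 = 0 := by
    obtain ⟨i, rfl⟩ := Nat.exists_eq_add_of_le hj
    rw [pow_add]; simp
  rcases hok with h | h
  · obtain ⟨w, hw1, hw2⟩ := rangeA j m n L hm hj hL (by omega)
    have hw : w < 300 := by
      by_contra hge
      push Not at hge
      have h1 : 2 ^ j * 300 ≤ 2 ^ j * w := Nat.mul_le_mul_left _ hge
      have h2 : (m + 4) * (2 ^ j + m) ≤ 123 * (2 ^ j + 2 ^ j) :=
        Nat.mul_le_mul (by omega) (by omega)
      omega
    have := allB_spec _ _ h w hw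
    simp only [Bool.not_eq_true', Bool.and_eq_false_iff, decide_eq_false_iff_not] at this
    rcases this with h3 | h3
    · exact h3 hw1
    · exact h3 hw2
  · have e2 : 2 ^ (j + 1) = 2 * 2 ^ j := by rw [pow_succ]; ring
    obtain ⟨H, hH1, hH2⟩ := rangeB (j + 1) n (2 ^ j + m) (2 ^ j - m) L (by omega)
      (by rw [e2]; omega) hL (by omega)
    have h3 := dens_f (2 ^ j + m) 0 (2 ^ j - m) (by omega)
    rw [e2] at hH1
    unfold okB at h
    simp only [Bool.not_eq_true', decide_eq_false_iff_not] at h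
    apply h
    refine le_trans (Nat.mul_le_mul_left _ (le_trans h3 hH2)) hH1

theorem general (j m n L : ℕ) (hj : 8 ≤ j) (hm : m % 2 = 1) (hm3 : 3 ≤ m) (hmD : m + 9 ≤ 2 ^ j)
    (hL : ∀ l < L, T (n + l * (2 ^ j + m)) = T n) : L ≤ 2 ^ j + m + 4 := by
  by_contra hc
  push Not at hc
  have hD : 256 ≤ 2 ^ j := by
    calc 256 = 2 ^ 8 := by norm_num
      _ ≤ 2 ^ j := Nat.pow_le_pow_right (by norm_num) hj
  have h2j : 2 ^ j % 2 = 0 := by
    obtain ⟨i, rfl⟩ := Nat.exists_eq_add_of_le hj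
    rw [pow_add]; omega
  by_cases hcase : 12 * m ≤ 5 * 2 ^ j
  · obtain ⟨w, hw1, hw2⟩ := rangeA j m n L hm (by omega) hL (by omega)
    have h3 := f_lin (w + 1)
    have h4 : 16 * m + 57 ≤ 11 * (w + 1) := by omega
    generalize 2 ^ j = D at *
    -- D * (16 m + 46) ≤ 11 * D * w
    have h5 : D * (16 * m + 46) ≤ D * (11 * w) := Nat.mul_le_mul_left _ (by omega)
    have h6 : D * (11 * w) = 11 * (D * w) := by ring
    have h7 : 11 * (D * w) ≤ 11 * ((m + 4) * (D + m) + (D - 1)) := Nat.mul_le_mul_left _ hw1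
    have h8 : D * (16 * m + 46) + 11 ≤ 11 * ((m + 4) * (D + m)) + 11 * D := by omega
    -- contradiction
    by_cases hm66 : m < 66
    · have h9 : 256 * m ≤ D * m := Nat.mul_le_mul_right _ hD
      have h10 : (m + 4) * (D + m) = D * m + m * m + 4 * D + 4 * m := by ring
      have h11 : D * (16 * m + 46) = 16 * (D * m) + 46 * D := by ring
      rw [h10, h11] at h8
      have h12 : 5 * (D * m) + 11 ≤ 11 * (m * m) + 44 * m + 9 * D := by omega
      obtain ⟨c, hc⟩ := Nat.exists_eq_add_of_le hD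
      subst hc
      have h13 : m * m ≤ 66 * m := Nat.mul_le_mul_right _ (by omega)
      have h14 : 3 * c ≤ c * m := by rw [Nat.mul_comm]; exact Nat.mul_le_mul_left _ hm3
      have h15 : (256 + c) * m = 256 * m + c * m := by ring
      rw [h15] at h12
      by_cases hm4 : m = 3
      · subst hm4; omega
      · omega
    · push Not at hm66
      have h10 : (m + 4) * (D + m) = D * m + m * m + 4 * D + 4 * m := by ring
      have h11 : D * (16 * m + 46) = 16 * (D * m) + 46 * D := by ring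
      rw [h10, h11] at h8
      have h12 : 5 * (D * m) + 11 ≤ 11 * (m * m) + 44 * m + 9 * D := by omega
      have h13 : 12 * m * (m - 2) ≤ 5 * D * (m - 2) := Nat.mul_le_mul_right _ hcase
      obtain ⟨b, hb⟩ := Nat.exists_eq_add_of_le hm66
      subst hb
      have h14 : 66 + b - 2 = 64 + b := by omega
      rw [h14] at h13
      nlinarith
  · push Not at hcase
    have e2 : 2 ^ (j + 1) = 2 * 2 ^ j := by rw [pow_succ]; ring
    obtain ⟨u, hu⟩ : ∃ u, 2 ^ j = m + u := ⟨2 ^ j - m, by omega⟩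
    obtain ⟨H, hH1, hH2⟩ := rangeB (j + 1) n (2 ^ j + m) u L (by omega)
      (by rw [e2]; omega) hL (by omega)
    have h3 := dens_f (2 ^ j + m) 0 u (by omega)
    have h4 := f_lin u
    rw [e2] at hH1
    have hu9 : 9 ≤ u := by omega
    generalize 2 ^ j = D at *
    have h5 : 5 * u ≤ 16 * H + 23 := by omega
    have h5' : D * (5 * u) ≤ D * (16 * H + 23) := Nat.mul_le_mul_left _ h5
    have h6 : D * (16 * H + 23) = 8 * (2 * D * H) + 23 * D := by ring
    have h7 : 5 * (D * u) ≤ 8 * ((u - 4) * u + (2 * D - 1)) + 23 * D := by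
      have : D * (5 * u) = 5 * (D * u) := by ring
      omega
    obtain ⟨v, hv⟩ := Nat.exists_eq_add_of_le hu9
    subst hv
    have h8 : 9 + v - 4 = 5 + v := by omega
    rw [h8] at h7
    -- 5 u ≤ 3 D
    have h9 : 12 * (9 + v) < 7 * D := by omega
    have h10 : 5 * (D * (9 + v)) + 8 ≤ 8 * ((5 + v) * (9 + v)) + 39 * D := by omega
    have h11 : 5 * (D * (9 + v)) = 45 * D + 5 * (D * v) := by ring
    have h12 : 8 * ((5 + v) * (9 + v)) = 360 + 112 * v + 8 * (v * v) := by ring
    rw [h11, h12] at h10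
    have h13 : 6 * D + 5 * (D * v) ≤ 352 + 112 * v + 8 * (v * v) := by omega
    nlinarith

end R125T
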