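import Mathlib

/-!
# Zeckendorf parity: basic lemmas (shift map, synchronisation)
-/

namespace R125Z

open Nat List

lemma isRep_iff (l : List ℕ) : l.IsZeckendorfRep ↔ (l ++ [0]).Pairwise (fun a b => b + 2 ≤ a) := by
  have : IsTrans ℕ fun a b ↦ b + 2 ≤ a := ⟨fun a b c h1 h2 => by omega⟩
  unfold List.IsZeckendorfRep
  exact List.isChain_iff_pairwise

lemma isRep_iff' (l : List ℕ) : l.IsZeckendorfRep ↔
    l.Pairwise (fun a b => b + 2 ≤ a) ∧ ∀ a ∈ l, 2 ≤ a := by
  rw [isRep_iff, List.pairwise_append]
  simp

lemma rep_cons {a : ℕ} {l : List ℕ} (hl : l.IsZeckendorfRep) (ha : 2 ≤ a)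
    (h : ∀ b ∈ l, b + 2 ≤ a) : (a :: l).IsZeckendorfRep := by
  rw [isRep_iff'] at *
  refine ⟨List.pairwise_cons.2 ⟨h, hl.1⟩, ?_⟩
  intro x hx
  rcases List.mem_cons.1 hx with rfl | hx
  · exact ha
  · exact hl.2 x hx

lemma mem_zeck_lt {n k i : ℕ} (hn : n < fib k) (hi : i ∈ n.zeckendorf) : i < k := by
  have h1 : fib i ≤ n := by
    conv_rhs => rw [← Nat.sum_zeckendorf_fib n]
    exact List.single_le_sum (by simp) _ (List.mem_map_of_mem hi)
  by_contra hk
  push Not at hk
  have := Nat.fib_mono hk
  omega

lemma two_le_of_mem {n i : ℕ} (hi : i ∈ n.zeckendorf) : 2 ≤ i :=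
  ((isRep_iff' _).1 (Nat.isZeckendorfRep_zeckendorf n)).2 i hi

/-- the Zeckendorf expansion of `F_k + m` for `m < F_{k-1}` -/
lemma zeck_add {k m : ℕ} (hk : 2 ≤ k) (hm : m < fib (k - 1)) :
    (fib k + m).zeckendorf = k :: m.zeckendorf := by
  have hrep : (k :: m.zeckendorf).IsZeckendorfRep := by
    apply rep_cons (Nat.isZeckendorfRep_zeckendorf m) hk
    intro b hb
    have := mem_zeck_lt hm hb
    omega
  have := Nat.zeckendorf_sum_fib hrep
  simpa using this

/-- parity of the Zeckendorf sum of digits -/
def par (n : ℕ) : Bool := decide (n.zeckendorf.length % 2 = 1)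

/-- type of a position -/
def ty (n : ℕ) : Bool := decide (2 ∈ n.zeckendorf)

lemma par_add {k m : ℕ} (hk : 2 ≤ k) (hm : m < fib (k - 1)) : par (fib k + m) = !par m := by
  unfold par
  rw [zeck_add hk hm, List.length_cons]
  rcases Nat.mod_two_eq_zero_or_one m.zeckendorf.length with h | h
  · have : (m.zeckendorf.length + 1) % 2 = 1 := by omega
    simp [h, this]
  · have : (m.zeckendorf.length + 1) % 2 = 0 := by omega
    simp [h, this]

lemma ty_add {k m : ℕ} (hk : 3 ≤ k) (hm : m < fib (k - 1)) : ty (fib k + m) = ty m := by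
  unfold ty
  rw [zeck_add (by omega) hm]
  have : ¬ (2 = k) := by omega
  simp [this]

/-- computable version -/
def cp : ℕ → ℕ → Bool
  | 0, _ => false
  | (k + 1), n => if fib (k + 2) ≤ n then !(cp k (n - fib (k + 2))) else cp k n

def ct : ℕ → ℕ → Bool
  | 0, _ => false
  | 1, n => decide (n = 1)
  | (k + 2), n => if fib (k + 3) ≤ n then ct (k + 1) (n - fib (k + 3)) else ct (k + 1) n

lemma cp_eq : ∀ (k n : ℕ), n < fib (k + 2) → par n = cp k n
  | 0, n, h => by
    have : n = 0 := by simpa using h
    subst this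
    simp [par, cp]
  | (k + 1), n, h => by
    unfold cp
    have hf : fib (k + 3) = fib (k + 1) + fib (k + 2) := Nat.fib_add_two
    split_ifs with h1
    · obtain ⟨m, rfl⟩ := Nat.exists_eq_add_of_le h1
      have hm : m < fib (k + 1) := by
        have : k + 1 + 2 = k + 3 := by ring
        rw [this] at h
        omega
      rw [par_add (by omega) (by simpa using hm), Nat.add_sub_cancel_left]
      rw [cp_eq k m (lt_of_lt_of_le hm (Nat.fib_mono (by omega)))]
    · exact cp_eq k n (by omega)

lemma ct_eq : ∀ (k n : ℕ), n < fib (k + 2) → ty n = ct k n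
  | 0, n, h => by
    have : n = 0 := by simpa using h
    subst this
    simp [ty, ct]
  | 1, n, h => by
    have : n < 2 := by simpa [Nat.fib_add_two] using h
    interval_cases n
    · simp [ty, ct]
    · have h1 : (1 : ℕ).zeckendorf = [2] := by
        have := Nat.zeckendorf_sum_fib (l := [2]) (by rw [isRep_iff']; simp)
        simpa using this
      unfold ty ct
      rw [h1]
      simp
  | (k + 2), n, h => by
    unfold ct
    have hf : fib (k + 4) = fib (k + 2) + fib (k + 3) := Nat.fib_add_two
    split_ifs with h1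
    · obtain ⟨m, rfl⟩ := Nat.exists_eq_add_of_le h1
      have hm : m < fib (k + 2) := by
        have : k + 2 + 2 = k + 4 := by ring
        rw [this] at h
        omega
      rw [ty_add (by omega) (by simpa using hm), Nat.add_sub_cancel_left]
      rw [ct_eq (k + 1) m (lt_of_lt_of_le hm (Nat.fib_mono (by omega)))]
    · exact ct_eq (k + 1) n (by
        have : k + 1 + 2 = k + 3 := by ring
        rw [this]; omega)

/-- Every window of length 4 already occurs (up to complement) at a position `< 21`. -/
lemma window (n : ℕ) : ∃ m < 21, ∃ e : Bool, ∀ i < 4,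
    par (n + i) = xor e (par (m + i)) ∧ ty (n + i) = ty (m + i) := by
  induction n using Nat.strong_induction_on with
  | _ n ih =>
    by_cases hn : n < 21
    · exact ⟨n, hn, false, fun i _ => by simp⟩
    push Not at hn
    obtain ⟨k, hk⟩ : ∃ k, k = greatestFib n := ⟨_, rfl⟩
    have hk1 : fib k ≤ n := by rw [hk]; exact Nat.fib_greatestFib_le n
    have hk2 : n < fib (k + 1) := by rw [hk]; exact Nat.lt_fib_greatestFib_add_one n
    have hk8 : 8 ≤ k := by
      rw [hk]
      exact Nat.le_greatestFib.2 (by simpa [Nat.fib_add_two] using hn)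
    obtain ⟨r, rfl⟩ : ∃ r, k = r + 8 := ⟨k - 8, by omega⟩
    have f1 : fib (r + 9) = fib (r + 7) + fib (r + 8) := Nat.fib_add_two
    have f2 : fib (r + 8) = fib (r + 6) + fib (r + 7) := Nat.fib_add_two
    have f3 : fib (r + 7) = fib (r + 5) + fib (r + 6) := Nat.fib_add_two
    have f4 : fib (r + 6) = fib (r + 4) + fib (r + 5) := Nat.fib_add_two
    have f5 : 3 ≤ fib (r + 4) := by
      have : fib 4 ≤ fib (r + 4) := Nat.fib_mono (by omega)
      simpa [Nat.fib_add_two] using this
    have f6 : 5 ≤ fib (r + 5) := by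
      have : fib 5 ≤ fib (r + 5) := Nat.fib_mono (by omega)
      simpa [Nat.fib_add_two] using this
    by_cases hc : n + 3 < fib (r + 9)
    · -- no crossing
      obtain ⟨m, hm⟩ := Nat.exists_eq_add_of_le hk1
      obtain ⟨m', hm', e, he⟩ := ih m (by
        have : 0 < fib (r + 8) := Nat.fib_pos.2 (by omega)
        omega)
      refine ⟨m', hm', !e, fun i hi => ?_⟩
      have hlt : m + i < fib (r + 7) := by omega
      have hni : n + i = fib (r + 8) + (m + i) := by omega
      constructor
      · rw [hni, par_add (by omega) (by simpa using hlt), (he i hi).1]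
        cases e <;> simp
      · rw [hni, ty_add (by omega) (by simpa using hlt), (he i hi).2]
    · -- crossing
      have hk2' : n < fib (r + 9) := hk2
      obtain ⟨j, hj⟩ : ∃ j, n + j = fib (r + 9) := ⟨fib (r + 9) - n, by omega⟩
      have hj3 : j ≤ 3 := by omega
      have hj1 : 1 ≤ j := by omega
      obtain ⟨m, hm⟩ : ∃ m, m + j = fib (r + 5) := ⟨fib (r + 5) - j, by omega⟩
      obtain ⟨m', hm', e, he⟩ := ih m (by omega)
      refine ⟨m', hm', e, fun i hi => ?_⟩
      rw [← (he i hi).1, ← (he i hi).2]
      by_cases hij : i < j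
      · -- below the boundary
        have h1 : n + i = fib (r + 8) + (fib (r + 6) + (m + i)) := by omega
        have h3 : m + i < fib (r + 5) := by omega
        have h2 : fib (r + 6) + (m + i) < fib (r + 7) := by omega
        constructor
        · rw [h1, par_add (by omega) (by simpa using h2), par_add (by omega) (by simpa using h3)]
          simp
        · rw [h1, ty_add (by omega) (by simpa using h2), ty_add (by omega) (by simpa using h3)]
      · -- above
        obtain ⟨d, hd⟩ : ∃ d, i = j + d := ⟨i - j, by omega⟩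
        have hd2 : d ≤ 2 := by omega
        have h1 : n + i = fib (r + 9) + d := by omega
        have h2 : m + i = fib (r + 5) + d := by omega
        have h3 : d < fib (r + 8) := by omega
        have h4 : d < fib (r + 4) := by omega
        constructor
        · rw [h1, h2, par_add (by omega) (by simpa using h3), par_add (by omega) (by simpa using h4)]
        · rw [h1, h2, ty_add (by omega) (by simpa using h3), ty_add (by omega) (by simpa using h4)]

lemma sync {u v : ℕ} (h : ∀ i < 4, par (u + i) = par (v + i)) : ty (u + 1) = ty (v + 1) := by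
  obtain ⟨m, hm, e, he⟩ := window u
  obtain ⟨m', hm', e', he'⟩ := window v
  rw [(he 1 (by norm_num)).2, (he' 1 (by norm_num)).2]
  have f9 : fib 9 = 34 := by simp [Nat.fib_add_two]
  have key : ct 7 (m + 1) = ct 7 (m' + 1) := by
    have : ∀ m < 21, ∀ m' < 21, ∀ e : Bool,
      (∀ i < 4, cp 7 (m + i) = xor e (cp 7 (m' + i))) → ct 7 (m + 1) = ct 7 (m' + 1) := by
      decide +kernel
    refine this m hm m' hm' (xor e e') ?_
    intro i hi
    have h1 := (he i hi).1
    have h2 := (he' i hi).1
    have h3 := h i hi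
    rw [← cp_eq 7 (m + i) (by rw [f9]; omega), ← cp_eq 7 (m' + i) (by rw [f9]; omega)]
    rw [h1, h2] at h3
    revert h3
    cases e <;> cases e' <;> cases par (m + i) <;> cases par (m' + i) <;> simp
  rw [ct_eq 7 (m + 1) (by rw [f9]; omega), ct_eq 7 (m' + 1) (by rw [f9]; omega)]
  exact key

/-- the shift map on Zeckendorf expansions -/
def sh (n : ℕ) : ℕ := (n.zeckendorf.map (fun i => fib (i + 1))).sum

lemma zeck_sh (n : ℕ) : (sh n).zeckendorf = n.zeckendorf.map (· + 1) := by
  have hrep : (n.zeckendorf.map (· + 1)).IsZeckendorfRep := by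
    have h := (isRep_iff' _).1 (Nat.isZeckendorfRep_zeckendorf n)
    rw [isRep_iff']
    constructor
    · rw [List.pairwise_map]
      exact h.1.imp (fun {a b} hab => by omega)
    · intro a ha
      obtain ⟨b, hb, rfl⟩ := List.mem_map.1 ha
      have := h.2 b hb
      omega
  have := Nat.zeckendorf_sum_fib hrep
  rw [List.map_map] at this
  exact this

lemma par_sh (n : ℕ) : par (sh n) = par n := by
  unfold par
  rw [zeck_sh, List.length_map]

lemma ty_sh (n : ℕ) : ty (sh n) = false := by
  unfold ty
  rw [zeck_sh]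
  simp only [List.mem_map, decide_eq_false_iff_not, not_exists, not_and]
  intro x hx
  have := two_le_of_mem hx
  omega

lemma exists_sh {n : ℕ} (h : ty n = false) : ∃ m, sh m = n := by
  have h2 : 2 ∉ n.zeckendorf := by simpa [ty] using h
  have h3 : ∀ i ∈ n.zeckendorf, 3 ≤ i := by
    intro i hi
    have := two_le_of_mem hi
    have : i ≠ 2 := fun h => h2 (h ▸ hi)
    omega
  have hr := (isRep_iff' _).1 (Nat.isZeckendorfRep_zeckendorf n)
  have hrep : (n.zeckendorf.map (· - 1)).IsZeckendorfRep := by
    rw [isRep_iff']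
    constructor
    · rw [List.pairwise_map]
      refine hr.1.imp_of_mem ?_
      intro a b ha hb hab
      have := h3 a ha
      have := h3 b hb
      omega
    · intro a ha
      obtain ⟨b, hb, rfl⟩ := List.mem_map.1 ha
      have := h3 b hb
      omega
  refine ⟨((n.zeckendorf.map (· - 1)).map fib).sum, ?_⟩
  unfold sh
  rw [Nat.zeckendorf_sum_fib hrep, List.map_map]
  conv_rhs => rw [← Nat.sum_zeckendorf_fib n]
  congr 1
  apply List.map_congr_left
  intro i hi
  have := h3 i hi
  simp only [Function.comp_apply]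
  congr 1
  omega



lemma psi_list : ∀ (l : List ℕ), l.IsZeckendorfRep →
    (l.map (fun i => |Real.goldenConj| ^ i)).sum ≤ |Real.goldenConj| - |Real.goldenConj| ^ (l.headD 0 + 1)
  | [], _ => by simp
  | (a :: l), h => by
    have hr := (isRep_iff' _).1 h
    have hp : 0 < |Real.goldenConj| := abs_pos.2 Real.goldenConj_ne_zero
    have hpe : |Real.goldenConj| = - Real.goldenConj := abs_of_neg Real.goldenConj_neg
    have hsq : |Real.goldenConj| ^ 2 = 1 - |Real.goldenConj| := by
      rw [hpe]
      have := Real.goldenConj_sq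
      nlinarith
    have hlt : |Real.goldenConj| < 1 := by
      rw [hpe]
      have := Real.neg_one_lt_goldenConj
      linarith
    have hl : l.IsZeckendorfRep := by
      rw [isRep_iff']
      exact ⟨(List.pairwise_cons.1 hr.1).2, fun x hx => hr.2 x (by simp [hx])⟩
    have ih := psi_list l hl
    have ha : 2 ≤ a := hr.2 a (by simp)
    have hhead : l.headD 0 + 2 ≤ a := by
      cases l with
      | nil => simpa using ha
      | cons b l' =>
        simpa using (List.pairwise_cons.1 hr.1).1 b (by simp)
    obtain ⟨c, rfl⟩ : ∃ c, a = c + 1 := ⟨a - 1, by omega⟩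
    have h1 : |Real.goldenConj| ^ c ≤ |Real.goldenConj| ^ (l.headD 0 + 1) :=
      pow_le_pow_of_le_one hp.le hlt.le (by omega)
    simp only [List.map_cons, List.sum_cons, List.headD_cons]
    have h2 : |Real.goldenConj| ^ (c + 1 + 1) = |Real.goldenConj| ^ c * (1 - |Real.goldenConj|) := by rw [← hsq]; ring
    have h3 : |Real.goldenConj| ^ (c + 1) = |Real.goldenConj| ^ c * |Real.goldenConj| := by ring
    rw [h2, h3]
    linarith

lemma sh_sub (n : ℕ) : (sh n : ℝ) - Real.goldenRatio * n = (n.zeckendorf.map (fun i => Real.goldenConj ^ i)).sum := by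
  have h : ∀ l : List ℕ, (((l.map (fun i => fib (i + 1))).sum : ℕ) : ℝ)
      - Real.goldenRatio * (((l.map fib).sum : ℕ) : ℝ) = (l.map (fun i => Real.goldenConj ^ i)).sum := by
    intro l
    induction l with
    | nil => simp
    | cons a l ih =>
      simp only [List.map_cons, List.sum_cons, Nat.cast_add]
      rw [← ih, ← Real.fib_succ_sub_goldenRatio_mul_fib a]
      ring
  have := h n.zeckendorf
  rw [Nat.sum_zeckendorf_fib] at this
  exact this

lemma abs_sh (n : ℕ) : |(sh n : ℝ) - Real.goldenRatio * n| < |Real.goldenConj| := by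
  rw [sh_sub]
  have h1 : |(n.zeckendorf.map (fun i => Real.goldenConj ^ i)).sum| ≤
      (n.zeckendorf.map (fun i => |Real.goldenConj| ^ i)).sum := by
    generalize n.zeckendorf = l
    induction l with
    | nil => simp
    | cons a l ih =>
      simp only [List.map_cons, List.sum_cons]
      refine (abs_add_le _ _).trans ?_
      rw [abs_pow]
      linarith
  have h2 := psi_list _ (Nat.isZeckendorfRep_zeckendorf n)
  have hp : 0 < |Real.goldenConj| := abs_pos.2 Real.goldenConj_ne_zero
  have h3 : 0 < |Real.goldenConj| ^ (n.zeckendorf.headD 0 + 1) := pow_pos hp _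
  linarith

lemma phi_bounds : (1.618 : ℝ) < Real.goldenRatio ∧ Real.goldenRatio < 1.6181 := by
  have h5 : (2.236 : ℝ) < √5 := by
    rw [show (2.236 : ℝ) = √(2.236 ^ 2) by rw [Real.sqrt_sq (by norm_num)]]
    exact Real.sqrt_lt_sqrt (by norm_num) (by norm_num)
  have h6 : √5 < (2.2361 : ℝ) := by
    rw [show (2.2361 : ℝ) = √(2.2361 ^ 2) by rw [Real.sqrt_sq (by norm_num)]]
    exact Real.sqrt_lt_sqrt (by norm_num) (by norm_num)
  unfold Real.goldenRatio
  constructor <;> linarith

lemma abs_psi : |Real.goldenConj| = Real.goldenRatio - 1 := by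
  rw [abs_of_neg Real.goldenConj_neg]
  have := Real.goldenRatio_add_goldenConj
  linarith

lemma sh_diff (n d : ℕ) : |((sh (n + d) : ℝ) - sh n) - Real.goldenRatio * d| < 1.2362 := by
  have h1 := abs_lt.1 (abs_sh n)
  have h2 := abs_lt.1 (abs_sh (n + d))
  rw [abs_psi] at h1 h2
  have := phi_bounds
  push_cast at h2
  rw [abs_lt]
  constructor <;> nlinarith

lemma sh_succ (n : ℕ) : sh (n + 1) = sh n + 1 ∨ sh (n + 1) = sh n + 2 := by
  have h := abs_lt.1 (sh_diff n 1)
  have hp := phi_bounds
  have h1 : (sh (n + 1) : ℝ) - sh n < 3 := by push_cast at h; linarith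
  have h2 : (0 : ℝ) < (sh (n + 1) : ℝ) - sh n := by push_cast at h; linarith
  have h1' : sh (n + 1) < sh n + 3 := by
    have : (sh (n + 1) : ℝ) < ((sh n + 3 : ℕ) : ℝ) := by push_cast; linarith
    exact_mod_cast this
  have h2' : sh n < sh (n + 1) := by
    have : (sh n : ℝ) < ((sh (n + 1) : ℕ) : ℝ) := by linarith
    exact_mod_cast this
  omega

lemma sh_strictMono : StrictMono sh :=
  strictMono_nat_of_lt_succ (fun n => by rcases sh_succ n with h | h <;> omega)

lemma sh_zero : sh 0 = 0 := by simp [sh]

/-- if the position after `sh m` has type 0 then it is `sh (m+1)` -/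
lemma sh_next_zero {m : ℕ} (h : ty (sh m + 1) = false) : sh (m + 1) = sh m + 1 := by
  obtain ⟨m', hm'⟩ := exists_sh h
  have h1 : m < m' := by
    by_contra hc
    push Not at hc
    have := sh_strictMono.monotone hc
    omega
  have h2 : sh (m + 1) ≤ sh m' := sh_strictMono.monotone h1
  rcases sh_succ m with h | h <;> omega

lemma sh_next_one {m : ℕ} (h : ty (sh m + 1) = true) : sh (m + 1) = sh m + 2 := by
  rcases sh_succ m with h1 | h1
  · have := ty_sh (m + 1)
    rw [h1, h] at this
    exact absurd this (by simp)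
  · exact h1

/-- two consecutive positions: at least one of type 0 -/
lemma ty_next {p : ℕ} (h : ty p = true) : ty (p + 1) = false := by
  obtain ⟨m, hm, hmin⟩ : ∃ m, p ≤ sh m ∧ ∀ m' < m, ¬ (p ≤ sh m') := by
    have hex : ∃ m, p ≤ sh m := ⟨p, sh_strictMono.id_le p⟩
    exact ⟨Nat.find hex, Nat.find_spec hex, fun m' hm' => Nat.find_min hex hm'⟩
  have hne : p ≠ sh m := by
    intro he
    rw [he, ty_sh] at h
    exact absurd h (by simp)
  cases m with
  | zero => rw [sh_zero] at hm hne; omega
  | succ m =>
    have h1 := hmin m (by omega)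
    have : sh (m + 1) = p + 1 := by
      rcases sh_succ m with h | h <;> omega
    rw [← this]
    exact ty_sh _

/-- **Desubstitution.** -/
lemma desub {u v t : ℕ} (huv : u < v) (ht : 4 ≤ t) (h : ∀ i < t, par (u + i) = par (v + i)) :
    ∃ u' v' t' : ℕ, u' < v' ∧ (v' : ℝ) ≤ (v + 2.6181) / Real.goldenRatio ∧ ((t : ℝ) - 5.6181) / Real.goldenRatio ≤ t' ∧
      ∀ i < t', par (u' + i) = par (v' + i) := by
  have hsync : ∀ j, 1 ≤ j → j + 3 ≤ t → ty (u + j) = ty (v + j) := by
    intro j hj1 hj3
    obtain ⟨j', rfl⟩ : ∃ j', j = j' + 1 := ⟨j - 1, by omega⟩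
    have := sync (u := u + j') (v := v + j') (fun i hi => by
      have := h (j' + i) (by omega)
      rw [← add_assoc, ← add_assoc] at this
      exact this)
    rw [add_assoc, add_assoc] at this
    exact this
  obtain ⟨e, he1, he2, hue, hve⟩ : ∃ e, 1 ≤ e ∧ e ≤ 2 ∧ ty (u + e) = false ∧ ty (v + e) = false := by
    have h1 := hsync 1 le_rfl (by omega)
    cases hu : ty (u + 1) with
    | false => exact ⟨1, le_rfl, by norm_num, hu, by rw [← h1, hu]⟩
    | true => exact ⟨2, by norm_num, le_rfl, ty_next hu, ty_next (by rw [← h1, hu])⟩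
  obtain ⟨u', hu'⟩ := exists_sh hue
  obtain ⟨v', hv'⟩ := exists_sh hve
  have hstep : ∀ i, (∀ j, j + 1 ≤ i → sh (u' + j) + 4 ≤ u + t) →
      sh (u' + i) + v = sh (v' + i) + u := by
    intro i
    induction i with
    | zero => intro _; simp only [add_zero]; omega
    | succ i ih =>
      intro hj
      have h1 := ih (fun j hj' => hj j (by omega))
      have h2 := hj i le_rfl
      have h3 : u ≤ sh (u' + i) := by
        have := sh_strictMono.monotone (show u' ≤ u' + i by omega)
        omega
      obtain ⟨r, hr⟩ := Nat.exists_eq_add_of_le h3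
      have hr' : sh (v' + i) = v + r := by omega
      have hs := hsync (r + 1) (by omega) (by omega)
      rw [← add_assoc, ← add_assoc] at *
      cases hty : ty (sh (u' + i) + 1) with
      | false =>
        have e1 := sh_next_zero hty
        have e2 : ty (sh (v' + i) + 1) = false := by
          rw [hr', ← hs, ← hr, hty]
        have e3 := sh_next_zero e2
        omega
      | true =>
        have e1 := sh_next_one hty
        have e2 : ty (sh (v' + i) + 1) = true := by
          rw [hr', ← hs, ← hr, hty]
        have e3 := sh_next_one e2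
        omega
  obtain ⟨hp1, hp2⟩ := phi_bounds
  have hp0 : (0 : ℝ) < Real.goldenRatio := by linarith
  -- choose t'
  refine ⟨u', v', ⌈((t : ℝ) - 5.6181) / Real.goldenRatio⌉₊, ?_, ?_, Nat.le_ceil _, ?_⟩
  · apply sh_strictMono.lt_iff_lt.1; omega
  · rw [le_div_iff₀ hp0]
    have h1 := abs_lt.1 (abs_sh v')
    rw [abs_psi] at h1
    have h2 : (sh v' : ℝ) ≤ v + 2 := by
      have : sh v' ≤ v + 2 := by omega
      exact_mod_cast this
    nlinarith
  · intro i hi
    have hi' : (i : ℝ) < ((t : ℝ) - 5.6181) / Real.goldenRatio := Nat.lt_ceil.1 hi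
    rw [lt_div_iff₀ hp0] at hi'
    -- r_j ≤ 2 + Real.goldenRatio j + 1.2362
    have hrj : ∀ j, (sh (u' + j) : ℝ) < u + 2 + Real.goldenRatio * j + 1.2362 := by
      intro j
      have h1 := abs_lt.1 (sh_diff u' j)
      have h2 : (sh u' : ℝ) ≤ u + 2 := by
        have : sh u' ≤ u + 2 := by omega
        exact_mod_cast this
      linarith
    have hcond : ∀ j, j + 1 ≤ i → sh (u' + j) + 4 ≤ u + t := by
      intro j hj
      have h1 := hrj j
      have h2 : (j : ℝ) + 1 ≤ i := by exact_mod_cast hj
      have h3 : (sh (u' + j) : ℝ) + 3 < u + t := by nlinarith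
      have h4 : sh (u' + j) + 3 < u + t := by exact_mod_cast h3
      omega
    have hk := hstep i hcond
    have hge : u ≤ sh (u' + i) := by
      have := sh_strictMono.monotone (show u' ≤ u' + i by omega)
      omega
    obtain ⟨r, hr⟩ := Nat.exists_eq_add_of_le hge
    have hr' : sh (v' + i) = v + r := by omega
    have hrt : r < t := by
      have h1 := hrj i
      have h3 : (sh (u' + i) : ℝ) < u + t := by nlinarith
      have h4 : sh (u' + i) < u + t := by exact_mod_cast h3
      omega
    rw [← par_sh (u' + i), ← par_sh (v' + i), hr, hr']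
    exact h r hrt

end R125Z
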